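import Pool.Agent.Lib_helper92.O3.Defs

set_option autoImplicit false
set_option linter.unusedSectionVars false
set_option linter.unusedVariables false

open scoped Classical
open Finset
open Pool.Agent.O2 (PC Cb CrOn pr ms dg nd Joined)

namespace Pool.Agent.O3

variable {V : Type}

/-- a colourable clique is small -/
theorem Bc_card {G : SimpleGraph V} {C : Finset V} {K : ℕ} (hc : Clq G C) (h : Cb G C K) :
    C.card ≤ K := by
  obtain ⟨φ, h1, h2⟩ := h
  have h3 : (C.image φ).card = C.card := by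
    refine card_image_of_injOn ?_
    intro a ha b hb hab
    by_contra hne
    exact h2 a ha b hb (hc a ha b hb hne) hab
  have h4 : C.image φ ⊆ range K := by
    intro i hi
    obtain ⟨a, ha, rfl⟩ := mem_image.1 hi
    exact mem_range.2 (h1 a ha)
  have h5 := card_le_card h4
  rw [h3, card_range] at h5
  exact h5

/-- a clique with `K + 1` vertices is everything -/
theorem clq_all {G : SimpleGraph V} {S C : Finset V} {K : ℕ} (h : CrOn G S K) (hC : C ⊆ S)
    (hc : Clq G C) (hK : K + 1 ≤ C.card) : C = S := by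
  by_contra hne
  have h1 := Bc_card hc (h.sub hC hne)
  omega

/-- no clique with `K + 1` vertices in a larger critical graph -/
theorem clq_bound {G : SimpleGraph V} {S C : Finset V} {K : ℕ} (h : CrOn G S K) (hC : C ⊆ S)
    (hc : Clq G C) (hS : K + 1 < S.card) : C.card ≤ K := by
  by_contra hlt
  obtain ⟨D, hD, hD'⟩ := exists_subset_card_eq (s := C) (n := K + 1) (by omega)
  have h1 := clq_all h (hD.trans hC) (fun a ha b hb => hc a (hD ha) b (hD hb)) hD'.ge
  rw [← h1, hD'] at hS
  exact lt_irrefl _ hS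

/-- dominating vertices can be removed -/
theorem crOn_strip {G : SimpleGraph V} {S F : Finset V} {K : ℕ} (h : CrOn G S K) (hF : F ⊆ S)
    (hd : ∀ v ∈ F, ∀ u ∈ S, u ≠ v → G.Adj v u) (hne : F ≠ S) :
    F.card ≤ K ∧ CrOn G (S \ F) (K - F.card) ∧ eb G (S \ F) = eb G S := by
  by_cases h0 : F = ∅
  · subst h0
    simp only [card_empty, Nat.sub_zero, sdiff_empty]
    exact ⟨Nat.zero_le _, h, trivial⟩
  · have hcl : Clq G F := fun a ha b hb hab => hd a ha b (hF hb) hab.symm
    have hu : F ∪ (S \ F) = S := union_sdiff_of_subset hF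
    have hj : ∀ a ∈ F, ∀ b ∈ S \ F, G.Adj a b := by
      intro a ha b hb
      rw [mem_sdiff] at hb
      exact hd a ha b hb.1 (fun e => hb.2 (by rw [e]; exact ha))
    have hne2 : (S \ F).Nonempty := by
      rw [sdiff_nonempty]
      intro hSF
      exact hne (Subset.antisymm hF hSF)
    have hdis : Disjoint F (S \ F) := disjoint_sdiff
    obtain ⟨K₁, K₂, h1, h2, h3⟩ := Pool.Agent.O2.CrOn.join (nonempty_iff_ne_empty.2 h0) hne2 hdis hj
      (by rw [hu]; exact h)
    have h4 := h2.card_ge
    obtain ⟨x, hx⟩ := nonempty_iff_ne_empty.2 h0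
    have h5 := Bc_card (C := F.erase x)
      (fun a ha b hb => hcl a (mem_of_mem_erase ha) b (mem_of_mem_erase hb)) (h2.2 x hx)
    rw [card_erase_of_mem hx] at h5
    have h6 : F.card = K₁ + 1 := by omega
    have h7 : K - F.card = K₂ := by omega
    refine ⟨by omega, by rw [h7]; exact h3, ?_⟩
    have h8 : ms G F = 0 := by
      unfold Pool.Agent.O2.ms
      rw [card_eq_zero, filter_eq_empty_iff]
      rintro ⟨a, b⟩ hab ⟨h9, h10⟩
      rw [mem_product] at hab
      exact h10 (hcl a hab.1 b hab.2 h9)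
    have h9 := Pool.Agent.O2.ms_join hdis hj
    rw [hu, h8, zero_add] at h9
    unfold eb
    rw [h9]

/-- removing an independent set -/
theorem rm_ind {G : SimpleGraph V} {S C : Finset V} {K : ℕ} (h : ¬ Cb G S K) (hK : 1 ≤ K)
    (hC : C ⊆ S) (hi : ∀ a ∈ C, ∀ b ∈ C, ¬ G.Adj a b) :
    ∃ S' ⊆ S \ C, CrOn G S' (K - 1) := by
  refine Pool.Agent.O2.exists_crOn fun h1 => h ?_
  have h2 := Pool.Agent.O2.cb_union h1 (Pool.Agent.O2.cb_one hi)
  rw [sdiff_union_of_subset hC, Nat.sub_add_cancel hK] at h2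
  exact h2

end Pool.Agent.O3
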