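import Pool.Agent.Lib_helper92.O3.Defs

set_option autoImplicit false
set_option linter.unusedSectionVars false
set_option linter.unusedVariables false

open scoped Classical
open Finset
open Pool.Agent.O2 (PC Cb CrOn pr ms dg nd Joined)

namespace Pool.Agent.O3

variable {V : Type}

theorem Ba_self (G : SimpleGraph V) (v : V) : pr G {v} {v} = 0 := by
  unfold pr
  rw [card_eq_zero, filter_eq_empty_iff]
  rintro ⟨a, b⟩ hab
  rw [mem_product, mem_singleton, mem_singleton] at hab
  obtain ⟨h1, h2⟩ := hab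
  simp only at h1 h2
  rw [h1, h2]
  exact G.irrefl

theorem Ba_even (G : SimpleGraph V) (X : Finset V) : Even (ms G X) := by
  induction X using Finset.induction_on with
  | empty => simp [ms]
  | insert v X hv ih =>
    have hd : Disjoint ({v} : Finset V) X := disjoint_singleton_left.2 hv
    have h1 : pr G (insert v X) (insert v X) = 2 * pr G {v} X + pr G X X := by
      rw [insert_eq, O2.pr_union_left _ hd, O2.pr_union_right _ hd, O2.pr_union_right _ hd,
        O2.pr_symm G X {v}, Ba_self]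
      ring
    have h2 := O2.pr_add_ms G (insert v X)
    have h3 := O2.pr_add_ms G X
    rw [h1, card_insert_of_notMem hv] at h2
    have h4 : (X.card + 1) * (X.card + 1) = X.card * X.card + 2 * X.card + 1 := by ring
    rw [h4, ← h3] at h2
    obtain ⟨m, hm⟩ := ih
    have h5 : ms G (insert v X) + 2 * pr G {v} X = 2 * m + 2 * X.card := by omega
    rw [Nat.even_iff]
    omega

/-- `ms` is even -/
theorem two_eb (G : SimpleGraph V) (X : Finset V) : 2 * eb G X = ms G X := by
  unfold eb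
  exact Nat.two_mul_div_two_of_even (Ba_even G X)

theorem eb_union {G : SimpleGraph V} {X Y : Finset V} (h : Disjoint X Y) :
    eb G (X ∪ Y) + pr G X Y = eb G X + eb G Y + X.card * Y.card := by
  have h1 := O2.pr_add_ms G (X ∪ Y)
  have h2 := O2.pr_add_ms G X
  have h3 := O2.pr_add_ms G Y
  have h4 : pr G (X ∪ Y) (X ∪ Y) = pr G X X + 2 * pr G X Y + pr G Y Y := by
    rw [O2.pr_union_left _ h, O2.pr_union_right _ h, O2.pr_union_right _ h, O2.pr_symm G Y X]
    ring
  rw [h4, card_union_of_disjoint h, ← two_eb] at h1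
  rw [← two_eb] at h2 h3
  have h5 : (X.card + Y.card) * (X.card + Y.card) =
      X.card * X.card + 2 * (X.card * Y.card) + Y.card * Y.card := by ring
  rw [h5, ← h2, ← h3] at h1
  omega

/-- handshake form -/
theorem eb_dg (G : SimpleGraph V) (X : Finset V) :
    2 * (eb G X : ℤ) + ∑ v ∈ X, (dg G X v : ℤ) = X.card * ((X.card : ℤ) - 1) := by
  have h1 := O2.pr_add_ms G X
  rw [← two_eb, O2.pr_sum] at h1
  have h2 : ((∑ x ∈ X, dg G X x : ℕ) : ℤ) + 2 * (eb G X : ℤ) + X.card = X.card * X.card := by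
    exact_mod_cast h1
  rw [Nat.cast_sum] at h2
  linarith

theorem eb_mono {G : SimpleGraph V} {X Y : Finset V} (h : X ⊆ Y) : eb G X ≤ eb G Y :=
  Nat.div_le_div_right (O2.ms_mono h)

theorem Ba_ms_zero {G : SimpleGraph V} {X : Finset V} : ms G X = 0 ↔ Clq G X := by
  unfold ms Clq
  rw [card_eq_zero, filter_eq_empty_iff]
  constructor
  · intro h a ha b hb hab
    by_contra hc
    exact h (x := (a, b)) (mem_product.2 ⟨ha, hb⟩) ⟨hab, hc⟩
  · rintro h ⟨a, b⟩ hab ⟨h1, h2⟩
    exact h2 (h a (mem_product.1 hab).1 b (mem_product.1 hab).2 h1)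

theorem eb_clq {G : SimpleGraph V} {X : Finset V} : eb G X = 0 ↔ Clq G X := by
  rw [← Ba_ms_zero, ← two_eb]
  omega

theorem eb_non {G : SimpleGraph V} {X : Finset V} : 1 ≤ eb G X ↔ Non G X := by
  rw [Nat.one_le_iff_ne_zero, Ne, eb_clq]
  unfold Clq Non
  push Not
  rfl

theorem Ba_sub {G : SimpleGraph V} {X : Finset V} {T : Finset (V × V)}
    (h : ∀ q ∈ T, q.1 ∈ X ∧ q.2 ∈ X ∧ q.1 ≠ q.2 ∧ ¬ G.Adj q.1 q.2) : T.card ≤ 2 * eb G X := by
  rw [two_eb]
  unfold ms
  apply card_le_card
  intro q hq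
  obtain ⟨h1, h2, h3, h4⟩ := h q hq
  exact mem_filter.2 ⟨mem_product.2 ⟨h1, h2⟩, h3, h4⟩

theorem eb_tri {G : SimpleGraph V} {X : Finset V} (h : Tri G X) : 3 ≤ eb G X := by
  obtain ⟨a, ha, b, hb, c, hc, hab, hac, hbc, h1, h2, h3⟩ := h
  have h1' : ¬ G.Adj b a := fun h => h1 h.symm
  have h2' : ¬ G.Adj c a := fun h => h2 h.symm
  have h3' : ¬ G.Adj c b := fun h => h3 h.symm
  have hT : ({(a, b), (b, a), (a, c), (c, a), (b, c), (c, b)} : Finset (V × V)).card = 6 := by
    rw [card_insert_of_notMem, card_insert_of_notMem, card_insert_of_notMem,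
      card_insert_of_notMem, card_insert_of_notMem, card_singleton]
    all_goals simp [hab, hac, hbc, hab.symm, hac.symm, hbc.symm]
  have := Ba_sub (G := G) (X := X)
    (T := {(a, b), (b, a), (a, c), (c, a), (b, c), (c, b)}) (by
      intro q hq
      simp only [mem_insert, mem_singleton] at hq
      rcases hq with rfl | rfl | rfl | rfl | rfl | rfl
      · exact ⟨ha, hb, hab, h1⟩
      · exact ⟨hb, ha, hab.symm, h1'⟩
      · exact ⟨ha, hc, hac, h2⟩
      · exact ⟨hc, ha, hac.symm, h2'⟩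
      · exact ⟨hb, hc, hbc, h3⟩
      · exact ⟨hc, hb, hbc.symm, h3'⟩)
  rw [hT] at this
  omega

theorem eb_two {G : SimpleGraph V} {X : Finset V} (h : Two G X) : 2 ≤ eb G X := by
  obtain ⟨a, ha, a', ha', b, hb, b', hb', n1, n2, n3, n4, n5, n6, h1, h2⟩ := h
  have h1' : ¬ G.Adj a' a := fun h => h1 h.symm
  have h2' : ¬ G.Adj b' b := fun h => h2 h.symm
  have hT : ({(a, a'), (a', a), (b, b'), (b', b)} : Finset (V × V)).card = 4 := by
    rw [card_insert_of_notMem, card_insert_of_notMem, card_insert_of_notMem, card_singleton]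
    all_goals simp [n1, n2, n3, n4, n5, n6, n1.symm, n2.symm, n3.symm, n4.symm, n5.symm, n6.symm]
  have := Ba_sub (G := G) (X := X) (T := {(a, a'), (a', a), (b, b'), (b', b)}) (by
      intro q hq
      simp only [mem_insert, mem_singleton] at hq
      rcases hq with rfl | rfl | rfl | rfl
      · exact ⟨ha, ha', n1, h1⟩
      · exact ⟨ha', ha, n1.symm, h1'⟩
      · exact ⟨hb, hb', n2, h2⟩
      · exact ⟨hb', hb, n2.symm, h2'⟩)
  rw [hT] at this
  omega

end Pool.Agent.O3
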