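import Pool.Agent.Lib_helper92.O3.B.Ba

set_option autoImplicit false
set_option linter.unusedSectionVars false
set_option linter.unusedVariables false

open scoped Classical
open Finset
open Pool.Agent.O2 (PC Cb CrOn pr ms dg nd Joined)

namespace Pool.Agent.O3

variable {V : Type}

theorem ff_union {G : SimpleGraph V} {S X Y : Finset V} {K : ℕ} (h : Disjoint X Y) :
    ff G S K (X ∪ Y) = ff G S K X + ff G S K Y + X.card * Y.card - pr G X Y := by
  have h1 : eb G (X ∪ Y) + pr G X Y = eb G X + eb G Y + X.card * Y.card := eb_union h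
  have h2 : ∑ v ∈ X ∪ Y, ((dg G S v : ℤ) - K) =
      ∑ v ∈ X, ((dg G S v : ℤ) - K) + ∑ v ∈ Y, ((dg G S v : ℤ) - K) := sum_union h
  have h3 : (eb G (X ∪ Y) : ℤ) + pr G X Y = eb G X + eb G Y + X.card * Y.card := by
    exact_mod_cast h1
  unfold ff
  rw [h2]
  linarith

theorem Bb_sum (G : SimpleGraph V) (S X : Finset V) (K : ℕ) :
    ∑ v ∈ X, ((dg G S v : ℤ) - K) = ∑ v ∈ X, (dg G S v : ℤ) - X.card * K := by
  rw [sum_sub_distrib, sum_const, nsmul_eq_mul]

theorem Bb_split {G : SimpleGraph V} {S W : Finset V} (hW : W ⊆ S) (v : V) :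
    (dg G S v : ℤ) = dg G (S \ W) v + dg G W v := by
  have h1 : dg G ((S \ W) ∪ W) v = dg G (S \ W) v + dg G W v :=
    Pool.Agent.O2.dg_union sdiff_disjoint v
  rw [sdiff_union_of_subset hW] at h1
  exact_mod_cast h1

theorem Bb_pr {G : SimpleGraph V} (X Y : Finset V) :
    ∑ v ∈ X, (dg G Y v : ℤ) = pr G Y X := by
  have h1 := Pool.Agent.O2.pr_sum' G Y X
  rw [h1]
  push_cast
  rfl

theorem Bb_ff {G : SimpleGraph V} {S W : Finset V} (K : ℕ) (hW : W ⊆ S) :
    ff G S K W = pr G (S \ W) W - eb G W + W.card * ((W.card : ℤ) - 1 - K) := by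
  have h1 : ∑ v ∈ W, (dg G S v : ℤ) = pr G (S \ W) W + ∑ v ∈ W, (dg G W v : ℤ) := by
    rw [← Bb_pr, ← sum_add_distrib]
    exact sum_congr rfl fun v _ => Bb_split hW v
  have h2 := eb_dg G W
  unfold ff
  rw [Bb_sum, h1]
  linear_combination h2

/-- (A2) -/
theorem eb_split {G : SimpleGraph V} {S W : Finset V} (K : ℕ) (hW : W ⊆ S) :
    (eb G S : ℤ) = eb G (S \ W) + W.card * ((S.card : ℤ) - 1 - K) - ff G S K W := by
  have h1 : eb G ((S \ W) ∪ W) + pr G (S \ W) W =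
      eb G (S \ W) + eb G W + (S \ W).card * W.card := eb_union sdiff_disjoint
  rw [sdiff_union_of_subset hW] at h1
  have h2 : (eb G S : ℤ) + pr G (S \ W) W =
      eb G (S \ W) + eb G W + (S \ W).card * W.card := by exact_mod_cast h1
  have h3 : ((S \ W).card : ℤ) + W.card = S.card := by
    exact_mod_cast card_sdiff_add_card_eq_card hW
  have h4 : ((S \ W).card : ℤ) = S.card - W.card := by linarith
  rw [h4] at h2
  rw [Bb_ff K hW]
  linear_combination h2

theorem eb_le_ff {G : SimpleGraph V} {S W : Finset V} {K : ℕ} (h : CrOn G S K) (hW : W ⊆ S) :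
    (eb G W : ℤ) ≤ ff G S K W := by
  unfold ff
  have h1 : 0 ≤ ∑ v ∈ W, ((dg G S v : ℤ) - K) := by
    refine sum_nonneg fun v hv => ?_
    have h2 : (K : ℤ) ≤ dg G S v := by
      exact_mod_cast Pool.Agent.O2.CrOn.dg_ge h (hW hv)
    linarith
  linarith

theorem ff_nonneg {G : SimpleGraph V} {S W : Finset V} {K : ℕ} (h : CrOn G S K) (hW : W ⊆ S) :
    0 ≤ ff G S K W := by
  have h1 := eb_le_ff h hW
  have h2 : (0 : ℤ) ≤ eb G W := Int.natCast_nonneg _
  linarith

theorem ff_mono {G : SimpleGraph V} {S W W' : Finset V} {K : ℕ} (h : CrOn G S K) (hW : W ⊆ S)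
    (hW' : W' ⊆ W) : ff G S K W' ≤ ff G S K W := by
  unfold ff
  have h1 : ∑ v ∈ W', ((dg G S v : ℤ) - K) ≤ ∑ v ∈ W, ((dg G S v : ℤ) - K) := by
    refine sum_le_sum_of_subset_of_nonneg hW' fun v hv _ => ?_
    have h2 : (K : ℤ) ≤ dg G S v := by
      exact_mod_cast Pool.Agent.O2.CrOn.dg_ge h (hW hv)
    linarith
  have h2 : (eb G W' : ℤ) ≤ eb G W := by exact_mod_cast eb_mono hW'
  linarith

theorem deg_bound {G : SimpleGraph V} {S : Finset V} {K : ℕ} (h : CrOn G S K) :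
    2 * (eb G S : ℤ) ≤ S.card * ((S.card : ℤ) - 1 - K) := by
  have h1 := eb_dg G S
  have h2 : ∑ _v ∈ S, (K : ℤ) ≤ ∑ v ∈ S, (dg G S v : ℤ) := by
    refine sum_le_sum fun v hv => ?_
    exact_mod_cast Pool.Agent.O2.CrOn.dg_ge h hv
  rw [sum_const, nsmul_eq_mul] at h2
  have h3 : (S.card : ℤ) * ((S.card : ℤ) - 1 - K) =
      S.card * ((S.card : ℤ) - 1) - S.card * K := by ring
  rw [h3]
  linarith

/-- a clique `B` taken out of `W` -/
theorem ff_clq {G : SimpleGraph V} {S W B : Finset V} (K : ℕ) (hW : W ⊆ S) (hB : B ⊆ W)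
    (hc : Clq G B) : ff G S K W =
      ff G S K (W \ B) + ∑ b ∈ B, ((dg G (S \ W) b : ℤ) - K + W.card - 1) := by
  have h1 : ff G S K ((W \ B) ∪ B) =
      ff G S K (W \ B) + ff G S K B + (W \ B).card * B.card - pr G (W \ B) B :=
    ff_union sdiff_disjoint
  rw [sdiff_union_of_subset hB] at h1
  have h2 : eb G B = 0 := eb_clq.2 hc
  have h3 := eb_dg G B
  rw [h2] at h3
  have h4 : ((W \ B).card : ℤ) + B.card = W.card := by
    exact_mod_cast card_sdiff_add_card_eq_card hB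
  have h5 : ∑ b ∈ B, (dg G S b : ℤ) =
      ∑ b ∈ B, (dg G (S \ W) b : ℤ) + (pr G (W \ B) B + ∑ b ∈ B, (dg G B b : ℤ)) := by
    rw [← Bb_pr, ← sum_add_distrib, ← sum_add_distrib]
    refine sum_congr rfl fun v _ => ?_
    rw [Bb_split hW v, Bb_split hB v]
  have h6 : ff G S K B = ∑ b ∈ B, (dg G S b : ℤ) - B.card * K := by
    unfold ff
    rw [h2, Bb_sum]
    push_cast
    ring
  have h7 : ∑ b ∈ B, ((dg G (S \ W) b : ℤ) - K + W.card - 1) =
      ∑ b ∈ B, (dg G (S \ W) b : ℤ) + B.card * ((W.card : ℤ) - K - 1) := by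
    have h8 : ∀ b ∈ B, ((dg G (S \ W) b : ℤ) - K + W.card - 1) =
        (dg G (S \ W) b : ℤ) + ((W.card : ℤ) - K - 1) := fun b _ => by ring
    rw [sum_congr rfl h8, sum_add_distrib, sum_const, nsmul_eq_mul]
  have h9 : ((W \ B).card : ℤ) = W.card - B.card := by linarith
  rw [h1, h6, h5, h7, h9]
  push_cast at h3
  linear_combination h3

theorem ff_erase {G : SimpleGraph V} {S W : Finset V} (K : ℕ) (hW : W ⊆ S) {v : V} (hv : v ∈ W) :
    ff G S K W = ff G S K (W.erase v) + ((dg G (S \ W) v : ℤ) - K + W.card - 1) := by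
  have h1 : Clq G {v} := by
    intro a ha b hb hab
    rw [mem_singleton] at ha hb
    exact absurd (ha.trans hb.symm) hab
  have h2 := ff_clq K hW (singleton_subset_iff.2 hv) h1
  rw [sum_singleton] at h2
  rw [h2, erase_eq]

end Pool.Agent.O3
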