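import Pool.Agent.Lib_helper92.O3.B.Ba

set_option autoImplicit false
set_option linter.unusedSectionVars false
set_option linter.unusedVariables false

open scoped Classical
open Finset
open Pool.Agent.O2 (PC Cb CrOn pr ms dg nd Joined)

namespace Pool.Agent.O3

variable {V : Type}

theorem con_not_cb {K : ℕ} {G : SimpleGraph V} {S W : Finset V} {ψ : V → Fin K} (hK : 0 < K)
    (h : ¬ Cb G S K) (hW : W ⊆ S) (hψ : PC G (S \ W) ψ) :
    ¬ Cb (con G (S \ W) ψ) (W.disjSum univ) K := by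
  intro hc
  apply h
  obtain ⟨g, hg⟩ := (Pool.Agent.O2.cb_fin hK).1 hc
  have hir : ∀ i : Fin K, (Sum.inr i : V ⊕ Fin K) ∈ W.disjSum (univ : Finset (Fin K)) := by
    intro i
    rw [Finset.inr_mem_disjSum]
    exact mem_univ i
  have hil : ∀ a ∈ W, (Sum.inl a : V ⊕ Fin K) ∈ W.disjSum (univ : Finset (Fin K)) := by
    intro a ha
    rw [Finset.inl_mem_disjSum]
    exact ha
  have hinj : ∀ i j : Fin K, i ≠ j → g (Sum.inr i) ≠ g (Sum.inr j) := by
    intro i j hij
    refine hg _ (hir i) _ (hir j) ?_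
    exact hij
  refine (Pool.Agent.O2.cb_fin hK).2 ⟨fun v => if v ∈ W then g (Sum.inl v) else g (Sum.inr (ψ v)),
    ?_⟩
  have hcross : ∀ a ∈ W, ∀ b ∈ S, b ∉ W → G.Adj a b → g (Sum.inl a) ≠ g (Sum.inr (ψ b)) := by
    intro a ha b hb hbW hab
    refine hg _ (hil a ha) _ (hir _) ?_
    change ψ b ∈ hit G (S \ W) ψ a
    rw [hit, mem_filter]
    exact ⟨mem_univ _, b, mem_sdiff.2 ⟨hb, hbW⟩, rfl, hab⟩
  intro a ha b hb hab
  by_cases haW : a ∈ W
  · by_cases hbW : b ∈ W
    · simp only [haW, hbW, if_true]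
      refine hg _ (hil a haW) _ (hil b hbW) ?_
      exact hab
    · simp only [haW, hbW, if_true, if_false]
      exact hcross a haW b hb hbW hab
  · by_cases hbW : b ∈ W
    · simp only [haW, hbW, if_true, if_false]
      exact (hcross b hbW a ha haW hab.symm).symm
    · simp only [haW, hbW, if_false]
      exact hinj _ _ (hψ a (mem_sdiff.2 ⟨ha, haW⟩) b (mem_sdiff.2 ⟨hb, hbW⟩) hab)

end Pool.Agent.O3
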