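import Pool.Agent.Lib_helper92.O3.B.Ba

set_option autoImplicit false
set_option linter.unusedSectionVars false
set_option linter.unusedVariables false

open scoped Classical
open Finset
open Pool.Agent.O2 (PC Cb CrOn pr ms dg nd Joined)

namespace Pool.Agent.O3

variable {V : Type}

theorem Cb_filter {α β : Type} (X : Finset α) (Y : Finset β) (P : α ⊕ β → Prop) :
    ((X.disjSum Y).filter P).card =
      (X.filter fun a => P (Sum.inl a)).card + (Y.filter fun b => P (Sum.inr b)).card := by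
  have h : (X.disjSum Y).filter P =
      (X.filter fun a => P (Sum.inl a)).disjSum (Y.filter fun b => P (Sum.inr b)) := by
    ext x
    rcases x with a | b
    · simp only [mem_filter, inl_mem_disjSum]
    · simp only [mem_filter, inr_mem_disjSum]
  rw [h, card_disjSum]

theorem disjSum_eq {α β : Type} (X : Finset α) (Y : Finset β) :
    uni (X.map ⟨Sum.inl, Sum.inl_injective⟩) (Y.map ⟨Sum.inr, Sum.inr_injective⟩) =
      X.disjSum Y := by
  ext x
  rw [mem_uni]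
  rcases x with a | b
  · simp
  · simp

theorem hit_card_le {K : ℕ} (G : SimpleGraph V) (R : Finset V) (ψ : V → Fin K) (v : V) :
    (hit G R ψ v).card ≤ dg G R v := by
  have h : hit G R ψ v ⊆ (R.filter fun y => G.Adj v y).image ψ := by
    intro i hi
    simp only [hit, mem_filter, mem_univ, true_and] at hi
    obtain ⟨y, hy, rfl, hvy⟩ := hi
    exact mem_image_of_mem _ (mem_filter.2 ⟨hy, hvy⟩)
  exact (card_le_card h).trans card_image_le

theorem dg_con_inl {K : ℕ} (G : SimpleGraph V) (R W : Finset V) (ψ : V → Fin K)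
    (Z : Finset (Fin K)) (v : V) :
    dg (con G R ψ) (W.disjSum Z) (Sum.inl v) = dg G W v + (hit G R ψ v ∩ Z).card := by
  unfold dg
  rw [Cb_filter]
  congr 1
  have h : (Z.filter fun b => (con G R ψ).Adj (Sum.inl v) (Sum.inr b)) = hit G R ψ v ∩ Z := by
    ext i
    simp only [mem_filter, mem_inter]
    exact and_comm
  rw [h]

theorem dg_con_inr {K : ℕ} (G : SimpleGraph V) (R W : Finset V) (ψ : V → Fin K)
    (Z : Finset (Fin K)) {i : Fin K} (hi : i ∈ Z) :
    dg (con G R ψ) (W.disjSum Z) (Sum.inr i) =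
      (W.filter fun v => i ∈ hit G R ψ v).card + (Z.card - 1) := by
  unfold dg
  rw [Cb_filter]
  have h : (Z.filter fun b => (con G R ψ).Adj (Sum.inr i) (Sum.inr b)) = Z.erase i := by
    ext j
    simp only [mem_filter, mem_erase]
    constructor
    · rintro ⟨h1, h2⟩
      exact ⟨Ne.symm h2, h1⟩
    · rintro ⟨h1, h2⟩
      exact ⟨h2, Ne.symm h1⟩
  have h' : (W.filter fun a => (con G R ψ).Adj (Sum.inr i) (Sum.inl a)) =
      W.filter fun v => i ∈ hit G R ψ v := by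
    ext a
    simp only [mem_filter]
    rfl
  rw [h, h', card_erase_of_mem hi]

theorem Cb_map {K : ℕ} (W : Finset V) :
    W.disjSum (∅ : Finset (Fin K)) = W.map ⟨Sum.inl, Sum.inl_injective⟩ := by
  ext x
  rcases x with a | b
  · simp
  · simp

theorem Cb_dg {K : ℕ} (G : SimpleGraph V) (R W : Finset V) (ψ : V → Fin K) (v : V) :
    dg (con G R ψ) (W.map ⟨Sum.inl, Sum.inl_injective⟩) (Sum.inl v) = dg G W v := by
  rw [← Cb_map, dg_con_inl]
  simp

theorem eb_con_inl {K : ℕ} (G : SimpleGraph V) (R W : Finset V) (ψ : V → Fin K) :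
    eb (con G R ψ) (W.map ⟨Sum.inl, Sum.inl_injective⟩) = eb G W := by
  have h1 := eb_dg (con G R ψ) (W.map ⟨Sum.inl, Sum.inl_injective⟩)
  have h2 := eb_dg G W
  rw [sum_map, card_map] at h1
  have h3 : ∀ v ∈ W, (dg (con G R ψ) (W.map ⟨Sum.inl, Sum.inl_injective⟩)
      ((⟨Sum.inl, Sum.inl_injective⟩ : V ↪ V ⊕ Fin K) v) : ℤ) = dg G W v := by
    intro v _
    exact_mod_cast Cb_dg G R W ψ v
  rw [sum_congr rfl h3] at h1
  omega

theorem nd_con_inl {K : ℕ} (G : SimpleGraph V) (R W : Finset V) (ψ : V → Fin K) (v : V) :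
    nd (con G R ψ) (W.map ⟨Sum.inl, Sum.inl_injective⟩) (Sum.inl v) = nd G W v := by
  unfold nd
  refine Eq.trans (congrArg Finset.card (Finset.ext fun x => ?_))
    (card_map (⟨Sum.inl, Sum.inl_injective⟩ : V ↪ V ⊕ Fin K))
  simp only [mem_filter, mem_map, Function.Embedding.coeFn_mk]
  constructor
  · rintro ⟨⟨a, ha, rfl⟩, h1, h2⟩
    exact ⟨a, ⟨ha, fun e => h1 (by rw [e]), h2⟩, rfl⟩
  · rintro ⟨a, ⟨ha, h1, h2⟩, rfl⟩
    exact ⟨⟨a, ha, rfl⟩, fun e => h1 (Sum.inl_injective e), h2⟩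

theorem dg_con_inr' {K : ℕ} (G : SimpleGraph V) (R W : Finset V) (ψ : V → Fin K) (i : Fin K) :
    dg (con G R ψ) (W.map ⟨Sum.inl, Sum.inl_injective⟩) (Sum.inr i) =
      (W.filter fun v => i ∈ hit G R ψ v).card := by
  unfold dg
  rw [← Cb_map, Cb_filter, filter_empty, card_empty, add_zero]
  have h' : (W.filter fun a => (con G R ψ).Adj (Sum.inr i) (Sum.inl a)) =
      W.filter fun v => i ∈ hit G R ψ v := by
    ext a
    simp only [mem_filter]
    rfl
  rw [h']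

theorem clq_con {K : ℕ} {G : SimpleGraph V} {R : Finset V} {ψ : V → Fin K}
    (Z : Finset (Fin K)) : Clq (con G R ψ) (Z.map ⟨Sum.inr, Sum.inr_injective⟩) := by
  intro a ha b hb hab
  obtain ⟨i, hi, rfl⟩ := mem_map.1 ha
  obtain ⟨j, hj, rfl⟩ := mem_map.1 hb
  exact fun e => hab (by rw [e])

theorem Cb_dgz {K : ℕ} (G : SimpleGraph V) (R : Finset V) (ψ : V → Fin K)
    (Z : Finset (Fin K)) (v : V) :
    dg (con G R ψ) (Z.map ⟨Sum.inr, Sum.inr_injective⟩) (Sum.inl v) =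
      (hit G R ψ v ∩ Z).card := by
  have h := dg_con_inl G R ∅ ψ Z v
  have h1 : (∅ : Finset V).disjSum Z = Z.map ⟨Sum.inr, Sum.inr_injective⟩ := by
    ext x
    rcases x with a | b
    · simp
    · simp
  have h2 : dg G (∅ : Finset V) v = 0 := by
    unfold dg
    rw [filter_empty, card_empty]
  rw [h1, h2, zero_add] at h
  exact h

theorem eb_con {K : ℕ} (G : SimpleGraph V) (R W : Finset V) (ψ : V → Fin K)
    (Z : Finset (Fin K)) :
    (eb (con G R ψ) (W.disjSum Z) : ℤ) =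
      eb G W + ∑ v ∈ W, ((Z.card : ℤ) - (hit G R ψ v ∩ Z).card) := by
  have hd : Disjoint (W.map ⟨Sum.inl, Sum.inl_injective⟩ : Finset (V ⊕ Fin K))
      (Z.map ⟨Sum.inr, Sum.inr_injective⟩) := by
    rw [disjoint_left]
    intro x hx hy
    obtain ⟨a, -, rfl⟩ := mem_map.1 hx
    obtain ⟨b, -, hb⟩ := mem_map.1 hy
    exact absurd hb (by simp)
  have h := eb_union (G := con G R ψ) hd
  change eb (con G R ψ) (uni _ _) + _ = _ at h
  rw [disjSum_eq, eb_con_inl, eb_clq.2 (clq_con Z), card_map, card_map,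
    Pool.Agent.O2.pr_sum, sum_map] at h
  have h3 : ∀ v ∈ W, dg (con G R ψ) (Z.map ⟨Sum.inr, Sum.inr_injective⟩)
      ((⟨Sum.inl, Sum.inl_injective⟩ : V ↪ V ⊕ Fin K) v) = (hit G R ψ v ∩ Z).card := by
    intro v _
    exact Cb_dgz G R ψ Z v
  rw [sum_congr rfl h3] at h
  rw [sum_sub_distrib, sum_const, nsmul_eq_mul]
  have h4 : (eb (con G R ψ) (W.disjSum Z) : ℤ) + ∑ v ∈ W, ((hit G R ψ v ∩ Z).card : ℤ) =
      eb G W + 0 + W.card * Z.card := by exact_mod_cast h
  linarith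

theorem tri_con {K : ℕ} {G : SimpleGraph V} {R W : Finset V} {ψ : V → Fin K} :
    Tri (con G R ψ) (W.map ⟨Sum.inl, Sum.inl_injective⟩) ↔ Tri G W := by
  constructor
  · rintro ⟨a1, ha1, b1, hb1, c1, hc1, h1, h2, h3, h4, h5, h6⟩
    obtain ⟨a, ha, rfl⟩ := mem_map.1 ha1
    obtain ⟨b, hb, rfl⟩ := mem_map.1 hb1
    obtain ⟨c, hc, rfl⟩ := mem_map.1 hc1
    exact ⟨a, ha, b, hb, c, hc, fun e => h1 (by rw [e]), fun e => h2 (by rw [e]),
      fun e => h3 (by rw [e]), h4, h5, h6⟩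
  · rintro ⟨a, ha, b, hb, c, hc, h1, h2, h3, h4, h5, h6⟩
    exact ⟨Sum.inl a, mem_map.2 ⟨a, ha, rfl⟩, Sum.inl b, mem_map.2 ⟨b, hb, rfl⟩, Sum.inl c,
      mem_map.2 ⟨c, hc, rfl⟩, fun e => h1 (Sum.inl_injective e),
      fun e => h2 (Sum.inl_injective e), fun e => h3 (Sum.inl_injective e), h4, h5, h6⟩

theorem two_con {K : ℕ} {G : SimpleGraph V} {R W : Finset V} {ψ : V → Fin K} :
    Two (con G R ψ) (W.map ⟨Sum.inl, Sum.inl_injective⟩) ↔ Two G W := by
  constructor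
  · rintro ⟨a1, ha1, a2, ha2, b1, hb1, b2, hb2, h1, h2, h3, h4, h5, h6, h7, h8⟩
    obtain ⟨a, ha, rfl⟩ := mem_map.1 ha1
    obtain ⟨a', ha', rfl⟩ := mem_map.1 ha2
    obtain ⟨b, hb, rfl⟩ := mem_map.1 hb1
    obtain ⟨b', hb', rfl⟩ := mem_map.1 hb2
    exact ⟨a, ha, a', ha', b, hb, b', hb', fun e => h1 (by rw [e]), fun e => h2 (by rw [e]),
      fun e => h3 (by rw [e]), fun e => h4 (by rw [e]), fun e => h5 (by rw [e]),
      fun e => h6 (by rw [e]), h7, h8⟩
  · rintro ⟨a, ha, a', ha', b, hb, b', hb', h1, h2, h3, h4, h5, h6, h7, h8⟩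
    exact ⟨Sum.inl a, mem_map.2 ⟨a, ha, rfl⟩, Sum.inl a', mem_map.2 ⟨a', ha', rfl⟩, Sum.inl b,
      mem_map.2 ⟨b, hb, rfl⟩, Sum.inl b', mem_map.2 ⟨b', hb', rfl⟩,
      fun e => h1 (Sum.inl_injective e), fun e => h2 (Sum.inl_injective e),
      fun e => h3 (Sum.inl_injective e), fun e => h4 (Sum.inl_injective e),
      fun e => h5 (Sum.inl_injective e), fun e => h6 (Sum.inl_injective e), h7, h8⟩

end Pool.Agent.O3
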