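import Pool.Agent.Lib_helper92.O3.B.Oc

set_option autoImplicit false
set_option linter.unusedSectionVars false
set_option linter.unusedVariables false

open scoped Classical
open Finset
open Pool.Agent.O2 (PC Cb CrOn pr ms dg nd Joined)

namespace Pool.Agent.O3

variable {V : Type}

theorem Fa_card {G : SimpleGraph V} {X : Finset V} (h : Tri G X) : 3 ≤ X.card := by
  obtain ⟨a, ha, b, hb, c, hc, h1, h2, h3, -⟩ := h
  have hs : ({a, b, c} : Finset V) ⊆ X := by
    intro x hx
    simp only [mem_insert, mem_singleton] at hx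
    rcases hx with rfl | rfl | rfl <;> assumption
  have := card_le_card hs
  rwa [card_eq_three.2 ⟨a, b, c, h1, h2, h3, rfl⟩] at this

theorem f4a {N K q : ℕ} {G : SimpleGraph V} {S S' : Finset V} (ih : IH N) (h : CrOn G S K)
    (hN : S.card ≤ N) (hc : S.card = K + 1 + q) (h2 : 2 ≤ q) (hq : q ≤ K) (hS : S' ⊆ S)
    (hcr : CrOn G S' (K - 1)) (hT : Tri G (S \ S')) (hne : S'.card ≠ K) : eb G S ≤ q ^ 2 := by
  have hge := Pool.Agent.O2.CrOn.card_ge hcr
  have hw3 := Fa_card hT
  obtain ⟨r, hr⟩ : ∃ r, S'.card = K - 1 + 1 + r := ⟨S'.card - (K - 1 + 1), by omega⟩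
  obtain ⟨g1, g2, g3⟩ := Pool.Agent.O2.gallai S' (K - 1) r hcr hr
  have hr2 : 2 ≤ r := by omega
  have hcard : (S \ S').card + S'.card = S.card := card_sdiff_add_card_eq_card hS
  have hw : (S \ S').card + r = q + 1 := by omega
  have hss : S \ (S \ S') = S' := Finset.sdiff_sdiff_eq_self hS
  have e1 := eb_split (G := G) K (sdiff_subset : S \ S' ⊆ S)
  rw [hss] at e1
  have e2 : eb G S' ≤ r ^ 2 + 1 := by
    unfold eb
    omega
  have e3 : 2 * ((S \ S').card : ℤ) - 5 ≤ ff G S K (S \ S') :=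
    ((p6_all ih S.card hN) V G S (S \ S') K h rfl (by omega) sdiff_subset
      (by rw [hss]; omega)).1 hT
  have e4 : (3 : ℤ) ≤ ff G S K (S \ S') := by
    have h1 := eb_tri hT
    have h2 := eb_le_ff h (sdiff_subset : S \ S' ⊆ S)
    have h3 : (3 : ℤ) ≤ eb G (S \ S') := by exact_mod_cast h1
    linarith
  set w := (S \ S').card with hwdef
  have hS' : (S.card : ℤ) - 1 - K = q := by
    rw [hc]; push_cast; ring
  rw [hS'] at e1
  have e2' : (eb G S' : ℤ) ≤ (r : ℤ) ^ 2 + 1 := by exact_mod_cast e2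
  have hw' : (r : ℤ) = q + 1 - w := by
    have : (w : ℤ) + r = q + 1 := by exact_mod_cast hw
    linarith
  have hgoal : (eb G S : ℤ) ≤ (q : ℤ) ^ 2 := by
    rcases Nat.eq_or_lt_of_le hw3 with h3 | h4
    · have h3' : (w : ℤ) = 3 := by exact_mod_cast h3.symm
      rw [h3'] at e1 hw'
      rw [hw'] at e2'
      have : (2 : ℤ) ≤ q := by exact_mod_cast h2
      nlinarith
    · have h4' : (4 : ℤ) ≤ w := by exact_mod_cast h4
      have h5 : (w : ℤ) + 1 ≤ q := by
        have : w + 1 ≤ q := by omega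
        exact_mod_cast this
      rw [hw'] at e2'
      nlinarith [mul_nonneg (sub_nonneg.2 h4') (sub_nonneg.2 h5)]
  exact_mod_cast hgoal

end Pool.Agent.O3
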