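import Pool.Agent.Lib_helper92.O3.B.Oc

set_option autoImplicit false
set_option linter.unusedSectionVars false
set_option linter.unusedVariables false

open scoped Classical
open Finset
open Pool.Agent.O2 (PC Cb CrOn pr ms dg nd Joined)

namespace Pool.Agent.O3

variable {V : Type}

theorem Fb_card {W Z : Finset V} (hd : Disjoint W Z) : (uni W Z).card = W.card + Z.card :=
  card_union_of_disjoint hd

theorem Fb_sub {W Z Z1 : Finset V} (h : Z1 ⊆ Z) : uni W Z1 ⊆ uni W Z := by
  intro a ha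
  rcases mem_uni.1 ha with h1 | h1
  · exact mem_uni.2 (Or.inl h1)
  · exact mem_uni.2 (Or.inr (h h1))

theorem f4b {N K q : ℕ} {G : SimpleGraph V} {W Z : Finset V} (ih : IH N)
    (h : CrOn G (uni W Z) K) (hN : (uni W Z).card < N) (hd : Disjoint W Z) (hc : Clq G Z)
    (hZ : Z.card = K) (hw : W.card = q + 1) (h2 : 2 ≤ q) (hT : Tri G W) :
    eb G (uni W Z) ≤ q ^ 2 := by
  obtain ⟨Z1, hZ1, -, -, hj, hle, heb, -⟩ := strip h hd hc hZ (by omega)
  rw [← heb]
  have hcard := Fb_card hj.dis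
  have hN1 : (uni W Z1).card < N := lt_of_le_of_lt (card_le_card (Fb_sub hZ1)) hN
  rcases Nat.lt_or_ge Z1.card q with hlt | hge
  · have h1 := deg_bound hj.cr
    rw [hcard, hw] at h1
    have h3 : (Z1.card : ℤ) + 1 ≤ q := by exact_mod_cast hlt
    have h4 : (0 : ℤ) ≤ q := by positivity
    have h5 : (eb G (uni W Z1) : ℤ) ≤ (q : ℤ) ^ 2 := by
      push_cast at h1
      nlinarith
    exact_mod_cast h5
  · have hq : Z1.card = q := by omega
    have hw1 : W.card = Z1.card + 1 := by omega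
    have h5 := (lem5 ih hj hN1 (p6_all ih _ hN1.le) hw1).1 hT
    have h6 := jay_eb hj
    have h7 : (eb G W : ℤ) ≤ ff G (uni W Z1) Z1.card W :=
      eb_le_ff hj.cr (fun a ha => mem_uni.2 (Or.inl ha))
    have h8 := eb_tri hT
    have h9 : (3 : ℤ) ≤ eb G W := by exact_mod_cast h8
    rw [hw] at h5 h6
    push_cast at h5 h6
    have h10 : (q : ℤ) ≤ ff G (uni W Z1) Z1.card W := by
      rcases Nat.lt_or_ge q 3 with hq3 | hq3
      · have : (q : ℤ) ≤ 3 := by exact_mod_cast hq3.le
        linarith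
      · have : (3 : ℤ) ≤ q := by exact_mod_cast hq3
        linarith
    have h11 : (eb G (uni W Z1) : ℤ) ≤ (q : ℤ) ^ 2 := by
      rw [h6]
      nlinarith
    exact_mod_cast h11

end Pool.Agent.O3
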