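import Pool.Agent.Lib_helper92.O3.B.Fa
import Pool.Agent.Lib_helper92.O3.B.Fb

set_option autoImplicit false
set_option linter.unusedSectionVars false
set_option linter.unusedVariables false

open scoped Classical
open Finset
open Pool.Agent.O2 (PC Cb CrOn pr ms dg nd Joined)

namespace Pool.Agent.O3

variable {V : Type}

theorem Fc_clq {G : SimpleGraph V} {X : Finset V} (h : ms G X = 0) : Clq G X := by
  intro a ha b hb hab
  by_contra hadj
  unfold ms at h
  rw [card_eq_zero] at h
  have : (a, b) ∈ ((X ×ˢ X).filter fun p => p.1 ≠ p.2 ∧ ¬ G.Adj p.1 p.2) := by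
    rw [mem_filter, mem_product]
    exact ⟨⟨ha, hb⟩, hab, hadj⟩
  rw [h] at this
  exact notMem_empty _ this

theorem f4 {N K q : ℕ} {G : SimpleGraph V} {S : Finset V} (ih : IH N) (h : CrOn G S K)
    (hN : S.card < N) (hc : S.card = K + 1 + q) (h2 : 2 ≤ q) (hq : q ≤ K)
    (he : q ^ 2 + 1 ≤ eb G S) : ¬ Tri G S := by
  rintro ⟨a, ha, b, hb, c, hcS, hI⟩
  obtain ⟨hab, hac, hbc, nab, nac, nbc⟩ := hI
  have hC : ({a, b, c} : Finset V) ⊆ S := by
    intro x hx
    simp only [mem_insert, mem_singleton] at hx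
    rcases hx with rfl | rfl | rfl
    · exact ha
    · exact hb
    · exact hcS
  have hi : ∀ x ∈ ({a, b, c} : Finset V), ∀ y ∈ ({a, b, c} : Finset V), ¬ G.Adj x y := by
    intro x hx y hy
    simp only [mem_insert, mem_singleton] at hx hy
    rcases hx with rfl | rfl | rfl <;> rcases hy with rfl | rfl | rfl
    · exact G.irrefl
    · exact nab
    · exact nac
    · exact fun h' => nab h'.symm
    · exact G.irrefl
    · exact nbc
    · exact fun h' => nac h'.symm
    · exact fun h' => nbc h'.symm
    · exact G.irrefl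
  obtain ⟨S', hS', hcr⟩ := rm_ind h.1 (by omega) hC hi
  have hsub : S' ⊆ S := hS'.trans sdiff_subset
  have hmem : ∀ x, x ∈ S → x ∈ ({a, b, c} : Finset V) → x ∈ S \ S' := by
    intro x hx hxC
    rw [mem_sdiff]
    exact ⟨hx, fun hxS => (mem_sdiff.mp (hS' hxS)).2 hxC⟩
  have hT : Tri G (S \ S') := by
    refine ⟨a, hmem a ha (by simp), b, hmem b hb (by simp), c, hmem c hcS (by simp),
      hab, hac, hbc, nab, nac, nbc⟩
  by_cases hk : S'.card = K
  · have hg := (Pool.Agent.O2.gallai S' (K - 1) 0 hcr (by omega)).2.1 rfl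
    have hu : uni (S \ S') S' = S := by
      unfold uni
      exact sdiff_union_of_subset hsub
    have hw : (S \ S').card = q + 1 := by
      rw [card_sdiff_of_subset hsub]
      omega
    have := f4b (W := S \ S') (Z := S') ih (by rw [hu]; exact h) (by rw [hu]; exact hN)
      sdiff_disjoint (Fc_clq hg) hk hw h2 hT
    rw [hu] at this
    omega
  · have := f4a ih h hN.le hc h2 hq hsub hcr hT hk
    omega

end Pool.Agent.O3
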