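import Pool.Agent.Lib_helper92.O3.B.Ba

set_option autoImplicit false
set_option linter.unusedSectionVars false
set_option linter.unusedVariables false

open scoped Classical
open Finset
open Pool.Agent.O2 (PC Cb CrOn pr ms dg nd Joined)

namespace Pool.Agent.O3

variable {V : Type}

theorem Ge_pair {G : SimpleGraph V} {a a' : V} (h : a ≠ a') (hn : ¬ G.Adj a a') :
    eb G {a, a'} = 1 := by
  have h1 := eb_dg G {a, a'}
  have h2 : dg G {a, a'} a = 0 := by
    unfold dg
    rw [card_eq_zero, filter_eq_empty_iff]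
    intro x hx
    simp only [mem_insert, mem_singleton] at hx
    rcases hx with rfl | rfl
    · exact G.irrefl
    · exact hn
  have h3 : dg G {a, a'} a' = 0 := by
    unfold dg
    rw [card_eq_zero, filter_eq_empty_iff]
    intro x hx
    simp only [mem_insert, mem_singleton] at hx
    rcases hx with rfl | rfl
    · exact fun h => hn h.symm
    · exact G.irrefl
  rw [sum_pair h, h2, h3, card_pair h] at h1
  push_cast at h1
  omega

theorem Ge_dg {G : SimpleGraph V} {v b b' : V} (h : b ≠ b') :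
    dg G {b, b'} v = (if G.Adj v b then 1 else 0) + (if G.Adj v b' then 1 else 0) := by
  unfold dg
  rw [filter_insert, filter_singleton]
  split_ifs <;> simp [h]

theorem four {G : SimpleGraph V} {W : Finset V} (hT : ¬ Tri G W) {a a' b b' : V} (ha : a ∈ W)
    (ha' : a' ∈ W) (hb : b ∈ W) (hb' : b' ∈ W) (h4 : Dis4 G a a' b b')
    (he : eb G {a, a', b, b'} = 4) :
    (G.Adj a b ∧ G.Adj a' b' ∧ ¬ G.Adj a b' ∧ ¬ G.Adj a' b) ∨
    (G.Adj a b' ∧ G.Adj a' b ∧ ¬ G.Adj a b ∧ ¬ G.Adj a' b') := by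
  obtain ⟨e1, e2, e3, e4, e5, e6, e7, e8⟩ := h4
  have hd : Disjoint ({a, a'} : Finset V) {b, b'} := by
    rw [disjoint_left]
    intro x hx hx'
    simp only [mem_insert, mem_singleton] at hx hx'
    rcases hx with rfl | rfl <;> rcases hx' with h | h <;> simp_all
  have h1 := eb_union (G := G) hd
  have hu : ({a, a'} : Finset V) ∪ {b, b'} = {a, a', b, b'} := by
    ext x
    simp only [mem_union, mem_insert, mem_singleton]
    tauto
  rw [hu, he, Ge_pair e1 e7, Ge_pair e2 e8, card_pair e1, card_pair e2,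
    Pool.Agent.O2.pr_sum, sum_pair e1, Ge_dg e2, Ge_dg e2] at h1
  have t1 : ¬ (¬ G.Adj a b ∧ ¬ G.Adj a b') := fun h =>
    hT ⟨a, ha, b, hb, b', hb', e3, e4, e2, h.1, h.2, e8⟩
  have t2 : ¬ (¬ G.Adj a' b ∧ ¬ G.Adj a' b') := fun h =>
    hT ⟨a', ha', b, hb, b', hb', e5, e6, e2, h.1, h.2, e8⟩
  have t3 : ¬ (¬ G.Adj a b ∧ ¬ G.Adj a' b) := fun h =>
    hT ⟨a, ha, a', ha', b, hb, e1, e3, e5, e7, h.1, h.2⟩
  have t4 : ¬ (¬ G.Adj a b' ∧ ¬ G.Adj a' b') := fun h =>
    hT ⟨a, ha, a', ha', b', hb', e1, e4, e6, e7, h.1, h.2⟩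
  by_cases p1 : G.Adj a b <;> by_cases p2 : G.Adj a b' <;> by_cases p3 : G.Adj a' b <;>
    by_cases p4 : G.Adj a' b' <;> simp_all

end Pool.Agent.O3
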