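import Pool.Agent.Lib_helper92.O3.B.Kb

set_option autoImplicit false
set_option linter.unusedSectionVars false
set_option linter.unusedVariables false

open scoped Classical
open Finset
open Pool.Agent.O2 (PC Cb CrOn pr ms dg nd Joined)

namespace Pool.Agent.O3

variable {V : Type}

theorem La_mul {a b : ℤ} (ha : 1 ≤ a) (hb : 1 ≤ b) : a + b - 1 ≤ a * b := by
  nlinarith [mul_nonneg (sub_nonneg.2 ha) (sub_nonneg.2 hb)]

theorem lem2 {K N : ℕ} {G : SimpleGraph V} {S W : Finset V} (ih : IH N) (hN : S.card ≤ N)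
    (h3 : S.card ≤ 3 * K + 1) (h : CrOn G S K) (hW : W ⊆ S) (hR : K + 1 ≤ (S \ W).card)
    (hn : Non G W) : (W.card : ℤ) - 2 ≤ ff G S K W := by
  have hne : W.Nonempty := by
    obtain ⟨a, ha, -⟩ := hn
    exact ⟨a, ha⟩
  obtain ⟨W', hW', ρ, q, h1, h2, hc, hcase⟩ := keyn ih hN h3 h hW hne hR
  have h0 : 0 ≤ ff G S K (W \ W') := ff_nonneg h (sdiff_subset.trans hW)
  have hle : (W'.card : ℤ) ≤ W.card := by exact_mod_cast card_le_card hW'
  have hcz : (W'.card : ℤ) = q + ρ := by exact_mod_cast hc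
  have hρ : (1 : ℤ) ≤ ρ := by exact_mod_cast h1
  have ha : (1 : ℤ) ≤ W'.card := by
    have : (0 : ℤ) ≤ q := Int.natCast_nonneg q
    linarith
  have hm : (0 : ℤ) ≤ (W.card : ℤ) - W'.card := by linarith
  have ham : (W.card : ℤ) - W'.card ≤ W'.card * ((W.card : ℤ) - W'.card) := by
    nlinarith [mul_nonneg (sub_nonneg.2 ha) hm]
  rcases hcase with ⟨hq, hclq, hb⟩ | ⟨hq, hqK, hb⟩ | ⟨p, hp, hq, hb⟩
  · have hlt : (W'.card : ℤ) + 1 ≤ W.card := by
      by_contra hcon
      have he : W' = W := eq_of_subset_of_card_le hW' (by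
        have : (W.card : ℤ) ≤ W'.card := by linarith
        exact_mod_cast this)
      obtain ⟨a, ha, b, hb, hab, hnab⟩ := hn
      rw [he] at hclq
      exact hnab (hclq a ha b hb hab)
    have := La_mul ha (b := (W.card : ℤ) - W'.card) (by linarith)
    linarith
  · have hqz : (1 : ℤ) ≤ q := by exact_mod_cast (by omega : 1 ≤ q)
    have := La_mul hρ hqz
    linarith
  · have hK : (1 : ℤ) ≤ K := by exact_mod_cast h1.trans h2
    have hpz : (1 : ℤ) ≤ p := by exact_mod_cast hp
    have hqz : (q : ℤ) = K + p := by exact_mod_cast hq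
    have e1 := La_mul hK hpz
    have e2 := La_mul hρ (b := (K : ℤ) + p) (by linarith)
    linarith

end Pool.Agent.O3
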