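import Pool.Agent.Lib_helper92.O3.B.Kb
import Pool.Agent.Lib_helper92.O3.B.La

set_option autoImplicit false
set_option linter.unusedSectionVars false
set_option linter.unusedVariables false

open scoped Classical
open Finset
open Pool.Agent.O2 (PC Cb CrOn pr ms dg nd Joined)

namespace Pool.Agent.O3

variable {V : Type}

theorem Oa_two {W C : Finset V} {x y : V} (hC : C ⊆ W) (hx : x ∈ W) (hy : y ∈ W) (hxy : x ≠ y)
    (hxC : x ∉ C) (hyC : y ∉ C) : C.card + 2 ≤ W.card := by
  have h1 : insert x (insert y C) ⊆ W := by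
    intro v hv
    rcases mem_insert.1 hv with rfl | hv
    · exact hx
    · rcases mem_insert.1 hv with rfl | hv
      · exact hy
      · exact hC hv
  have h2 := card_le_card h1
  have h3 : x ∉ insert y C := by
    intro h
    rcases mem_insert.1 h with h | h
    · exact hxy h
    · exact hxC h
  rw [card_insert_of_notMem h3, card_insert_of_notMem hyC] at h2
  omega

theorem Oa_clq {G : SimpleGraph V} {W C : Finset V} (hT : Tri G W ∨ Two G W) (hC : C ⊆ W)
    (hc : Clq G C) : C.card + 2 ≤ W.card := by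
  rcases hT with ⟨a, ha, b, hb, c, hc', hab, hac, hbc, h1, h2, h3⟩ |
    ⟨a, ha, a', ha', b, hb, b', hb', haa, hbb, h1, h2, h3, h4, h5, h6⟩
  · by_cases haC : a ∈ C
    · have hbC : b ∉ C := fun h => h1 (hc a haC b h hab)
      have hcC : c ∉ C := fun h => h2 (hc a haC c h hac)
      exact Oa_two hC hb hc' hbc hbC hcC
    · by_cases hbC : b ∈ C
      · have hcC : c ∉ C := fun h => h3 (hc b hbC c h hbc)
        exact Oa_two hC ha hc' hac haC hcC
      · exact Oa_two hC ha hb hab haC hbC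
  · by_cases haC : a ∈ C
    · have haC' : a' ∉ C := fun h => h5 (hc a haC a' h haa)
      by_cases hbC : b ∈ C
      · have hbC' : b' ∉ C := fun h => h6 (hc b hbC b' h hbb)
        exact Oa_two hC ha' hb' h4 haC' hbC'
      · exact Oa_two hC ha' hb h3 haC' hbC
    · by_cases hbC : b ∈ C
      · have hbC' : b' ∉ C := fun h => h6 (hc b hbC b' h hbb)
        exact Oa_two hC ha hb' h2 haC hbC'
      · exact Oa_two hC ha hb h1 haC hbC

/-- a set with at most one element leaves a non-edge -/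
theorem Oa_non {G : SimpleGraph V} {W C : Finset V} (hT : Tri G W ∨ Two G W) (hc : C.card ≤ 1) :
    Non G (W \ C) := by
  have key : ∀ x y : V, x ∈ C → y ∈ C → x = y := fun x y hx hy =>
    card_le_one.1 hc x hx y hy
  rcases hT with ⟨a, ha, b, hb, c, hc', hab, hac, hbc, h1, h2, h3⟩ |
    ⟨a, ha, a', ha', b, hb, b', hb', haa, hbb, h1, h2, h3, h4, h5, h6⟩
  · by_cases haC : a ∈ C
    · have hbC : b ∉ C := fun h => hab (key a b haC h)
      have hcC : c ∉ C := fun h => hac (key a c haC h)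
      exact ⟨b, mem_sdiff.2 ⟨hb, hbC⟩, c, mem_sdiff.2 ⟨hc', hcC⟩, hbc, h3⟩
    · by_cases hbC : b ∈ C
      · have hcC : c ∉ C := fun h => hbc (key b c hbC h)
        exact ⟨a, mem_sdiff.2 ⟨ha, haC⟩, c, mem_sdiff.2 ⟨hc', hcC⟩, hac, h2⟩
      · exact ⟨a, mem_sdiff.2 ⟨ha, haC⟩, b, mem_sdiff.2 ⟨hb, hbC⟩, hab, h1⟩
  · by_cases haC : a ∈ C
    · have hbC : b ∉ C := fun h => h1 (key a b haC h)
      have hbC' : b' ∉ C := fun h => h2 (key a b' haC h)
      exact ⟨b, mem_sdiff.2 ⟨hb, hbC⟩, b', mem_sdiff.2 ⟨hb', hbC'⟩, hbb, h6⟩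
    · by_cases haC' : a' ∈ C
      · have hbC : b ∉ C := fun h => h3 (key a' b haC' h)
        have hbC' : b' ∉ C := fun h => h4 (key a' b' haC' h)
        exact ⟨b, mem_sdiff.2 ⟨hb, hbC⟩, b', mem_sdiff.2 ⟨hb', hbC'⟩, hbb, h6⟩
      · exact ⟨a, mem_sdiff.2 ⟨ha, haC⟩, a', mem_sdiff.2 ⟨ha', haC'⟩, haa, h5⟩

theorem Oa_arith {K ρ p m e r f : ℤ} (hK2 : 2 ≤ K) (h5 : 2 ≤ ρ) (hpz : 0 ≤ p) (hmz0 : 0 ≤ m)
    (hr : 0 ≤ r) (hT2 : e ≤ K ^ 2 + K * (p + 1) + (p + 1) ^ 2 + 2)
    (hle : (K + (p + 1) + ρ) * (m + (K + (p + 1))) - e + r ≤ f) :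
    2 * (m + (K + (p + 1)) + ρ) - 4 ≤ f := by
  have h1 : (K + (p + 1) + ρ) * (m + (K + (p + 1))) -
      (K ^ 2 + K * (p + 1) + (p + 1) ^ 2 + 2) - (2 * (m + (K + (p + 1)) + ρ) - 4) =
      m * (K - 2) + m * p + m * (ρ - 2) + 3 * m + (K - 2) * p + (K - 2) * (ρ - 2) + (K - 2) +
      (ρ - 2) * p + 2 * p + (ρ - 2) := by ring
  have h2 : 0 ≤ m * (K - 2) := mul_nonneg hmz0 (by linarith)
  have h3 : 0 ≤ m * p := mul_nonneg hmz0 hpz
  have h4 : 0 ≤ m * (ρ - 2) := mul_nonneg hmz0 (by linarith)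
  have h6 : 0 ≤ (K - 2) * p := mul_nonneg (by linarith) hpz
  have h7 : 0 ≤ (K - 2) * (ρ - 2) := mul_nonneg (by linarith) (by linarith)
  have h8 : 0 ≤ (ρ - 2) * p := mul_nonneg (by linarith) hpz
  linarith

theorem Oa_arith' {K p m e r f : ℤ} (hK2 : 1 ≤ K) (hm : 1 ≤ m) (hpz : 0 ≤ p)
    (hr : 0 ≤ r) (hT2 : e ≤ K ^ 2 + K * (p + 1) + (p + 1) ^ 2 + 2)
    (hle : (K + (p + 1) + 1) * (m + (K + (p + 1))) - e + r ≤ f) :
    2 * (m + (K + (p + 1)) + 1) - 4 ≤ f := by
  have h1 : (K + (p + 1) + 1) * (m + (K + (p + 1))) -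
      (K ^ 2 + K * (p + 1) + (p + 1) ^ 2 + 2) - (2 * (m + (K + (p + 1)) + 1) - 4) =
      ((K - 1) + p + 1) * (m - 1) + (K - 1) + (K - 1) * p + p := by ring
  have h2 : 0 ≤ ((K - 1) + p + 1) * (m - 1) := mul_nonneg (by linarith) (by linarith)
  have h3 : 0 ≤ (K - 1) * p := mul_nonneg (by linarith) hpz
  linarith

theorem Oa_arith2 {q ρ m e r f : ℤ} (hq : 2 ≤ q) (hρ : 1 ≤ ρ) (hm : 1 ≤ m) (hr : 0 ≤ r)
    (he : e ≤ q ^ 2 + 1) (hle : (q + ρ) * (m + q) - e + r ≤ f) :
    2 * (m + q + ρ) - 4 ≤ f := by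
  have h1 : (q + ρ) * (m + q) - (q ^ 2 + 1) - (2 * (m + q + ρ) - 4) =
      (q + ρ - 2) * (m - 1) + (q - 1) * (ρ - 1) := by ring
  have h2 : 0 ≤ (q + ρ - 2) * (m - 1) := mul_nonneg (by linarith) (by linarith)
  have h3 : 0 ≤ (q - 1) * (ρ - 1) := mul_nonneg (by linarith) (by linarith)
  linarith

theorem out6 {K N : ℕ} {G : SimpleGraph V} {S W : Finset V} {ψ : V → Fin K} (ih : IH N)
    (hN : S.card ≤ N) (h3 : S.card ≤ 3 * K + 1) (h : CrOn G S K) (hW : W ⊆ S)
    (hR : K + 1 ≤ (S \ W).card) (hψ : PC G (S \ W) ψ) (hT : Tri G W ∨ Two G W) :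
    2 * (W.card : ℤ) - 4 ≤ ff G S K W ∨
    (2 * (W.card : ℤ) - 5 ≤ ff G S K W ∧ ∃ (Z' : Finset (Fin K)) (q : ℕ),
      CrOn (con G (S \ W) ψ) (W.disjSum Z') K ∧ W.card + Z'.card = K + 1 + q ∧ 2 ≤ q ∧ q ≤ K ∧
      (ff G S K W ≤ 2 * (W.card : ℤ) - 5 →
        q ^ 2 + 1 ≤ eb (con G (S \ W) ψ) (W.disjSum Z'))) ∨
    E2 G (S \ W) ψ W := by
  have hRne : (S \ W).Nonempty := card_pos.1 (by omega)
  have hK : 0 < K := by
    obtain ⟨v, -⟩ := hRne
    exact (ψ v).pos
  obtain ⟨W', hW', Z', hWne, hZne, hcr, hff⟩ := key hK h hW hRne hψ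
  set H := con G (S \ W) ψ with hH
  have hS : W.card + (S \ W).card = S.card := by
    have h1 := card_sdiff_add_card_eq_card hW
    omega
  have hZK : Z'.card ≤ K := by
    have h1 := card_le_univ Z'
    rwa [Fintype.card_fin] at h1
  have hZ1 : 1 ≤ Z'.card := card_pos.2 hZne
  have hW1 : 1 ≤ W'.card := card_pos.2 hWne
  have hWW : W'.card ≤ W.card := card_le_card hW'
  have hm : (W \ W').card + W'.card = W.card := card_sdiff_add_card_eq_card hW'
  have hcard : (W'.disjSum Z').card = W'.card + Z'.card := card_disjSum _ _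
  have hge : K + 1 ≤ (W'.disjSum Z').card := hcr.card_ge
  rw [hcard] at hge
  obtain ⟨q, hq⟩ := Nat.exists_eq_add_of_le hge
  obtain ⟨ρ, hρ⟩ := Nat.exists_eq_add_of_le (show Z'.card ≤ K + 1 by omega)
  have hρ1 : 1 ≤ ρ := by omega
  have hwq : W'.card = q + ρ := by omega
  -- the sum
  have hs : (0 : ℤ) ≤ ∑ v ∈ W', ((dg G (S \ W) v : ℤ) - (hit G (S \ W) ψ v ∩ Z').card) := by
    apply sum_nonneg
    intro v _
    have h1 : (hit G (S \ W) ψ v ∩ Z').card ≤ (hit G (S \ W) ψ v).card :=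
      card_le_card inter_subset_left
    have h2 := hit_card_le G (S \ W) ψ v
    have h3 : ((hit G (S \ W) ψ v ∩ Z').card : ℤ) ≤ dg G (S \ W) v := by exact_mod_cast h1.trans h2
    linarith
  have hr : (0 : ℤ) ≤ ff G S K (W \ W') := ff_nonneg h (sdiff_subset.trans hW)
  have hga := O2.gallai (G := H) (W'.disjSum Z') K q hcr (by rw [hcard, hq])
  have hebq : eb H (W'.disjSum Z') ≤ q ^ 2 + 1 := by
    have h1 := two_eb H (W'.disjSum Z')
    have h2 := hga.2.2
    omega
  -- everything in integers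
  have hZq : (Z'.card : ℤ) = K + 1 - ρ := by
    have : ((Z'.card + ρ : ℕ) : ℤ) = ((K + 1 : ℕ) : ℤ) := by exact_mod_cast hρ.symm
    push_cast at this
    linarith
  have hWq : (W'.card : ℤ) = q + ρ := by exact_mod_cast hwq
  have hmz : (W.card : ℤ) = (W \ W').card + W'.card := by exact_mod_cast hm.symm
  obtain ⟨m, hm'⟩ : ∃ m : ℕ, (W \ W').card = m := ⟨_, rfl⟩
  rw [hm'] at hm hmz
  have hw : (W.card : ℤ) = m + q + ρ := by rw [hmz, hWq]; ring
  have hmain : ff G S K W = (q + ρ : ℤ) * (m + q) - eb H (W'.disjSum Z') +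
      ∑ v ∈ W', ((dg G (S \ W) v : ℤ) - (hit G (S \ W) ψ v ∩ Z').card) + ff G S K (W \ W') := by
    rw [hff, hZq, hWq, hw]
    ring
  have hle : (q + ρ : ℤ) * (m + q) - eb H (W'.disjSum Z') + ff G S K (W \ W') ≤ ff G S K W := by
    rw [hmain]; linarith
  have hρ1z : (1 : ℤ) ≤ ρ := by exact_mod_cast hρ1
  have hqz : (0 : ℤ) ≤ q := by positivity
  have hmz0 : (0 : ℤ) ≤ m := by positivity
  -- the case m = 0, ρ = 1
  by_cases hE : m = 0 ∧ ρ = 1
  · right; right
    have h1 : W' = W := by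
      apply eq_of_subset_of_card_le hW'
      omega
    have h2 : Z' = univ := by
      apply eq_univ_of_card
      rw [Fintype.card_fin]
      omega
    unfold E2
    rw [h1, h2] at hcr
    exact hcr
  · rcases Nat.lt_or_ge q 2 with hq2 | hq2
    · -- q = 0
      have hq0 : q = 0 := by
        have := hga.1
        omega
      subst hq0
      have heb0 : eb H (W'.disjSum Z') = 0 := by
        have h1 := two_eb H (W'.disjSum Z')
        have h2 := hga.2.1 rfl
        omega
      left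
      rw [heb0] at hle
      have hcl : Clq G W' := by
        have h1 : Clq H (W'.disjSum Z') := eb_clq.1 heb0
        intro a ha b hb hab
        exact h1 (Sum.inl a) (inl_mem_disjSum.2 ha) (Sum.inl b) (inl_mem_disjSum.2 hb)
          (fun e => hab (Sum.inl_injective e))
      have hc2 := Oa_clq hT hW' hcl
      have hm2 : (2 : ℤ) ≤ m := by
        have : 2 ≤ m := by omega
        exact_mod_cast this
      rw [hw]
      push_cast at hle ⊢
      rcases Nat.lt_or_ge ρ 2 with h4 | h4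
      · have hρe : ρ = 1 := by omega
        have hnon : Non G (W \ W') := Oa_non hT (by omega)
        have h5 := lem2 ih hN h3 h (sdiff_subset.trans hW)
          (by
            have h6 : S \ W ⊆ S \ (W \ W') := sdiff_subset_sdiff Subset.rfl sdiff_subset
            exact hR.trans (card_le_card h6)) hnon
        rw [hm'] at h5
        subst hρe
        push_cast at hle ⊢
        linarith
      · have h5 : (2 : ℤ) ≤ ρ := by exact_mod_cast h4
        nlinarith [mul_nonneg (sub_nonneg.2 h5) (sub_nonneg.2 hm2)]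
    · have hq2z : (2 : ℤ) ≤ q := by exact_mod_cast hq2
      rcases Nat.lt_or_ge K q with hqK | hqK
      · -- q > K
        left
        obtain ⟨p, hp⟩ := Nat.exists_eq_add_of_lt hqK
        have hT' : eb H (W'.disjSum Z') ≤ T K (p + 1) := by
          apply ih _ H _ K (p + 1) hcr
          · rw [hcard, hq, hp]; ring
          · omega
          · omega
          · rw [hcard]; omega
        have hT2 : (eb H (W'.disjSum Z') : ℤ) ≤
            (K : ℤ) ^ 2 + K * (p + 1) + (p + 1) ^ 2 + 2 := by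
          have : ((T K (p + 1) : ℕ) : ℤ) = (K : ℤ) ^ 2 + K * (p + 1) + (p + 1) ^ 2 + 2 := by
            unfold T; push_cast; ring
          rw [← this]
          exact_mod_cast hT'
        have hqp : (q : ℤ) = K + (p + 1) := by rw [hp]; push_cast; ring
        have hKz : (1 : ℤ) ≤ K := by exact_mod_cast hK
        have hpz : (0 : ℤ) ≤ p := by positivity
        rw [hw]
        rw [hqp] at hle ⊢
        rcases Nat.lt_or_ge ρ 2 with h4 | h4
        · have hρe : ρ = 1 := by omega
          have hm1 : (1 : ℤ) ≤ m := by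
            have : 1 ≤ m := by
              rcases Nat.eq_zero_or_pos m with h5 | h5
              · exact absurd ⟨h5, hρe⟩ hE
              · exact h5
            exact_mod_cast this
          subst hρe
          push_cast at hle ⊢
          exact Oa_arith' hKz hm1 hpz hr hT2 hle
        · have h5 : (2 : ℤ) ≤ ρ := by exact_mod_cast h4
          have hK2 : (2 : ℤ) ≤ K := by
            have : 2 ≤ K := by omega
            exact_mod_cast this
          exact Oa_arith hK2 h5 hpz hmz0 hr hT2 hle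
      · -- 2 ≤ q ≤ K
        have hebz : (eb H (W'.disjSum Z') : ℤ) ≤ q ^ 2 + 1 := by exact_mod_cast hebq
        rcases Nat.eq_zero_or_pos m with hm0 | hm0
        · right; left
          have h1 : W' = W := by
            apply eq_of_subset_of_card_le hW'
            omega
          have h5 : (2 : ℤ) ≤ ρ := by
            have : 2 ≤ ρ := by
              by_contra h6
              exact hE ⟨hm0, by omega⟩
            exact_mod_cast this
          subst hm0
          push_cast at hle hw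
          subst h1
          constructor
          · rw [hw]
            nlinarith [mul_nonneg (sub_nonneg.2 hq2z) (sub_nonneg.2 h5)]
          · refine ⟨Z', q, hcr, by omega, hq2, hqK, ?_⟩
            intro h6
            rw [hw] at h6
            have : ((q ^ 2 + 1 : ℕ) : ℤ) ≤ eb H (W'.disjSum Z') := by
              push_cast
              nlinarith [mul_nonneg (sub_nonneg.2 hq2z) (sub_nonneg.2 h5)]
            exact_mod_cast this
        · left
          have hm1 : (1 : ℤ) ≤ m := by exact_mod_cast hm0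
          rw [hw]
          exact Oa_arith2 hq2z hρ1z hm1 hr hebz hle

end Pool.Agent.O3
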