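import Pool.Agent.Lib_helper92.O3.B.Sa
import Pool.Agent.Lib_helper92.O3.B.Cb

set_option autoImplicit false
set_option linter.unusedSectionVars false
set_option linter.unusedVariables false

open scoped Classical
open Finset
open Pool.Agent.O2 (PC Cb CrOn pr ms dg nd Joined)

namespace Pool.Agent.O3

variable {V : Type}

theorem Sb_ff {K : ℕ} {G : SimpleGraph V} {S W : Finset V} {ψ : V → Fin K} (hW : W ⊆ S) :
    ff G S K W = ff (con G (S \ W) ψ) (W.disjSum univ) K (W.map ⟨Sum.inl, Sum.inl_injective⟩) +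
      sur G (S \ W) ψ W := by
  unfold ff sur
  rw [eb_con_inl, sum_map, add_assoc, ← sum_add_distrib]
  congr 1
  refine sum_congr rfl fun v hv => ?_
  have h1 : dg G S v = dg G W v + dg G (S \ W) v := by
    rw [← O2.dg_union disjoint_sdiff v]
    congr 1
    exact (union_sdiff_of_subset hW).symm
  have h2 : dg (con G (S \ W) ψ) (W.disjSum univ)
      ((⟨Sum.inl, Sum.inl_injective⟩ : V ↪ V ⊕ Fin K) v) =
      dg G W v + (hit G (S \ W) ψ v).card := by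
    have h3 := dg_con_inl G (S \ W) W ψ univ v
    rw [inter_univ] at h3
    exact h3
  rw [h1, h2]
  push_cast
  ring

theorem e2jay {K : ℕ} {G : SimpleGraph V} {S W : Finset V} {ψ : V → Fin K} (hW : W ⊆ S)
    (he : E2 G (S \ W) ψ W) (hw : 2 ≤ W.card) :
    ∃ Z1 : Finset (Fin K), (∀ i ∉ Z1, ∀ v ∈ W, i ∈ hit G (S \ W) ψ v) ∧
      (∀ i ∈ Z1, ∃ v ∈ W, i ∉ hit G (S \ W) ψ v) ∧
      Jay (con G (S \ W) ψ) Z1.card (Z1.map ⟨Sum.inr, Sum.inr_injective⟩)
        (W.map ⟨Sum.inl, Sum.inl_injective⟩) ∧ Z1.card + 1 ≤ W.card ∧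
      ff G S K W = ff (con G (S \ W) ψ) (uni (W.map ⟨Sum.inl, Sum.inl_injective⟩)
        (Z1.map ⟨Sum.inr, Sum.inr_injective⟩)) Z1.card (W.map ⟨Sum.inl, Sum.inl_injective⟩) +
        sur G (S \ W) ψ W := by
  have h0 : CrOn (con G (S \ W) ψ) (uni (W.map ⟨Sum.inl, Sum.inl_injective⟩)
      ((univ : Finset (Fin K)).map ⟨Sum.inr, Sum.inr_injective⟩)) K := by
    rw [disjSum_eq]
    exact he
  have hd : Disjoint (W.map ⟨Sum.inl, Sum.inl_injective⟩)
      ((univ : Finset (Fin K)).map ⟨Sum.inr, Sum.inr_injective⟩) := by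
    rw [disjoint_left]
    intro x hx hx'
    obtain ⟨v, _, rfl⟩ := mem_map.1 hx
    obtain ⟨i, _, hi⟩ := mem_map.1 hx'
    simp at hi
  have hc : ((univ : Finset (Fin K)).map
      (⟨Sum.inr, Sum.inr_injective⟩ : Fin K ↪ V ⊕ Fin K)).card = K := by
    rw [card_map, card_univ, Fintype.card_fin]
  have hw' : 2 ≤ (W.map (⟨Sum.inl, Sum.inl_injective⟩ : V ↪ V ⊕ Fin K)).card := by
    rw [card_map]
    exact hw
  obtain ⟨Z, hZ, h1, h2, h3, h4, h5, h6⟩ := strip h0 hd (clq_con univ) hc hw'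
  have hZ1 : ((univ.filter fun i : Fin K => (Sum.inr i : V ⊕ Fin K) ∈ Z).map
      (⟨Sum.inr, Sum.inr_injective⟩ : Fin K ↪ V ⊕ Fin K)) = Z := by
    ext x
    constructor
    · intro hx
      obtain ⟨i, hi, rfl⟩ := mem_map.1 hx
      exact (mem_filter.1 hi).2
    · intro hx
      obtain ⟨i, _, hi⟩ := mem_map.1 (hZ hx)
      subst hi
      exact mem_map.2 ⟨i, mem_filter.2 ⟨mem_univ _, hx⟩, rfl⟩
  have hZc : (univ.filter fun i : Fin K => (Sum.inr i : V ⊕ Fin K) ∈ Z).card = Z.card := by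
    have := congrArg card hZ1
    rwa [card_map] at this
  refine ⟨univ.filter fun i : Fin K => (Sum.inr i : V ⊕ Fin K) ∈ Z, ?_, ?_, ?_, ?_, ?_⟩
  · intro i hi v hv
    have h7 : (Sum.inr i : V ⊕ Fin K) ∉ Z := fun h' => hi (mem_filter.2 ⟨mem_univ _, h'⟩)
    exact h1 (Sum.inr i) ((@mem_sdiff _ (_) _ _ _).2 ⟨mem_map.2 ⟨i, mem_univ _, rfl⟩, h7⟩) (Sum.inl v)
      (mem_map.2 ⟨v, hv, rfl⟩)
  · intro i hi
    obtain ⟨x, hx, hxi⟩ := h2 (Sum.inr i) (mem_filter.1 hi).2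
    obtain ⟨v, hv, rfl⟩ := mem_map.1 hx
    exact ⟨v, hv, hxi⟩
  · rw [hZ1, hZc]
    exact h3
  · rw [hZc]
    rw [card_map] at h4
    exact h4
  · rw [hZ1, hZc, ← h6, disjSum_eq]
    exact Sb_ff hW

end Pool.Agent.O3
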