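import Pool.Agent.Lib_helper92.O3.B.Ja

set_option autoImplicit false
set_option linter.unusedSectionVars false
set_option linter.unusedVariables false

open scoped Classical
open Finset
open Pool.Agent.O2 (PC Cb CrOn pr ms dg nd Joined)

namespace Pool.Agent.O3

variable {V : Type}

/-- the sets of non-neighbours in `Z` of `a, b, c` are disjoint -/
theorem Na_ls {G : SimpleGraph V} {Z Y : Finset V} {a b c : V}
    (hz : ∀ z ∈ Z, (G.Adj a z ∧ G.Adj b z) ∨ (G.Adj a z ∧ G.Adj c z) ∨ (G.Adj b z ∧ G.Adj c z))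
    (hY : ∀ z ∈ Z, ¬ (G.Adj a z ∧ G.Adj b z ∧ G.Adj c z) → z ∈ Y) :
    (Ls G Z a).card + (Ls G Z b).card + (Ls G Z c).card ≤ Y.card := by
  have hab : Disjoint (Ls G Z a) (Ls G Z b) := by
    rw [disjoint_left]
    intro z h1 h2
    obtain ⟨h0, h1⟩ := mem_filter.1 h1
    obtain ⟨-, h2⟩ := mem_filter.1 h2
    rcases hz z h0 with h | h | h
    · exact h1 h.1
    · exact h1 h.1
    · exact h2 h.1
  have habc : Disjoint (Ls G Z a ∪ Ls G Z b) (Ls G Z c) := by
    rw [disjoint_left]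
    intro z h1 h2
    obtain ⟨h0, h2⟩ := mem_filter.1 h2
    rcases mem_union.1 h1 with h1 | h1
    · obtain ⟨-, h1⟩ := mem_filter.1 h1
      rcases hz z h0 with h | h | h
      · exact h1 h.1
      · exact h1 h.1
      · exact h2 h.2
    · obtain ⟨-, h1⟩ := mem_filter.1 h1
      rcases hz z h0 with h | h | h
      · exact h1 h.2
      · exact h2 h.2
      · exact h1 h.1
  rw [← card_union_of_disjoint hab, ← card_union_of_disjoint habc]
  apply card_le_card
  intro z h
  rcases mem_union.1 h with h | h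
  · rcases mem_union.1 h with h | h
    · obtain ⟨h0, h⟩ := mem_filter.1 h
      exact hY z h0 fun hc => h hc.1
    · obtain ⟨h0, h⟩ := mem_filter.1 h
      exact hY z h0 fun hc => h hc.2.1
  · obtain ⟨h0, h⟩ := mem_filter.1 h
    exact hY z h0 fun hc => h hc.2.2

theorem Na_card {G : SimpleGraph V} {a b c : V} (h3 : Ind3 G a b c) :
    ({a, b, c} : Finset V).card = 3 := by
  obtain ⟨h1, h2, h3, -, -, -⟩ := h3
  rw [card_insert_of_notMem, card_insert_of_notMem, card_singleton]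
  · rw [mem_singleton]
    exact h3
  · rw [mem_insert, mem_singleton]
    exact fun h => h.elim h1 h2

theorem Na_sum {G : SimpleGraph V} {a b c : V} (h3 : Ind3 G a b c) (f : V → ℤ) :
    ∑ v ∈ ({a, b, c} : Finset V), f v = f a + f b + f c := by
  obtain ⟨h1, h2, h3, -, -, -⟩ := h3
  rw [sum_insert, sum_insert, sum_singleton]
  · ring
  · rw [mem_singleton]
    exact h3
  · rw [mem_insert, mem_singleton]
    exact fun h => h.elim h1 h2

theorem Na_sub {W : Finset V} {a b c : V} (ha : a ∈ W) (hb : b ∈ W) (hc : c ∈ W) :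
    ({a, b, c} : Finset V) ⊆ W := by
  intro v hv
  rcases mem_insert.1 hv with rfl | hv
  · exact ha
  · rcases mem_insert.1 hv with rfl | hv
    · exact hb
    · rw [mem_singleton] at hv
      rw [hv]
      exact hc

theorem Na_eb {G : SimpleGraph V} {W : Finset V} {a b c : V}
    (ha : a ∈ W) (hb : b ∈ W) (hc : c ∈ W) (h3 : Ind3 G a b c) :
    3 * (W.card : ℤ) - 6 ≤ eb G W + (dg G W a + dg G W b + dg G W c) := by
  have hD : ({a, b, c} : Finset V) ⊆ W := Na_sub ha hb hc
  have hd : Disjoint ({a, b, c} : Finset V) (W \ {a, b, c}) := disjoint_sdiff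
  have h1 := eb_union (G := G) hd
  rw [union_sdiff_of_subset hD, Na_card h3] at h1
  have h2 : (pr G {a, b, c} (W \ {a, b, c}) : ℤ) =
      dg G (W \ {a, b, c}) a + dg G (W \ {a, b, c}) b + dg G (W \ {a, b, c}) c := by
    rw [O2.pr_sum, Nat.cast_sum, Na_sum h3]
  have h4 : dg G (W \ {a, b, c}) a ≤ dg G W a := O2.dg_mono sdiff_subset a
  have h5 : dg G (W \ {a, b, c}) b ≤ dg G W b := O2.dg_mono sdiff_subset b
  have h6 : dg G (W \ {a, b, c}) c ≤ dg G W c := O2.dg_mono sdiff_subset c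
  have h7 : 3 ≤ eb G {a, b, c} := by
    apply eb_tri
    exact ⟨a, mem_insert_self _ _, b, mem_insert_of_mem (mem_insert_self _ _), c,
      mem_insert_of_mem (mem_insert_of_mem (mem_singleton_self _)), h3⟩
  have h8 : (W \ {a, b, c}).card + 3 = W.card := by
    rw [← Na_card h3]
    exact card_sdiff_add_card_eq_card hD
  omega

theorem nice3 {G : SimpleGraph V} {q : ℕ} {Z W : Finset V} (h : Jay G q Z W) {a b c : V}
    (ha : a ∈ W) (hb : b ∈ W) (hc : c ∈ W) (h3 : Ind3 G a b c)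
    (hz : ∀ z ∈ Z, (G.Adj a z ∧ G.Adj b z) ∨ (G.Adj a z ∧ G.Adj c z) ∨ (G.Adj b z ∧ G.Adj c z)) :
    3 * (W.card : ℤ) - 6 - q ≤ ff G (uni W Z) q W ∧
    (ff G (uni W Z) q W ≤ 3 * (W.card : ℤ) - 6 - q →
      ∀ z ∈ Z, ¬ (G.Adj a z ∧ G.Adj b z ∧ G.Adj c z)) := by
  have h1 := jay_ff' h
  have h2 : ∑ v ∈ ({a, b, c} : Finset V), ((dg G W v : ℤ) - (Ls G Z v).card) ≤
      ∑ v ∈ W, ((dg G W v : ℤ) - (Ls G Z v).card) := by
    apply sum_le_sum_of_subset_of_nonneg (Na_sub ha hb hc)
    intro v hv _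
    have h3 := (jay_ls h hv).2.1
    omega
  rw [Na_sum h3] at h2
  have h4 := Na_eb ha hb hc h3
  have key : ∀ Y : Finset V, (∀ z ∈ Z, ¬ (G.Adj a z ∧ G.Adj b z ∧ G.Adj c z) → z ∈ Y) →
      3 * (W.card : ℤ) - 6 - Y.card ≤ ff G (uni W Z) q W := by
    intro Y hY
    have h5 := Na_ls hz hY
    omega
  constructor
  · have h6 := key Z fun z hz _ => hz
    rw [h.card] at h6
    exact h6
  · intro hf z hzZ hadj
    have h6 := key (Z.erase z) (by
      intro y hy hn
      refine mem_erase.2 ⟨?_, hy⟩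
      rintro rfl
      exact hn hadj)
    have h7 : (Z.erase z).card + 1 = q := by
      rw [← h.card]
      exact card_erase_add_one hzZ
    omega

end Pool.Agent.O3
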