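import Pool.Agent.Lib_helper92.O3.B.Nb

set_option autoImplicit false
set_option linter.unusedSectionVars false
set_option linter.unusedVariables false

open scoped Classical
open Finset
open Pool.Agent.O2 (PC Cb CrOn pr ms dg nd Joined)

namespace Pool.Agent.O3

variable {V : Type}

/-- a triangle-free graph with an edge and without two disjoint edges is a star -/
theorem Nc_star {G : SimpleGraph V} {W : Finset V} (hT : ¬ Tri G W) (hN : Non G W)
    (h2 : ¬ Two G W) : ∃ a ∈ W, (∃ b ∈ W, b ≠ a ∧ ¬ G.Adj a b) ∧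
      ∀ u ∈ W, ∀ v ∈ W, u ≠ v → ¬ G.Adj u v → u = a ∨ v = a := by
  obtain ⟨a, ha, b, hb, hab, hn⟩ := hN
  by_cases h : ∀ u ∈ W, ∀ v ∈ W, u ≠ v → ¬ G.Adj u v → u = a ∨ v = a
  · exact ⟨a, ha, ⟨b, hb, hab.symm, hn⟩, h⟩
  have hn' : ¬ G.Adj b a := fun h' => hn h'.symm
  push Not at h
  obtain ⟨u, hu, v, hv, huv, hnuv, hua, hva⟩ := h
  have hnvu : ¬ G.Adj v u := fun h' => hnuv h'.symm
  -- the non-edge `u v` contains `b`; let `c` be the other end
  obtain ⟨c, hc, hcb, hca, hnc⟩ : ∃ c ∈ W, c ≠ b ∧ c ≠ a ∧ ¬ G.Adj b c := by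
    by_cases h1 : u = b
    · exact ⟨v, hv, fun e => huv (h1.trans e.symm), hva, by rw [← h1]; exact hnuv⟩
    by_cases h3 : v = b
    · exact ⟨u, hu, h1, hua, by rw [← h3]; exact hnvu⟩
    exact absurd ⟨a, ha, b, hb, u, hu, v, hv, hab, huv, fun e => hua e.symm, fun e => hva e.symm,
      fun e => h1 e.symm, fun e => h3 e.symm, hn, hnuv⟩ h2
  refine ⟨b, hb, ⟨a, ha, hab, hn'⟩, fun s hs t ht hst hnst => ?_⟩
  by_contra hcon
  push Not at hcon
  obtain ⟨hsb, htb⟩ := hcon
  have hnts : ¬ G.Adj t s := fun h' => hnst h'.symm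
  -- `s t` meets `{a, b}` and `{b, c}`, so it is `{a, c}`
  have h5 : s = a ∨ t = a := by
    by_contra h6
    push Not at h6
    exact h2 ⟨a, ha, b, hb, s, hs, t, ht, hab, hst, fun e => h6.1 e.symm, fun e => h6.2 e.symm,
      fun e => hsb e.symm, fun e => htb e.symm, hn, hnst⟩
  have h7 : s = c ∨ t = c := by
    by_contra h6
    push Not at h6
    exact h2 ⟨b, hb, c, hc, s, hs, t, ht, hcb.symm, hst, fun e => hsb e.symm, fun e => htb e.symm,
      fun e => h6.1 e.symm, fun e => h6.2 e.symm, hnc, hnst⟩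
  have h8 : ¬ G.Adj a c := by
    rcases h5 with e1 | e1 <;> rcases h7 with e2 | e2
    · exact absurd (e2.symm.trans e1) hca
    · rw [← e1, ← e2]; exact hnst
    · rw [← e1, ← e2]; exact hnts
    · exact absurd (e2.symm.trans e1) hca
  exact hT ⟨a, ha, b, hb, c, hc, hab, hca.symm, hcb.symm, hn, h8, hnc⟩

theorem nice2 {G : SimpleGraph V} {q : ℕ} {Z W : Finset V} (h : Jay G q Z W)
    (hw : W.card = q + 1) (hn : Nice G Z W) (hT : ¬ Tri G W) (hN : Non G W)
    (hf : ff G (uni W Z) q W ≤ (W.card : ℤ) - 2) :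
    ¬ Two G W ∧ ∀ z ∈ Z, dg G W z ≤ 1 ∨ ∀ v ∈ W, G.Adj v z ↔ nd G W v = 1 := by
  have hw' : (W.card : ℤ) = q + 1 := by rw [hw]; push_cast; ring
  have h2 : ¬ Two G W := by
    rintro ⟨a, ha, a', ha', b, hb, b', hb', h4⟩
    obtain ⟨k1, -, k2, -⟩ := nice4 h hw hn hT ha ha' hb hb' h4
    rw [hw'] at hf
    linarith
  refine ⟨h2, ?_⟩
  obtain ⟨a, ha, ⟨b, hb, hba, hnab⟩, hst⟩ := Nc_star hT hN h2
  -- the leaves
  set B : Finset V := W.filter fun y => y ≠ a ∧ ¬ G.Adj a y with hB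
  have hndB : ∀ v ∈ B, nd G W v = 1 := by
    intro v hv
    obtain ⟨hv1, hv2, hv3⟩ := mem_filter.1 hv
    have : (W.filter fun y => y ≠ v ∧ ¬ G.Adj v y) = {a} := by
      ext y
      simp only [mem_filter, mem_singleton]
      constructor
      · rintro ⟨hy, hyv, hny⟩
        rcases hst v hv1 y hy hyv.symm hny with e | e
        · exact absurd e hv2
        · exact e
      · rintro rfl
        exact ⟨ha, hv2.symm, fun h' => hv3 h'.symm⟩
    unfold nd
    rw [this, card_singleton]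
  have hnd0 : ∀ v ∈ W, v ≠ a → v ∉ B → nd G W v = 0 := by
    intro v hv hva hvB
    unfold nd
    rw [card_eq_zero, filter_eq_empty_iff]
    rintro y hy ⟨hyv, hny⟩
    rcases hst v hv y hy hyv.symm hny with e | e
    · exact hva e
    · subst e
      exact hvB (mem_filter.2 ⟨hv, hva, fun h' => hny h'.symm⟩)
  have hnda : nd G W a = B.card := rfl
  have hBW : B ⊆ W.erase a := fun v hv => by
    obtain ⟨hv1, hv2, -⟩ := mem_filter.1 hv
    exact mem_erase.2 ⟨hv2, hv1⟩
  have hd1 : 1 ≤ B.card := card_pos.2 ⟨b, mem_filter.2 ⟨hb, hba, hnab⟩⟩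
  -- the number of non-edges
  have heb : eb G W = B.card := by
    have k1 := two_eb G W
    rw [Pool.Agent.O2.ms_sum, ← add_sum_erase W _ ha, hnda] at k1
    have k2 : ∑ x ∈ W.erase a, nd G W x = B.card := by
      rw [← sum_sdiff hBW, sum_congr rfl (g := fun _ => 0), sum_congr rfl hndB]
      · simp
      · intro v hv
        obtain ⟨hv1, hv2⟩ := mem_sdiff.1 hv
        exact hnd0 v (mem_of_mem_erase hv1) (ne_of_mem_erase hv1) hv2
    omega
  -- the vertices of `Z` that are not adjacent to the centre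
  have hl1 : 1 ≤ (Ls G Z a).card := (jay_ls h ha).1
  have hLZ : Ls G Z a ⊆ Z := filter_subset _ _
  have hlow1 : ∀ z ∈ Ls G Z a, B ⊆ W.filter fun y => G.Adj z y := by
    intro z hz v hv
    obtain ⟨hz1, hz2⟩ := mem_filter.1 hz
    obtain ⟨hv1, hv2, hv3⟩ := mem_filter.1 hv
    rcases hn a ha v hv1 hv2.symm hv3 z hz1 with h' | h'
    · exact absurd h' hz2
    · exact mem_filter.2 ⟨hv1, h'.symm⟩
  have hlow : ∀ z ∈ Ls G Z a, B.card ≤ dg G W z := fun z hz => card_le_card (hlow1 z hz)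
  have hone : ∀ z ∈ Z, 1 ≤ dg G W z := fun z hz => (jay_dz h hz).1
  have hjf := jay_ff h
  rw [hjf, heb, hw'] at hf
  have hsum : (∑ z ∈ Z, (dg G W z : ℤ)) ≤ q - 1 + B.card := by
    have : ((q : ℤ) + 1) * ((q : ℤ) + 1 - 1 - q) = 0 := by ring
    rw [this] at hf
    linarith
  have hsumN : (∑ z ∈ Z, dg G W z) + 1 ≤ q + B.card := by
    zify
    linarith
  have hsplit : ∑ z ∈ Z, dg G W z = ∑ z ∈ Z \ Ls G Z a, dg G W z + ∑ z ∈ Ls G Z a, dg G W z :=
    (sum_sdiff hLZ).symm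
  have hcard : (Z \ Ls G Z a).card + (Ls G Z a).card = q := by
    rw [card_sdiff_add_card_eq_card hLZ, h.card]
  -- the two lower bounds
  have hs1 : ∑ z ∈ Z \ Ls G Z a, dg G W z =
      (Z \ Ls G Z a).card + ∑ z ∈ Z \ Ls G Z a, (dg G W z - 1) := by
    rw [card_eq_sum_ones, ← sum_add_distrib]
    refine sum_congr rfl fun z hz => ?_
    have := hone z (mem_sdiff.1 hz).1
    omega
  have hs2 : ∑ z ∈ Ls G Z a, dg G W z =
      (Ls G Z a).card * B.card + ∑ z ∈ Ls G Z a, (dg G W z - B.card) := by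
    rw [← smul_eq_mul, ← sum_const, ← sum_add_distrib]
    refine sum_congr rfl fun z hz => ?_
    have := hlow z hz
    omega
  have hprod : (Ls G Z a).card + B.card ≤ (Ls G Z a).card * B.card + 1 := by
    obtain ⟨l, hl⟩ := Nat.exists_eq_add_of_le hl1
    obtain ⟨d, hd⟩ := Nat.exists_eq_add_of_le hd1
    rw [hl, hd]
    nlinarith [Nat.zero_le (l * d)]
  have hz1 : ∑ z ∈ Z \ Ls G Z a, (dg G W z - 1) = 0 := by omega
  have hz2 : ∑ z ∈ Ls G Z a, (dg G W z - B.card) = 0 := by omega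
  intro z hz
  by_cases hza : z ∈ Ls G Z a
  · have k1 : dg G W z - B.card = 0 := (sum_eq_zero_iff.1 hz2) z hza
    have k2 := hlow z hza
    have k3 : dg G W z = B.card := by omega
    by_cases hd : B.card ≤ 1
    · left
      omega
    right
    have hTB : B = W.filter fun y => G.Adj z y :=
      eq_of_subset_of_card_le (hlow1 z hza) (by
        have : dg G W z = (W.filter fun y => G.Adj z y).card := rfl
        omega)
    intro v hv
    have e1 : G.Adj v z ↔ v ∈ B := by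
      rw [hTB, mem_filter]
      exact ⟨fun h' => ⟨hv, h'.symm⟩, fun h' => h'.2.symm⟩
    rw [e1]
    constructor
    · exact hndB v
    · intro h1
      by_contra hvB
      by_cases hva : v = a
      · subst hva
        rw [hnda] at h1
        omega
      · rw [hnd0 v hv hva hvB] at h1
        exact absurd h1 (by norm_num)
  · left
    have k1 : dg G W z - 1 = 0 := (sum_eq_zero_iff.1 hz1) z (mem_sdiff.2 ⟨hz, hza⟩)
    omega

end Pool.Agent.O3
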