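import Pool.Agent.Lib_helper92.O3.B.Xe
import Pool.Agent.Lib_helper92.O3.B.Na
import Pool.Agent.Lib_helper92.O3.B.Nc

set_option autoImplicit false
set_option linter.unusedSectionVars false
set_option linter.unusedVariables false

open scoped Classical
open Finset
open Pool.Agent.O2 (PC Cb CrOn pr ms dg nd Joined)

namespace Pool.Agent.O3

variable {V : Type}

theorem lem5 {N q : ℕ} {G : SimpleGraph V} {Z W : Finset V} (ih : IH N)
    (h : Jay G q Z W) (hN : (uni W Z).card < N) (h6 : P6 (uni W Z).card) (hw : W.card = q + 1) :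
    (Tri G W → 2 * (W.card : ℤ) - 5 ≤ ff G (uni W Z) q W) ∧
    (Two G W → 2 * (W.card : ℤ) - 6 ≤ ff G (uni W Z) q W) ∧
    (¬ Nice G Z W → 2 * (W.card : ℤ) - 5 ≤ ff G (uni W Z) q W ∧
      (2 * (W.card : ℤ) - 4 ≤ ff G (uni W Z) q W ∨ 4 ≤ W.card)) := by
  have p3 : ¬ Nice G Z W → 2 * (W.card : ℤ) - 5 ≤ ff G (uni W Z) q W ∧
      (2 * (W.card : ℤ) - 4 ≤ ff G (uni W Z) q W ∨ 4 ≤ W.card) := by
    intro hn
    unfold Nice at hn
    push Not at hn
    obtain ⟨a, ha, b, hb, hab, hadj, z, hz, haz, hbz⟩ := hn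
    have hc : Com G Z W a b z := ⟨ha, hb, hz, hab, hadj, haz, hbz⟩
    rcases nn ih h hN h6 (Or.inl hw) hc with h1 | ⟨h1, A, B, hC, h2, h3, h4⟩
    · exact ⟨by linarith, Or.inl h1⟩
    · have := h4 hw
      exact ⟨h1, Or.inr (by omega)⟩
  have p1 : Tri G W → 2 * (W.card : ℤ) - 5 ≤ ff G (uni W Z) q W := by
    intro hT
    by_cases hn : Nice G Z W
    · obtain ⟨a, ha, b, hb, c, hc, h3⟩ := hT
      obtain ⟨hab, hac, hbc, n1, n2, n3⟩ := h3
      have h4 := (nice3 h ha hb hc ⟨hab, hac, hbc, n1, n2, n3⟩ (by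
        intro z hz
        have e1 := hn a ha b hb hab n1 z hz
        have e2 := hn a ha c hc hac n2 z hz
        have e3 := hn b hb c hc hbc n3 z hz
        tauto)).1
      have h5 : (W.card : ℤ) = q + 1 := by exact_mod_cast hw
      linarith
    · exact (p3 hn).1
  refine ⟨p1, ?_, p3⟩
  intro h2
  by_cases hn : Nice G Z W
  · by_cases hT : Tri G W
    · linarith [p1 hT]
    · obtain ⟨a, ha, a', ha', b, hb, b', hb', h4⟩ := h2
      obtain ⟨e1, e2, -, -⟩ := nice4 h hw hn hT ha ha' hb hb' h4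
      have h5 : (W.card : ℤ) = q + 1 := by exact_mod_cast hw
      have h6 : (eb G {a, a', b, b'} : ℤ) ≤ 4 := by exact_mod_cast e2
      linarith
  · linarith [(p3 hn).1]

end Pool.Agent.O3
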