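import Pool.Agent.Lib_helper92.O3.B.Oa
import Pool.Agent.Lib_helper92.O3.B.Xf
import Pool.Agent.Lib_helper92.O3.B.Sb

set_option autoImplicit false
set_option linter.unusedSectionVars false
set_option linter.unusedVariables false

open scoped Classical
open Finset
open Pool.Agent.O2 (PC Cb CrOn pr ms dg nd Joined)

namespace Pool.Agent.O3

variable {V : Type}

theorem Oc_sur {K : ℕ} (G : SimpleGraph V) (R : Finset V) (ψ : V → Fin K) (W : Finset V) :
    0 ≤ sur G R ψ W := by
  unfold sur
  refine Finset.sum_nonneg fun v _ => ?_
  have h := hit_card_le G R ψ v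
  have h' : ((hit G R ψ v).card : ℤ) ≤ dg G R v := by exact_mod_cast h
  linarith

theorem Oc_card {K : ℕ} (W : Finset V) (Z1 : Finset (Fin K)) :
    (uni (W.map ⟨Sum.inl, Sum.inl_injective⟩ : Finset (V ⊕ Fin K))
      (Z1.map ⟨Sum.inr, Sum.inr_injective⟩)).card = W.card + Z1.card := by
  rw [disjSum_eq, Finset.card_disjSum]

theorem Oc_two_le {G : SimpleGraph V} {W : Finset V} (h : Tri G W ∨ Two G W) : 2 ≤ W.card := by
  rcases h with h | h
  · obtain ⟨a, ha, b, hb, c, hc, h1, h2, h3, -⟩ := h
    exact Finset.one_lt_card.mpr ⟨a, ha, b, hb, h1⟩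
  · obtain ⟨a, ha, a', ha', b, hb, b', hb', h1, -⟩ := h
    exact Finset.one_lt_card.mpr ⟨a, ha, a', ha', h1⟩

theorem p6_all {N : ℕ} (ih : IH N) : ∀ n ≤ N, P6 n := by
  intro n
  induction n using Nat.strong_induction_on with
  | _ n IHn =>
    intro hn V G S W K hcr hS h3 hW hR
    -- the main statement
    have main : ∀ hT : Tri G W ∨ Two G W,
        2 * (W.card : ℤ) - 5 ≤ ff G S K W ∨
        ((Tri G W → 2 * (W.card : ℤ) - 5 ≤ ff G S K W) ∧
          (Two G W → 2 * (W.card : ℤ) - 6 ≤ ff G S K W)) := by
      intro hT
      have hw2 : 2 ≤ W.card := Oc_two_le hT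
      obtain ⟨x, hx⟩ : W.Nonempty := Finset.card_pos.mp (by omega)
      have hcbR : Cb G (S \ W) K := by
        refine Pool.Agent.O2.cb_sub ?_ (hcr.2 x (hW hx))
        intro y hy
        rw [Finset.mem_sdiff] at hy
        rw [Finset.mem_erase]
        exact ⟨fun h => hy.2 (h ▸ hx), hy.1⟩
      have hK : 0 < K := by
        rcases Nat.eq_zero_or_pos K with h0 | h0
        · subst h0
          rw [Pool.Agent.O2.cb_zero] at hcbR
          rw [hcbR] at hR
          simp at hR
        · exact h0
      obtain ⟨ψ, hψ⟩ := (Pool.Agent.O2.cb_fin hK).mp hcbR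
      rcases out6 ih (by omega) h3 hcr hW hR hψ hT with h | h | h
      · left; linarith
      · left; exact h.1
      · obtain ⟨Z1, h1, h2, hJ, h4, h5⟩ := e2jay hW h hw2
        have hsur := Oc_sur G (S \ W) ψ W
        have hZ1 : Z1.card ≤ K := by
          have := Finset.card_le_univ Z1
          simpa using this
        have hsd : (S \ W).card + W.card = S.card := by
          rw [Finset.card_sdiff_of_subset hW]
          have := Finset.card_le_card hW
          omega
        have hc := Oc_card (K := K) W Z1
        have hlt : W.card + Z1.card < n := by omega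
        have hN' : (uni (W.map ⟨Sum.inl, Sum.inl_injective⟩ : Finset (V ⊕ Fin K))
            (Z1.map ⟨Sum.inr, Sum.inr_injective⟩)).card < N := by
          rw [hc]; omega
        have hcW : (W.map ⟨Sum.inl, Sum.inl_injective⟩ : Finset (V ⊕ Fin K)).card = W.card :=
          Finset.card_map _
        rcases e2num ih hJ hN' with h6 | h6 | h6
        · right
          have hP : P6 (uni (W.map ⟨Sum.inl, Sum.inl_injective⟩ : Finset (V ⊕ Fin K))
            (Z1.map ⟨Sum.inr, Sum.inr_injective⟩)).card := by
            rw [hc]
            exact IHn _ hlt (by omega)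
          have h7 := lem5 ih hJ hN' hP h6.1
          rw [hcW] at h7
          constructor
          · intro ht
            have := h7.1 (tri_con.mpr ht)
            rw [h5]; linarith
          · intro ht
            have := h7.2.1 (two_con.mpr ht)
            rw [h5]; linarith
        · left
          have := h6.2
          rw [hcW] at this
          rw [h5]; linarith
        · left
          have := h6.2
          rw [hcW] at this
          rw [h5]; linarith
    constructor
    · intro ht
      rcases main (Or.inl ht) with h | h
      · exact h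
      · exact h.1 ht
    · intro ht
      rcases main (Or.inr ht) with h | h
      · linarith
      · exact h.2 ht

end Pool.Agent.O3
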