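import Pool.Agent.Lib_helper92.O3.Defs2
import Pool.Agent.Lib_helper92.O3.B.Oa
import Pool.Agent.Lib_helper92.O3.B.Oc
import Pool.Agent.Lib_helper92.O3.B.Xf
import Pool.Agent.Lib_helper92.O3.B.Sb
import Pool.Agent.Lib_helper92.O3.B.Ge

set_option autoImplicit false
set_option linter.unusedSectionVars false
set_option linter.unusedVariables false

open scoped Classical
open Finset
open Pool.Agent.O2 (PC Cb CrOn pr ms dg nd Joined)

namespace Pool.Agent.O3

variable {V : Type}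

theorem Gf_eb {K : ℕ} {G : SimpleGraph V} {R : Finset V} {ψ : V → Fin K}
    {X : Finset (V ⊕ Fin K)} {Y : Finset V} (h : ∀ y, y ∈ X ↔ ∃ v ∈ Y, Sum.inl v = y) :
    eb (con G R ψ) X = eb G Y := by
  have h1 : X = Y.map ⟨Sum.inl, Sum.inl_injective⟩ := by
    ext y
    rw [h, mem_map]
    rfl
  rw [h1, eb_con_inl]

theorem Gf_dg {K : ℕ} {G : SimpleGraph V} {R W : Finset V} {ψ : V → Fin K} (v : V) :
    dg (con G R ψ) (W.map ⟨Sum.inl, Sum.inl_injective⟩) (Sum.inl v) = dg G W v := by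
  unfold dg
  rw [filter_map, card_map]
  rfl

theorem Gf_card {K : ℕ} {R : Finset V} {Z : Finset (Fin K)} :
    (uni (R.map ⟨Sum.inl, Sum.inl_injective⟩) (Z.map ⟨Sum.inr, Sum.inr_injective⟩) :
      Finset (V ⊕ Fin K)).card = R.card + Z.card := by
  rw [disjSum_eq, card_disjSum]

theorem Gf_ls {K : ℕ} {G : SimpleGraph V} {R : Finset V} {ψ : V → Fin K} {Z : Finset (Fin K)}
    {v : V} (h : ∀ i ∉ Z, i ∈ hit G R ψ v) :
    (Ls (con G R ψ) (Z.map ⟨Sum.inr, Sum.inr_injective⟩) (Sum.inl v)).card +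
      (hit G R ψ v).card = K := by
  have h1 : Ls (con G R ψ) (Z.map ⟨Sum.inr, Sum.inr_injective⟩) (Sum.inl v) =
      (univ \ hit G R ψ v).map ⟨Sum.inr, Sum.inr_injective⟩ := by
    ext y
    unfold Ls
    rw [mem_filter, mem_map, mem_map]
    constructor
    · rintro ⟨⟨i, hi, rfl⟩, h2⟩
      exact ⟨i, mem_sdiff.2 ⟨mem_univ _, h2⟩, rfl⟩
    · rintro ⟨i, hi, rfl⟩
      have h3 := (mem_sdiff.1 hi).2
      refine ⟨⟨i, ?_, rfl⟩, h3⟩
      by_contra h4
      exact h3 (h i h4)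
  rw [h1, card_map]
  have h2 := card_sdiff_add_card_eq_card (subset_univ (hit G R ψ v))
  rw [h2, card_univ, Fintype.card_fin]

theorem Gf_not4 {α : Type} {x a b c d : α} (h : ¬ (x = a ∨ x = b ∨ x = c ∨ x = d)) :
    x ∉ ({a, b, c, d} : Finset α) := by
  rw [mem_insert, mem_insert, mem_insert, mem_singleton]
  exact h

theorem Gf_swap {p q : Prop} (h : p ↔ ¬ q) : q ↔ ¬ p :=
  ⟨fun h1 h2 => h.1 h2 h1, fun h1 => by_contra fun h2 => h1 (h.2 h2)⟩

theorem Gf_nd {G : SimpleGraph V} {R : Finset V} {v u w : V} (hu : u ∈ R) (hw : w ∈ R)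
    (huv : u ≠ v) (hwv : w ≠ v) (huw : u ≠ w) (h1 : ¬ G.Adj v u) (h2 : ¬ G.Adj v w) :
    2 ≤ nd G R v := by
  unfold nd
  have h3 : 1 < (R.filter fun y => y ≠ v ∧ ¬ G.Adj v y).card :=
    one_lt_card_iff.2 ⟨u, w, mem_filter.2 ⟨hu, huv, h1⟩, mem_filter.2 ⟨hw, hwv, h2⟩, huw⟩
  omega

theorem Gf_nd1 {G : SimpleGraph V} {R : Finset V} {v u : V} (hu : u ∈ R)
    (huv : u ≠ v) (h1 : ¬ G.Adj v u) : 1 ≤ nd G R v := by
  unfold nd
  exact card_pos.2 ⟨u, mem_filter.2 ⟨hu, huv, h1⟩⟩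

theorem tw_of {N K : ℕ} {G : SimpleGraph V} {S R : Finset V} {ψ : V → Fin K} (ih : IH N)
    (hN : S.card ≤ N) (h3 : S.card ≤ 3 * K + 1) (h : CrOn G S K) (hR : R ⊆ S)
    (hc : K + 1 ≤ (S \ R).card) (hψ : PC G (S \ R) ψ) (hT : ¬ Tri G R) {a a' b b' : V}
    (ha : a ∈ R) (ha' : a' ∈ R) (hb : b ∈ R) (hb' : b' ∈ R) (h4 : Dis4 G a a' b b')
    (hf : ff G S K R ≤ 2 * (R.card : ℤ) - 6) : Tw G S R ψ a a' b b' := by
  have hTwo : Two G R := ⟨a, ha, a', ha', b, hb, b', hb', h4⟩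
  have haa : a ≠ a' := h4.1
  have hbb : b ≠ b' := h4.2.1
  have hab : a ≠ b := h4.2.2.1
  have hab' : a ≠ b' := h4.2.2.2.1
  have ha'b : a' ≠ b := h4.2.2.2.2.1
  have ha'b' : a' ≠ b' := h4.2.2.2.2.2.1
  have hnaa : ¬ G.Adj a a' := h4.2.2.2.2.2.2.1
  have hnbb : ¬ G.Adj b b' := h4.2.2.2.2.2.2.2
  have hE : E2 G (S \ R) ψ R := by
    rcases out6 ih hN h3 h hR hc hψ (Or.inr hTwo) with h1 | ⟨h1, -⟩ | h1
    · linarith
    · linarith
    · exact h1
  have hR2 : 2 ≤ R.card := by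
    have h1 : 1 < R.card := one_lt_card_iff.2 ⟨a, a', ha, ha', haa⟩
    omega
  obtain ⟨Z1, hfull, hnf, hJ, hZR, hffe⟩ := e2jay hR hE hR2
  have hZK : Z1.card ≤ K := by
    have h1 := card_le_univ Z1
    rwa [Fintype.card_fin] at h1
  have hSR := card_sdiff_add_card_eq_card hR
  have hcU := Gf_card (R := R) (Z := Z1)
  have hlt : (uni (R.map ⟨Sum.inl, Sum.inl_injective⟩) (Z1.map ⟨Sum.inr, Sum.inr_injective⟩) :
      Finset (V ⊕ Fin K)).card < N := by
    rw [hcU]; omega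
  have hterm : ∀ v ∈ R, (0 : ℤ) ≤ (dg G (S \ R) v : ℤ) - (hit G (S \ R) ψ v).card := by
    intro v _
    have h1 := hit_card_le G (S \ R) ψ v
    have h2 : ((hit G (S \ R) ψ v).card : ℤ) ≤ dg G (S \ R) v := by exact_mod_cast h1
    linarith
  have hsur : 0 ≤ sur G (S \ R) ψ R := sum_nonneg hterm
  have hw : R.card = Z1.card + 1 := by
    have h1 := e2num ih hJ hlt
    rw [card_map] at h1
    rcases h1 with ⟨h1, -⟩ | ⟨-, h1⟩ | ⟨-, h1⟩
    · exact h1
    · linarith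
    · linarith
  have hwJ : (R.map ⟨Sum.inl, Sum.inl_injective⟩ : Finset (V ⊕ Fin K)).card = Z1.card + 1 := by
    rw [card_map, hw]
  have hwz : (R.card : ℤ) = Z1.card + 1 := by exact_mod_cast hw
  have h6 := p6_all ih _ hlt.le
  have h5 := lem5 ih hJ hlt h6 hwJ
  rw [card_map] at h5
  have hNice : Nice (con G (S \ R) ψ) (Z1.map ⟨Sum.inr, Sum.inr_injective⟩)
      (R.map ⟨Sum.inl, Sum.inl_injective⟩) := by
    by_contra h1
    have h2 := (h5.2.2 h1).1
    linarith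
  have hff1 := h5.2.1 (two_con.2 hTwo)
  have hsur0 : sur G (S \ R) ψ R = 0 := by linarith
  have hinj : ∀ v ∈ R, (hit G (S \ R) ψ v).card = dg G (S \ R) v := by
    intro v hv
    have h1 := (sum_eq_zero_iff_of_nonneg hterm).1 hsur0 v hv
    have h2 : ((hit G (S \ R) ψ v).card : ℤ) = dg G (S \ R) v := by linarith
    exact_mod_cast h2
  have hmem : ∀ v ∈ R, (Sum.inl v : V ⊕ Fin K) ∈ R.map ⟨Sum.inl, Sum.inl_injective⟩ :=
    fun v hv => mem_map.2 ⟨v, hv, rfl⟩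
  have hmemZ : ∀ i ∈ Z1, (Sum.inr i : V ⊕ Fin K) ∈ Z1.map ⟨Sum.inr, Sum.inr_injective⟩ :=
    fun i hi => mem_map.2 ⟨i, hi, rfl⟩
  have hT' : ¬ Tri (con G (S \ R) ψ) (R.map ⟨Sum.inl, Sum.inl_injective⟩) := fun h1 =>
    hT (tri_con.1 h1)
  have h4' : Dis4 (con G (S \ R) ψ) (Sum.inl a) (Sum.inl a') (Sum.inl b) (Sum.inl b') :=
    ⟨fun e => haa (Sum.inl_injective e), fun e => hbb (Sum.inl_injective e),
      fun e => hab (Sum.inl_injective e), fun e => hab' (Sum.inl_injective e),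
      fun e => ha'b (Sum.inl_injective e), fun e => ha'b' (Sum.inl_injective e), hnaa, hnbb⟩
  have h7 := (nice4 hJ hwJ hNice hT' (hmem a ha) (hmem a' ha') (hmem b hb) (hmem b' hb') h4').2.2.2
    (by linarith)
  obtain ⟨h8, h9, h10⟩ := h7
  have hfour : eb G {a, a', b, b'} = 4 := by
    rw [← h8]
    symm
    apply Gf_eb
    intro y
    simp only [mem_insert, mem_singleton]
    constructor
    · rintro (rfl | rfl | rfl | rfl)
      · exact ⟨a, Or.inl rfl, rfl⟩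
      · exact ⟨a', Or.inr (Or.inl rfl), rfl⟩
      · exact ⟨b, Or.inr (Or.inr (Or.inl rfl)), rfl⟩
      · exact ⟨b', Or.inr (Or.inr (Or.inr rfl)), rfl⟩
    · rintro ⟨v, (rfl | rfl | rfl | rfl), rfl⟩
      · exact Or.inl rfl
      · exact Or.inr (Or.inl rfl)
      · exact Or.inr (Or.inr (Or.inl rfl))
      · exact Or.inr (Or.inr (Or.inr rfl))
  have hLs : ∀ v ∈ R, (Ls (con G (S \ R) ψ) (Z1.map ⟨Sum.inr, Sum.inr_injective⟩)
      (Sum.inl v)).card + (hit G (S \ R) ψ v).card = K := fun v hv =>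
    Gf_ls fun i hi => hfull i hi v hv
  have hpair : ∀ u ∈ R, ∀ u' ∈ R, ∀ w ∈ R, u ≠ u' → w ≠ u' → u ≠ w → ¬ G.Adj u' u →
      ¬ G.Adj u' w → (∀ z ∈ (Z1.map ⟨Sum.inr, Sum.inr_injective⟩ : Finset (V ⊕ Fin K)),
        ((con G (S \ R) ψ).Adj (Sum.inl u) z ↔ ¬ (con G (S \ R) ψ).Adj (Sum.inl u') z)) →
      (hit G (S \ R) ψ u).card + 2 ≤ K := by
    intro u hu u' hu' w hw' h1 h2 h3 h4 h5 h6
    have h7 := hLs u hu
    have h11 : (Ls (con G (S \ R) ψ) (Z1.map ⟨Sum.inr, Sum.inr_injective⟩) (Sum.inl u)).card +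
        (Ls (con G (S \ R) ψ) (Z1.map ⟨Sum.inr, Sum.inr_injective⟩) (Sum.inl u')).card =
        Z1.card := by
      have h12 : Ls (con G (S \ R) ψ) (Z1.map ⟨Sum.inr, Sum.inr_injective⟩) (Sum.inl u) =
          (Z1.map ⟨Sum.inr, Sum.inr_injective⟩).filter
            fun z => (con G (S \ R) ψ).Adj (Sum.inl u') z := by
        unfold Ls
        apply filter_congr
        intro z hz
        exact (Gf_swap (h6 z hz)).symm
      rw [h12]
      unfold Ls
      rw [card_filter_add_card_filter_not, card_map]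
    have h14 := (jay_ls hJ (hmem u' hu')).2.1
    rw [Gf_dg] at h14
    have h15 := O2.dg_add_nd (G := G) hu'
    have h16 := Gf_nd hu hw' h1 h2 h3 h4 h5
    omega
  refine ⟨hinj, ?_, hfour, ?_, ?_, ?_⟩
  · intro u hu v hv huv hn i
    by_cases hi : i ∈ Z1
    · exact hNice (Sum.inl u) (hmem u hu) (Sum.inl v) (hmem v hv)
        (fun e => huv (Sum.inl_injective e)) hn (Sum.inr i) (hmemZ i hi)
    · exact Or.inl (hfull i hi u hu)
  · intro v hv
    have hz1 : ∀ z ∈ (Z1.map ⟨Sum.inr, Sum.inr_injective⟩ : Finset (V ⊕ Fin K)),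
        ((con G (S \ R) ψ).Adj (Sum.inl a) z ↔ ¬ (con G (S \ R) ψ).Adj (Sum.inl a') z) :=
      fun z hz => (h10 z hz).1
    have hz1' : ∀ z ∈ (Z1.map ⟨Sum.inr, Sum.inr_injective⟩ : Finset (V ⊕ Fin K)),
        ((con G (S \ R) ψ).Adj (Sum.inl a') z ↔ ¬ (con G (S \ R) ψ).Adj (Sum.inl a) z) := by
      intro z hz
      exact Gf_swap (hz1 z hz)
    have hz2 : ∀ z ∈ (Z1.map ⟨Sum.inr, Sum.inr_injective⟩ : Finset (V ⊕ Fin K)),
        ((con G (S \ R) ψ).Adj (Sum.inl b) z ↔ ¬ (con G (S \ R) ψ).Adj (Sum.inl b') z) :=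
      fun z hz => (h10 z hz).2
    have hz2' : ∀ z ∈ (Z1.map ⟨Sum.inr, Sum.inr_injective⟩ : Finset (V ⊕ Fin K)),
        ((con G (S \ R) ψ).Adj (Sum.inl b') z ↔ ¬ (con G (S \ R) ψ).Adj (Sum.inl b) z) := by
      intro z hz
      exact Gf_swap (hz2 z hz)
    have hnaa' : ¬ G.Adj a' a := fun e => hnaa e.symm
    have hnbb' : ¬ G.Adj b' b := fun e => hnbb e.symm
    rw [mem_insert, mem_insert, mem_insert, mem_singleton] at hv
    rcases four hT ha ha' hb hb' h4 hfour with ⟨-, -, h11, h12⟩ | ⟨-, -, h11, h12⟩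
    · -- ¬ a b', ¬ a' b
      have h11' : ¬ G.Adj b' a := fun e => h11 e.symm
      have h12' : ¬ G.Adj b a' := fun e => h12 e.symm
      rcases hv with rfl | rfl | rfl | rfl
      · exact hpair _ ha _ ha' _ hb haa ha'b.symm hab hnaa' h12 hz1
      · exact hpair _ ha' _ ha _ hb' haa.symm hab'.symm ha'b' hnaa h11 hz1'
      · exact hpair _ hb _ hb' _ ha hbb hab' hab.symm hnbb' h11' hz2
      · exact hpair _ hb' _ hb _ ha' hbb.symm ha'b ha'b'.symm hnbb h12' hz2'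
    · -- ¬ a b, ¬ a' b'
      have h11' : ¬ G.Adj b a := fun e => h11 e.symm
      have h12' : ¬ G.Adj b' a' := fun e => h12 e.symm
      rcases hv with rfl | rfl | rfl | rfl
      · exact hpair _ ha _ ha' _ hb' haa ha'b'.symm hab' hnaa' h12 hz1
      · exact hpair _ ha' _ ha _ hb haa.symm hab.symm ha'b hnaa h11 hz1'
      · exact hpair _ hb _ hb' _ ha' hbb ha'b' ha'b.symm hnbb' h12' hz2
      · exact hpair _ hb' _ hb _ ha hbb.symm hab hab'.symm hnbb h11' hz2'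
  · intro v hv hv4
    have hv4' : ∀ w ∈ R, w ∉ ({a, a', b, b'} : Finset V) → (Sum.inl w : V ⊕ Fin K) ∈
        R.map ⟨Sum.inl, Sum.inl_injective⟩ ∧
        ¬ ((Sum.inl w : V ⊕ Fin K) = Sum.inl a ∨ (Sum.inl w : V ⊕ Fin K) = Sum.inl a' ∨
          (Sum.inl w : V ⊕ Fin K) = Sum.inl b ∨ (Sum.inl w : V ⊕ Fin K) = Sum.inl b') := by
      intro w hw1 hw2
      refine ⟨hmem w hw1, ?_⟩
      rw [mem_insert, mem_insert, mem_insert, mem_singleton] at hw2
      rintro (e | e | e | e)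
      · exact hw2 (Or.inl (Sum.inl_injective e))
      · exact hw2 (Or.inr (Or.inl (Sum.inl_injective e)))
      · exact hw2 (Or.inr (Or.inr (Or.inl (Sum.inl_injective e))))
      · exact hw2 (Or.inr (Or.inr (Or.inr (Sum.inl_injective e))))
    obtain ⟨h11, h12⟩ := hv4' v hv hv4
    have h13 := h9 (Sum.inl v) h11 (Gf_not4 h12)
    constructor
    · have h14 := h13.1
      rw [Gf_dg] at h14
      have h15 := hLs v hv
      omega
    · intro u hu hu4 huv
      obtain ⟨h16, h17⟩ := hv4' u hu hu4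
      exact h13.2 (Sum.inl u) h16 (Gf_not4 h17) (fun e => huv (Sum.inl_injective e))
  · intro v hv hnd u hu i hi
    have hv4 : ¬ ((Sum.inl v : V ⊕ Fin K) = Sum.inl a ∨ (Sum.inl v : V ⊕ Fin K) = Sum.inl a' ∨
          (Sum.inl v : V ⊕ Fin K) = Sum.inl b ∨ (Sum.inl v : V ⊕ Fin K) = Sum.inl b') := by
      rintro (e | e | e | e)
      · have e1 := Sum.inl_injective e
        subst e1
        have := Gf_nd1 ha' haa.symm hnaa
        omega
      · have e1 := Sum.inl_injective e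
        subst e1
        have := Gf_nd1 ha haa (fun e => hnaa e.symm)
        omega
      · have e1 := Sum.inl_injective e
        subst e1
        have := Gf_nd1 hb' hbb.symm hnbb
        omega
      · have e1 := Sum.inl_injective e
        subst e1
        have := Gf_nd1 hb hbb (fun e => hnbb e.symm)
        omega
    have h13 := (h9 (Sum.inl v) (hmem v hv) (Gf_not4 hv4)).1
    rw [Gf_dg] at h13
    have h15 := O2.dg_add_nd (G := G) hv
    have h19 : (Ls (con G (S \ R) ψ) (Z1.map ⟨Sum.inr, Sum.inr_injective⟩) (Sum.inl v)) ⊆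
        Z1.map ⟨Sum.inr, Sum.inr_injective⟩ := filter_subset _ _
    have h16 : (Ls (con G (S \ R) ψ) (Z1.map ⟨Sum.inr, Sum.inr_injective⟩) (Sum.inl v)) =
        Z1.map ⟨Sum.inr, Sum.inr_injective⟩ := by
      apply eq_of_subset_of_card_le h19
      rw [card_map]
      omega
    have hiZ : i ∈ Z1 := by
      by_contra h17
      exact hi (hfull i h17 u hu)
    have h18 := hmemZ i hiZ
    rw [← h16] at h18
    exact (mem_filter.1 h18).2

end Pool.Agent.O3
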