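import Pool.Agent.Lib_helper92.O3.B.Gh

set_option autoImplicit false
set_option linter.unusedSectionVars false
set_option linter.unusedVariables false

open scoped Classical
open Finset
open Pool.Agent.O2 (PC Cb CrOn pr ms dg nd Joined)

namespace Pool.Agent.O3

variable {V : Type}

theorem Gi_memB {K : ℕ} {G : SimpleGraph V} {S : Finset V} {x : V} {A B R : Finset V}
    (h : Cross G S K x A B R) {y : V} (hy : y ∈ B) : y ∈ S \ R := by
  rw [mem_sdiff]
  exact ⟨h.hB hy, fun hR => ((h.mR y).1 hR).2.2.2 hy⟩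

theorem Gi_hit {K : ℕ} {G : SimpleGraph V} {S : Finset V} {x : V} {A B R : Finset V}
    (h : Cross G S K x A B R) {ψ : V → Fin K} (hψ : PC G (S \ R) ψ) {v : V}
    (hv : ∀ y ∈ B, G.Adj v y) : K ≤ (hit G (S \ R) ψ v).card + 1 := by
  have h1 : (B.image ψ) ⊆ hit G (S \ R) ψ v := by
    intro i hi
    obtain ⟨y, hy, rfl⟩ := mem_image.1 hi
    simp only [hit, mem_filter, mem_univ, true_and]
    exact ⟨y, Gi_memB h hy, rfl, hv y hy⟩
  have h2 : (B.image ψ).card = B.card := card_image_of_injOn (by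
    intro y hy y' hy' he
    by_contra hne
    exact hψ y (Gi_memB h hy) y' (Gi_memB h hy') (h.clB y hy y' hy' hne) he)
  have h3 := card_le_card h1
  have h4 := h.cB
  omega

theorem Gi_main {K : ℕ} {G : SimpleGraph V} {S : Finset V} {x : V} {A B R : Finset V}
    {a a' b b' : V} (hcr : CrOn G S K) (hK : 3 ≤ K) (h : Cross G S K x A B R)
    (hT : ¬ Tri G R) (ha : a ∈ R) (ha' : a' ∈ R) (hb : b ∈ R) (hb' : b' ∈ R)
    (h4 : Dis4 G a a' b b')
    (ht : ∀ ψ : V → Fin K, PC G (S \ R) ψ → Tw G S R ψ a a' b b')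
    (hB4 : ∀ v ∈ ({a, a', b, b'} : Finset V), ∀ y ∈ B, ¬ G.Adj v y) : False := by
  have hcA := h.cA
  have hcB := h.cB
  obtain ⟨y0, hy0⟩ : A.Nonempty := card_pos.1 (by omega)
  have key : ∀ v ∈ R, ∀ y' ∈ B, ¬ G.Adj v y' := by
    intro v hv y' hy' hadj
    have hv4 : v ∉ ({a, a', b, b'} : Finset V) := fun h4' => hB4 v h4' y' hy' hadj
    have hvA : ∀ y ∈ A, ¬ G.Adj v y := fun y hy hvy => side_one h ht hv hy hy' ⟨hvy, hadj⟩
    obtain ⟨ψ0, hψ0, -⟩ := cross_col h hy0 hy'
    have T0 := ht ψ0 hψ0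
    by_cases hnd : nd G R v = 0
    · have hex : ∃ y ∈ A, ¬ G.Adj a y := by
        by_contra hcon
        push Not at hcon
        have h5 := Gi_hit (cross_symm h) hψ0 hcon
        have h6 := T0.sm a (by simp)
        omega
      obtain ⟨y, hy, hay⟩ := hex
      obtain ⟨ψ, hψ, he⟩ := cross_col h hy hy'
      have hT' := ht ψ hψ
      have hna : ψ y ∉ hit G (S \ R) ψ a := by
        intro hmem
        simp only [hit, mem_filter, mem_univ, true_and] at hmem
        obtain ⟨w, hw, hwe, haw⟩ := hmem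
        rcases cross_cls h hψ hy hy' he w hw hwe with rfl | rfl
        · exact hay haw
        · exact hB4 a (by simp) _ hy' haw
      refine hT'.all v hv hnd a ha _ hna ?_
      simp only [hit, mem_filter, mem_univ, true_and]
      exact ⟨y', Gi_memB h hy', he.symm, hadj⟩
    · obtain ⟨u, hu⟩ := card_pos.1 (Nat.pos_of_ne_zero hnd)
      simp only [mem_filter] at hu
      obtain ⟨huR, huv, hnuv⟩ := hu
      have hu4 : u ∈ ({a, a', b, b'} : Finset V) := by
        by_contra hu4
        exact hnuv ((T0.out v hv hv4).2 u huR hu4 huv)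
      have hall : ∀ y ∈ B, G.Adj v y :=
        side_two h ht huR hv huv (fun h => hnuv h.symm) (hB4 u hu4) hu4 hvA
      have h5 := Gi_hit h hψ0 hall
      have h6 := (T0.out v hv hv4).1
      have hva : v ≠ a := fun e => hv4 (by simp [e])
      have hva' : v ≠ a' := fun e => hv4 (by simp [e])
      have hvb : v ≠ b := fun e => hv4 (by simp [e])
      have hvb' : v ≠ b' := fun e => hv4 (by simp [e])
      obtain ⟨e1, e2, e3, e4, e5, e6, e7, e8⟩ := h4
      have h7 : ∃ c ∈ R, (c = a ∨ c = a') ∧ G.Adj v c := by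
        by_contra hcon
        push Not at hcon
        exact hT ⟨v, hv, a, ha, a', ha', hva, hva', e1, hcon a ha (Or.inl rfl),
          hcon a' ha' (Or.inr rfl), e7⟩
      have h8 : ∃ c ∈ R, (c = b ∨ c = b') ∧ G.Adj v c := by
        by_contra hcon
        push Not at hcon
        exact hT ⟨v, hv, b, hb, b', hb', hvb, hvb', e2, hcon b hb (Or.inl rfl),
          hcon b' hb' (Or.inr rfl), e8⟩
      obtain ⟨c, hc, hc1, hvc⟩ := h7
      obtain ⟨d, hd, hd1, hvd⟩ := h8
      have hcd : c ≠ d := by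
        rcases hc1 with rfl | rfl <;> rcases hd1 with rfl | rfl <;> assumption
      have h9 : ({c, d} : Finset V).card ≤ dg G R v := by
        refine card_le_card ?_
        intro w hw
        simp only [mem_insert, mem_singleton] at hw
        simp only [mem_filter]
        rcases hw with rfl | rfl
        · exact ⟨hc, hvc⟩
        · exact ⟨hd, hvd⟩
      rw [card_pair hcd] at h9
      omega
  obtain ⟨y', hy'⟩ : B.Nonempty := card_pos.1 (by omega)
  have h10 : dg G S y' ≤ (insert x (B.erase y')).card := by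
    refine card_le_card ?_
    intro w hw
    simp only [mem_filter] at hw
    obtain ⟨hwS, hyw⟩ := hw
    simp only [mem_insert, mem_erase]
    by_contra hcon
    push Not at hcon
    obtain ⟨hwx, hwB⟩ := hcon
    have hwne : w ≠ y' := fun e => G.irrefl (e ▸ hyw)
    have hwB' : w ∉ B := fun hh => hwB hwne hh
    by_cases hwA : w ∈ A
    · exact h.no w hwA y' hy' hyw.symm
    · exact key w ((h.mR w).2 ⟨hwS, hwx, hwA, hwB'⟩) y' hy' hyw.symm
  have h11 : (insert x (B.erase y')).card ≤ (B.erase y').card + 1 := card_insert_le _ _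
  have h12 := card_erase_of_mem hy'
  have h13 := hcr.dg_ge (h.hB hy')
  omega

theorem cross_false {K : ℕ} {G : SimpleGraph V} {S : Finset V} {x : V} {A B R : Finset V}
    {a a' b b' : V} (hcr : CrOn G S K) (hK : 3 ≤ K) (h : Cross G S K x A B R)
    (hT : ¬ Tri G R) (ha : a ∈ R) (ha' : a' ∈ R) (hb : b ∈ R) (hb' : b' ∈ R)
    (h4 : Dis4 G a a' b b')
    (ht : ∀ ψ : V → Fin K, PC G (S \ R) ψ → Tw G S R ψ a a' b b') : False := by
  rcases side_all h hT ha ha' hb hb' h4 ht with h5 | h5
  · exact Gi_main hcr hK h hT ha ha' hb hb' h4 ht h5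
  · exact Gi_main hcr hK (cross_symm h) hT ha ha' hb hb' h4 ht h5

end Pool.Agent.O3
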