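import Pool.Agent.Lib_helper92.O3.B.Ga

set_option autoImplicit false
set_option linter.unusedSectionVars false
set_option linter.unusedVariables false

open scoped Classical
open Finset
open Pool.Agent.O2 (PC Cb CrOn pr ms dg nd Joined)

namespace Pool.Agent.O3

variable {V : Type}

theorem q_of {K p : ℕ} {G : SimpleGraph V} {S : Finset V} (h : Bad G S K p) {x : V}
    (hx : x ∈ S) {φ : V → Fin K} (hφ : PC G (S.erase x) φ) (c : Fin K)
    (hC : 3 ≤ ((S.erase x).filter fun v => φ v = c).card) :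
    ∃ Q, KC G S K Q ∧ x ∈ Q ∧ (∀ v ∈ Q, v ≠ x → φ v ≠ c) ∧ ∀ i, i ≠ c → ∃ v ∈ Q, v ≠ x ∧ φ v = i := by
  obtain ⟨C, hCe⟩ : ∃ C, C = (S.erase x).filter fun v => φ v = c := ⟨_, rfl⟩
  rw [← hCe] at hC
  have hK3 := h.hK
  have hmC : ∀ v, v ∈ C ↔ (v ≠ x ∧ v ∈ S) ∧ φ v = c := by
    intro v
    rw [hCe, mem_filter, mem_erase]
  have hCS : C ⊆ S := fun v hv => ((hmC v).1 hv).1.2
  have hind : ∀ a ∈ C, ∀ b ∈ C, ¬ G.Adj a b := by
    intro a ha b hb hab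
    obtain ⟨⟨ha1, ha2⟩, ha3⟩ := (hmC a).1 ha
    obtain ⟨⟨hb1, hb2⟩, hb3⟩ := (hmC b).1 hb
    exact hφ a (mem_erase.2 ⟨ha1, ha2⟩) b (mem_erase.2 ⟨hb1, hb2⟩) hab (ha3.trans hb3.symm)
  obtain ⟨Q, hQs, hQc⟩ := rm_ind h.cr.1 (by omega) hCS hind
  have hQS : Q ⊆ S := fun v hv => (mem_sdiff.1 (hQs hv)).1
  have hQC : ∀ v ∈ Q, v ∉ C := fun v hv => (mem_sdiff.1 (hQs hv)).2
  have hcard : Q.card = K := by
    apply h.clq Q hQS hQc
    obtain ⟨a, b, d, ha, hb, hd, hab, had, hbd⟩ := two_lt_card_iff.1 (by omega : 2 < C.card)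
    have hin : ∀ v ∈ C, v ∈ S \ Q := fun v hv => mem_sdiff.2 ⟨hCS hv, fun hq => hQC v hq hv⟩
    exact ⟨a, hin a ha, b, hin b hb, d, hin d hd, hab, had, hbd, hind a ha b hb, hind a ha d hd,
      hind b hb d hd⟩
  have hKC := kc_crit (by omega) hQS hQc hcard
  have hav : ∀ v ∈ Q, v ≠ x → φ v ≠ c := fun v hv hvx hc =>
    hQC v hv ((hmC v).2 ⟨⟨hvx, hQS hv⟩, hc⟩)
  have hxQ : x ∈ Q := by
    by_contra hxQ
    apply hQc.1
    have hne : ∀ v ∈ Q, v ≠ x := fun v hv e => hxQ (e ▸ hv)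
    refine Pool.Agent.O2.cb_image φ ?_ ?_
    · have h1 : Q.image φ ⊆ univ.erase c := by
        intro i hi
        obtain ⟨v, hv, rfl⟩ := mem_image.1 hi
        exact mem_erase.2 ⟨hav v hv (hne v hv), mem_univ _⟩
      have h2 := card_le_card h1
      rw [card_erase_of_mem (mem_univ _), card_univ, Fintype.card_fin] at h2
      exact h2
    · intro a ha b hb hab
      exact hφ a (mem_erase.2 ⟨hne a ha, hQS ha⟩) b (mem_erase.2 ⟨hne b hb, hQS hb⟩) hab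
  refine ⟨Q, hKC, hxQ, hav, fun i hi => ?_⟩
  have hinj : Set.InjOn φ (Q.erase x : Finset V) := by
    intro a ha b hb hab
    by_contra hne
    obtain ⟨ha1, ha2⟩ := mem_erase.1 (mem_coe.1 ha)
    obtain ⟨hb1, hb2⟩ := mem_erase.1 (mem_coe.1 hb)
    exact hφ a (mem_erase.2 ⟨ha1, hQS ha2⟩) b (mem_erase.2 ⟨hb1, hQS hb2⟩)
      (hKC.clq a ha2 b hb2 hne) hab
  have h1 : (Q.erase x).image φ ⊆ univ.erase c := by
    intro j hj
    obtain ⟨v, hv, rfl⟩ := mem_image.1 hj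
    obtain ⟨hv1, hv2⟩ := mem_erase.1 hv
    exact mem_erase.2 ⟨hav v hv2 hv1, mem_univ _⟩
  have h2 : (Q.erase x).image φ = univ.erase c := by
    apply eq_of_subset_of_card_le h1
    rw [card_image_of_injOn hinj, card_erase_of_mem (mem_univ _), card_univ, Fintype.card_fin,
      card_erase_of_mem hxQ, hcard]
  have h3 : i ∈ (Q.erase x).image φ := by
    rw [h2]
    exact mem_erase.2 ⟨hi, mem_univ _⟩
  obtain ⟨v, hv, hvi⟩ := mem_image.1 h3
  obtain ⟨hv1, hv2⟩ := mem_erase.1 hv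
  exact ⟨v, hv2, hv1, hvi⟩

theorem q_cov {K p : ℕ} {G : SimpleGraph V} {S : Finset V} (h : Bad G S K p) {x : V}
    (hx : x ∈ S) : ∃ Q, KC G S K Q ∧ x ∈ Q := by
  have hK3 := h.hK
  obtain ⟨φ, hφ⟩ := Pool.Agent.O2.CrOn.pc h.cr (by omega) hx
  have h1 : (univ : Finset (Fin K)).card * 2 < (S.erase x).card := by
    rw [card_erase_of_mem hx, h.card, card_univ, Fintype.card_fin]
    have := h.hp
    omega
  obtain ⟨c, -, hc⟩ := exists_lt_card_fiber_of_mul_lt_card_of_maps_to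
    (f := φ) (fun a _ => mem_univ (φ a)) h1
  obtain ⟨Q, hQ, hxQ, -, -⟩ := q_of h hx hφ c (by omega)
  exact ⟨Q, hQ, hxQ⟩

end Pool.Agent.O3
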