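import Pool.Agent.Lib_helper92.O3.B.Gb
import Pool.Agent.Lib_helper92.O3.B.Gc

set_option autoImplicit false
set_option linter.unusedSectionVars false
set_option linter.unusedVariables false

open scoped Classical
open Finset
open Pool.Agent.O2 (PC Cb CrOn pr ms dg nd Joined)

namespace Pool.Agent.O3

variable {V : Type}

theorem Gj_ind {G : SimpleGraph V} {D C : Finset V} (hD : ∀ a ∈ D, ∀ b ∈ D, ¬ G.Adj a b)
    (hC : Clq G C) : (D ∩ C).card ≤ 1 := by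
  rw [card_le_one]
  intro a ha b hb
  by_contra hab
  exact hD a (mem_inter.1 ha).1 b (mem_inter.1 hb).1
    (hC a (mem_inter.1 ha).2 b (mem_inter.1 hb).2 hab)

theorem Gj_sdiff {G : SimpleGraph V} {D C : Finset V} (hD : ∀ a ∈ D, ∀ b ∈ D, ¬ G.Adj a b)
    (hC : Clq G C) : D.card ≤ (D \ C).card + 1 := by
  have h1 := Gj_ind hD hC
  have h2 := card_sdiff_add_card_inter D C
  omega

/-- the class `c` is large -/
theorem Gj_card {K p : ℕ} {X : Finset V} {φ : V → Fin K} (hX : X.card = 2 * K + p) {c : Fin K}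
    (hone : ∀ i, i ≠ c → (X.filter fun v => φ v = i).card ≤ 2) :
    p + 2 ≤ (X.filter fun v => φ v = c).card := by
  have h1 : X.card = ∑ i : Fin K, (X.filter fun v => φ v = i).card :=
    card_eq_sum_card_fiberwise (f := φ) (t := univ) (fun _ _ => by simp)
  have h2 := add_sum_erase (univ : Finset (Fin K)) (fun i => (X.filter fun v => φ v = i).card)
    (mem_univ c)
  have h3 : ∑ i ∈ (univ : Finset (Fin K)).erase c, (X.filter fun v => φ v = i).card ≤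
      ((univ : Finset (Fin K)).erase c).card • 2 := by
    apply sum_le_card_nsmul
    intro i hi
    exact hone i (mem_erase.1 hi).1
  rw [card_erase_of_mem (mem_univ c), card_univ, Fintype.card_fin, smul_eq_mul] at h3
  have hK : 0 < K := c.pos
  omega

theorem one_class {N K p : ℕ} {G : SimpleGraph V} {S : Finset V} (ih : IH N)
    (hN : S.card ≤ N) (h : Bad G S K p) {x : V} (hx : x ∈ S) {φ : V → Fin K}
    (hφ : PC G (S.erase x) φ) {c : Fin K}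
    (hone : ∀ i, i ≠ c → ((S.erase x).filter fun v => φ v = i).card ≤ 2) : False := by
  have hcX : (S.erase x).card = 2 * K + p := by
    rw [card_erase_of_mem hx, h.card]
    omega
  have hp := h.hp
  have hK := h.hK
  have hD := Gj_card hcX hone
  obtain ⟨D, hDdef⟩ : ∃ D, D = (S.erase x).filter fun v => φ v = c := ⟨_, rfl⟩
  rw [← hDdef] at hD
  have hDm : ∀ v ∈ D, v ∈ S ∧ v ≠ x ∧ φ v = c := by
    intro v hv
    rw [hDdef, mem_filter, mem_erase] at hv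
    exact ⟨hv.1.2, hv.1.1, hv.2⟩
  have hDi : ∀ a ∈ D, ∀ b ∈ D, ¬ G.Adj a b := by
    intro a ha b hb hab
    obtain ⟨h1, h2, h3⟩ := hDm a ha
    obtain ⟨h4, h5, h6⟩ := hDm b hb
    exact hφ a (mem_erase.2 ⟨h2, h1⟩) b (mem_erase.2 ⟨h5, h4⟩) hab (h3.trans h6.symm)
  obtain ⟨Q, hQ, hxQ, hQc, -⟩ := q_of h hx hφ c (by rw [← hDdef]; omega)
  have hDQ : ∀ v ∈ D, v ∉ Q := by
    intro v hv hvQ
    obtain ⟨-, h2, h3⟩ := hDm v hv
    exact hQc v hvQ h2 h3
  -- other cliques do not meet Q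
  have hmeet : ∀ Q', KC G S K Q' → Q ≠ Q' → ∀ y ∈ Q, y ∉ Q' := by
    intro Q' hQ' hne y hy hy'
    have h1 := (q_card h hQ hQ').2.2.2.2.2 ⟨y, hy, hy'⟩
    obtain ⟨h2, -, h3⟩ := two_q2 ih hN h hQ hQ' hne h1
    have h4 := Gj_sdiff hDi hQ'.clq
    have h5 : D \ Q' ⊆ (S \ Q) \ Q' := by
      intro v hv
      obtain ⟨h6, h7⟩ := mem_sdiff.1 hv
      exact mem_sdiff.2 ⟨mem_sdiff.2 ⟨(hDm v h6).1, hDQ v h6⟩, h7⟩
    rcases Nat.lt_or_ge p 2 with hp2 | hp2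
    · have h6 : Clq G ((S \ Q) \ Q') := h3 (by omega)
      obtain ⟨a, b, ha, hb, hab⟩ := one_lt_card_iff.1 (show 1 < (D \ Q').card by omega)
      exact hDi a (mem_sdiff.1 ha).1 b (mem_sdiff.1 hb).1 (h6 a (h5 ha) b (h5 hb) hab)
    · obtain ⟨a, b, d, ha, hb, hd, hab, had, hbd⟩ :=
        two_lt_card_iff.1 (show 2 < (D \ Q').card by omega)
      exact h2 ⟨a, h5 ha, b, h5 hb, d, h5 hd, hab, had, hbd,
        hDi a (mem_sdiff.1 ha).1 b (mem_sdiff.1 hb).1,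
        hDi a (mem_sdiff.1 ha).1 d (mem_sdiff.1 hd).1,
        hDi b (mem_sdiff.1 hb).1 d (mem_sdiff.1 hd).1⟩
  -- two cliques in S \ Q
  have hSQ : (S \ Q).card = K + 1 + p := by
    have h1 := card_sdiff_add_card_eq_card hQ.sub
    rw [hQ.card, h.card] at h1
    omega
  obtain ⟨y1, hy1⟩ := card_pos.1 (show 0 < (S \ Q).card by omega)
  obtain ⟨P1, hP1, hyP1⟩ := q_cov h (mem_sdiff.1 hy1).1
  have hne1 : Q ≠ P1 := fun e => (mem_sdiff.1 hy1).2 (by rw [e]; exact hyP1)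
  have hP1s : P1 ⊆ S \ Q := fun v hv =>
    mem_sdiff.2 ⟨hP1.sub hv, fun h1 => hmeet P1 hP1 hne1 v h1 hv⟩
  have h1c : ((S \ Q) \ P1).card + K = K + 1 + p := by
    rw [← hSQ, ← card_sdiff_add_card_eq_card hP1s, hP1.card]
  obtain ⟨y2, hy2⟩ := card_pos.1 (show 0 < ((S \ Q) \ P1).card by omega)
  obtain ⟨P2, hP2, hyP2⟩ := q_cov h (mem_sdiff.1 (mem_sdiff.1 hy2).1).1
  have hne2 : Q ≠ P2 := fun e => (mem_sdiff.1 (mem_sdiff.1 hy2).1).2 (by rw [e]; exact hyP2)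
  have hne3 : P1 ≠ P2 := fun e => (mem_sdiff.1 hy2).2 (by rw [e]; exact hyP2)
  have hP2s : P2 ⊆ S \ Q := fun v hv =>
    mem_sdiff.2 ⟨hP2.sub hv, fun h1 => hmeet P2 hP2 hne2 v h1 hv⟩
  have h2c := two_q ih hN h hP1 hP2 hne3
  -- D in the three parts
  have hD1 := Gj_sdiff hDi hP1.clq
  have hD2 := Gj_sdiff (D := D \ P1) (fun a ha b hb => hDi a (mem_sdiff.1 ha).1 b (mem_sdiff.1 hb).1)
    hP2.clq
  have hP2' : P2 \ P1 ⊆ (S \ Q) \ P1 := sdiff_subset_sdiff hP2s Subset.rfl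
  have h3c := card_sdiff_add_card_eq_card hP2'
  have h4 : (D \ P1) \ P2 ⊆ ((S \ Q) \ P1) \ (P2 \ P1) := by
    intro v hv
    obtain ⟨h5, h6⟩ := mem_sdiff.1 hv
    obtain ⟨h7, h8⟩ := mem_sdiff.1 h5
    refine mem_sdiff.2 ⟨mem_sdiff.2 ⟨mem_sdiff.2 ⟨(hDm v h7).1, hDQ v h7⟩, h8⟩, ?_⟩
    intro h9
    exact h6 (mem_sdiff.1 h9).1
  have h4c := card_le_card h4
  have hp1 : p = 1 := by omega
  have h21 : (P2 \ P1).card = 1 := by omega
  have h5 := (two_q2 ih hN h hP1 hP2 hne3 (by omega)).2.2 hp1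
  have h6 := (q_card h hP1 hP2).2.2.1
  have h7 := clq_bound h.cr (sdiff_subset.trans sdiff_subset) h5 (by rw [h.card]; omega)
  omega

end Pool.Agent.O3
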