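import Pool.Agent.Lib_helper92.O3.B.Gd
import Pool.Agent.Lib_helper92.O3.B.Gf
import Pool.Agent.Lib_helper92.O3.B.Gi
import Pool.Agent.Lib_helper92.O3.B.Gj

set_option autoImplicit false
set_option linter.unusedSectionVars false
set_option linter.unusedVariables false

open scoped Classical
open Finset
open Pool.Agent.O2 (PC Cb CrOn pr ms dg nd Joined)

namespace Pool.Agent.O3

variable {V : Type}

theorem caseII {N K p : ℕ} {G : SimpleGraph V} {S : Finset V} (ih : IH N) (hN : S.card ≤ N)
    (h : Bad G S K p) : False := by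
  obtain ⟨x, hx⟩ := h.cr.nonempty
  obtain ⟨φ, hφ⟩ := h.cr.pc (by have := h.hK; omega) hx
  by_cases h1 : ∃ c, 3 ≤ ((S.erase x).filter fun v => φ v = c).card
  · obtain ⟨c, hc⟩ := h1
    by_cases h2 : ∃ c', c ≠ c' ∧ 3 ≤ ((S.erase x).filter fun v => φ v = c').card
    · obtain ⟨c', hne, hc'⟩ := h2
      obtain ⟨A, B, R, hX, hT, hTw, hf⟩ := cross_of ih hN h hx hφ hne hc hc'
      obtain ⟨a, ha, a', ha', b, hb, b', hb', h4⟩ := hTw
      have h3 : S.card ≤ 3 * K + 1 := by have := h.card; have := h.hpK; omega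
      exact cross_false h.cr h.hK hX hT ha ha' hb hb' h4 fun ψ hψ =>
        tw_of ih hN h3 h.cr hX.hR hX.big hψ hT ha ha' hb hb' h4 hf
    · push Not at h2
      exact one_class ih hN h hx hφ fun i hi => by
        have := h2 i (Ne.symm hi)
        omega
  · push Not at h1
    have hK := h.hK
    exact one_class ih hN h hx hφ (c := ⟨0, by omega⟩) fun i _ => by
      have := h1 i
      omega

end Pool.Agent.O3
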