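import Pool.Agent.Lib_helper92.O3.B.Ia
import Pool.Agent.Lib_helper92.O3.B.Gz

/-! The induction. -/

set_option autoImplicit false
set_option linter.unusedSectionVars false
set_option linter.unusedVariables false

open scoped Classical
open Finset
open Pool.Agent.O2 (PC Cb CrOn pr ms dg nd Joined)

namespace Pool.Agent.O3

variable {V : Type}

theorem IH.mono {m n : ℕ} (h : IH n) (hmn : m ≤ n) : IH m :=
  fun V G S K p hc hs h1 h2 h3 => h V G S K p hc hs h1 h2 (h3.trans_le hmn)

theorem step {N K p : ℕ} {G : SimpleGraph V} {S : Finset V} (ih : IH S.card) (h : CrOn G S K)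
    (hc : S.card = 2 * K + 1 + p) (hp : 1 ≤ p) (hpK : p ≤ K) : eb G S ≤ T K p := by
  rcases Nat.lt_or_ge K 3 with hK | hK
  · have hd := deg_bound h
    rw [hc] at hd
    have hK1 : 1 ≤ K := by omega
    unfold T
    have : K = 1 ∨ K = 2 := by omega
    rcases this with rfl | rfl
    · have hp1 : p = 1 := by omega
      subst hp1
      push_cast at hd
      omega
    · have hp1 : p = 1 ∨ p = 2 := by omega
      rcases hp1 with rfl | rfl
      · push_cast at hd
        omega
      · push_cast at hd
        omega
  · by_contra hcon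
    push Not at hcon
    refine caseII ih le_rfl (p := p) (K := K) (G := G) (S := S)
      { cr := h, card := hc, hK := hK, hp := hp, hpK := hpK, big := hcon, clq := ?_ }
    intro S' hS' hcr hT
    by_contra hne
    have := caseI ih le_rfl h hc (by omega) hp hpK hS' hcr hT hne
    omega

theorem main_ind : ∀ n, IH n := by
  intro n
  induction n with
  | zero => intro V G S K p _ _ _ _ h; exact absurd h (Nat.not_lt_zero _)
  | succ n ih =>
    intro V G S K p hc hs h1 h2 h3
    exact step (N := 0) (ih.mono (by omega)) hc hs h1 h2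

/-- the lower bound: Ore's value in the whole second period -/
theorem lower {G : SimpleGraph V} {S : Finset V} {K p : ℕ} (h : CrOn G S K)
    (hc : S.card = 2 * K + 1 + p) (hp : 1 ≤ p) (hpK : p ≤ K) :
    (K : ℤ) * (2 * K + 1 + p) + p * (K + 1 - p) + K - 4 ≤ pr G S S := by
  have h1 := main_ind (S.card + 1) V G S K p h hc hp hpK (Nat.lt_succ_self _)
  have h2 := Pool.Agent.O2.pr_add_ms G S
  have h3 := two_eb G S
  unfold T at h1
  have h4 : (pr G S S : ℤ) + 2 * eb G S + S.card = S.card * S.card := by
    rw [← h3] at h2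
    exact_mod_cast h2
  rw [hc] at h4
  have h5 : (eb G S : ℤ) ≤ K ^ 2 + K * p + p ^ 2 + 2 := by exact_mod_cast h1
  push_cast at h4
  nlinarith

end Pool.Agent.O3
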