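import Pool.Agent.Lib_helper92.O3.B.Bb
import Pool.Agent.Lib_helper92.O3.B.Bc

set_option autoImplicit false
set_option linter.unusedSectionVars false
set_option linter.unusedVariables false

open scoped Classical
open Finset
open Pool.Agent.O2 (PC Cb CrOn pr ms dg nd Joined)

namespace Pool.Agent.O3

variable {V : Type}

theorem Ga_ss {S Q : Finset V} (h : Q ⊆ S) : S \ (S \ Q) = Q := by
  rw [sdiff_sdiff_right_self]
  exact inf_eq_right.2 h

theorem Ga_card {K p : ℕ} {G : SimpleGraph V} {S Q : Finset V} (h : Bad G S K p)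
    (hQ : KC G S K Q) : (S \ Q).card = K + 1 + p := by
  have h1 := card_sdiff_add_card_eq_card hQ.sub
  rw [hQ.card, h.card] at h1
  omega

/-- `ff` is small outside a `K`-clique -/
theorem q0 {K p : ℕ} {G : SimpleGraph V} {S Q : Finset V} (h : Bad G S K p)
    (hQ : KC G S K Q) : ff G S K (S \ Q) ≤ ((K : ℤ) + 1) * (p + 1) - 4 := by
  have h1 := eb_split (G := G) K (sdiff_subset : S \ Q ⊆ S)
  have h2 : eb G Q = 0 := eb_clq.2 hQ.clq
  rw [Ga_ss hQ.sub, h2, Ga_card h hQ, h.card] at h1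
  have h3 := h.big
  unfold T at h3
  have h4 : ((K ^ 2 + K * p + p ^ 2 + 2 : ℕ) : ℤ) + 1 ≤ eb G S := by exact_mod_cast h3
  push_cast at h1 h4
  nlinarith

theorem q1 {K p : ℕ} {G : SimpleGraph V} {S Q Q' : Finset V} (h : Bad G S K p)
    (hQ : KC G S K Q) (hQ' : KC G S K Q') :
    ff G S K (S \ Q) = ff G S K ((S \ Q) \ Q') +
      (Q' \ Q).card * ((K : ℤ) + p - (Q' \ Q).card) + pr G (Q' \ Q) (Q \ Q') := by
  have hB : Q' \ Q ⊆ S \ Q := sdiff_subset_sdiff hQ'.sub (Subset.refl Q)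
  have hc : Clq G (Q' \ Q) := fun a ha b hb hab =>
    hQ'.clq a (mem_sdiff.1 ha).1 b (mem_sdiff.1 hb).1 hab
  have h1 := ff_clq (G := G) K (sdiff_subset : S \ Q ⊆ S) hB hc
  have h2 : (S \ Q) \ (Q' \ Q) = (S \ Q) \ Q' := by
    ext v
    simp only [mem_sdiff]
    tauto
  rw [h2, Ga_ss hQ.sub, Ga_card h hQ] at h1
  have hcard : (Q ∩ Q').card + (Q' \ Q).card = K := by
    have h3 := card_inter_add_card_sdiff Q' Q
    rw [inter_comm, hQ'.card] at h3
    exact h3
  have h3 : ∀ b ∈ Q' \ Q, (dg G Q b : ℤ) - K + ((K + 1 + p : ℕ) : ℤ) - 1 =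
      ((K : ℤ) + p - (Q' \ Q).card) + (dg G (Q \ Q') b : ℤ) := by
    intro b hb
    rw [mem_sdiff] at hb
    have h4 : dg G Q b = dg G (Q ∩ Q') b + dg G (Q \ Q') b := by
      have h5 : Q = (Q ∩ Q') ∪ (Q \ Q') := by
        ext v
        simp only [mem_union, mem_inter, mem_sdiff]
        tauto
      have h6 : Disjoint (Q ∩ Q') (Q \ Q') := by
        rw [disjoint_left]
        intro v hv hv'
        exact (mem_sdiff.1 hv').2 (mem_inter.1 hv).2
      conv_lhs => rw [h5]
      exact Pool.Agent.O2.dg_union h6 b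
    have h7 : dg G (Q ∩ Q') b = (Q ∩ Q').card := by
      unfold dg
      congr 1
      rw [filter_eq_self]
      intro y hy
      rw [mem_inter] at hy
      refine hQ'.clq b hb.1 y hy.2 ?_
      rintro rfl
      exact hb.2 hy.1
    rw [h4, h7]
    push_cast
    have h8 : ((Q ∩ Q').card : ℤ) + (Q' \ Q).card = K := by exact_mod_cast hcard
    linarith
  rw [h1, Pool.Agent.O2.pr_sum, sum_congr rfl h3, sum_add_distrib, sum_const, nsmul_eq_mul]
  push_cast
  ring

theorem q_card {K p : ℕ} {G : SimpleGraph V} {S Q Q' : Finset V} (h : Bad G S K p)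
    (hQ : KC G S K Q) (hQ' : KC G S K Q') :
    (Q' \ Q).card = (Q \ Q').card ∧ (Q' \ Q).card ≤ K ∧
    ((S \ Q) \ Q').card + (Q' \ Q).card = K + 1 + p ∧
    (S \ ((S \ Q) \ Q')).card = K + (Q' \ Q).card ∧ (Q ≠ Q' → 1 ≤ (Q' \ Q).card) ∧
    ((∃ x ∈ Q, x ∈ Q') → (Q' \ Q).card + 1 ≤ K) := by
  refine ⟨?_, ?_, ?_, ?_, ?_, ?_⟩
  · have h1 := card_inter_add_card_sdiff Q' Q
    have h2 := card_inter_add_card_sdiff Q Q'
    rw [hQ'.card] at h1
    rw [hQ.card, inter_comm] at h2
    omega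
  · rw [← hQ'.card]
    exact card_le_card sdiff_subset
  · rw [← Ga_card h hQ]
    have h1 : (S \ Q) \ Q' = (S \ Q) \ (Q' \ Q) := by
      ext v
      simp only [mem_sdiff]
      tauto
    rw [h1]
    exact card_sdiff_add_card_eq_card (sdiff_subset_sdiff hQ'.sub (Subset.refl Q))
  · have h1 : S \ ((S \ Q) \ Q') = Q ∪ (Q' \ Q) := by
      ext v
      simp only [mem_sdiff, mem_union]
      have h2 := @hQ.sub v
      have h3 := @hQ'.sub v
      tauto
    rw [h1, card_union_of_disjoint disjoint_sdiff, hQ.card]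
  · intro hne
    by_contra hc
    have h1 : (Q' \ Q).card = 0 := by omega
    have h2 : Q' ⊆ Q := sdiff_eq_empty_iff_subset.1 (card_eq_zero.1 h1)
    exact hne (eq_of_subset_of_card_le h2 (by rw [hQ.card, hQ'.card])).symm
  · rintro ⟨x, hx, hx'⟩
    have h1 : Q' \ Q ⊆ Q'.erase x := by
      intro v hv
      rw [mem_sdiff] at hv
      rw [mem_erase]
      refine ⟨?_, hv.1⟩
      rintro rfl
      exact hv.2 hx
    have h2 := card_le_card h1
    have h3 := card_erase_add_one hx'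
    rw [hQ'.card] at h3
    omega

theorem kc_crit {K : ℕ} {G : SimpleGraph V} {S S' : Finset V} (hK : 1 ≤ K) (hS : S' ⊆ S)
    (h : CrOn G S' (K - 1)) (hc : S'.card = K) : KC G S K S' := by
  refine ⟨hS, ?_, hc⟩
  intro a ha b hb hab
  by_contra hadj
  apply h.1
  have h1 : Cb G {a, b} 1 := by
    refine ⟨fun _ => 0, fun _ _ => Nat.one_pos, ?_⟩
    intro x hx y hy hxy
    exfalso
    rw [mem_insert, mem_singleton] at hx hy
    rcases hx with rfl | rfl <;> rcases hy with rfl | rfl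
    · exact G.irrefl hxy
    · exact hadj hxy
    · exact hadj hxy.symm
    · exact G.irrefl hxy
  have hsub : ({a, b} : Finset V) ⊆ S' := by
    intro x hx
    rw [mem_insert, mem_singleton] at hx
    rcases hx with rfl | rfl
    · exact ha
    · exact hb
  have h2 := Pool.Agent.O2.cb_card G (S' \ {a, b})
  have h3 := Pool.Agent.O2.cb_union h1 h2
  have h4 : ({a, b} : Finset V) ∪ (S' \ {a, b}) = S' := union_sdiff_of_subset hsub
  have h5 := card_sdiff_add_card_eq_card hsub
  rw [card_pair hab, hc] at h5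
  rw [h4] at h3
  have h6 : 1 + (S' \ {a, b}).card = K - 1 := by omega
  rw [h6] at h3
  exact h3

end Pool.Agent.O3
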