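import Pool.Agent.Lib_helper92.O3.B.La

set_option autoImplicit false
set_option linter.unusedSectionVars false
set_option linter.unusedVariables false

open scoped Classical
open Finset
open Pool.Agent.O2 (PC Cb CrOn pr ms dg nd Joined)

namespace Pool.Agent.O3

variable {V : Type}

theorem Lb_aux {K N : ℕ} {G : SimpleGraph V} {S : Finset V} (ih : IH N) (hN : S.card ≤ N)
    (h3 : S.card ≤ 3 * K + 1) (h : CrOn G S K) : ∀ n : ℕ, ∀ W : Finset V, W ⊆ S →
    K + 1 ≤ (S \ W).card → W.card ≤ n → ∀ i : ℕ, W.card = K + 1 + i →
    ((i : ℤ) + 1) * K - 1 ≤ ff G S K W := by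
  intro n
  induction n with
  | zero => intro W _ _ h0 i hi; omega
  | succ n IHn =>
    intro W hW hR hn i hi
    have hWS : W.card + (S \ W).card = S.card := by
      rw [card_sdiff_of_subset hW]
      have := card_le_card hW
      omega
    have hcb : ∀ C ⊆ S, Clq G C → C.card ≤ K := fun C hC hc => clq_bound h hC hc (by omega)
    rcases Nat.eq_zero_or_pos i with rfl | hi1
    · have hnon : Non G W := by
        by_contra hcon
        have hc : Clq G W := by
          intro a ha b hb hab
          by_contra hadj
          exact hcon ⟨a, ha, b, hb, hab, hadj⟩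
        have := hcb W hW hc
        omega
      have h1 := lem2 ih hN h3 h hW hR hnon
      rw [hi] at h1
      push_cast at h1 ⊢
      linarith
    · obtain ⟨W', hW', ρ, q, hρ1, hρK, hw', hcase⟩ :=
        keyn ih hN h3 h hW (card_pos.1 (by omega)) hR
      have hWW : (W \ W').card + W'.card = W.card := by
        rw [card_sdiff_of_subset hW']
        have := card_le_card hW'
        omega
      have hsub : W \ W' ⊆ S := sdiff_subset.trans hW
      have hR' : K + 1 ≤ (S \ (W \ W')).card :=
        hR.trans (card_le_card (sdiff_subset_sdiff (subset_refl _) sdiff_subset))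
      have hnn : 0 ≤ ff G S K (W \ W') := ff_nonneg h hsub
      obtain ⟨m, hm⟩ : ∃ m, (W \ W').card = m := ⟨_, rfl⟩
      have hind : ∀ i', m = K + 1 + i' → 1 ≤ W'.card →
          ((i' : ℤ) + 1) * K - 1 ≤ ff G S K (W \ W') := by
        intro i' hi' h1
        exact IHn (W \ W') hsub hR' (by omega) i' (by omega)
      have hmw : (m : ℤ) + W'.card = K + 1 + i := by
        have : m + W'.card = K + 1 + i := by omega
        exact_mod_cast this
      have hW1 : 1 ≤ W'.card := by omega
      have hWi : (W.card : ℤ) = K + 1 + i := by exact_mod_cast hi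
      rw [hWi] at hcase
      have hi0 : (0 : ℤ) ≤ i := Int.natCast_nonneg _
      have hm0 : (0 : ℤ) ≤ m := Int.natCast_nonneg _
      rcases hcase with ⟨hq, hcl, hf⟩ | ⟨hq2, hqK, hf⟩ | ⟨p, hp, hq, hf⟩
      · have hwK : W'.card ≤ K := hcb W' (hW'.trans hW) hcl
        rcases Nat.lt_or_ge i W'.card with hlt | hge
        · have e1 : (0 : ℤ) ≤ ((W'.card : ℤ) - i - 1) * (K - W'.card) :=
            mul_nonneg (by omega) (by omega)
          nlinarith
        · obtain ⟨i', hi'⟩ := Nat.exists_eq_add_of_le hge
          have h2 := hind i' (by omega) hW1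
          have e2 : (i : ℤ) = W'.card + i' := by exact_mod_cast hi'
          have e1 : (0 : ℤ) ≤ (W'.card : ℤ) * (1 + i') := by positivity
          rw [e2] at hf ⊢
          nlinarith
      · have hw2 : (W'.card : ℤ) = q + ρ := by exact_mod_cast hw'
        rcases Nat.lt_or_ge i m with hlt | hge
        · rcases Nat.lt_or_ge K m with hlt2 | hge2
          · obtain ⟨i', hi'⟩ := Nat.exists_eq_add_of_le (Nat.succ_le_of_lt hlt2)
            have h2 := hind i' (by omega) hW1
            have e3 : (m : ℤ) = K + 1 + i' := by
              have : m = K + 1 + i' := by omega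
              exact_mod_cast this
            have e1 : (0 : ℤ) ≤ (W'.card : ℤ) * (1 + i') := by positivity
            have e4 : (1 : ℤ) ≤ ρ * q := by
              have : 1 ≤ ρ * q := Nat.one_le_iff_ne_zero.2 (by positivity)
              exact_mod_cast this
            have e5 : (i : ℤ) = W'.card + i' := by linarith
            rw [e5] at hf ⊢
            nlinarith
          · have e1 : (0 : ℤ) ≤ ((m : ℤ) - i - 1) * (K - m) :=
              mul_nonneg (by omega) (by omega)
            have e4 : (1 : ℤ) ≤ ρ * q := by
              have : 1 ≤ ρ * q := Nat.one_le_iff_ne_zero.2 (by positivity)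
              exact_mod_cast this
            have e6 : (W'.card : ℤ) = K + 1 + i - m := by linarith
            rw [e6] at hf
            nlinarith
        · have e1 : (0 : ℤ) ≤ ((K : ℤ) - ρ) * (K - q) := mul_nonneg (by omega) (by omega)
          have e2 : (0 : ℤ) ≤ (m : ℤ) * (1 + i - m) := mul_nonneg hm0 (by omega)
          have e6 : (W'.card : ℤ) = K + 1 + i - m := by linarith
          have e7 : (ρ : ℤ) + q = K + 1 + i - m := by linarith
          rw [e6] at hf
          have e8 : ((K : ℤ) - ρ) * (K - q) = K * K - K * (ρ + q) + ρ * q := by ring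
          rw [e7] at e8
          have e9 : ((K : ℤ) + 1 + i - m) * (K + 1 + i - (K + 1 + i - m)) +
              (K * (K + 1 + i - m) - K * K) - 1 = (i + 1) * K - 1 + m * (1 + i - m) := by ring
          linarith
      · have hw2 : (W'.card : ℤ) = K + p + ρ := by
          have : W'.card = K + p + ρ := by omega
          exact_mod_cast this
        have e4 : (1 : ℤ) ≤ ρ * p := by
          have : 1 ≤ ρ * p := Nat.one_le_iff_ne_zero.2 (by positivity)
          exact_mod_cast this
        have e5 : (i : ℤ) + 1 = p + ρ + m := by linarith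
        have e6 : (i : ℤ) = p + ρ + m - 1 := by linarith
        have e7 : (0 : ℤ) ≤ (m : ℤ) * (p + ρ) := by positivity
        rw [e6] at hf ⊢
        rw [hw2] at hf
        nlinarith

theorem lem3 {K N : ℕ} {G : SimpleGraph V} {S W : Finset V} (ih : IH N) (hN : S.card ≤ N)
    (h3 : S.card ≤ 3 * K + 1) (h : CrOn G S K) (hW : W ⊆ S) (hR : K + 1 ≤ (S \ W).card) (i : ℕ)
    (hi : W.card = K + 1 + i) : ((i : ℤ) + 1) * K - 1 ≤ ff G S K W :=
  Lb_aux ih hN h3 h W.card W hW hR le_rfl i hi

end Pool.Agent.O3
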