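import Pool.Agent.Lib_helper92.O3.B.Ga
import Pool.Agent.Lib_helper92.O3.B.Lb
import Pool.Agent.Lib_helper92.O3.B.Oc

set_option autoImplicit false
set_option linter.unusedSectionVars false
set_option linter.unusedVariables false

open scoped Classical
open Finset
open Pool.Agent.O2 (PC Cb CrOn pr ms dg nd Joined)

namespace Pool.Agent.O3

variable {V : Type}

theorem Gb_non {G : SimpleGraph V} {X : Finset V} (h : ¬ Clq G X) : Non G X := by
  unfold Clq at h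
  push Not at h
  obtain ⟨a, ha, b, hb, hab, hn⟩ := h
  exact ⟨a, ha, b, hb, hab, hn⟩

theorem Gb_sub {S Q Q' : Finset V} : (S \ Q) \ Q' ⊆ S :=
  sdiff_subset.trans sdiff_subset

theorem Gb_base {K p : ℕ} {G : SimpleGraph V} {S Q Q' : Finset V} (h : Bad G S K p)
    (hQ : KC G S K Q) (hQ' : KC G S K Q') :
    ff G S K ((S \ Q) \ Q') + (Q' \ Q).card * ((K : ℤ) + p - (Q' \ Q).card) +
      pr G (Q' \ Q) (Q \ Q') ≤ ((K : ℤ) + 1) * (p + 1) - 4 := by
  have e0 := q0 h hQ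
  have e1 := q1 h hQ hQ'
  linarith

theorem two_q {N K p : ℕ} {G : SimpleGraph V} {S Q Q' : Finset V} (ih : IH N)
    (hN : S.card ≤ N) (h : Bad G S K p) (hQ : KC G S K Q) (hQ' : KC G S K Q') (hne : Q ≠ Q') :
    p ≤ (Q' \ Q).card := by
  by_contra hcon
  push Not at hcon
  obtain ⟨h1, h2, h3, h4, h5, h6⟩ := q_card h hQ hQ'
  have hb1 := h5 hne
  have hbase := Gb_base h hQ hQ'
  have h3K : S.card ≤ 3 * K + 1 := by
    have := h.card
    have := h.hpK
    omega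
  have hl := lem3 ih hN h3K h.cr (W := (S \ Q) \ Q') Gb_sub (by omega) (p - (Q' \ Q).card)
    (by omega)
  generalize hbd : (Q' \ Q).card = b at *
  generalize ff G S K ((S \ Q) \ Q') = F at *
  generalize hpr : pr G (Q' \ Q) (Q \ Q') = P at *
  have hbZ : (1 : ℤ) ≤ b := by exact_mod_cast hb1
  have hpZ : (b : ℤ) + 1 ≤ p := by exact_mod_cast hcon
  have hPZ : (0 : ℤ) ≤ P := by positivity
  rw [Nat.cast_sub hcon.le] at hl
  nlinarith [mul_nonneg (sub_nonneg.mpr hbZ) (sub_nonneg.mpr hpZ)]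

theorem two_q2 {N K p : ℕ} {G : SimpleGraph V} {S Q Q' : Finset V} (ih : IH N)
    (hN : S.card ≤ N) (h : Bad G S K p) (hQ : KC G S K Q) (hQ' : KC G S K Q') (hne : Q ≠ Q')
    (hb : (Q' \ Q).card + 1 ≤ K) :
    ¬ Tri G ((S \ Q) \ Q') ∧
    (Two G ((S \ Q) \ Q') → (Q' \ Q).card + 1 = K ∧
      ff G S K ((S \ Q) \ Q') ≤ 2 * (((S \ Q) \ Q').card : ℤ) - 6 ∧
      pr G (Q' \ Q) (Q \ Q') = 0) ∧
    (p = 1 → Clq G ((S \ Q) \ Q')) := by
  obtain ⟨h1, h2, h3, h4, h5, h6⟩ := q_card h hQ hQ'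
  have hb1 := h5 hne
  have hpb := two_q ih hN h hQ hQ' hne
  have hbase := Gb_base h hQ hQ'
  have h3K : S.card ≤ 3 * K + 1 := by
    have := h.card
    have := h.hpK
    omega
  have hP6 := p6_all ih S.card hN V G S ((S \ Q) \ Q') K h.cr rfl h3K Gb_sub (by omega)
  have hl2 := lem2 ih hN h3K h.cr (W := (S \ Q) \ Q') Gb_sub (by omega)
  have hRZ : (((S \ Q) \ Q').card : ℤ) = K + 1 + p - (Q' \ Q).card := by
    have : ((((S \ Q) \ Q').card + (Q' \ Q).card : ℕ) : ℤ) = ((K + 1 + p : ℕ) : ℤ) := by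
      rw [h3]
    push_cast at this
    linarith
  have hbZ : (1 : ℤ) ≤ (Q' \ Q).card := by exact_mod_cast hb1
  have hpZ : (p : ℤ) ≤ (Q' \ Q).card := by exact_mod_cast hpb
  have hKZ : ((Q' \ Q).card : ℤ) + 1 ≤ K := by exact_mod_cast hb
  have hPZ : (0 : ℤ) ≤ (pr G (Q' \ Q) (Q \ Q') : ℕ) := by positivity
  have hkey := mul_nonneg (sub_nonneg.mpr hKZ)
    (show (0 : ℤ) ≤ (Q' \ Q).card - p + 1 by linarith)
  refine ⟨?_, ?_, ?_⟩
  · intro hT
    have := hP6.1 hT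
    rw [hRZ] at this
    nlinarith
  · intro hT
    have hf := hP6.2 hT
    rw [hRZ] at hf
    have hprod : ((K : ℤ) - ((Q' \ Q).card + 1)) * ((Q' \ Q).card - p + 1) ≤ 0 := by
      nlinarith
    have hK0 : (K : ℤ) - ((Q' \ Q).card + 1) = 0 := by
      by_contra hne0
      have hpos : (0 : ℤ) < (K : ℤ) - ((Q' \ Q).card + 1) :=
        lt_of_le_of_ne (by linarith) (Ne.symm hne0)
      have : (0 : ℤ) < ((K : ℤ) - ((Q' \ Q).card + 1)) * ((Q' \ Q).card - p + 1) :=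
        mul_pos hpos (by linarith)
      linarith
    refine ⟨by omega, ?_, ?_⟩
    · rw [hRZ]
      nlinarith
    · have hP0 : ((pr G (Q' \ Q) (Q \ Q') : ℕ) : ℤ) ≤ 0 := by nlinarith
      have : pr G (Q' \ Q) (Q \ Q') ≤ 0 := by exact_mod_cast hP0
      omega
  · intro hp1
    by_contra hn
    have hf := hl2 (Gb_non hn)
    rw [hRZ] at hf
    subst hp1
    push_cast at hf hbase
    have hkey2 := mul_nonneg (sub_nonneg.mpr hbZ) (sub_nonneg.mpr hKZ)
    nlinarith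

end Pool.Agent.O3
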