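import Pool.Agent.Lib_helper92.O3.B.Gb
import Pool.Agent.Lib_helper92.O3.B.Gc
import Pool.Agent.Lib_helper92.O3.Defs2

set_option autoImplicit false
set_option linter.unusedSectionVars false
set_option linter.unusedVariables false

open scoped Classical
open Finset
open Pool.Agent.O2 (PC Cb CrOn pr ms dg nd Joined)

namespace Pool.Agent.O3

variable {V : Type}

theorem Gd_cls {K : ℕ} {G : SimpleGraph V} {S Q : Finset V} (hQ : KC G S K Q) {x : V}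
    {φ : V → Fin K} (hφ : PC G (S.erase x) φ) {c : Fin K}
    (h1 : 3 ≤ ((S.erase x).filter fun v => φ v = c).card) :
    ∃ a ∈ S.erase x, ∃ a' ∈ S.erase x, a ≠ a' ∧ φ a = c ∧ φ a' = c ∧ a ∉ Q ∧ a' ∉ Q := by
  have hle : ((((S.erase x).filter fun v => φ v = c)) ∩ Q).card ≤ 1 := by
    rw [card_le_one]
    intro a ha b hb
    rw [mem_inter, mem_filter] at ha hb
    by_contra hab
    exact hφ a ha.1.1 b hb.1.1 (hQ.clq a ha.2 b hb.2 hab) (ha.1.2.trans hb.1.2.symm)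
  have hs := card_sdiff_add_card_inter (((S.erase x).filter fun v => φ v = c)) Q
  have hlt : 1 < ((((S.erase x).filter fun v => φ v = c)) \ Q).card := by omega
  obtain ⟨a, ha, a', ha', hne⟩ := one_lt_card.mp hlt
  rw [mem_sdiff, mem_filter] at ha ha'
  exact ⟨a, ha.1.1, a', ha'.1.1, hne, ha.1.2, ha'.1.2, ha.2, ha'.2⟩

theorem cross_of {N K p : ℕ} {G : SimpleGraph V} {S : Finset V} (ih : IH N)
    (hN : S.card ≤ N) (h : Bad G S K p) {x : V} (hx : x ∈ S) {φ : V → Fin K}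
    (hφ : PC G (S.erase x) φ) {c c' : Fin K} (hne : c ≠ c')
    (h1 : 3 ≤ ((S.erase x).filter fun v => φ v = c).card)
    (h2 : 3 ≤ ((S.erase x).filter fun v => φ v = c').card) :
    ∃ A B R : Finset V, Cross G S K x A B R ∧ ¬ Tri G R ∧ Two G R ∧
      ff G S K R ≤ 2 * (R.card : ℤ) - 6 := by
  obtain ⟨Q₁, hQ₁, hx₁, hav₁, hm₁⟩ := q_of h hx hφ c h1
  obtain ⟨Q₂, hQ₂, hx₂, hav₂, hm₂⟩ := q_of h hx hφ c' h2
  have hQne : Q₁ ≠ Q₂ := by
    intro he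
    obtain ⟨v, hv, hvx, hvc⟩ := hm₂ c hne
    exact hav₁ v (by rw [he]; exact hv) hvx hvc
  obtain ⟨k1, k2, k3, k4, k5, k6⟩ := q_card h hQ₁ hQ₂
  have hb1 := k5 hQne
  have hbK := k6 ⟨x, hx₁, hx₂⟩
  obtain ⟨t1, t2, t3⟩ := two_q2 ih hN h hQ₁ hQ₂ hQne hbK
  have hTwo : Two G ((S \ Q₁) \ Q₂) := by
    obtain ⟨a, ha, a', ha', haa, hac, hac', haQ, haQ'⟩ := Gd_cls hQ₂ hφ h1
    obtain ⟨b, hb, b', hb', hbb, hbc, hbc', hbQ, hbQ'⟩ := Gd_cls hQ₁ hφ h2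
    have hin : ∀ v ∈ S.erase x, v ∉ Q₁ → v ∉ Q₂ → v ∈ (S \ Q₁) \ Q₂ := by
      intro v hv h1 h2
      rw [mem_sdiff, mem_sdiff]
      exact ⟨⟨mem_of_mem_erase hv, h1⟩, h2⟩
    refine ⟨a, hin a ha (fun hq => hav₁ a hq (ne_of_mem_erase ha) hac) haQ,
      a', hin a' ha' (fun hq => hav₁ a' hq (ne_of_mem_erase ha') hac') haQ',
      b, hin b hb hbQ (fun hq => hav₂ b hq (ne_of_mem_erase hb) hbc),
      b', hin b' hb' hbQ' (fun hq => hav₂ b' hq (ne_of_mem_erase hb') hbc'), ?_⟩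
    refine ⟨haa, hbb, ?_, ?_, ?_, ?_, ?_, ?_⟩
    · rintro rfl; exact hne (hac.symm.trans hbc)
    · rintro rfl; exact hne (hac.symm.trans hbc')
    · rintro rfl; exact hne (hac'.symm.trans hbc)
    · rintro rfl; exact hne (hac'.symm.trans hbc')
    · exact fun hadj => hφ a ha a' ha' hadj (hac.trans hac'.symm)
    · exact fun hadj => hφ b hb b' hb' hadj (hbc.trans hbc'.symm)
  obtain ⟨u1, u2, u3⟩ := t2 hTwo
  have hint : (Q₁ ∩ Q₂).card = 1 := by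
    have e1 := card_sdiff_add_card_inter Q₁ Q₂
    have e2 := hQ₁.card
    omega
  have honly : ∀ y, y ∈ Q₁ → y ∈ Q₂ → y = x := by
    intro y h1 h2
    exact (card_le_one.mp hint.le) y (mem_inter.mpr ⟨h1, h2⟩) x (mem_inter.mpr ⟨hx₁, hx₂⟩)
  have hno : ∀ y ∈ Q₁.erase x, ∀ y' ∈ Q₂.erase x, ¬ G.Adj y y' := by
    intro y hy y' hy' hadj
    have hyQ : y ∈ Q₁ \ Q₂ := by
      rw [mem_sdiff]
      exact ⟨mem_of_mem_erase hy, fun h => ne_of_mem_erase hy (honly y (mem_of_mem_erase hy) h)⟩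
    have hyQ' : y' ∈ Q₂ \ Q₁ := by
      rw [mem_sdiff]
      exact ⟨mem_of_mem_erase hy',
        fun h => ne_of_mem_erase hy' (honly y' h (mem_of_mem_erase hy'))⟩
    unfold pr at u3
    rw [card_eq_zero] at u3
    have hmem : (y', y) ∈ (((Q₂ \ Q₁) ×ˢ (Q₁ \ Q₂)).filter fun p => G.Adj p.1 p.2) := by
      rw [mem_filter, mem_product]
      exact ⟨⟨hyQ', hyQ⟩, hadj.symm⟩
    rw [u3] at hmem
    exact notMem_empty _ hmem
  refine ⟨Q₁.erase x, Q₂.erase x, (S \ Q₁) \ Q₂, ?_, t1, hTwo, u2⟩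
  refine ⟨hx, (erase_subset _ _).trans hQ₁.sub, (erase_subset _ _).trans hQ₂.sub, (sdiff_subset.trans sdiff_subset),
    notMem_erase _ _, notMem_erase _ _, ?_, ?_, ?_, ?_, ?_, ?_, ?_, hno, ?_, ?_⟩
  · rw [disjoint_left]
    intro y hy hy'
    exact ne_of_mem_erase hy (honly y (mem_of_mem_erase hy) (mem_of_mem_erase hy'))
  · rw [card_erase_of_mem hx₁, hQ₁.card]; omega
  · rw [card_erase_of_mem hx₂, hQ₂.card]; omega
  · exact fun a ha b hb hab => hQ₁.clq a (mem_of_mem_erase ha) b (mem_of_mem_erase hb) hab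
  · exact fun a ha b hb hab => hQ₂.clq a (mem_of_mem_erase ha) b (mem_of_mem_erase hb) hab
  · exact fun y hy => hQ₁.clq x hx₁ y (mem_of_mem_erase hy) (ne_of_mem_erase hy).symm
  · exact fun y hy => hQ₂.clq x hx₂ y (mem_of_mem_erase hy) (ne_of_mem_erase hy).symm
  · intro v
    rw [mem_sdiff, mem_sdiff, mem_erase, mem_erase]
    constructor
    · rintro ⟨⟨hv, hv1⟩, hv2⟩
      exact ⟨hv, fun he => hv1 (he ▸ hx₁), fun h => hv1 h.2, fun h => hv2 h.2⟩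
    · rintro ⟨hv, hvx, hv1, hv2⟩
      exact ⟨⟨hv, fun h => hv1 ⟨hvx, h⟩⟩, fun h => hv2 ⟨hvx, h⟩⟩
  · rw [k4]; omega

end Pool.Agent.O3
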