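import Pool.Agent.Lib_helper92.O3.Defs2
import Pool.Agent.Lib_helper92.O3.B.Ba

set_option autoImplicit false
set_option linter.unusedSectionVars false
set_option linter.unusedVariables false

open scoped Classical
open Finset
open Pool.Agent.O2 (PC Cb CrOn pr ms dg nd Joined)

namespace Pool.Agent.O3

variable {V : Type}

theorem Gg_mem {K : ℕ} {G : SimpleGraph V} {S : Finset V} {x : V} {A B R : Finset V}
    (h : Cross G S K x A B R) {v : V} : v ∈ S \ R ↔ v = x ∨ v ∈ A ∨ v ∈ B := by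
  rw [mem_sdiff, h.mR v]
  constructor
  · rintro ⟨hS, hn⟩
    by_contra hc
    push Not at hc
    exact hn ⟨hS, hc.1, hc.2.1, hc.2.2⟩
  · rintro (rfl | hv | hv)
    · exact ⟨h.hx, fun hc => hc.2.1 rfl⟩
    · exact ⟨h.hA hv, fun hc => hc.2.2.1 hv⟩
    · exact ⟨h.hB hv, fun hc => hc.2.2.2 hv⟩

/-- a numbering of a finite set which starts at a given element -/
theorem Gg_num {n : ℕ} {A : Finset V} (hA : A.card = n) {u : V} (hu : u ∈ A) :
    ∃ f : V → ℕ, (∀ v ∈ A, f v < n) ∧ f u = 0 ∧ ∀ v ∈ A, ∀ w ∈ A, f v = f w → v = w := by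
  have hn : 0 < n := by rw [← hA]; exact card_pos.2 ⟨u, hu⟩
  let e : A ≃ Fin n := Finset.equivFinOfCardEq hA
  let g : A ≃ Fin n := e.trans (Equiv.swap (e ⟨u, hu⟩) ⟨0, hn⟩)
  refine ⟨fun v => if hv : v ∈ A then (g ⟨v, hv⟩ : Fin n).val else 0, ?_, ?_, ?_⟩
  · intro v hv
    simp only [hv, dif_pos]
    exact (g ⟨v, hv⟩).isLt
  · simp [hu, g]
  · intro v hv w hw he
    simp only [hv, hw, dif_pos] at he
    have := g.injective (Fin.ext he)
    exact congrArg Subtype.val this

theorem cross_col {K : ℕ} {G : SimpleGraph V} {S : Finset V} {x : V} {A B R : Finset V}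
    (h : Cross G S K x A B R) {u u' : V} (hu : u ∈ A) (hu' : u' ∈ B) :
    ∃ ψ : V → Fin K, PC G (S \ R) ψ ∧ ψ u = ψ u' := by
  obtain ⟨n, rfl⟩ : ∃ n, K = n + 1 := ⟨A.card, h.cA.symm⟩
  have hcA : A.card = n := by have := h.cA; omega
  have hcB : B.card = n := by have := h.cB; omega
  obtain ⟨f, hf, hf0, hfi⟩ := Gg_num hcA hu
  obtain ⟨g, hg, hg0, hgi⟩ := Gg_num hcB hu'
  have hAB : ∀ v, v ∈ B → v ∉ A := fun v hv hv' => disjoint_left.1 h.dis hv' hv
  let φ : V → ℕ := fun v => if v ∈ A then f v + 1 else if v ∈ B then g v + 1 else 0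
  have hφ : ∀ v, φ v < n + 1 := by
    intro v
    simp only [φ]
    split_ifs with h1 h2
    · have := hf v h1; omega
    · have := hg v h2; omega
    · omega
  have hφA : ∀ v ∈ A, φ v = f v + 1 := fun v hv => by simp [φ, hv]
  have hφB : ∀ v ∈ B, φ v = g v + 1 := fun v hv => by simp [φ, hv, hAB v hv]
  have hφx : φ x = 0 := by simp [φ, h.xnA, h.xnB]
  refine ⟨fun v => ⟨φ v, hφ v⟩, ?_, ?_⟩
  · intro a ha b hb hab he
    have he : φ a = φ b := congrArg Fin.val he
    rw [Gg_mem h] at ha hb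
    rcases ha with rfl | ha | ha <;> rcases hb with rfl | hb | hb
    · exact G.irrefl hab
    · rw [hφx, hφA b hb] at he; omega
    · rw [hφx, hφB b hb] at he; omega
    · rw [hφx, hφA a ha] at he; omega
    · rw [hφA a ha, hφA b hb] at he
      exact hab.ne (hfi a ha b hb (by omega))
    · exact h.no a ha b hb hab
    · rw [hφx, hφB a ha] at he; omega
    · exact h.no b hb a ha hab.symm
    · rw [hφB a ha, hφB b hb] at he
      exact hab.ne (hgi a ha b hb (by omega))
  · apply Fin.ext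
    show φ u = φ u'
    rw [hφA u hu, hφB u' hu', hf0, hg0]

theorem cross_symm {K : ℕ} {G : SimpleGraph V} {S : Finset V} {x : V} {A B R : Finset V}
    (h : Cross G S K x A B R) : Cross G S K x B A R where
  hx := h.hx
  hA := h.hB
  hB := h.hA
  hR := h.hR
  xnA := h.xnB
  xnB := h.xnA
  dis := h.dis.symm
  cA := h.cB
  cB := h.cA
  clA := h.clB
  clB := h.clA
  xA := h.xB
  xB := h.xA
  no := fun y hy y' hy' hadj => h.no y' hy' y hy hadj.symm
  mR := fun v => by rw [h.mR v]; tauto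
  big := h.big

/-- a colour class of a colouring of `S \ R` is `{x}` or a pair -/
theorem cross_cls {K : ℕ} {G : SimpleGraph V} {S : Finset V} {x : V} {A B R : Finset V}
    (h : Cross G S K x A B R) {ψ : V → Fin K} (hψ : PC G (S \ R) ψ) {u u' : V} (hu : u ∈ A)
    (hu' : u' ∈ B) (he : ψ u = ψ u') : ∀ y ∈ S \ R, ψ y = ψ u → y = u ∨ y = u' := by
  intro y hy hyu
  have hu1 : u ∈ S \ R := (Gg_mem h).2 (Or.inr (Or.inl hu))
  have hu2 : u' ∈ S \ R := (Gg_mem h).2 (Or.inr (Or.inr hu'))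
  rcases (Gg_mem h).1 hy with rfl | hA | hB
  · exact absurd hyu (hψ _ hy _ hu1 (h.xA u hu))
  · left
    by_contra hne
    exact hψ y hy u hu1 (h.clA y hA u hu hne) hyu
  · right
    by_contra hne
    exact hψ y hy u' hu2 (h.clB y hB u' hu' hne) (hyu.trans he)

end Pool.Agent.O3
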