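import Pool.Agent.Lib_helper92.O3.B.Gg
import Pool.Agent.Lib_helper92.O3.B.Ge

set_option autoImplicit false
set_option linter.unusedSectionVars false
set_option linter.unusedVariables false

open scoped Classical
open Finset
open Pool.Agent.O2 (PC Cb CrOn pr ms dg nd Joined)

namespace Pool.Agent.O3

variable {V : Type}

theorem Gh_memA {K : ℕ} {G : SimpleGraph V} {S : Finset V} {x : V} {A B R : Finset V}
    (h : Cross G S K x A B R) {u : V} (hu : u ∈ A) : u ∈ S \ R := by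
  rw [mem_sdiff]
  exact ⟨h.hA hu, fun hr => ((h.mR u).1 hr).2.2.1 hu⟩

theorem Gh_memB {K : ℕ} {G : SimpleGraph V} {S : Finset V} {x : V} {A B R : Finset V}
    (h : Cross G S K x A B R) {u : V} (hu : u ∈ B) : u ∈ S \ R := by
  rw [mem_sdiff]
  exact ⟨h.hB hu, fun hr => ((h.mR u).1 hr).2.2.2 hu⟩

theorem Gh_ne {K : ℕ} {G : SimpleGraph V} {S : Finset V} {x : V} {A B R : Finset V}
    (h : Cross G S K x A B R) : A.Nonempty ∧ B.Nonempty := by
  have h1 : S \ R ⊆ insert x (A ∪ B) := by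
    intro v hv
    rw [mem_sdiff] at hv
    rw [mem_insert, mem_union]
    by_contra hc
    push Not at hc
    exact hv.2 ((h.mR v).2 ⟨hv.1, hc.1, hc.2.1, hc.2.2⟩)
  have h2 := card_le_card h1
  have h3 := card_insert_le x (A ∪ B)
  have h4 := card_union_le A B
  have h5 := h.big
  have h6 := h.cA
  have h7 := h.cB
  constructor
  · rw [← card_pos]; omega
  · rw [← card_pos]; omega

/-- `v` adjacent to all of the clique `A` of `K - 1` vertices has `K - 1` colours in `hit` -/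
theorem Gh_all {K : ℕ} {G : SimpleGraph V} {T A : Finset V} {ψ : V → Fin K} (hψ : PC G T ψ)
    (hA : A ⊆ T) (hc : Clq G A) {v : V} (hv : ∀ y ∈ A, G.Adj v y) :
    A.card ≤ (hit G T ψ v).card := by
  have hinj : Set.InjOn ψ (A : Set V) := by
    intro a ha b hb hab
    by_contra hne
    exact hψ a (hA ha) b (hA hb) (hc a ha b hb hne) hab
  rw [← card_image_of_injOn hinj]
  apply card_le_card
  intro i hi
  rw [mem_image] at hi
  obtain ⟨y, hy, rfl⟩ := hi
  unfold hit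
  rw [mem_filter]
  exact ⟨mem_univ _, y, hA hy, rfl, hv y hy⟩

theorem side_one {K : ℕ} {G : SimpleGraph V} {S : Finset V} {x : V} {A B R : Finset V}
    {a a' b b' : V} (h : Cross G S K x A B R)
    (ht : ∀ ψ : V → Fin K, PC G (S \ R) ψ → Tw G S R ψ a a' b b') {v u u' : V} (hv : v ∈ R)
    (hu : u ∈ A) (hu' : u' ∈ B) : ¬ (G.Adj v u ∧ G.Adj v u') := by
  rintro ⟨h1, h2⟩
  obtain ⟨ψ, hψ, he⟩ := cross_col h hu hu'
  have h3 := (ht ψ hψ).inj v hv
  have hne : u ≠ u' := by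
    rintro rfl
    exact (disjoint_left.1 h.dis hu) hu'
  have h4 : hit G (S \ R) ψ v ⊆ (((S \ R).filter fun y => G.Adj v y).erase u).image ψ := by
    intro i hi
    unfold hit at hi
    rw [mem_filter] at hi
    obtain ⟨-, y, hy, rfl, hay⟩ := hi
    rw [mem_image]
    by_cases hyu : y = u
    · refine ⟨u', ?_, ?_⟩
      · rw [mem_erase, mem_filter]
        exact ⟨hne.symm, Gh_memB h hu', h2⟩
      · rw [hyu, he]
    · refine ⟨y, ?_, rfl⟩
      rw [mem_erase, mem_filter]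
      exact ⟨hyu, hy, hay⟩
  have h5 := card_le_card h4
  have h6 := card_image_le (s := ((S \ R).filter fun y => G.Adj v y).erase u) (f := ψ)
  have hmem : u ∈ (S \ R).filter fun y => G.Adj v y := by
    rw [mem_filter]
    exact ⟨Gh_memA h hu, h1⟩
  have h7 := card_erase_of_mem hmem
  have h8 : 0 < ((S \ R).filter fun y => G.Adj v y).card := card_pos.2 ⟨u, hmem⟩
  unfold dg at h3
  omega

theorem side_two {K : ℕ} {G : SimpleGraph V} {S : Finset V} {x : V} {A B R : Finset V}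
    {a a' b b' : V} (h : Cross G S K x A B R)
    (ht : ∀ ψ : V → Fin K, PC G (S \ R) ψ → Tw G S R ψ a a' b b') {u v : V} (hu : u ∈ R)
    (hv : v ∈ R) (hne : u ≠ v) (hn : ¬ G.Adj u v) (huB : ∀ y ∈ B, ¬ G.Adj u y)
    (hu4 : u ∈ ({a, a', b, b'} : Finset V)) (hvA : ∀ y ∈ A, ¬ G.Adj v y) :
    ∀ y ∈ B, G.Adj v y := by
  intro y' hy'
  by_contra hvy
  have hex : ∃ y ∈ A, ¬ G.Adj u y := by
    by_contra hcon
    push Not at hcon
    obtain ⟨⟨w, hw⟩, ⟨w', hw'⟩⟩ := Gh_ne h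
    obtain ⟨ψ, hψ, -⟩ := cross_col h hw hw'
    have h1 := (ht ψ hψ).sm u hu4
    have h2 := Gh_all hψ (fun y hy => Gh_memA h hy) h.clA hcon
    have h3 := h.cA
    omega
  obtain ⟨y, hy, huy⟩ := hex
  obtain ⟨ψ, hψ, he⟩ := cross_col h hy hy'
  have hc := cross_cls h hψ hy hy' he
  rcases (ht ψ hψ).cov u hu v hv hne hn (ψ y) with h1 | h1
  · unfold hit at h1
    rw [mem_filter] at h1
    obtain ⟨-, z, hz, hzy, haz⟩ := h1
    rcases hc z hz hzy with rfl | rfl
    · exact huy haz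
    · exact huB _ hy' haz
  · unfold hit at h1
    rw [mem_filter] at h1
    obtain ⟨-, z, hz, hzy, haz⟩ := h1
    rcases hc z hz hzy with rfl | rfl
    · exact hvA _ hy haz
    · exact hvy haz

/-- passing along a non-edge of the four -/
theorem Gh_step {K : ℕ} {G : SimpleGraph V} {S : Finset V} {x : V} {A B R : Finset V}
    {a a' b b' : V} (h : Cross G S K x A B R)
    (ht : ∀ ψ : V → Fin K, PC G (S \ R) ψ → Tw G S R ψ a a' b b') {u v : V} (hu : u ∈ R)
    (hv : v ∈ R) (hne : u ≠ v) (hn : ¬ G.Adj u v)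
    (hu4 : u ∈ ({a, a', b, b'} : Finset V)) (hv4 : v ∈ ({a, a', b, b'} : Finset V))
    (huB : ∀ y ∈ B, ¬ G.Adj u y) : ∀ y ∈ B, ¬ G.Adj v y := by
  obtain ⟨⟨w, hw⟩, ⟨w', hw'⟩⟩ := Gh_ne h
  obtain ⟨ψ, hψ, -⟩ := cross_col h hw hw'
  by_cases hvA : ∀ y ∈ A, ¬ G.Adj v y
  · exfalso
    have h1 := side_two h ht hu hv hne hn huB hu4 hvA
    have h2 := (ht ψ hψ).sm v hv4
    have h3 := Gh_all hψ (fun y hy => Gh_memB h hy) h.clB h1
    have h4 := h.cB
    omega
  · push Not at hvA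
    obtain ⟨y, hy, hvy⟩ := hvA
    intro y' hy' hvy'
    exact side_one h ht hv hy hy' ⟨hvy, hvy'⟩

theorem side_all {K : ℕ} {G : SimpleGraph V} {S : Finset V} {x : V} {A B R : Finset V}
    {a a' b b' : V} (h : Cross G S K x A B R) (hT : ¬ Tri G R)
    (ha : a ∈ R) (ha' : a' ∈ R) (hb : b ∈ R) (hb' : b' ∈ R) (h4 : Dis4 G a a' b b')
    (ht : ∀ ψ : V → Fin K, PC G (S \ R) ψ → Tw G S R ψ a a' b b') :
    (∀ v ∈ ({a, a', b, b'} : Finset V), ∀ y ∈ B, ¬ G.Adj v y) ∨
    (∀ v ∈ ({a, a', b, b'} : Finset V), ∀ y ∈ A, ¬ G.Adj v y) := by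
  obtain ⟨⟨w, hw⟩, ⟨w', hw'⟩⟩ := Gh_ne h
  obtain ⟨ψ, hψ, -⟩ := cross_col h hw hw'
  have hf := four hT ha ha' hb hb' h4 (ht ψ hψ).four
  have ma : a ∈ ({a, a', b, b'} : Finset V) := by simp
  have ma' : a' ∈ ({a, a', b, b'} : Finset V) := by simp
  have mb : b ∈ ({a, a', b, b'} : Finset V) := by simp
  have mb' : b' ∈ ({a, a', b, b'} : Finset V) := by simp
  obtain ⟨n1, n2, n3, n4, n5, n6, n7, n8⟩ := h4
  have h' := cross_symm h
  -- all four from `a`
  have key : ∀ (A B : Finset V), Cross G S K x A B R → (∀ y ∈ B, ¬ G.Adj a y) →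
      ∀ v ∈ ({a, a', b, b'} : Finset V), ∀ y ∈ B, ¬ G.Adj v y := by
    intro A B h hB
    have ka' := Gh_step h ht ha ha' n1 n7 ma ma' hB
    rcases hf with ⟨-, -, f1, f2⟩ | ⟨-, -, f1, f2⟩
    · have kb' := Gh_step h ht ha hb' n4 f1 ma mb' hB
      have kb := Gh_step h ht ha' hb n5 f2 ma' mb ka'
      intro v hv
      simp only [mem_insert, mem_singleton] at hv
      rcases hv with rfl | rfl | rfl | rfl
      · exact hB
      · exact ka'
      · exact kb
      · exact kb'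
    · have kb := Gh_step h ht ha hb n3 f1 ma mb hB
      have kb' := Gh_step h ht ha' hb' n6 f2 ma' mb' ka'
      intro v hv
      simp only [mem_insert, mem_singleton] at hv
      rcases hv with rfl | rfl | rfl | rfl
      · exact hB
      · exact ka'
      · exact kb
      · exact kb'
  by_cases hB : ∀ y ∈ B, ¬ G.Adj a y
  · exact Or.inl (key A B h hB)
  · right
    push Not at hB
    obtain ⟨y', hy', hay'⟩ := hB
    apply key B A h'
    intro y hy hay
    exact side_one h ht ha hy hy' ⟨hay, hay'⟩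

end Pool.Agent.O3
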