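import Pool.Agent.Lib_helper92.O3.B.Tg
import Pool.Agent.Lib_helper92.O3.B.Lb

set_option autoImplicit false
set_option linter.unusedSectionVars false
set_option linter.unusedVariables false

open scoped Classical
open Finset
open Pool.Agent.O2 (PC Cb CrOn pr ms dg nd Joined)

namespace Pool.Agent.O3

variable {V : Type}

theorem Ia_tri_card {G : SimpleGraph V} {X : Finset V} (h : Tri G X) : 3 ≤ X.card := by
  obtain ⟨a, ha, b, hb, c, hc, h1, h2, h3, -⟩ := h
  have h4 : ({a, b, c} : Finset V).card = 3 := card_eq_three.2 ⟨a, b, c, h1, h2, h3, rfl⟩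
  have h5 : ({a, b, c} : Finset V) ⊆ X := by
    intro x hx
    simp only [mem_insert, mem_singleton] at hx
    rcases hx with rfl | rfl | rfl
    · exact ha
    · exact hb
    · exact hc
  rw [← h4]
  exact card_le_card h5

theorem caseI {N K p : ℕ} {G : SimpleGraph V} {S S' : Finset V} (ih : IH N)
    (hN : S.card ≤ N) (h : CrOn G S K) (hc : S.card = 2 * K + 1 + p) (hK : 2 ≤ K) (hp : 1 ≤ p)
    (hpK : p ≤ K) (hS : S' ⊆ S) (hcr : CrOn G S' (K - 1)) (hT : Tri G (S \ S'))
    (hne : S'.card ≠ K) : eb G S ≤ T K p := by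
  obtain ⟨k, rfl⟩ : ∃ k, K = k + 1 := ⟨K - 1, by omega⟩
  rw [Nat.add_sub_cancel] at hcr
  have hSW : S \ (S \ S') = S' := by
    ext x
    simp only [mem_sdiff, not_and, not_not]
    exact ⟨fun hx => hx.2 hx.1, fun hx => ⟨hS hx, fun _ => hx⟩⟩
  have hWS : S \ S' ⊆ S := sdiff_subset
  have hw3 := Ia_tri_card hT
  have hwc : (S \ S').card + S'.card = S.card := card_sdiff_add_card_eq_card hS
  have hge := hcr.card_ge
  obtain ⟨q, hq⟩ : ∃ q, S'.card = k + 1 + q := ⟨S'.card - (k + 1), by omega⟩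
  obtain ⟨g1, -, g3⟩ := Pool.Agent.O2.gallai S' k q hcr hq
  have hq2 : 2 ≤ q := by omega
  have hff : 2 * ((S \ S').card : ℤ) - 4 ≤ ff G S (k + 1) (S \ S') := by
    by_contra hcon
    push Not at hcon
    obtain ⟨a, ha, b, hb, c, hcc, hi⟩ := hT
    refine tight_false (W := S \ S') (a := a) (b := b) (c := c) ih hN
      ⟨h, hWS, ?_, ?_, by omega, ha, hb, hcc, hi, by omega⟩
    · rw [hSW, Nat.add_sub_cancel]
      exact hcr
    · rw [hSW]; omega
  have hff3 : (3 : ℤ) ≤ ff G S (k + 1) (S \ S') := by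
    have h1 := eb_le_ff h hWS
    have h2 := eb_tri hT
    omega
  have hsp := eb_split (k + 1) hWS (G := G)
  rw [hSW] at hsp
  have h2eb := two_eb G S'
  set w := (S \ S').card with hw
  have hw' : (w : ℤ) = k + 2 + p - q := by push_cast; omega
  have hcZ : (S.card : ℤ) = 2 * ((k : ℤ) + 1) + 1 + p := by rw [hc]; push_cast; ring
  have hgoal : (eb G S : ℤ) ≤ ((k : ℤ) + 1) ^ 2 + (k + 1) * p + p ^ 2 + 2 := by
    rw [hcZ] at hsp
    push_cast at hsp
    by_cases hqk : q ≤ k
    · have he : (eb G S' : ℤ) ≤ (q : ℤ) ^ 2 + 1 := by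
        have : eb G S' ≤ q ^ 2 + 1 := by omega
        exact_mod_cast this
      by_cases hpq : p ≤ q + 1
      · have h1 : (0 : ℤ) ≤ (q + 1 - p) * (k - q) :=
          mul_nonneg (by omega) (by omega)
        rw [hw'] at hsp hff
        nlinarith [h1, hsp, hff, he]
      · push Not at hpq
        obtain ⟨i, hi⟩ : ∃ i, p = q + i := ⟨p - q, by omega⟩
        have h3 := lem3 ih hN (by omega) h hWS (by rw [hSW]; omega) i (by omega)
        push_cast at h3
        have hpz : (p : ℤ) = q + i := by exact_mod_cast hi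
        rw [hw', hpz] at hsp
        rw [hpz]
        have h4 : (0 : ℤ) ≤ (q - 2) * (i - 2) := mul_nonneg (by omega) (by omega)
        nlinarith [h3, h4, hsp, he]
    · push Not at hqk
      obtain ⟨p', hp'⟩ : ∃ p', q = k + p' := ⟨q - k, by omega⟩
      have h1 := ih V G S' k p' hcr (by omega) (by omega) (by omega) (by omega)
      unfold T at h1
      have h1' : (eb G S' : ℤ) ≤ (k : ℤ) ^ 2 + k * p' + p' ^ 2 + 2 := by exact_mod_cast h1
      have hp'z : (p' : ℤ) = p + 2 - w := by push_cast; omega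
      rw [hp'z] at h1'
      rcases Nat.lt_or_ge w 4 with hw4 | hw4
      · have hw3' : (w : ℤ) = 3 := by omega
        rw [hw3'] at hsp h1'
        nlinarith [hff3, hsp, h1']
      · have h4 : (0 : ℤ) ≤ (w - 4) * (p + 1 - w) := mul_nonneg (by omega) (by omega)
        nlinarith [h4, hff, hsp, h1']
  unfold T
  exact_mod_cast hgoal

end Pool.Agent.O3
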