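import Pool.Agent.Lib_helper92.O3.B.Bb
import Pool.Agent.Lib_helper92.O3.B.Bc

set_option autoImplicit false
set_option linter.unusedSectionVars false
set_option linter.unusedVariables false

open scoped Classical
open Finset
open Pool.Agent.O2 (PC Cb CrOn pr ms dg nd Joined)

namespace Pool.Agent.O3

variable {V : Type}

theorem Ja_cardU {G : SimpleGraph V} {q : ℕ} {Z W : Finset V} (h : Jay G q Z W) :
    (uni W Z).card = W.card + q := by
  have h1 : (uni W Z).card = W.card + Z.card := by
    unfold uni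
    exact card_union_of_disjoint h.dis
  rw [h1, h.card]

theorem Ja_sub {W Z : Finset V} : W ⊆ uni W Z := fun _ hv => mem_uni.2 (Or.inl hv)

theorem Ja_sdiff {G : SimpleGraph V} {q : ℕ} {Z W : Finset V} (h : Jay G q Z W) :
    uni W Z \ W = Z := by
  ext v
  rw [mem_sdiff, mem_uni]
  constructor
  · rintro ⟨h1 | h1, h2⟩
    · exact absurd h1 h2
    · exact h1
  · intro h1
    exact ⟨Or.inr h1, fun h2 => disjoint_left.1 h.dis h2 h1⟩

theorem Ja_dg {G : SimpleGraph V} {q : ℕ} {Z W : Finset V} (h : Jay G q Z W) (v : V) :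
    dg G (uni W Z) v = dg G W v + dg G Z v := by
  unfold uni
  exact O2.dg_union h.dis v

theorem jay_card {G : SimpleGraph V} {q : ℕ} {Z W : Finset V} (h : Jay G q Z W) :
    q + 1 ≤ W.card := by
  have h1 := Ja_cardU h
  by_contra h2
  have h3 := (O2.gallai_conn h.cr h.conn (by omega)).1
  omega

theorem Ja_sum {G : SimpleGraph V} {q : ℕ} {Z W : Finset V} (h : Jay G q Z W) (v : V) :
    dg G Z v + (Ls G Z v).card = q := by
  rw [← h.card]
  unfold dg Ls
  exact card_filter_add_card_filter_not _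

theorem jay_ls {G : SimpleGraph V} {q : ℕ} {Z W : Finset V} (h : Jay G q Z W) {v : V}
    (hv : v ∈ W) : 1 ≤ (Ls G Z v).card ∧ (Ls G Z v).card ≤ dg G W v ∧
      dg G Z v + (Ls G Z v).card = q := by
  have h1 := Ja_sum h v
  refine ⟨?_, ?_, h1⟩
  · by_contra h2
    have h3 : Ls G Z v = ∅ := card_eq_zero.1 (by omega)
    have h4 : ∀ z ∈ Z, G.Adj v z := by
      intro z hz
      by_contra h5
      have h6 : z ∈ Ls G Z v := mem_filter.2 ⟨hz, h5⟩
      rw [h3] at h6
      exact absurd h6 (notMem_empty z)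
    have hvZ : v ∉ Z := fun h5 => disjoint_left.1 h.dis hv h5
    have h7 : insert v Z = uni W Z := by
      apply clq_all h.cr
      · intro x hx
        rcases mem_insert.1 hx with rfl | hx
        · exact mem_uni.2 (Or.inl hv)
        · exact mem_uni.2 (Or.inr hx)
      · intro a ha b hb hab
        rcases mem_insert.1 ha with e1 | ha1
        · rcases mem_insert.1 hb with e2 | hb1
          · exact absurd (e1.trans e2.symm) hab
          · rw [e1]
            exact h4 b hb1
        · rcases mem_insert.1 hb with e2 | hb1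
          · rw [e2]
            exact (h4 a ha1).symm
          · exact h.clq a ha1 b hb1 hab
      · rw [card_insert_of_notMem hvZ, h.card]
    have h8 := congrArg Finset.card h7
    rw [card_insert_of_notMem hvZ, h.card, Ja_cardU h] at h8
    have h9 := jay_card h
    have h10 := h.two
    omega
  · have h2 := h.cr.dg_ge (Ja_sub hv)
    rw [Ja_dg h] at h2
    omega

theorem jay_dz {G : SimpleGraph V} {q : ℕ} {Z W : Finset V} (h : Jay G q Z W) {z : V}
    (hz : z ∈ Z) : 1 ≤ dg G W z ∧ dg G W z < W.card := by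
  constructor
  · have h1 := h.cr.dg_ge (show z ∈ uni W Z from mem_uni.2 (Or.inr hz))
    rw [Ja_dg h] at h1
    have h2 : dg G Z z ≤ (Z.erase z).card := by
      unfold dg
      apply card_le_card
      intro y hy
      obtain ⟨h3, h4⟩ := mem_filter.1 hy
      exact mem_erase.2 ⟨h4.ne', h3⟩
    rw [card_erase_of_mem hz, h.card] at h2
    have h3 := h.two
    omega
  · by_contra h1
    have h2 : dg G W z ≤ W.card := card_filter_le _ _
    have h3 : (W.filter fun y => G.Adj z y) = W := by
      apply eq_of_subset_of_card_le (filter_subset _ _)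
      unfold dg at h1
      omega
    have h4 : ∀ w ∈ W, G.Adj z w := by
      intro w hw
      rw [← h3] at hw
      exact (mem_filter.1 hw).2
    apply h.conn
    refine ⟨{z}, (uni W Z).erase z, singleton_nonempty z, ?_, ?_, ?_, ?_⟩
    · have h5 : 0 < W.card := by
        have := jay_card h
        omega
      obtain ⟨w, hw⟩ := card_pos.1 h5
      exact ⟨w, mem_erase.2 ⟨(h4 w hw).ne', Ja_sub hw⟩⟩
    · rw [disjoint_left]
      intro a ha hb
      rw [mem_singleton] at ha
      exact (mem_erase.1 hb).1 ha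
    · ext y
      rw [mem_union, mem_singleton, mem_erase]
      constructor
      · rintro (rfl | ⟨-, h5⟩)
        · exact mem_uni.2 (Or.inr hz)
        · exact h5
      · intro h5
        by_cases h6 : y = z
        · exact Or.inl h6
        · exact Or.inr ⟨h6, h5⟩
    · intro a ha b hb
      rw [mem_singleton] at ha
      subst ha
      obtain ⟨h5, h6⟩ := mem_erase.1 hb
      rcases mem_uni.1 h6 with h7 | h7
      · exact h4 b h7
      · exact h.clq _ hz _ h7 (Ne.symm h5)

theorem jay_ff' {G : SimpleGraph V} {q : ℕ} {Z W : Finset V} (h : Jay G q Z W) :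
    ff G (uni W Z) q W = eb G W + ∑ v ∈ W, ((dg G W v : ℤ) - (Ls G Z v).card) := by
  unfold ff
  congr 1
  apply sum_congr rfl
  intro v _
  have h1 := Ja_sum h v
  have h2 : (dg G Z v : ℤ) + (Ls G Z v).card = q := by exact_mod_cast h1
  rw [Ja_dg h]
  push_cast
  linarith

theorem jay_ff {G : SimpleGraph V} {q : ℕ} {Z W : Finset V} (h : Jay G q Z W) :
    ff G (uni W Z) q W = W.card * ((W.card : ℤ) - 1 - q) + ∑ z ∈ Z, (dg G W z : ℤ) - eb G W := by
  have h1 := eb_dg G W
  have h2 : ∑ z ∈ Z, (dg G W z : ℤ) = ∑ v ∈ W, (dg G Z v : ℤ) := by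
    have h3 := O2.pr_sum G Z W
    have h4 := O2.pr_sum' G Z W
    have h5 : ∑ z ∈ Z, dg G W z = ∑ v ∈ W, dg G Z v := by rw [← h3, h4]
    exact_mod_cast h5
  have h3 : ff G (uni W Z) q W =
      (eb G W : ℤ) + (∑ v ∈ W, (dg G W v : ℤ) + ∑ v ∈ W, (dg G Z v : ℤ) - W.card * q) := by
    unfold ff
    congr 1
    rw [← sum_add_distrib]
    have h4 : (W.card : ℤ) * q = ∑ _v ∈ W, (q : ℤ) := by
      rw [sum_const, nsmul_eq_mul]
    rw [h4, ← sum_sub_distrib]
    apply sum_congr rfl
    intro v _
    rw [Ja_dg h]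
    push_cast
    ring
  rw [h3, h2]
  linarith

/-- the number of non-edges of the whole graph -/
theorem jay_eb {G : SimpleGraph V} {q : ℕ} {Z W : Finset V} (h : Jay G q Z W) :
    (eb G (uni W Z) : ℤ) = W.card * ((W.card : ℤ) - 1) - ff G (uni W Z) q W := by
  have h1 := eb_split (G := G) q (Ja_sub (W := W) (Z := Z))
  rw [Ja_sdiff h, Ja_cardU h, eb_clq.2 h.clq] at h1
  rw [h1]
  push_cast
  ring

/-- a set `B` which is a clique, taken out of `W` -/
theorem jay_clq {G : SimpleGraph V} {q : ℕ} {Z W B : Finset V} (h : Jay G q Z W) (hB : B ⊆ W)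
    (hc : Clq G B) : ff G (uni W Z) q W =
      ff G (uni W Z) q (W \ B) + ∑ b ∈ B, ((W.card : ℤ) - 1 - (Ls G Z b).card) := by
  rw [ff_clq q (Ja_sub (W := W) (Z := Z)) hB hc, Ja_sdiff h]
  congr 1
  apply sum_congr rfl
  intro b _
  have h1 := Ja_sum h b
  have h2 : (dg G Z b : ℤ) + (Ls G Z b).card = q := by exact_mod_cast h1
  linarith

end Pool.Agent.O3
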