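import Pool.Agent.Lib_helper92.O3.B.Ja

set_option autoImplicit false
set_option linter.unusedSectionVars false
set_option linter.unusedVariables false

open scoped Classical
open Finset
open Pool.Agent.O2 (PC Cb CrOn pr ms dg nd Joined)

namespace Pool.Agent.O3

variable {V : Type}

theorem e2num {N : ℕ} {G : SimpleGraph V} {q : ℕ} {Z W : Finset V} (ih : IH N)
    (h : Jay G q Z W) (hN : (uni W Z).card < N) :
    (W.card = q + 1 ∧ (W.card : ℤ) - 2 ≤ ff G (uni W Z) q W) ∨
    (W.card = q + 2 ∧ 2 * (W.card : ℤ) - 5 ≤ ff G (uni W Z) q W) ∨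
    (q + 3 ≤ W.card ∧ 2 * (W.card : ℤ) - 4 ≤ ff G (uni W Z) q W) := by
  have hw := jay_card h
  have hS : (uni W Z).card = W.card + q := by
    unfold uni
    rw [card_union_of_disjoint h.dis, h.card]
  have heb := jay_eb h
  have hq2 := h.two
  rcases Nat.lt_or_ge W.card (q + 2) with h1 | h1
  · left
    have hwq : W.card = q + 1 := by omega
    refine ⟨hwq, ?_⟩
    have hg := (Pool.Agent.O2.gallai (uni W Z) q q h.cr (by rw [hS, hwq])).2.2
    have h2 := two_eb G (uni W Z)
    have h3 : eb G (uni W Z) ≤ q ^ 2 + 1 := by omega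
    have h4 : (eb G (uni W Z) : ℤ) ≤ (q : ℤ) ^ 2 + 1 := by exact_mod_cast h3
    rw [heb, hwq] at h4
    rw [hwq]
    push_cast at h4 ⊢
    nlinarith
  · right
    rcases Nat.lt_or_ge W.card (q + 3) with h5 | h5
    · left
      have hwq : W.card = q + 2 := by omega
      refine ⟨hwq, ?_⟩
      have hi := ih V G (uni W Z) q 1 h.cr (by rw [hS, hwq]; ring) le_rfl (by omega) hN
      have h4 : (eb G (uni W Z) : ℤ) ≤ (T q 1 : ℤ) := by exact_mod_cast hi
      unfold T at h4
      rw [heb, hwq] at h4
      rw [hwq]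
      push_cast at h4 ⊢
      nlinarith
    · right
      refine ⟨h5, ?_⟩
      rcases Nat.lt_or_ge W.card (q + 4) with h6 | h6
      · have hwq : W.card = q + 3 := by omega
        have hi := ih V G (uni W Z) q 2 h.cr (by rw [hS, hwq]; ring) (by norm_num) hq2 hN
        have h4 : (eb G (uni W Z) : ℤ) ≤ (T q 2 : ℤ) := by exact_mod_cast hi
        unfold T at h4
        rw [heb, hwq] at h4
        rw [hwq]
        push_cast at h4 ⊢
        have hq2' : (2 : ℤ) ≤ q := by exact_mod_cast hq2
        nlinarith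
      · have hd := deg_bound h.cr
        rw [heb, hS] at hd
        push_cast at hd
        have h7 : (q : ℤ) + 4 ≤ (W.card : ℤ) := by exact_mod_cast h6
        have h8 : (2 : ℤ) ≤ q := by exact_mod_cast hq2
        nlinarith [mul_nonneg (show (0:ℤ) ≤ (W.card : ℤ) - 1 by linarith)
          (show (0:ℤ) ≤ (W.card : ℤ) - q - 4 by linarith)]

end Pool.Agent.O3
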