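import Pool.Agent.Lib_helper92.O3.B.Bb
import Pool.Agent.Lib_helper92.O3.B.Ca
import Pool.Agent.Lib_helper92.O3.B.Cb

set_option autoImplicit false
set_option linter.unusedSectionVars false
set_option linter.unusedVariables false

open scoped Classical
open Finset
open Pool.Agent.O2 (PC Cb CrOn pr ms dg nd Joined)

namespace Pool.Agent.O3

variable {V : Type}

theorem Ka_ident {K : ℕ} {G : SimpleGraph V} {S W W' : Finset V} {ψ : V → Fin K}
    (hW : W ⊆ S) (hW' : W' ⊆ W) (Z' : Finset (Fin K)) :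
      ff G S K W = W'.card * ((Z'.card : ℤ) + W.card - K - 1) -
        eb (con G (S \ W) ψ) (W'.disjSum Z') +
        ∑ v ∈ W', ((dg G (S \ W) v : ℤ) - (hit G (S \ W) ψ v ∩ Z').card) +
        ff G S K (W \ W') := by
  have hd : Disjoint W' (W \ W') := disjoint_sdiff
  have hu : W' ∪ (W \ W') = W := union_sdiff_of_subset hW'
  have h1 := ff_union (G := G) (S := S) (K := K) hd
  rw [hu] at h1
  have hd2 : Disjoint W (S \ W) := disjoint_sdiff
  have hu2 : W ∪ (S \ W) = S := union_sdiff_of_subset hW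
  have hdg : ∀ v, dg G S v = dg G W' v + dg G (W \ W') v + dg G (S \ W) v := by
    intro v
    have e1 := O2.dg_union (G := G) hd2 v
    rw [hu2] at e1
    have e2 := O2.dg_union (G := G) hd v
    rw [hu] at e2
    omega
  have h2 : ∑ v ∈ W', ((dg G S v : ℤ) - K) =
      ∑ v ∈ W', (dg G W' v : ℤ) + ∑ v ∈ W', (dg G (W \ W') v : ℤ) +
        ∑ v ∈ W', (dg G (S \ W) v : ℤ) - W'.card * (K : ℤ) := by
    rw [← sum_add_distrib, ← sum_add_distrib, sum_sub_distrib]
    congr 1
    · refine sum_congr rfl fun v _ => ?_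
      rw [hdg v]
      push_cast
      ring
    · rw [sum_const, nsmul_eq_mul]
  have h3 : (pr G W' (W \ W') : ℤ) = ∑ v ∈ W', (dg G (W \ W') v : ℤ) := by
    rw [O2.pr_sum]
    push_cast
    rfl
  have h4 := eb_dg G W'
  have h5 := eb_con G (S \ W) W' ψ Z'
  have h6 : ∑ v ∈ W', ((Z'.card : ℤ) - (hit G (S \ W) ψ v ∩ Z').card) =
      W'.card * (Z'.card : ℤ) - ∑ v ∈ W', ((hit G (S \ W) ψ v ∩ Z').card : ℤ) := by
    rw [sum_sub_distrib, sum_const, nsmul_eq_mul]
  have h7 : ∑ v ∈ W', ((dg G (S \ W) v : ℤ) - (hit G (S \ W) ψ v ∩ Z').card) =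
      ∑ v ∈ W', (dg G (S \ W) v : ℤ) - ∑ v ∈ W', ((hit G (S \ W) ψ v ∩ Z').card : ℤ) := by
    rw [sum_sub_distrib]
  have h8 : ((W \ W').card : ℤ) = (W.card : ℤ) - W'.card := by
    have := card_sdiff_add_card_eq_card hW'
    omega
  have h9 : ff G S K W' = (eb G W' : ℤ) + ∑ v ∈ W', ((dg G S v : ℤ) - K) := rfl
  rw [h1, h9, h2, h3, h5, h6, h7, h8]
  have h4' : ∑ v ∈ W', (dg G W' v : ℤ) = W'.card * ((W'.card : ℤ) - 1) - 2 * (eb G W' : ℤ) := by
    linarith
  rw [h4']
  ring

theorem key {K : ℕ} {G : SimpleGraph V} {S W : Finset V} {ψ : V → Fin K} (hK : 0 < K)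
    (h : CrOn G S K) (hW : W ⊆ S) (hR : (S \ W).Nonempty) (hψ : PC G (S \ W) ψ) :
    ∃ W' ⊆ W, ∃ Z' : Finset (Fin K), W'.Nonempty ∧ Z'.Nonempty ∧
      CrOn (con G (S \ W) ψ) (W'.disjSum Z') K ∧
      ff G S K W = W'.card * ((Z'.card : ℤ) + W.card - K - 1) -
        eb (con G (S \ W) ψ) (W'.disjSum Z') +
        ∑ v ∈ W', ((dg G (S \ W) v : ℤ) - (hit G (S \ W) ψ v ∩ Z').card) +
        ff G S K (W \ W') := by
  obtain ⟨T, hT, hc⟩ := O2.exists_crOn (con_not_cb hK h.1 hW hψ)
  have hTe : T.toLeft.disjSum T.toRight = T := toLeft_disjSum_toRight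
  have hW' : T.toLeft ⊆ W := by
    intro a ha
    have h1 := hT (mem_toLeft.1 ha)
    exact inl_mem_disjSum.1 h1
  refine ⟨T.toLeft, hW', T.toRight, ?_, ?_, ?_, ?_⟩
  · rw [nonempty_iff_ne_empty]
    intro h0
    have h1 := hc.card_ge
    rw [← hTe, card_disjSum, h0, card_empty] at h1
    have h2 : T.toRight.card ≤ K := by
      have := card_le_univ T.toRight
      simpa using this
    omega
  · rw [nonempty_iff_ne_empty]
    intro h0
    have hne : T.toLeft ≠ S := by
      intro he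
      obtain ⟨x, hx⟩ := hR
      obtain ⟨hx1, hx2⟩ := mem_sdiff.1 hx
      exact hx2 (hW' (he ▸ hx1))
    obtain ⟨φ, h1, h2⟩ := h.sub (hW'.trans hW) hne
    apply hc.1
    refine ⟨Sum.elim φ (fun _ => 0), ?_, ?_⟩
    · rintro (v | i) hv
      · exact h1 v (mem_toLeft.2 hv)
      · have : i ∈ T.toRight := mem_toRight.2 hv
        rw [h0] at this
        exact absurd this (notMem_empty _)
    · rintro (a | i) ha (b | j) hb hab
      · exact h2 a (mem_toLeft.2 ha) b (mem_toLeft.2 hb) hab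
      · have : j ∈ T.toRight := mem_toRight.2 hb
        rw [h0] at this
        exact absurd this (notMem_empty _)
      · have : i ∈ T.toRight := mem_toRight.2 ha
        rw [h0] at this
        exact absurd this (notMem_empty _)
      · have : i ∈ T.toRight := mem_toRight.2 ha
        rw [h0] at this
        exact absurd this (notMem_empty _)
  · rw [hTe]
    exact hc
  · exact Ka_ident hW hW' _

end Pool.Agent.O3
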