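import Pool.Agent.Lib_helper92.O3.B.Ka
import Pool.Agent.Lib_helper92.O3.B.Bc

set_option autoImplicit false
set_option linter.unusedSectionVars false
set_option linter.unusedVariables false

open scoped Classical
open Finset
open Pool.Agent.O2 (PC Cb CrOn pr ms dg nd Joined)

namespace Pool.Agent.O3

variable {V : Type}

theorem keyn {K N : ℕ} {G : SimpleGraph V} {S W : Finset V} (ih : IH N) (hN : S.card ≤ N)
    (h3 : S.card ≤ 3 * K + 1) (h : CrOn G S K) (hW : W ⊆ S) (hne : W.Nonempty)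
    (hR : K + 1 ≤ (S \ W).card) :
    ∃ W' ⊆ W, ∃ ρ q : ℕ, 1 ≤ ρ ∧ ρ ≤ K ∧ W'.card = q + ρ ∧
      ((q = 0 ∧ Clq G W' ∧
          (W'.card : ℤ) * (W.card - W'.card) + ff G S K (W \ W') ≤ ff G S K W) ∨
       (2 ≤ q ∧ q ≤ K ∧ (W'.card : ℤ) * (W.card - W'.card) + ρ * q - 1 +
          ff G S K (W \ W') ≤ ff G S K W) ∨
       (∃ p, 1 ≤ p ∧ q = K + p ∧ (W'.card : ℤ) * (W.card - W'.card) + K * p + ρ * (K + p) - 2 +
          ff G S K (W \ W') ≤ ff G S K W)) := by
  have hWS : W.card + (S \ W).card = S.card := by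
    rw [card_sdiff_of_subset hW]
    have := card_le_card hW
    omega
  have hWp : 0 < W.card := hne.card_pos
  have hK : 0 < K := by omega
  have hRne : (S \ W).Nonempty := by
    rw [← card_pos]; omega
  have hns : S \ W ≠ S := by
    intro e
    rw [e] at hWS
    omega
  obtain ⟨ψ, hψ⟩ := (Pool.Agent.O2.cb_fin hK).1 (Pool.Agent.O2.CrOn.sub h sdiff_subset hns)
  obtain ⟨W', hW', Z', hWn, hZn, hcr, hff⟩ := key hK h hW hRne hψ
  have hc1 := Pool.Agent.O2.CrOn.card_ge hcr
  rw [card_disjSum] at hc1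
  have hz1 : 1 ≤ Z'.card := hZn.card_pos
  have hzK : Z'.card ≤ K := by
    have := card_le_univ Z'
    simpa using this
  have hw'W : W'.card ≤ W.card := card_le_card hW'
  obtain ⟨q, hq⟩ := Nat.exists_eq_add_of_le hc1
  have hcard : (W'.disjSum Z').card = K + 1 + q := by rw [card_disjSum, hq]
  obtain ⟨g1, g2, g3⟩ := Pool.Agent.O2.gallai _ K q hcr hcard
  have hs : (0 : ℤ) ≤ ∑ v ∈ W', ((dg G (S \ W) v : ℤ) - (hit G (S \ W) ψ v ∩ Z').card) := by
    refine sum_nonneg fun v _ => ?_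
    have h1 : (hit G (S \ W) ψ v ∩ Z').card ≤ (hit G (S \ W) ψ v).card :=
      card_le_card inter_subset_left
    have h2 := hit_card_le G (S \ W) ψ v
    have h3 : ((hit G (S \ W) ψ v ∩ Z').card : ℤ) ≤ (dg G (S \ W) v : ℤ) := by
      exact_mod_cast h1.trans h2
    linarith
  have heb := two_eb (con G (S \ W) ψ) (W'.disjSum Z')
  obtain ⟨ρ, hρ⟩ := Nat.exists_eq_add_of_le (show Z'.card ≤ K + 1 by omega)
  have hwq : W'.card = q + ρ := by omega
  have hzρ : (Z'.card : ℤ) = K + 1 - ρ := by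
    have : ((K + 1 : ℕ) : ℤ) = ((Z'.card + ρ : ℕ) : ℤ) := by rw [hρ]
    push_cast at this
    linarith
  have hwq' : (W'.card : ℤ) = q + ρ := by exact_mod_cast hwq
  refine ⟨W', hW', ρ, q, by omega, by omega, hwq, ?_⟩
  rcases Nat.lt_or_ge q 2 with hq2 | hq2
  · have hq0 : q = 0 := by omega
    left
    have hm := g2 hq0
    have he0 : eb (con G (S \ W) ψ) (W'.disjSum Z') = 0 := by omega
    refine ⟨hq0, ?_, ?_⟩
    · have hcl := eb_clq.1 he0
      intro a ha b hb hab
      have := hcl (Sum.inl a) (inl_mem_disjSum.2 ha) (Sum.inl b) (inl_mem_disjSum.2 hb)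
        (fun e => hab (Sum.inl_injective e))
      exact this
    · rw [hff, he0, hzρ]
      have hq0' : (q : ℤ) = 0 := by exact_mod_cast hq0
      have e1 : (W'.card : ℤ) = ρ := by rw [hwq', hq0']; ring
      rw [e1]
      push_cast
      nlinarith
  · right
    rcases Nat.lt_or_ge K q with hqK | hqK
    · right
      obtain ⟨p, hp⟩ := Nat.exists_eq_add_of_le hqK.le
      have hp1 : 1 ≤ p := by omega
      have hlt : (W'.disjSum Z').card < N := by
        rw [card_disjSum]; omega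
      have hpK : p ≤ K := by
        rw [card_disjSum] at hcard; omega
      have hc2 : (W'.disjSum Z').card = 2 * K + 1 + p := by
        rw [hcard]; omega
      have hT := ih (V ⊕ Fin K) (con G (S \ W) ψ) (W'.disjSum Z') K p hcr hc2 hp1 hpK hlt
      have hT' : (eb (con G (S \ W) ψ) (W'.disjSum Z') : ℤ) ≤ (K : ℤ) ^ 2 + K * p + p ^ 2 + 2 := by
        have : ((eb (con G (S \ W) ψ) (W'.disjSum Z') : ℕ) : ℤ) ≤ ((T K p : ℕ) : ℤ) := by
          exact_mod_cast hT
        refine this.trans (le_of_eq ?_)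
        rw [T]
        push_cast
        ring
      refine ⟨p, hp1, hp, ?_⟩
      rw [hff, hzρ]
      have hp' : (q : ℤ) = K + p := by exact_mod_cast hp
      rw [hwq', hp']
      nlinarith
    · left
      refine ⟨hq2, hqK, ?_⟩
      have hE : (eb (con G (S \ W) ψ) (W'.disjSum Z') : ℤ) ≤ (q : ℤ) ^ 2 + 1 := by
        have : eb (con G (S \ W) ψ) (W'.disjSum Z') ≤ q ^ 2 + 1 := by omega
        exact_mod_cast this
      rw [hff, hzρ, hwq']
      nlinarith

end Pool.Agent.O3
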