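import Pool.Agent.Lib_helper92.O3.B.Ja

set_option autoImplicit false
set_option linter.unusedSectionVars false
set_option linter.unusedVariables false

open scoped Classical
open Finset
open Pool.Agent.O2 (PC Cb CrOn pr ms dg nd Joined)

namespace Pool.Agent.O3

variable {V : Type}

/-- non-edges which meet `W \ M` -/
theorem Nb_nd {G : SimpleGraph V} {W M : Finset V} (hM : M ⊆ W) :
    ∑ v ∈ W \ M, (nd G W v : ℤ) + eb G M = eb G W + eb G (W \ M) := by
  have hd : Disjoint M (W \ M) := disjoint_sdiff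
  have hU : M ∪ (W \ M) = W := union_sdiff_of_subset hM
  have h1 := eb_union (G := G) hd
  rw [hU] at h1
  have h2 := eb_dg G (W \ M)
  have h3 : ∀ v ∈ W \ M, (nd G W v : ℤ) =
      ((W.card : ℤ) - 1) - dg G M v - dg G (W \ M) v := by
    intro v hv
    have h4 := O2.dg_add_nd (G := G) (mem_sdiff.1 hv).1
    have h5 := O2.dg_union (G := G) hd v
    rw [hU] at h5
    omega
  rw [sum_congr rfl h3, sum_sub_distrib, sum_sub_distrib, sum_const, nsmul_eq_mul]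
  have h6 : (pr G M (W \ M) : ℤ) = ∑ y ∈ W \ M, (dg G M y : ℤ) := by
    rw [O2.pr_sum' G M (W \ M), Nat.cast_sum]
  have h7 : (W.card : ℤ) = M.card + (W \ M).card := by
    rw [← Nat.cast_add, ← card_union_of_disjoint hd, hU]
  have h8 : (eb G W : ℤ) + pr G M (W \ M) = eb G M + eb G (W \ M) + M.card * (W \ M).card := by
    exact_mod_cast h1
  rw [h7]
  linear_combination -h2 - h8 + h6

theorem Nb_pair {G : SimpleGraph V} {Z : Finset V} {a a' : V}
    (h : ∀ z ∈ Z, G.Adj a z ∨ G.Adj a' z) :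
    dg G Z a + dg G Z a' = Z.card + (Z.filter fun z => G.Adj a z ∧ G.Adj a' z).card := by
  have h1 : (Z.filter fun y => G.Adj a y) ∪ (Z.filter fun y => G.Adj a' y) = Z := by
    rw [← filter_or]
    exact filter_true_of_mem h
  have h2 : (Z.filter fun y => G.Adj a y) ∩ (Z.filter fun y => G.Adj a' y) =
      Z.filter fun z => G.Adj a z ∧ G.Adj a' z := by
    rw [← filter_and]
  have h3 := card_union_add_card_inter (Z.filter fun y => G.Adj a y) (Z.filter fun y => G.Adj a' y)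
  rw [h1, h2] at h3
  unfold dg
  omega

theorem Nb_two {G : SimpleGraph V} {a a' : V} (h : a ≠ a') : eb G {a, a'} ≤ 1 := by
  have h1 := eb_dg G {a, a'}
  rw [card_pair h] at h1
  have h2 : 0 ≤ ∑ v ∈ ({a, a'} : Finset V), (dg G {a, a'} v : ℤ) :=
    sum_nonneg fun _ _ => Nat.cast_nonneg _
  push_cast at h1
  omega

theorem Nb_one {G : SimpleGraph V} {W : Finset V} (hT : ¬ Tri G W) {a b b' : V} (ha : a ∈ W)
    (hb : b ∈ W) (hb' : b' ∈ W) (h1 : a ≠ b) (h2 : a ≠ b') (h3 : b ≠ b') (h4 : ¬ G.Adj b b') :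
    1 ≤ dg G {b, b'} a := by
  by_contra hc
  have h5 : dg G {b, b'} a = 0 := by omega
  unfold dg at h5
  rw [card_eq_zero, filter_eq_empty_iff] at h5
  apply hT
  exact ⟨a, ha, b, hb, b', hb', h1, h2, h3, h5 (mem_insert_self _ _),
    h5 (mem_insert_of_mem (mem_singleton_self _)), h4⟩

theorem Nb_set {a a' b b' : V} : ({a, a', b, b'} : Finset V) = {a, a'} ∪ {b, b'} := by
  rw [insert_union, singleton_union]

theorem Nb_disj {a a' b b' : V} (h1 : a ≠ b) (h2 : a ≠ b') (h3 : a' ≠ b) (h4 : a' ≠ b') :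
    Disjoint ({a, a'} : Finset V) {b, b'} := by
  rw [disjoint_left]
  intro v hv hv'
  rw [mem_insert, mem_singleton] at hv hv'
  rcases hv with rfl | rfl
  · exact hv'.elim h1 h2
  · exact hv'.elim h3 h4

theorem Nb_four {G : SimpleGraph V} {W : Finset V} (hT : ¬ Tri G W) {a a' b b' : V} (ha : a ∈ W)
    (ha' : a' ∈ W) (hb : b ∈ W) (hb' : b' ∈ W) (h4 : Dis4 G a a' b b') :
    eb G {a, a', b, b'} ≤ 4 := by
  obtain ⟨n1, n2, n3, n4, n5, n6, h1, h2⟩ := h4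
  have h3 := eb_union (G := G) (Nb_disj n3 n4 n5 n6)
  rw [← Nb_set, card_pair n1, card_pair n2, O2.pr_sum, sum_pair n1] at h3
  have h5 := Nb_two (G := G) n1
  have h6 := Nb_two (G := G) n2
  have h7 := Nb_one hT ha hb hb' n3 n4 n2 h2
  have h8 := Nb_one hT ha' hb hb' n5 n6 n2 h2
  omega

theorem Nb_sub {W : Finset V} {a a' b b' : V} (ha : a ∈ W) (ha' : a' ∈ W) (hb : b ∈ W)
    (hb' : b' ∈ W) : ({a, a', b, b'} : Finset V) ⊆ W := by
  intro v hv
  rw [mem_insert, mem_insert, mem_insert, mem_singleton] at hv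
  rcases hv with rfl | rfl | rfl | rfl
  · exact ha
  · exact ha'
  · exact hb
  · exact hb'

/-- the exact value -/
theorem Nb_val {G : SimpleGraph V} {q : ℕ} {Z W : Finset V} (h : Jay G q Z W)
    (hw : W.card = q + 1) (hn : Nice G Z W) {a a' b b' : V} (ha : a ∈ W)
    (ha' : a' ∈ W) (hb : b ∈ W) (hb' : b' ∈ W) (h4 : Dis4 G a a' b b') :
    ff G (uni W Z) q W = 2 * (q : ℤ) - eb G {a, a', b, b'} + eb G (W \ {a, a', b, b'}) +
      ∑ v ∈ W \ {a, a', b, b'}, ((dg G W v : ℤ) - (Ls G Z v).card) +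
      ((Z.filter fun z => G.Adj a z ∧ G.Adj a' z).card +
        (Z.filter fun z => G.Adj b z ∧ G.Adj b' z).card) := by
  have hM := Nb_sub ha ha' hb hb'
  have h0 := Nb_nd (G := G) hM
  have h1 := jay_ff h
  have h2 : ∑ z ∈ Z, (dg G W z : ℤ) = ∑ v ∈ W, (dg G Z v : ℤ) := by
    rw [← Nat.cast_sum, ← Nat.cast_sum, ← O2.pr_sum, ← O2.pr_sum', ]
  obtain ⟨n1, n2, n3, n4, n5, n6, h5, h6⟩ := h4
  have h3 : ∑ v ∈ ({a, a', b, b'} : Finset V), (dg G Z v : ℤ) = 2 * q +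
      ((Z.filter fun z => G.Adj a z ∧ G.Adj a' z).card +
        (Z.filter fun z => G.Adj b z ∧ G.Adj b' z).card) := by
    rw [Nb_set, sum_union (Nb_disj n3 n4 n5 n6), sum_pair n1, sum_pair n2]
    have h7 := Nb_pair (hn a ha a' ha' n1 h5)
    have h8 := Nb_pair (hn b hb b' hb' n2 h6)
    rw [h.card] at h7 h8
    omega
  have h7 : ∀ v ∈ W \ {a, a', b, b'}, (dg G Z v : ℤ) =
      nd G W v + ((dg G W v : ℤ) - (Ls G Z v).card) := by
    intro v hv
    have h8 := O2.dg_add_nd (G := G) (mem_sdiff.1 hv).1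
    have h9 := (jay_ls h (mem_sdiff.1 hv).1).2.2
    omega
  rw [h2, ← sum_sdiff hM, h3, sum_congr rfl h7, sum_add_distrib] at h1
  have h10 : (W.card : ℤ) = q + 1 := by
    rw [hw]
    push_cast
    ring
  rw [h10] at h1
  linear_combination h1 + h0

theorem nice4 {G : SimpleGraph V} {q : ℕ} {Z W : Finset V} (h : Jay G q Z W)
    (hw : W.card = q + 1) (hn : Nice G Z W) (hT : ¬ Tri G W) {a a' b b' : V} (ha : a ∈ W)
    (ha' : a' ∈ W) (hb : b ∈ W) (hb' : b' ∈ W) (h4 : Dis4 G a a' b b') :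
    2 * (q : ℤ) - eb G {a, a', b, b'} ≤ ff G (uni W Z) q W ∧ eb G {a, a', b, b'} ≤ 4 ∧
    (eb G {a, a', b, b'} : ℤ) ≤ ff G (uni W Z) q W ∧
    (ff G (uni W Z) q W ≤ 2 * q - 4 →
      eb G {a, a', b, b'} = 4 ∧
      (∀ v ∈ W, v ∉ ({a, a', b, b'} : Finset V) → (Ls G Z v).card = dg G W v ∧
        ∀ u ∈ W, u ∉ ({a, a', b, b'} : Finset V) → u ≠ v → G.Adj v u) ∧
      ∀ z ∈ Z, (G.Adj a z ↔ ¬ G.Adj a' z) ∧ (G.Adj b z ↔ ¬ G.Adj b' z)) := by
  have h1 := Nb_val h hw hn ha ha' hb hb' h4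
  have h2 := Nb_four hT ha ha' hb hb' h4
  have hM := Nb_sub ha ha' hb hb'
  have hpos : ∀ v ∈ W \ {a, a', b, b'}, 0 ≤ ((dg G W v : ℤ) - (Ls G Z v).card) := by
    intro v hv
    have h3 := (jay_ls h (mem_sdiff.1 hv).1).2.1
    omega
  have h3 := sum_nonneg hpos
  have h5 : (eb G {a, a', b, b'} : ℤ) ≤ ff G (uni W Z) q W := by
    have h6 : W ⊆ uni W Z := fun v hv => mem_uni.2 (Or.inl hv)
    have h7 := eb_le_ff h.cr h6
    have h8 := eb_mono (G := G) hM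
    omega
  refine ⟨by omega, h2, h5, ?_⟩
  intro hf
  have e1 : eb G {a, a', b, b'} = 4 := by omega
  have e2 : eb G (W \ {a, a', b, b'}) = 0 := by omega
  have e3 : ∑ v ∈ W \ {a, a', b, b'}, ((dg G W v : ℤ) - (Ls G Z v).card) = 0 := by omega
  have e4 : (Z.filter fun z => G.Adj a z ∧ G.Adj a' z).card = 0 := by omega
  have e5 : (Z.filter fun z => G.Adj b z ∧ G.Adj b' z).card = 0 := by omega
  refine ⟨e1, ?_, ?_⟩
  · intro v hv hv'
    constructor
    · have h6 := (sum_eq_zero_iff_of_nonneg hpos).1 e3 v (mem_sdiff.2 ⟨hv, hv'⟩)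
      omega
    · intro u hu hu' huv
      exact eb_clq.1 e2 v (mem_sdiff.2 ⟨hv, hv'⟩) u (mem_sdiff.2 ⟨hu, hu'⟩) (Ne.symm huv)
  · intro z hz
    rw [card_eq_zero, filter_eq_empty_iff] at e4 e5
    have h6 := hn a ha a' ha' h4.1 h4.2.2.2.2.2.2.1 z hz
    have h7 := hn b hb b' hb' h4.2.1 h4.2.2.2.2.2.2.2 z hz
    refine ⟨⟨fun h8 h9 => e4 hz ⟨h8, h9⟩, fun h8 => ?_⟩, ⟨fun h8 h9 => e5 hz ⟨h8, h9⟩,
      fun h8 => ?_⟩⟩
    · exact h6.resolve_right h8
    · exact h7.resolve_right h8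

end Pool.Agent.O3
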