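import Pool.Agent.Lib_helper92.O3.B.Kb

set_option autoImplicit false
set_option linter.unusedSectionVars false
set_option linter.unusedVariables false

open scoped Classical
open Finset
open Pool.Agent.O2 (PC Cb CrOn pr ms dg nd Joined)

namespace Pool.Agent.O3

variable {V : Type}

theorem Ob_a1 {ρ m r f : ℤ} (hρ : 1 ≤ ρ) (hm : 1 ≤ m) (hr : 0 ≤ r)
    (hle : ρ * m + r ≤ f) : m + ρ - 1 ≤ f := by
  have h1 : ρ * m - (m + ρ - 1) = (ρ - 1) * (m - 1) := by ring
  have h2 : 0 ≤ (ρ - 1) * (m - 1) := mul_nonneg (by linarith) (by linarith)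
  linarith

theorem Ob_a2 {q ρ m e r f : ℤ} (hq : 2 ≤ q) (hρ : 1 ≤ ρ) (hm : 0 ≤ m)
    (hmr : 1 ≤ m + (ρ - 1)) (hr : 0 ≤ r) (he : e ≤ q ^ 2 + 1)
    (hle : (q + ρ) * (m + q) - e + r ≤ f) : m + q + ρ - 1 ≤ f := by
  have h1 : (q + ρ) * (m + q) - (q ^ 2 + 1) - (m + q + ρ - 1) =
      (q - 1) * (m + (ρ - 1) - 1) + (q - 2) + ρ * m := by ring
  have h2 : 0 ≤ (q - 1) * (m + (ρ - 1) - 1) := mul_nonneg (by linarith) (by linarith)
  have h3 : 0 ≤ ρ * m := mul_nonneg (by linarith) hm
  linarith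

theorem Ob_a3 {K p ρ m e r f : ℤ} (hK : 1 ≤ K) (hp : 0 ≤ p) (hρ : 1 ≤ ρ) (hm : 0 ≤ m)
    (hmr : 1 ≤ m + (ρ - 1)) (hr : 0 ≤ r) (he : e ≤ K ^ 2 + K * (p + 1) + (p + 1) ^ 2 + 2)
    (hle : (K + (p + 1) + ρ) * (m + (K + (p + 1))) - e + r ≤ f) :
    m + (K + (p + 1)) + ρ - 1 ≤ f := by
  have h1 : (K + (p + 1) + ρ) * (m + (K + (p + 1))) -
      (K ^ 2 + K * (p + 1) + (p + 1) ^ 2 + 2) - (m + (K + (p + 1)) + ρ - 1) =
      (K + p) * (m + (ρ - 1) - 1) + (K - 1) + K * p + (K - 1) + p + ρ * m := by ring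
  have h2 : 0 ≤ (K + p) * (m + (ρ - 1) - 1) := mul_nonneg (by linarith) (by linarith)
  have h3 : 0 ≤ ρ * m := mul_nonneg (by linarith) hm
  have h4 : 0 ≤ K * p := mul_nonneg (by linarith) hp
  linarith

theorem out2 {K N : ℕ} {G : SimpleGraph V} {S W : Finset V} {ψ : V → Fin K} (ih : IH N)
    (hN : S.card ≤ N) (h3 : S.card ≤ 3 * K + 1) (h : CrOn G S K) (hW : W ⊆ S)
    (hR : K + 1 ≤ (S \ W).card) (hψ : PC G (S \ W) ψ) (hn : Non G W)
    (hf : ff G S K W ≤ (W.card : ℤ) - 2) : E2 G (S \ W) ψ W := by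
  have hRne : (S \ W).Nonempty := card_pos.1 (by omega)
  have hK : 0 < K := by
    obtain ⟨v, -⟩ := hRne
    exact (ψ v).pos
  obtain ⟨W', hW', Z', hWne, hZne, hcr, hff⟩ := key hK h hW hRne hψ
  set H := con G (S \ W) ψ with hH
  have hS : W.card + (S \ W).card = S.card := by
    have h1 := card_sdiff_add_card_eq_card hW
    omega
  have hZK : Z'.card ≤ K := by
    have h1 := card_le_univ Z'
    rwa [Fintype.card_fin] at h1
  have hZ1 : 1 ≤ Z'.card := card_pos.2 hZne
  have hW1 : 1 ≤ W'.card := card_pos.2 hWne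
  have hWW : W'.card ≤ W.card := card_le_card hW'
  have hm : (W \ W').card + W'.card = W.card := card_sdiff_add_card_eq_card hW'
  have hcard : (W'.disjSum Z').card = W'.card + Z'.card := card_disjSum _ _
  have hge : K + 1 ≤ (W'.disjSum Z').card := hcr.card_ge
  rw [hcard] at hge
  obtain ⟨q, hq⟩ := Nat.exists_eq_add_of_le hge
  obtain ⟨ρ, hρ⟩ := Nat.exists_eq_add_of_le (show Z'.card ≤ K + 1 by omega)
  have hρ1 : 1 ≤ ρ := by omega
  have hwq : W'.card = q + ρ := by omega
  have hs : (0 : ℤ) ≤ ∑ v ∈ W', ((dg G (S \ W) v : ℤ) - (hit G (S \ W) ψ v ∩ Z').card) := by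
    apply sum_nonneg
    intro v _
    have h1 : (hit G (S \ W) ψ v ∩ Z').card ≤ (hit G (S \ W) ψ v).card :=
      card_le_card inter_subset_left
    have h2 := hit_card_le G (S \ W) ψ v
    have h3 : ((hit G (S \ W) ψ v ∩ Z').card : ℤ) ≤ dg G (S \ W) v := by exact_mod_cast h1.trans h2
    linarith
  have hr : (0 : ℤ) ≤ ff G S K (W \ W') := ff_nonneg h (sdiff_subset.trans hW)
  have hga := O2.gallai (G := H) (W'.disjSum Z') K q hcr (by rw [hcard, hq])
  have hebq : eb H (W'.disjSum Z') ≤ q ^ 2 + 1 := by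
    have h1 := two_eb H (W'.disjSum Z')
    have h2 := hga.2.2
    omega
  have hZq : (Z'.card : ℤ) = K + 1 - ρ := by
    have : ((Z'.card + ρ : ℕ) : ℤ) = ((K + 1 : ℕ) : ℤ) := by exact_mod_cast hρ.symm
    push_cast at this
    linarith
  have hWq : (W'.card : ℤ) = q + ρ := by exact_mod_cast hwq
  have hmz : (W.card : ℤ) = (W \ W').card + W'.card := by exact_mod_cast hm.symm
  obtain ⟨m, hm'⟩ : ∃ m : ℕ, (W \ W').card = m := ⟨_, rfl⟩
  rw [hm'] at hm hmz
  have hw : (W.card : ℤ) = m + q + ρ := by rw [hmz, hWq]; ring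
  have hmain : ff G S K W = (q + ρ : ℤ) * (m + q) - eb H (W'.disjSum Z') +
      ∑ v ∈ W', ((dg G (S \ W) v : ℤ) - (hit G (S \ W) ψ v ∩ Z').card) + ff G S K (W \ W') := by
    rw [hff, hZq, hWq, hw]
    ring
  have hle : (q + ρ : ℤ) * (m + q) - eb H (W'.disjSum Z') + ff G S K (W \ W') ≤ ff G S K W := by
    rw [hmain]; linarith
  have hρ1z : (1 : ℤ) ≤ ρ := by exact_mod_cast hρ1
  have hqz : (0 : ℤ) ≤ q := by positivity
  have hmz0 : (0 : ℤ) ≤ m := by positivity
  by_cases hE : m = 0 ∧ ρ = 1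
  · have h1 : W' = W := by
      apply eq_of_subset_of_card_le hW'
      omega
    have h2 : Z' = univ := by
      apply eq_univ_of_card
      rw [Fintype.card_fin]
      omega
    unfold E2
    rw [h1, h2] at hcr
    exact hcr
  · exfalso
    have hmr : (1 : ℤ) ≤ m + (ρ - 1) := by
      have h4 : 2 ≤ m + ρ := by
        by_contra h5
        exact hE ⟨by omega, by omega⟩
      have h5 : (2 : ℤ) ≤ m + ρ := by exact_mod_cast h4
      linarith
    rw [hw] at hf
    rcases Nat.lt_or_ge q 2 with hq2 | hq2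
    · have hq0 : q = 0 := by
        have := hga.1
        omega
      subst hq0
      have heb0 : eb H (W'.disjSum Z') = 0 := by
        have h1 := two_eb H (W'.disjSum Z')
        have h2 := hga.2.1 rfl
        omega
      rw [heb0] at hle
      have hcl : Clq G W' := by
        have h1 : Clq H (W'.disjSum Z') := eb_clq.1 heb0
        intro a ha b hb hab
        exact h1 (Sum.inl a) (inl_mem_disjSum.2 ha) (Sum.inl b) (inl_mem_disjSum.2 hb)
          (fun e => hab (Sum.inl_injective e))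
      have hm1 : 1 ≤ m := by
        rcases Nat.eq_zero_or_pos m with h5 | h5
        · exfalso
          have h1 : W' = W := by
            apply eq_of_subset_of_card_le hW'
            omega
          subst h1
          obtain ⟨a, ha, b, hb, hab, hadj⟩ := hn
          exact hadj (hcl a ha b hb hab)
        · exact h5
      have hm1z : (1 : ℤ) ≤ m := by exact_mod_cast hm1
      push_cast at hle hf
      have h7 := Ob_a1 (ρ := ρ) (m := m) (r := ff G S K (W \ W')) (f := ff G S K W) hρ1z hm1z hr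
        (by linarith)
      linarith
    · have hq2z : (2 : ℤ) ≤ q := by exact_mod_cast hq2
      rcases Nat.lt_or_ge K q with hqK | hqK
      · obtain ⟨p, hp⟩ := Nat.exists_eq_add_of_lt hqK
        have hT' : eb H (W'.disjSum Z') ≤ T K (p + 1) := by
          apply ih _ H _ K (p + 1) hcr
          · rw [hcard, hq, hp]; ring
          · omega
          · omega
          · rw [hcard]; omega
        have hT2 : (eb H (W'.disjSum Z') : ℤ) ≤
            (K : ℤ) ^ 2 + K * (p + 1) + (p + 1) ^ 2 + 2 := by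
          have : ((T K (p + 1) : ℕ) : ℤ) = (K : ℤ) ^ 2 + K * (p + 1) + (p + 1) ^ 2 + 2 := by
            unfold T; push_cast; ring
          rw [← this]
          exact_mod_cast hT'
        have hqp : (q : ℤ) = K + (p + 1) := by rw [hp]; push_cast; ring
        have hKz : (1 : ℤ) ≤ K := by exact_mod_cast hK
        have hpz : (0 : ℤ) ≤ p := by positivity
        rw [hqp] at hle hf
        have h7 := Ob_a3 hKz hpz hρ1z hmz0 hmr hr hT2 hle
        linarith
      · have hebz : (eb H (W'.disjSum Z') : ℤ) ≤ q ^ 2 + 1 := by exact_mod_cast hebq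
        have h7 := Ob_a2 hq2z hρ1z hmz0 hmr hr hebz hle
        linarith

end Pool.Agent.O3
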