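import Pool.Agent.Lib_helper92.O3.Defs

set_option autoImplicit false
set_option linter.unusedSectionVars false
set_option linter.unusedVariables false

open scoped Classical
open Finset
open Pool.Agent.O2 (PC Cb CrOn pr ms dg nd Joined)

namespace Pool.Agent.O3

variable {V : Type}

theorem Qa_arith {a b : ℕ} (ha : 1 ≤ a) (hb : 1 ≤ b) : a + b ≤ a * b + 1 := by
  obtain ⟨a', rfl⟩ := Nat.exists_eq_add_of_le ha
  obtain ⟨b', rfl⟩ := Nat.exists_eq_add_of_le hb
  nlinarith [Nat.zero_le (a' * b')]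

theorem Qa_card {q : ℕ} (P : Finset (Fin q)) : P.card ≤ q := by
  have := card_le_card (subset_univ P)
  simpa using this

theorem Qa_prod {q : ℕ} {F : Finset (Fin q × Fin q)} {P Q : Finset (Fin q)}
    (h : ∀ a ∈ P, ∀ b ∈ Q, (a, b) ∈ F) : P ×ˢ Q ⊆ F := by
  rintro ⟨a, b⟩ hab
  rw [mem_product] at hab
  exact h a hab.1 b hab.2

theorem Qa_prod_card {q : ℕ} {F : Finset (Fin q × Fin q)} {P Q : Finset (Fin q)}
    (h : ∀ a ∈ P, ∀ b ∈ Q, (a, b) ∈ F) : P.card * Q.card ≤ F.card := by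
  have := card_le_card (Qa_prod h)
  rwa [card_product] at this

/-- erasing one element loses one exactly if it was there -/
theorem Qa_erase {q : ℕ} (P Q : Finset (Fin q)) (s i : Fin q) (h : ¬ (s ∈ P ∧ i ∈ Q)) :
    P.card + Q.card ≤ (P.erase s).card + (Q.erase i).card + 1 := by
  by_cases hs : s ∈ P
  · have hi : i ∉ Q := fun hi => h ⟨hs, hi⟩
    have h1 := card_erase_add_one hs
    rw [erase_eq_of_notMem hi]
    omega
  · rw [erase_eq_of_notMem hs]
    have h1 := Finset.pred_card_le_card_erase (s := Q) (a := i)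
    omega

/-- one prescribed value -/
theorem perm1 {q : ℕ} (F : Finset (Fin q × Fin q)) (hF : F.card + 2 ≤ q) (s i : Fin q)
    (hs : (s, i) ∉ F) : ∃ π : Equiv.Perm (Fin q), (∀ t, (t, π t) ∉ F) ∧ π s = i := by
  by_contra hno
  obtain ⟨P, Q, hPQ, hR⟩ := Pool.Agent.O2.konig
    (fun t j : Fin q => (t, j) ∈ F ∨ (t = s ∧ j ≠ i) ∨ (t ≠ s ∧ j = i)) (by
      rintro ⟨π, hπ⟩
      apply hno
      refine ⟨π, fun t ht => hπ t (Or.inl ht), ?_⟩
      by_contra hsi
      exact hπ s (Or.inr (Or.inl ⟨rfl, hsi⟩)))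
  have hsi : ¬ (s ∈ P ∧ i ∈ Q) := by
    rintro ⟨h1, h2⟩
    rcases hR s h1 i h2 with h | h | h
    · exact hs h
    · exact h.2 rfl
    · exact h.1 rfl
  have hc := Qa_erase P Q s i hsi
  have hF' : ∀ a ∈ P.erase s, ∀ b ∈ Q.erase i, (a, b) ∈ F := by
    intro a ha b hb
    rw [mem_erase] at ha hb
    rcases hR a ha.2 b hb.2 with h | h | h
    · exact h
    · exact absurd h.1 ha.1
    · exact absurd h.2 hb.1
  have h1 := Qa_prod_card hF'
  have hP : (P.erase s).card + 1 ≤ q := by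
    have h2 := card_le_card (erase_subset_erase s (subset_univ P))
    have h3 := card_erase_add_one (mem_univ s)
    rw [card_univ, Fintype.card_fin] at h3
    omega
  have hQ : (Q.erase i).card + 1 ≤ q := by
    have h2 := card_le_card (erase_subset_erase i (subset_univ Q))
    have h3 := card_erase_add_one (mem_univ i)
    rw [card_univ, Fintype.card_fin] at h3
    omega
  have h4 := Qa_arith (a := (P.erase s).card) (b := (Q.erase i).card) (by omega) (by omega)
  omega

/-- two prescribed values -/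
theorem perm2 {q : ℕ} (F : Finset (Fin q × Fin q)) (hF : F.card + 2 ≤ q) (s i s' j : Fin q)
    (hs : (s, i) ∉ F) (hs' : (s', j) ∉ F) (hne : s ≠ s') (hij : i ≠ j)
    (hno : ¬ ∃ π : Equiv.Perm (Fin q), (∀ t, (t, π t) ∉ F) ∧ π s = i ∧ π s' = j) :
    (∀ p ∈ F, p.1 ≠ s ∧ p.1 ≠ s' ∧ p.2 ≠ i ∧ p.2 ≠ j) ∧
    ((∃ t, ∀ p ∈ F, p.1 = t) ∨ ∃ t, ∀ p ∈ F, p.2 = t) := by
  obtain ⟨P, Q, hPQ, hR⟩ := Pool.Agent.O2.konig
    (fun t b : Fin q => (t, b) ∈ F ∨ (t = s ∧ b ≠ i) ∨ (t ≠ s ∧ b = i) ∨
      (t = s' ∧ b ≠ j) ∨ (t ≠ s' ∧ b = j)) (by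
      rintro ⟨π, hπ⟩
      apply hno
      refine ⟨π, fun t ht => hπ t (Or.inl ht), ?_, ?_⟩
      · by_contra hsi
        exact hπ s (Or.inr (Or.inl ⟨rfl, hsi⟩))
      · by_contra hsi
        exact hπ s' (Or.inr (Or.inr (Or.inr (Or.inl ⟨rfl, hsi⟩)))))
  have hsi : ¬ (s ∈ P ∧ i ∈ Q) := by
    rintro ⟨h1, h2⟩
    rcases hR s h1 i h2 with h | h | h | h | h
    · exact hs h
    · exact h.2 rfl
    · exact h.1 rfl
    · exact hne h.1
    · exact hij h.2
  have hsj : ¬ (s' ∈ P.erase s ∧ j ∈ Q.erase i) := by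
    rintro ⟨h1, h2⟩
    rw [mem_erase] at h1 h2
    rcases hR s' h1.2 j h2.2 with h | h | h | h | h
    · exact hs' h
    · exact hne h.1.symm
    · exact hij h.2.symm
    · exact h.2 rfl
    · exact h.1 rfl
  have hc := Qa_erase P Q s i hsi
  have hc' := Qa_erase (P.erase s) (Q.erase i) s' j hsj
  set P' := (P.erase s).erase s' with hP'
  set Q' := (Q.erase i).erase j with hQ'
  have hF' : ∀ a ∈ P', ∀ b ∈ Q', (a, b) ∈ F := by
    intro a ha b hb
    rw [hP', mem_erase, mem_erase] at ha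
    rw [hQ', mem_erase, mem_erase] at hb
    rcases hR a ha.2.2 b hb.2.2 with h | h | h | h | h
    · exact h
    · exact absurd h.1 ha.2.1
    · exact absurd h.2 hb.2.1
    · exact absurd h.1 ha.1
    · exact absurd h.2 hb.1
  have h1 := Qa_prod_card hF'
  have hPc : P'.card + 2 ≤ q := by
    have h2 : P' ⊆ ((univ : Finset (Fin q)).erase s).erase s' :=
      erase_subset_erase s' (erase_subset_erase s (subset_univ P))
    have h3 := card_le_card h2
    have h4 := card_erase_add_one (mem_univ s)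
    have h5 := card_erase_add_one (s := (univ : Finset (Fin q)).erase s) (a := s')
      (mem_erase.2 ⟨hne.symm, mem_univ _⟩)
    rw [card_univ, Fintype.card_fin] at h4
    omega
  have hQc : Q'.card + 2 ≤ q := by
    have h2 : Q' ⊆ ((univ : Finset (Fin q)).erase i).erase j :=
      erase_subset_erase j (erase_subset_erase i (subset_univ Q))
    have h3 := card_le_card h2
    have h4 := card_erase_add_one (mem_univ i)
    have h5 := card_erase_add_one (s := (univ : Finset (Fin q)).erase i) (a := j)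
      (mem_erase.2 ⟨hij.symm, mem_univ _⟩)
    rw [card_univ, Fintype.card_fin] at h4
    omega
  have h4 := Qa_arith (a := P'.card) (b := Q'.card) (by omega) (by omega)
  have h5 : P'.card * Q'.card = F.card := by omega
  have h6 : P'.card + Q'.card = P'.card * Q'.card + 1 := by omega
  have hE : P' ×ˢ Q' = F := by
    apply eq_of_subset_of_card_le (Qa_prod hF')
    rw [card_product, h5]
  have hab : P'.card = 1 ∨ Q'.card = 1 := by
    by_contra hcon
    push Not at hcon
    have ha : 2 ≤ P'.card := by omega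
    have hb : 2 ≤ Q'.card := by omega
    obtain ⟨a', ha'⟩ := Nat.exists_eq_add_of_le ha
    obtain ⟨b', hb'⟩ := Nat.exists_eq_add_of_le hb
    rw [ha', hb'] at h6
    nlinarith [Nat.zero_le (a' * b')]
  refine ⟨?_, ?_⟩
  · rintro ⟨a, b⟩ hp
    rw [← hE, mem_product] at hp
    have ha := hp.1
    have hb := hp.2
    simp only [] at ha hb
    rw [hP', mem_erase, mem_erase] at ha
    rw [hQ', mem_erase, mem_erase] at hb
    exact ⟨ha.2.1, ha.1, hb.2.1, hb.1⟩
  · rcases hab with h | h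
    · left
      obtain ⟨t, ht⟩ := card_eq_one.1 h
      refine ⟨t, ?_⟩
      rintro ⟨a, b⟩ hp
      rw [← hE, mem_product, ht, mem_singleton] at hp
      exact hp.1
    · right
      obtain ⟨t, ht⟩ := card_eq_one.1 h
      refine ⟨t, ?_⟩
      rintro ⟨a, b⟩ hp
      rw [← hE, mem_product, ht, mem_singleton] at hp
      exact hp.2

end Pool.Agent.O3
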