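import Pool.Agent.Lib_helper92.O3.B.Qa

set_option autoImplicit false
set_option linter.unusedSectionVars false
set_option linter.unusedVariables false

open scoped Classical
open Finset
open Pool.Agent.O2 (PC Cb CrOn pr ms dg nd Joined)

namespace Pool.Agent.O3

variable {V : Type}

theorem Qb_card_row {q : ℕ} (F : Finset (Fin q × Fin q)) (S L : Finset (Fin q)) (s z : Fin q)
    (hs : s ∈ S) (hsz : (s, z) ∈ F) (h : ∀ t ∈ S, ∀ l ∈ L, t ≠ s → (t, l) ∈ F) :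
    (S.card - 1) * L.card + 1 ≤ F.card := by
  have h1 : insert (s, z) ((S.erase s) ×ˢ L) ⊆ F := by
    intro p hp
    rcases mem_insert.1 hp with rfl | hp
    · exact hsz
    · obtain ⟨h2, h3⟩ := mem_product.1 hp
      have := h p.1 (mem_of_mem_erase h2) p.2 h3 (ne_of_mem_erase h2)
      simpa using this
  have h2 : (s, z) ∉ (S.erase s) ×ˢ L := by
    intro h3
    exact (ne_of_mem_erase (mem_product.1 h3).1) rfl
  have h3 := card_le_card h1
  rw [card_insert_of_notMem h2, card_product, card_erase_of_mem hs] at h3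
  exact h3

theorem Qb_card_col {q : ℕ} (F : Finset (Fin q × Fin q)) (S L : Finset (Fin q)) (b i : Fin q)
    (hi : i ∈ L) (hbi : (b, i) ∈ F) (h : ∀ t ∈ S, ∀ l ∈ L, l ≠ i → (t, l) ∈ F) :
    S.card * (L.card - 1) + 1 ≤ F.card := by
  have h1 : insert (b, i) (S ×ˢ (L.erase i)) ⊆ F := by
    intro p hp
    rcases mem_insert.1 hp with rfl | hp
    · exact hbi
    · obtain ⟨h2, h3⟩ := mem_product.1 hp
      have := h p.1 h2 p.2 (mem_of_mem_erase h3) (ne_of_mem_erase h3)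
      simpa using this
  have h2 : (b, i) ∉ S ×ˢ (L.erase i) := by
    intro h3
    exact (ne_of_mem_erase (mem_product.1 h3).2) rfl
  have h3 := card_le_card h1
  rw [card_insert_of_notMem h2, card_product, card_erase_of_mem hi] at h3
  exact h3

theorem Qb_one {S L f : ℕ} (hS : 1 ≤ S) (hL : 2 ≤ L) (h1 : (S - 1) * L + 1 ≤ f)
    (h2 : f + 2 ≤ S + L) : S = 1 := by
  obtain ⟨a, rfl⟩ : ∃ a, S = a + 1 := ⟨S - 1, by omega⟩
  obtain ⟨b, rfl⟩ : ∃ b, L = b + 2 := ⟨L - 2, by omega⟩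
  rw [Nat.add_sub_cancel] at h1
  rcases Nat.eq_zero_or_pos a with rfl | ha
  · rfl
  · exfalso
    nlinarith [Nat.mul_le_mul_right (b + 1) ha]

theorem Qb_two {S L f : ℕ} (hS : 1 ≤ S) (hL : 2 ≤ L) (h1 : S * (L - 1) + 1 ≤ f)
    (h2 : f + 2 ≤ S + L) : False := by
  obtain ⟨a, rfl⟩ : ∃ a, S = a + 1 := ⟨S - 1, by omega⟩
  obtain ⟨b, rfl⟩ : ∃ b, L = b + 2 := ⟨L - 2, by omega⟩
  have : b + 2 - 1 = b + 1 := by omega
  rw [this] at h1
  nlinarith [Nat.zero_le (a * b)]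

theorem fan {q : ℕ} (F : Finset (Fin q × Fin q)) (Sa Sb La Lb : Finset (Fin q)) (b0 z : Fin q)
    (h1 : b0 ∈ Sa) (h2 : b0 ∈ Sb) (h3 : z ∈ La) (h4 : z ∈ Lb) (ha : 2 ≤ La.card)
    (hb : 2 ≤ Lb.card) (hFq : F.card + 2 ≤ q) (hFa : F.card + 2 ≤ Sa.card + La.card)
    (hFb : F.card + 2 ≤ Sb.card + Lb.card)
    (exa : ∃ s ∈ Sa, ∃ i ∈ La, (s, i) ∉ F) (exb : ∃ s ∈ Sb, ∃ i ∈ Lb, (s, i) ∉ F)
    (hno : ¬ ∃ π : Equiv.Perm (Fin q), (∀ s, (s, π s) ∉ F) ∧ (∃ s ∈ Sa, π s ∈ La) ∧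
      ∃ s ∈ Sb, π s ∈ Lb) : Sa = {b0} ∧ Sb = {b0} := by
  have hcSa : 1 ≤ Sa.card := card_pos.2 ⟨b0, h1⟩
  have hcSb : 1 ≤ Sb.card := card_pos.2 ⟨b0, h2⟩
  -- (1)
  have k1 : ∀ s i, s ∈ Sa → s ∈ Sb → i ∈ La → i ∈ Lb → (s, i) ∈ F := by
    intro s i hsa hsb hia hib
    by_contra hn
    obtain ⟨π, hπ, hπs⟩ := perm1 F hFq s i hn
    exact hno ⟨π, hπ, ⟨s, hsa, by rw [hπs]; exact hia⟩, ⟨s, hsb, by rw [hπs]; exact hib⟩⟩
  have hbz : (b0, z) ∈ F := k1 b0 z h1 h2 h3 h4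
  -- no permutation with two prescribed values
  have k2 : ∀ s i s' j, s ∈ Sa → i ∈ La → s' ∈ Sb → j ∈ Lb →
      ¬ ∃ π : Equiv.Perm (Fin q), (∀ t, (t, π t) ∉ F) ∧ π s = i ∧ π s' = j := by
    rintro s i s' j hs hi hs' hj ⟨π, hπ, hπs, hπs'⟩
    exact hno ⟨π, hπ, ⟨s, hs, by rw [hπs]; exact hi⟩, ⟨s', hs', by rw [hπs']; exact hj⟩⟩
  -- (3)
  have k3 : ∀ s i s' j, s ∈ Sa → i ∈ La → s' ∈ Sb → j ∈ Lb → (s, i) ∉ F → (s', j) ∉ F →
      s = s' ∨ i = j := by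
    intro s i s' j hs hi hs' hj hn hn'
    by_contra hcon
    rw [not_or] at hcon
    obtain ⟨hss, hij⟩ := hcon
    obtain ⟨hav, hrc⟩ := perm2 F hFq s i s' j hn hn' hss hij (k2 s i s' j hs hi hs' hj)
    obtain ⟨e1, e2, e3, e4⟩ := hav _ hbz
    simp only at e1 e2 e3 e4
    rcases hrc with ⟨t, ht⟩ | ⟨t, ht⟩
    · have hn2 : (s', z) ∉ F := by
        intro hm
        have a1 := ht _ hm
        have a2 := ht _ hbz
        simp only at a1 a2
        exact e2 (a2.trans a1.symm)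
      obtain ⟨hav2, -⟩ := perm2 F hFq s i s' z hn hn2 hss (Ne.symm e3) (k2 s i s' z hs hi hs' h4)
      exact (hav2 _ hbz).2.2.2 rfl
    · have hn2 : (b0, i) ∉ F := by
        intro hm
        have a1 := ht _ hm
        have a2 := ht _ hbz
        simp only at a1 a2
        exact e3 (a2.trans a1.symm)
      obtain ⟨hav2, -⟩ := perm2 F hFq b0 i s' j hn2 hn' e2 hij (k2 b0 i s' j h1 hi hs' hj)
      exact (hav2 _ hbz).1 rfl
  obtain ⟨s, hs, i, hi, hsi⟩ := exa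
  obtain ⟨s', hs', j, hj, hsj⟩ := exb
  by_cases hss : s = s'
  · subst hss
    have hjL : j ∉ La := fun h => hsj (k1 s j hs hs' h hj)
    have hiL : i ∉ Lb := fun h => hsi (k1 s i hs hs' hi h)
    have hA : ∀ t ∈ Sa, ∀ l ∈ La, t ≠ s → (t, l) ∈ F := by
      intro t ht l hl hts
      by_contra hn
      rcases k3 t l s j ht hl hs' hj hn hsj with h | h
      · exact hts h
      · exact hjL (h ▸ hl)
    have hB : ∀ t ∈ Sb, ∀ l ∈ Lb, t ≠ s → (t, l) ∈ F := by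
      intro t ht l hl hts
      by_contra hn
      rcases k3 s i t l hs hi ht hl hsi hn with h | h
      · exact hts h.symm
      · exact hiL (h ▸ hl)
    have c1 := Qb_one hcSa ha (Qb_card_row F Sa La s z hs (k1 s z hs hs' h3 h4) hA) hFa
    have c2 := Qb_one hcSb hb (Qb_card_row F Sb Lb s z hs' (k1 s z hs hs' h3 h4) hB) hFb
    obtain ⟨x, hx⟩ := card_eq_one.1 c1
    obtain ⟨y, hy⟩ := card_eq_one.1 c2
    have hx0 : b0 = x := by rw [hx] at h1; exact mem_singleton.1 h1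
    have hy0 : b0 = y := by rw [hy] at h2; exact mem_singleton.1 h2
    exact ⟨by rw [hx, hx0], by rw [hy, hy0]⟩
  · exfalso
    have hij : i = j := (k3 s i s' j hs hi hs' hj hsi hsj).resolve_left hss
    subst hij
    have hsS : s' ∉ Sa := fun h => hsj (k1 s' i h hs' hi hj)
    have hA : ∀ t ∈ Sa, ∀ l ∈ La, l ≠ i → (t, l) ∈ F := by
      intro t ht l hl hli
      by_contra hn
      rcases k3 t l s' i ht hl hs' hj hn hsj with h | h
      · exact hsS (h ▸ ht)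
      · exact hli h
    exact Qb_two hcSa ha (Qb_card_col F Sa La b0 i hi (k1 b0 i h1 h2 hi hj) hA) hFa

end Pool.Agent.O3
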