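import Pool.Agent.Lib_helper92.O3.B.Bb
import Pool.Agent.Lib_helper92.O3.B.Bc

set_option autoImplicit false
set_option linter.unusedSectionVars false
set_option linter.unusedVariables false

open scoped Classical
open Finset
open Pool.Agent.O2 (PC Cb CrOn pr ms dg nd Joined)

namespace Pool.Agent.O3

variable {V : Type}

/-- one part of a join is not inside the clique -/
theorem Sa_part {G : SimpleGraph V} {a : ℕ} {W Z1 A B : Finset V}
    (hd : Disjoint W Z1) (hc : Clq G Z1) (hn : ∀ z ∈ Z1, ∃ v ∈ W, ¬ G.Adj v z)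
    (hA : A.Nonempty) (hu : A ∪ B = uni W Z1) (hj : ∀ x ∈ A, ∀ y ∈ B, G.Adj x y)
    (h : CrOn G A a) : (Z1 ∩ A).card ≤ a := by
  by_contra hcon
  have h1 : Z1 ∩ A = A := clq_all h inter_subset_right
    (fun x hx y hy hxy => hc x (mem_of_mem_inter_left hx) y (mem_of_mem_inter_left hy) hxy)
    (by omega)
  obtain ⟨z, hz⟩ := hA
  have hz1 : z ∈ Z1 := by
    rw [← h1] at hz
    exact mem_of_mem_inter_left hz
  obtain ⟨v, hv, hvz⟩ := hn z hz1
  have h2 : v ∈ A ∪ B := by
    rw [hu]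
    exact mem_uni.2 (Or.inl hv)
  rcases mem_union.1 h2 with h3 | h3
  · rw [← h1] at h3
    exact disjoint_left.1 hd hv (mem_of_mem_inter_left h3)
  · exact hvz (hj z hz v h3).symm

theorem Sa_conn {G : SimpleGraph V} {W Z1 : Finset V} (h : CrOn G (uni W Z1) Z1.card)
    (hd : Disjoint W Z1) (hc : Clq G Z1) (hn : ∀ z ∈ Z1, ∃ v ∈ W, ¬ G.Adj v z) :
    ¬ Joined G (uni W Z1) := by
  rintro ⟨A, B, hA, hB, hAB, hu, hj⟩
  have h' : CrOn G (A ∪ B) Z1.card := by
    have e : A ∪ B = uni W Z1 := hu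
    rw [e]
    exact h
  obtain ⟨a, b, hab, h1, h2⟩ := O2.CrOn.join hA hB hAB hj h'
  have h3 := Sa_part hd hc hn hA hu hj h1
  have h4 := Sa_part hd hc hn hB (by rw [union_comm]; exact hu)
    (fun x hx y hy => (hj y hy x hx).symm) h2
  have h5 : Z1 ⊆ (Z1 ∩ A) ∪ (Z1 ∩ B) := by
    intro z hz
    have h6 : z ∈ A ∪ B := by
      have e : A ∪ B = uni W Z1 := hu
      rw [e]
      exact mem_uni.2 (Or.inr hz)
    rcases mem_union.1 h6 with h7 | h7
    · exact mem_union_left _ (mem_inter.2 ⟨hz, h7⟩)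
    · exact mem_union_right _ (mem_inter.2 ⟨hz, h7⟩)
  have h8 := (card_le_card h5).trans (card_union_le _ _)
  omega

theorem Sa_two {G : SimpleGraph V} {W Z1 : Finset V} (h : CrOn G (uni W Z1) Z1.card)
    (hd : Disjoint W Z1) (hw : 2 ≤ W.card) : 2 ≤ Z1.card := by
  have hcard : (uni W Z1).card = W.card + Z1.card := by
    unfold uni
    exact card_union_of_disjoint hd
  by_contra hcon
  have hq : Z1.card = 0 ∨ Z1.card = 1 := by omega
  rcases hq with hq | hq
  · rw [hq] at h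
    obtain ⟨x, hx⟩ := O2.CrOn.nonempty h
    have h1 := O2.cb_zero.1 (h.2 x hx)
    have h2 := card_erase_of_mem hx
    rw [h1, card_empty] at h2
    omega
  · rw [hq] at h
    have h1 : ∃ a ∈ uni W Z1, ∃ b ∈ uni W Z1, G.Adj a b := by
      by_contra hno
      push Not at hno
      exact h.1 (O2.cb_one hno)
    obtain ⟨a, ha, b, hb, hab⟩ := h1
    have h2 : ∃ c ∈ uni W Z1, c ≠ a ∧ c ≠ b := by
      by_contra hno
      push Not at hno
      have h3 : uni W Z1 ⊆ {a, b} := by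
        intro c hc
        rw [mem_insert, mem_singleton]
        by_cases hca : c = a
        · exact Or.inl hca
        · exact Or.inr (hno c hc hca)
      have h4 := (card_le_card h3).trans card_le_two
      omega
    obtain ⟨c, hc, hca, hcb⟩ := h2
    obtain ⟨φ, h5, h6⟩ := h.2 c hc
    have ha' : a ∈ (uni W Z1).erase c := mem_erase.2 ⟨hca.symm, ha⟩
    have hb' : b ∈ (uni W Z1).erase c := mem_erase.2 ⟨hcb.symm, hb⟩
    have h7 := h5 a ha'
    have h8 := h5 b hb'
    exact h6 a ha' b hb' hab (by omega)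

theorem strip {G : SimpleGraph V} {K : ℕ} {W Z : Finset V} (h : CrOn G (uni W Z) K)
    (hd : Disjoint W Z) (hc : Clq G Z) (hZ : Z.card = K) (hw : 2 ≤ W.card) :
    ∃ Z1 ⊆ Z, (∀ z ∈ Z \ Z1, ∀ v ∈ W, G.Adj v z) ∧ (∀ z ∈ Z1, ∃ v ∈ W, ¬ G.Adj v z) ∧
      Jay G Z1.card Z1 W ∧ Z1.card + 1 ≤ W.card ∧ eb G (uni W Z1) = eb G (uni W Z) ∧
      ff G (uni W Z) K W = ff G (uni W Z1) Z1.card W := by
  obtain ⟨w, hwW⟩ : W.Nonempty := card_pos.1 (by omega)
  let F := Z.filter fun z => ∀ v ∈ W, G.Adj v z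
  let Z1 := Z.filter fun z => ¬ ∀ v ∈ W, G.Adj v z
  have hFZ : F ⊆ Z := filter_subset _ _
  have hZ1 : Z1 ⊆ Z := filter_subset _ _
  have hF1 : ∀ z ∈ F, ∀ v ∈ W, G.Adj v z := fun z hz => (mem_filter.1 hz).2
  have hd1 : Disjoint W Z1 := disjoint_of_subset_right hZ1 hd
  have hcard : F.card + Z1.card = K := by
    rw [← hZ]
    exact card_filter_add_card_filter_not _
  have hFd : Disjoint (uni W Z1) F := by
    rw [disjoint_left]
    intro x hx hxF
    rcases mem_uni.1 hx with h1 | h1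
    · exact disjoint_left.1 hd h1 (hFZ hxF)
    · exact (mem_filter.1 h1).2 (hF1 x hxF)
  have hsplit : uni W Z = uni W Z1 ∪ F := by
    ext x
    rw [mem_union, mem_uni, mem_uni]
    constructor
    · rintro (h1 | h1)
      · exact Or.inl (Or.inl h1)
      · by_cases h2 : ∀ v ∈ W, G.Adj v x
        · exact Or.inr (mem_filter.2 ⟨h1, h2⟩)
        · exact Or.inl (Or.inr (mem_filter.2 ⟨h1, h2⟩))
    · rintro ((h1 | h1) | h1)
      · exact Or.inl h1
      · exact Or.inr (hZ1 h1)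
      · exact Or.inr (hFZ h1)
  have hsd : uni W Z \ F = uni W Z1 := by
    rw [hsplit, union_sdiff_right]
    exact sdiff_eq_self_of_disjoint hFd
  have hFS : F ⊆ uni W Z := fun x hx => mem_uni.2 (Or.inr (hFZ hx))
  obtain ⟨h1, h2, h3⟩ := crOn_strip h hFS (by
    intro v hv u hu huv
    rcases mem_uni.1 hu with h4 | h4
    · exact (hF1 v hv u h4).symm
    · exact hc v (hFZ hv) u h4 huv.symm) (by
    intro he
    have h4 : w ∈ F := by
      rw [he]
      exact mem_uni.2 (Or.inl hwW)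
    exact disjoint_left.1 hd hwW (hFZ h4))
  have hKF : K - F.card = Z1.card := by omega
  rw [hsd, hKF] at h2
  rw [hsd] at h3
  have hn : ∀ z ∈ Z1, ∃ v ∈ W, ¬ G.Adj v z := by
    intro z hz
    have h4 := (mem_filter.1 hz).2
    push Not at h4
    exact h4
  have hc1 : Clq G Z1 := fun a ha b hb hab => hc a (hZ1 ha) b (hZ1 hb) hab
  have hcn := Sa_conn h2 hd1 hc1 hn
  have htw := Sa_two h2 hd1 hw
  refine ⟨Z1, hZ1, ?_, hn, ⟨h2, hd1, hc1, rfl, hcn, htw⟩, ?_, h3, ?_⟩
  · intro z hz v hv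
    obtain ⟨h4, h5⟩ := mem_sdiff.1 hz
    by_contra h6
    exact h5 (mem_filter.2 ⟨h4, fun h7 => h6 (h7 v hv)⟩)
  · have hcu : (uni W Z1).card = W.card + Z1.card := by
      unfold uni
      exact card_union_of_disjoint hd1
    by_contra h4
    have h5 := (O2.gallai_conn h2 hcn (by omega)).1
    omega
  · unfold ff
    congr 1
    refine sum_congr rfl fun v hv => ?_
    have h4 : dg G (uni W Z) v = dg G (uni W Z1) v + F.card := by
      rw [hsplit, O2.dg_union hFd]
      congr 1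
      unfold dg
      congr 1
      exact filter_true_of_mem fun z hz => hF1 z hz v hv
    rw [h4]
    push_cast
    have h5 : (F.card : ℤ) + Z1.card = K := by exact_mod_cast hcard
    linarith

end Pool.Agent.O3
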