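import Pool.Agent.Lib_helper92.O3.B.Bb
import Pool.Agent.Lib_helper92.O3.B.Bc

set_option autoImplicit false
set_option linter.unusedSectionVars false
set_option linter.unusedVariables false

open scoped Classical
open Finset
open Pool.Agent.O2 (PC Cb CrOn pr ms dg nd Joined)

namespace Pool.Agent.O3

variable {V : Type}

/-- a colouring in which a given independent set is a class -/
theorem psi_cls {K : ℕ} {G : SimpleGraph V} {S' I : Finset V} (hK : 1 ≤ K)
    (h : CrOn G S' (K - 1)) (hI : I ⊆ S') (hne : I.Nonempty)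
    (hi : ∀ a ∈ I, ∀ b ∈ I, ¬ G.Adj a b) :
    ∃ ψ : V → Fin K, PC G S' ψ ∧ ∃ i, ∀ u ∈ S', ψ u = i ↔ u ∈ I := by
  have hT : Cb G (S' \ I) (K - 1) := by
    apply O2.CrOn.sub h sdiff_subset
    intro e
    obtain ⟨x, hx⟩ := hne
    have h1 : x ∈ S' \ I := by rw [e]; exact hI hx
    exact (mem_sdiff.1 h1).2 hx
  obtain ⟨φ, h1, h2⟩ := hT
  refine ⟨fun v => if v ∈ I then ⟨K - 1, by omega⟩ else ⟨min (φ v) (K - 1), by omega⟩, ?_,
    ⟨K - 1, by omega⟩, ?_⟩
  · intro a ha b hb hab
    by_cases haI : a ∈ I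
    · by_cases hbI : b ∈ I
      · exact absurd hab (hi a haI b hbI)
      · have h3 := h1 b (mem_sdiff.2 ⟨hb, hbI⟩)
        simp only [haI, hbI, if_true, if_false, ne_eq, Fin.mk.injEq]
        omega
    · by_cases hbI : b ∈ I
      · have h3 := h1 a (mem_sdiff.2 ⟨ha, haI⟩)
        simp only [haI, hbI, if_true, if_false, ne_eq, Fin.mk.injEq]
        omega
      · have h3 := h1 a (mem_sdiff.2 ⟨ha, haI⟩)
        have h4 := h1 b (mem_sdiff.2 ⟨hb, hbI⟩)
        have h5 := h2 a (mem_sdiff.2 ⟨ha, haI⟩) b (mem_sdiff.2 ⟨hb, hbI⟩) hab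
        simp only [haI, hbI, if_false, ne_eq, Fin.mk.injEq]
        omega
  · intro u hu
    by_cases huI : u ∈ I
    · simp [huI]
    · have h3 := h1 u (mem_sdiff.2 ⟨hu, huI⟩)
      simp only [huI, if_false, Fin.mk.injEq, iff_false]
      omega

theorem two_clq {k : ℕ} {G : SimpleGraph V} {S' N : Finset V} (h : CrOn G S' k)
    (hk : S'.card ≠ k + 1) (hN : N ⊆ S') (hc : Clq G N) (hn : N.card = k) :
    ∃ y ∈ S' \ N, ∃ y' ∈ S' \ N, y ≠ y' ∧ ¬ G.Adj y y' := by
  by_contra hcon
  push Not at hcon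
  set M : Finset V := S' \ N with hM
  have hcard : k + 1 < S'.card := by
    have := O2.CrOn.card_ge h
    omega
  -- Hall
  let t : {m // m ∈ M} → Finset V := fun m => N.filter fun y => ¬ G.Adj m.1 y
  have hall : ∀ s : Finset {m // m ∈ M}, s.card ≤ (s.biUnion t).card := by
    intro s
    by_contra hs
    push Not at hs
    set M1 : Finset V := s.map ⟨Subtype.val, Subtype.val_injective⟩ with hM1
    have hM1c : M1.card = s.card := card_map _
    have hM1M : ∀ v ∈ M1, v ∈ M := by
      intro v hv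
      obtain ⟨w, _, rfl⟩ := mem_map.1 hv
      exact w.2
    have hsub : s.biUnion t ⊆ N := by
      intro v hv
      obtain ⟨w, _, hw⟩ := mem_biUnion.1 hv
      exact (mem_filter.1 hw).1
    set C : Finset V := M1 ∪ (N \ s.biUnion t) with hC
    have hd : Disjoint M1 (N \ s.biUnion t) := by
      rw [disjoint_left]
      intro v hv hv'
      exact (mem_sdiff.1 (hM1M v hv)).2 (mem_sdiff.1 hv').1
    have hCc : C.card = M1.card + (N.card - (s.biUnion t).card) := by
      rw [hC, card_union_of_disjoint hd, card_sdiff_of_subset hsub]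
    have hle := card_le_card hsub
    have hCS : C ⊆ S' := by
      intro v hv
      rcases mem_union.1 hv with hv | hv
      · exact (mem_sdiff.1 (hM1M v hv)).1
      · exact hN (mem_sdiff.1 hv).1
    have key : ∀ a ∈ M1, ∀ b ∈ N \ s.biUnion t, G.Adj a b := by
      intro a ha b hb
      obtain ⟨w, hw, rfl⟩ := mem_map.1 ha
      by_contra hab
      exact (mem_sdiff.1 hb).2 (mem_biUnion.2 ⟨w, hw, mem_filter.2 ⟨(mem_sdiff.1 hb).1, hab⟩⟩)
    have hCq : Clq G C := by
      intro a ha b hb hab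
      rcases mem_union.1 ha with ha | ha <;> rcases mem_union.1 hb with hb | hb
      · exact hcon a (hM1M a ha) b (hM1M b hb) hab
      · exact key a ha b hb
      · exact (key b hb a ha).symm
      · exact hc a (mem_sdiff.1 ha).1 b (mem_sdiff.1 hb).1 hab
    have := clq_bound h hCS hCq hcard
    omega
  obtain ⟨f, hf, hft⟩ := (Finset.all_card_le_biUnion_card_iff_exists_injective t).1 hall
  apply h.1
  let φ : V → V := fun v => if hv : v ∈ M then f ⟨v, hv⟩ else v
  have hφM : ∀ v (hv : v ∈ M), φ v = f ⟨v, hv⟩ := fun v hv => by simp only [φ, dif_pos hv]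
  have hφN : ∀ v, v ∈ N → φ v = v := fun v hv => by
    have : v ∉ M := fun h' => (mem_sdiff.1 h').2 hv
    simp only [φ, dif_neg this]
  have hMN : ∀ v ∈ S', v ∈ M ∨ v ∈ N := fun v hv => by
    by_cases hvN : v ∈ N
    · exact Or.inr hvN
    · exact Or.inl (mem_sdiff.2 ⟨hv, hvN⟩)
  refine O2.cb_image (α := V) φ ?_ ?_
  · rw [← hn]
    apply card_le_card
    intro w hw
    obtain ⟨v, hv, rfl⟩ := mem_image.1 hw
    rcases hMN v hv with h1 | h1
    · rw [hφM v h1]
      exact (mem_filter.1 (hft ⟨v, h1⟩)).1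
    · rw [hφN v h1]
      exact h1
  · intro a ha b hb hab
    rcases hMN a ha with h1 | h1 <;> rcases hMN b hb with h2 | h2
    · rw [hφM a h1, hφM b h2]
      intro e
      have := hf e
      exact hab.ne (congrArg Subtype.val this)
    · rw [hφM a h1, hφN b h2]
      intro e
      have h3 := (mem_filter.1 (hft ⟨a, h1⟩)).2
      rw [e] at h3
      exact h3 hab
    · rw [hφN a h1, hφM b h2]
      intro e
      have h3 := (mem_filter.1 (hft ⟨b, h2⟩)).2
      rw [← e] at h3
      exact h3 hab.symm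
    · rw [hφN a h1, hφN b h2]
      exact hab.ne

end Pool.Agent.O3
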