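import Pool.Agent.Lib_helper92.O3.B.Oc
import Pool.Agent.Lib_helper92.O3.B.Fc
import Pool.Agent.Lib_helper92.O3.B.Sb
import Pool.Agent.Lib_helper92.O3.B.Ta

set_option autoImplicit false
set_option linter.unusedSectionVars false
set_option linter.unusedVariables false

open scoped Classical
open Finset
open Pool.Agent.O2 (PC Cb CrOn pr ms dg nd Joined)

namespace Pool.Agent.O3

variable {V : Type}

theorem Tb_sur_nonneg {K : ℕ} (G : SimpleGraph V) (R : Finset V) (ψ : V → Fin K) (W : Finset V) :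
    0 ≤ sur G R ψ W := by
  unfold sur
  refine Finset.sum_nonneg fun v _ => ?_
  have h := hit_card_le G R ψ v
  have h' : ((hit G R ψ v).card : ℤ) ≤ (dg G R v : ℤ) := by exact_mod_cast h
  linarith

theorem Tb_card3 {G : SimpleGraph V} {W : Finset V} {a b c : V} (ha : a ∈ W) (hb : b ∈ W)
    (hc : c ∈ W) (h : Ind3 G a b c) : 3 ≤ W.card := by
  obtain ⟨h1, h2, h3, -⟩ := h
  have h4 : ({a, b, c} : Finset V).card = 3 := by
    rw [card_insert_of_notMem, card_insert_of_notMem, card_singleton]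
    · simpa using h3
    · simp [h1, h2]
  rw [← h4]
  apply card_le_card
  intro x hx
  simp only [mem_insert, mem_singleton] at hx
  rcases hx with rfl | rfl | rfl <;> assumption

theorem tight_psi {N K : ℕ} {G : SimpleGraph V} {S W : Finset V} {a b c : V} {ψ : V → Fin K}
    (ih : IH N) (hN : S.card ≤ N) (h : Tight G S W K a b c) (hψ : PC G (S \ W) ψ) :
    sur G (S \ W) ψ W = 0 ∧ ∃ Z1 : Finset (Fin K),
      (∀ i ∉ Z1, ∀ v ∈ W, i ∈ hit G (S \ W) ψ v) ∧
      (∀ i ∈ Z1, ∃ v ∈ W, i ∉ hit G (S \ W) ψ v) ∧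
      Jay (con G (S \ W) ψ) Z1.card (Z1.map ⟨Sum.inr, Sum.inr_injective⟩)
        (W.map ⟨Sum.inl, Sum.inl_injective⟩) ∧
      (W.card = Z1.card + 1 ∨ W.card = Z1.card + 2) ∧
      (uni (W.map ⟨Sum.inl, Sum.inl_injective⟩)
        (Z1.map ⟨Sum.inr, Sum.inr_injective⟩)).card < N ∧
      ff (con G (S \ W) ψ) (uni (W.map ⟨Sum.inl, Sum.inl_injective⟩)
        (Z1.map ⟨Sum.inr, Sum.inr_injective⟩)) Z1.card (W.map ⟨Sum.inl, Sum.inl_injective⟩) ≤
        2 * (W.card : ℤ) - 5 := by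
  have hw3 : 3 ≤ W.card := Tb_card3 h.ha h.hb h.hc h.ind
  have hT : Tri G W := ⟨a, h.ha, b, h.hb, c, h.hc, h.ind⟩
  have hcS : (S \ W).card + W.card = S.card := card_sdiff_add_card_eq_card h.sub
  have hbig := h.big
  have hsmall := h.small
  have hTc : Tri (con G (S \ W) ψ) (W.map ⟨Sum.inl, Sum.inl_injective⟩) := tri_con.2 hT
  have hlt : ∀ Z : Finset (Fin K), (W.disjSum Z).card < N := by
    intro Z
    have h1 : Z.card ≤ K := by
      have h2 := card_le_univ Z
      rw [Fintype.card_fin] at h2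
      exact h2
    rw [card_disjSum]
    omega
  rcases out6 ih hN h.three h.cr h.sub (by omega) hψ (Or.inl hT) with h1 | h1 | h1
  · exfalso
    linarith
  · exfalso
    obtain ⟨-, Z', q, hcr, hcard, h2, hq, he⟩ := h1
    refine f4 ih hcr (hlt Z') ?_ h2 hq (he hsmall) ?_
    · rw [card_disjSum]
      exact hcard
    · obtain ⟨x, hx, y, hy, z, hz, h3⟩ := hTc
      have h4 : ∀ u ∈ W.map ⟨Sum.inl, Sum.inl_injective⟩, u ∈ W.disjSum Z' := by
        intro u hu
        rw [← disjSum_eq]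
        exact mem_uni.2 (Or.inl hu)
      exact ⟨x, h4 x hx, y, h4 y hy, z, h4 z hz, h3⟩
  · obtain ⟨Z1, hz1, hz2, hJ, hq, hff⟩ := e2jay h.sub h1 (by omega)
    have hcN : (uni (W.map ⟨Sum.inl, Sum.inl_injective⟩)
        (Z1.map ⟨Sum.inr, Sum.inr_injective⟩)).card < N := by
      rw [disjSum_eq]
      exact hlt Z1
    have hs := Tb_sur_nonneg G (S \ W) ψ W
    have hm : (W.map ⟨(Sum.inl : V → V ⊕ Fin K), Sum.inl_injective⟩).card = W.card :=
      card_map _
    rcases e2num ih hJ hcN with ⟨h2, h3⟩ | ⟨h2, h3⟩ | ⟨h2, h3⟩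
    · have h4 := (lem5 ih hJ hcN (p6_all ih _ hcN.le) h2).1 hTc
      rw [hm] at h2 h4
      refine ⟨by linarith, Z1, hz1, hz2, hJ, Or.inl h2, hcN, by linarith⟩
    · rw [hm] at h2 h3
      refine ⟨by linarith, Z1, hz1, hz2, hJ, Or.inr h2, hcN, by linarith⟩
    · exfalso
      rw [hm] at h3
      linarith

end Pool.Agent.O3
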