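import Pool.Agent.Lib_helper92.O3.B.Tb

set_option autoImplicit false
set_option linter.unusedSectionVars false
set_option linter.unusedVariables false

open scoped Classical
open Finset
open Pool.Agent.O2 (PC Cb CrOn pr ms dg nd Joined)

namespace Pool.Agent.O3

variable {V : Type}

theorem tight_hit {N K : ℕ} {G : SimpleGraph V} {S W : Finset V} {a b c : V} {ψ : V → Fin K}
    (ih : IH N) (hN : S.card ≤ N) (h : Tight G S W K a b c) (hψ : PC G (S \ W) ψ) {v : V}
    (hv : v ∈ W) : (hit G (S \ W) ψ v).card = dg G (S \ W) v := by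
  have h1 := (tight_psi ih hN h hψ).1
  unfold sur at h1
  have h2 : ∀ u ∈ W, (0 : ℤ) ≤ (dg G (S \ W) u : ℤ) - (hit G (S \ W) ψ u).card := by
    intro u hu
    have h3 : ((hit G (S \ W) ψ u).card : ℤ) ≤ dg G (S \ W) u := by
      exact_mod_cast hit_card_le G (S \ W) ψ u
    linarith
  have h4 := (sum_eq_zero_iff_of_nonneg h2).1 h1 v hv
  have h5 : ((hit G (S \ W) ψ v).card : ℤ) = dg G (S \ W) v := by linarith
  exact_mod_cast h5

theorem Tc_hit {K : ℕ} {G : SimpleGraph V} {R : Finset V} {ψ : V → Fin K} {v : V} {i : Fin K} :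
    i ∈ hit G R ψ v ↔ ∃ y ∈ R, ψ y = i ∧ G.Adj v y := by
  unfold hit
  rw [mem_filter]
  exact ⟨fun h => h.2, fun h => ⟨mem_univ _, h⟩⟩

theorem tight_inj {N K : ℕ} {G : SimpleGraph V} {S W : Finset V} {a b c : V} {ψ : V → Fin K}
    (ih : IH N) (hN : S.card ≤ N) (h : Tight G S W K a b c) (hψ : PC G (S \ W) ψ) {v y y' : V}
    (hv : v ∈ W) (hy : y ∈ S \ W) (hy' : y' ∈ S \ W) (hne : y ≠ y') (he : ψ y = ψ y') :
    ¬ (G.Adj v y ∧ G.Adj v y') := by
  rintro ⟨h1, h2⟩
  have h3 := tight_hit ih hN h hψ hv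
  unfold dg at h3
  have h4 : hit G (S \ W) ψ v = ((S \ W).filter fun y => G.Adj v y).image ψ := by
    ext i
    rw [Tc_hit, mem_image]
    constructor
    · rintro ⟨u, hu, hui, hvu⟩
      exact ⟨u, mem_filter.2 ⟨hu, hvu⟩, hui⟩
    · rintro ⟨u, hu, hui⟩
      obtain ⟨hu1, hu2⟩ := mem_filter.1 hu
      exact ⟨u, hu1, hui, hu2⟩
  rw [h4] at h3
  have h5 := card_image_iff.1 h3
  exact hne (h5 (mem_coe.2 (mem_filter.2 ⟨hy, h1⟩)) (mem_coe.2 (mem_filter.2 ⟨hy', h2⟩)) he)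

theorem Tc_pos {K : ℕ} {G : SimpleGraph V} {S W : Finset V} {a b c : V}
    (h : Tight G S W K a b c) : 1 ≤ K := by
  by_contra hK
  have hK0 : K = 0 := by omega
  have h1 : S \ W ≠ S := by
    intro h2
    have h3 : a ∈ S \ W := by
      rw [h2]
      exact h.sub h.ha
    exact (mem_sdiff.1 h3).2 h.ha
  have h2 : Cb G (S \ W) K := Pool.Agent.O2.CrOn.sub h.cr sdiff_subset h1
  have h3 := h.cr'.1
  have h4 : K - 1 = K := by omega
  rw [h4] at h3
  exact h3 h2

theorem tight_nbr {N K : ℕ} {G : SimpleGraph V} {S W : Finset V} {a b c : V}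
    (ih : IH N) (hN : S.card ≤ N) (h : Tight G S W K a b c) {y : V} (hy : y ∈ S \ W) :
    ∃ v ∈ W, G.Adj v y := by
  obtain ⟨ψ, hψ, i, hi⟩ := psi_cls (Tc_pos h) h.cr' (I := {y})
    (singleton_subset_iff.2 hy) (singleton_nonempty y) (by
      intro x hx z hz
      rw [mem_singleton] at hx hz
      rw [hx, hz]
      exact G.irrefl)
  have hkey : ∀ v, i ∈ hit G (S \ W) ψ v → G.Adj v y := by
    intro v hv
    obtain ⟨u, hu, hui, hvu⟩ := Tc_hit.1 hv
    have h1 : u = y := mem_singleton.1 ((hi u hu).1 hui)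
    rw [← h1]
    exact hvu
  obtain ⟨-, Z1, hZ1, hZ2, hj, -⟩ := tight_psi ih hN h hψ
  by_cases hiZ : i ∈ Z1
  · have h1 : (Sum.inr i : V ⊕ Fin K) ∈ Z1.map ⟨Sum.inr, Sum.inr_injective⟩ :=
      mem_map.2 ⟨i, hiZ, rfl⟩
    have h2 := (jay_dz hj h1).1
    rw [dg_con_inr'] at h2
    obtain ⟨v, hv⟩ := card_pos.1 h2
    obtain ⟨hv1, hv2⟩ := mem_filter.1 hv
    exact ⟨v, hv1, hkey v hv2⟩
  · exact ⟨a, h.ha, hkey a (hZ1 i hiZ a h.ha)⟩

theorem tight_dis {N K : ℕ} {G : SimpleGraph V} {S W : Finset V} {a b c : V}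
    (ih : IH N) (hN : S.card ≤ N) (h : Tight G S W K a b c) {v y y' : V} (hv : v ∈ W)
    (hy : y ∈ S \ W) (hy' : y' ∈ S \ W) (hne : y ≠ y') (hn : ¬ G.Adj y y') :
    ¬ (G.Adj v y ∧ G.Adj v y') := by
  obtain ⟨ψ, hψ, i, hi⟩ := psi_cls (Tc_pos h) h.cr' (I := {y, y'})
    (by
      intro x hx
      rcases mem_insert.1 hx with hx | hx
      · rw [hx]
        exact hy
      · rw [mem_singleton.1 hx]
        exact hy')
    ⟨y, mem_insert_self y _⟩ (by
      intro x hx z hz hxz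
      rcases mem_insert.1 hx with hx | hx
      · rcases mem_insert.1 hz with hz | hz
        · rw [hx, hz] at hxz
          exact G.irrefl hxz
        · rw [hx, mem_singleton.1 hz] at hxz
          exact hn hxz
      · rcases mem_insert.1 hz with hz | hz
        · rw [mem_singleton.1 hx, hz] at hxz
          exact hn hxz.symm
        · rw [mem_singleton.1 hx, mem_singleton.1 hz] at hxz
          exact G.irrefl hxz)
  have h1 : ψ y = i := (hi y hy).2 (mem_insert_self y _)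
  have h2 : ψ y' = i := (hi y' hy').2 (mem_insert_of_mem (mem_singleton_self y'))
  exact tight_inj ih hN h hψ hv hy hy' hne (h1.trans h2.symm)

end Pool.Agent.O3
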