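import Pool.Agent.Lib_helper92.O3.B.Ob
import Pool.Agent.Lib_helper92.O3.B.Oc
import Pool.Agent.Lib_helper92.O3.B.Xf
import Pool.Agent.Lib_helper92.O3.B.Nc
import Pool.Agent.Lib_helper92.O3.B.Sb

set_option autoImplicit false
set_option linter.unusedSectionVars false
set_option linter.unusedVariables false

open scoped Classical
open Finset
open Pool.Agent.O2 (PC Cb CrOn pr ms dg nd Joined)

namespace Pool.Agent.O3

variable {V : Type}

theorem Td_non {G : SimpleGraph V} {W : Finset V} {a b c v : V} (ha : a ∈ W) (hb : b ∈ W)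
    (hc : c ∈ W) (hi : Ind3 G a b c) : Non G (W.erase v) := by
  obtain ⟨hab, hac, hbc, h1, h2, h3⟩ := hi
  by_cases hva : a = v
  · subst hva
    exact ⟨b, mem_erase.2 ⟨Ne.symm hab, hb⟩, c, mem_erase.2 ⟨Ne.symm hac, hc⟩, hbc, h3⟩
  · by_cases hvb : b = v
    · subst hvb
      exact ⟨a, mem_erase.2 ⟨hab, ha⟩, c, mem_erase.2 ⟨Ne.symm hbc, hc⟩, hac, h2⟩
    · exact ⟨a, mem_erase.2 ⟨hva, ha⟩, b, mem_erase.2 ⟨hvb, hb⟩, hab, h1⟩

theorem tight_cls {N K : ℕ} {G : SimpleGraph V} {S W : Finset V} {a b c v : V}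
    {ψ : V → Fin K} (ih : IH N) (hN : S.card ≤ N) (h : Tight G S W K a b c) (hv : v ∈ W)
    (hd : dg G (S \ W) v + 1 = K) (hψ : PC G (S \ W.erase v) ψ) :
    sur G (S \ W.erase v) ψ (W.erase v) = 0 ∧ ∀ i : Fin K,
      (∀ u ∈ W.erase v, i ∈ hit G (S \ W.erase v) ψ u) ∨
      ((W.erase v).filter fun u => i ∈ hit G (S \ W.erase v) ψ u).card ≤ 1 ∨
      ∀ u ∈ W.erase v, i ∈ hit G (S \ W.erase v) ψ u ↔ nd G (W.erase v) u = 1 := by
  have hw3 : 3 ≤ W.card := by
    obtain ⟨hab, hac, hbc, h1, h2, h3⟩ := h.ind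
    have h4 : ({a, b, c} : Finset V) ⊆ W := by
      intro x hx
      simp only [mem_insert, mem_singleton] at hx
      rcases hx with rfl | rfl | rfl
      · exact h.ha
      · exact h.hb
      · exact h.hc
    have h5 : ({a, b, c} : Finset V).card = 3 := by
      rw [card_insert_of_notMem, card_insert_of_notMem, card_singleton]
      · simpa using hbc
      · simp [hab, hac]
    have h6 := card_le_card h4
    omega
  have hnon : Non G (W.erase v) := Td_non h.ha h.hb h.hc h.ind
  have hsub : W.erase v ⊆ S := (erase_subset v W).trans h.sub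
  have hcW : (W.erase v).card + 1 = W.card := card_erase_add_one hv
  have hfe := ff_erase (G := G) K h.sub hv
  have hsm := h.small
  have hbig := h.big
  have hthree := h.three
  obtain ⟨W1, hW1⟩ : ∃ W1 : Finset V, W.erase v = W1 := ⟨_, rfl⟩
  have hRsub : S \ W ⊆ S \ W1 := by
    rw [← hW1]
    exact sdiff_subset_sdiff Subset.rfl (erase_subset v W)
  rw [hW1] at hnon hsub hcW hfe hψ ⊢
  have hdz : (dg G (S \ W) v : ℤ) + 1 = K := by exact_mod_cast hd
  have hcz : ((W1.card : ℤ)) + 1 = W.card := by exact_mod_cast hcW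
  have hf1 : ff G S K W1 ≤ (W1.card : ℤ) - 2 := by linarith
  have hR : K + 1 ≤ (S \ W1).card := by
    have := card_le_card hRsub
    omega
  have hE := out2 ih hN hthree h.cr hsub hR hψ hnon hf1
  obtain ⟨Z1, hz1, hz2, hJ, hcard, hff⟩ := e2jay hsub hE (by omega)
  have hsur : 0 ≤ sur G (S \ W1) ψ W1 := by
    unfold sur
    apply sum_nonneg
    intro u _
    have h2 := hit_card_le G (S \ W1) ψ u
    have h3 : ((hit G (S \ W1) ψ u).card : ℤ) ≤ dg G (S \ W1) u := by exact_mod_cast h2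
    linarith
  have hcu : (uni (W1.map ⟨Sum.inl, Sum.inl_injective⟩)
      (Z1.map ⟨Sum.inr, Sum.inr_injective⟩) : Finset (V ⊕ Fin K)).card = W1.card + Z1.card := by
    rw [disjSum_eq, card_disjSum]
  have hZK : Z1.card ≤ K := by
    have h1 := card_le_univ Z1
    rwa [Fintype.card_fin] at h1
  have hS1 : (S \ W1).card + W1.card = S.card := card_sdiff_add_card_eq_card hsub
  have hlt : (uni (W1.map ⟨Sum.inl, Sum.inl_injective⟩)
      (Z1.map ⟨Sum.inr, Sum.inr_injective⟩) : Finset (V ⊕ Fin K)).card < N := by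
    rw [hcu]; omega
  have hmc : (W1.map ⟨Sum.inl, Sum.inl_injective⟩ : Finset (V ⊕ Fin K)).card = W1.card :=
    card_map _
  have htwo := hJ.two
  have hnum := e2num ih hJ hlt
  rw [hmc] at hnum
  rcases hnum with ⟨hw1, hlow⟩ | ⟨hw1, hlow⟩ | ⟨hw1, hlow⟩
  · have hw1z : (W1.card : ℤ) = Z1.card + 1 := by exact_mod_cast hw1
    have hw3' : (3 : ℤ) ≤ W1.card := by
      have : 3 ≤ W1.card := by omega
      exact_mod_cast this
    have hs0 : sur G (S \ W1) ψ W1 = 0 := by linarith
    have hfJ := hff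
    rw [hs0, add_zero] at hfJ
    refine ⟨hs0, ?_⟩
    have h6 := p6_all ih _ hlt.le
    have hl5 := lem5 ih hJ hlt h6 (by rw [hmc]; exact hw1)
    rw [hmc, ← hfJ] at hl5
    obtain ⟨ht3, -, hnn⟩ := hl5
    have hnt : ¬ Tri (con G (S \ W1) ψ) (W1.map ⟨Sum.inl, Sum.inl_injective⟩) := by
      intro ht
      have h7 := ht3 ht
      have h8 := eb_tri ht
      have h9 := eb_le_ff hJ.cr (W := W1.map ⟨Sum.inl, Sum.inl_injective⟩) (by
        intro x hx
        exact mem_uni.2 (Or.inl hx))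
      rw [← hfJ] at h9
      have h10 : (3 : ℤ) ≤ eb (con G (S \ W1) ψ) (W1.map ⟨Sum.inl, Sum.inl_injective⟩) := by
        exact_mod_cast h8
      linarith
    have hnice : Nice (con G (S \ W1) ψ) (Z1.map ⟨Sum.inr, Sum.inr_injective⟩)
        (W1.map ⟨Sum.inl, Sum.inl_injective⟩) := by
      by_contra hc
      obtain ⟨h7, h8⟩ := hnn hc
      rcases h8 with h8 | h8
      · linarith
      · have h9 : (4 : ℤ) ≤ W1.card := by exact_mod_cast h8
        linarith
    have hnonc : Non (con G (S \ W1) ψ) (W1.map ⟨Sum.inl, Sum.inl_injective⟩) := by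
      rw [← eb_non, eb_con_inl, eb_non]
      exact hnon
    have hn2 := nice2 hJ (by rw [hmc]; exact hw1) hnice hnt hnonc (by
      rw [hmc, ← hfJ]; exact hf1)
    intro i
    by_cases hi : i ∈ Z1
    · have h11 := hn2.2 (Sum.inr i) (mem_map.2 ⟨i, hi, rfl⟩)
      rcases h11 with h11 | h11
      · right; left
        rw [dg_con_inr'] at h11
        exact h11
      · right; right
        intro u hu
        have h12 := h11 (Sum.inl u) (mem_map.2 ⟨u, hu, rfl⟩)
        rw [nd_con_inl] at h12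
        exact h12
    · left
      exact hz1 i hi
  · exfalso
    have hw4 : (4 : ℤ) ≤ W1.card := by
      have : 4 ≤ W1.card := by omega
      exact_mod_cast this
    linarith
  · exfalso
    have hw4 : (4 : ℤ) ≤ W1.card := by
      have : 4 ≤ W1.card := by omega
      exact_mod_cast this
    linarith

end Pool.Agent.O3
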