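import Pool.Agent.Lib_helper92.O3.B.Tc
import Pool.Agent.Lib_helper92.O3.B.Td

set_option autoImplicit false
set_option linter.unusedSectionVars false
set_option linter.unusedVariables false

open scoped Classical
open Finset
open Pool.Agent.O2 (PC Cb CrOn pr ms dg nd Joined)

namespace Pool.Agent.O3

variable {V : Type}

/-- no surplus: at most one neighbour in each class -/
theorem Te_inj {K : ℕ} {G : SimpleGraph V} {R W : Finset V} {ψ : V → Fin K}
    (h : sur G R ψ W = 0) {u y y' : V} (hu : u ∈ W) (hy : y ∈ R) (hy' : y' ∈ R)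
    (hne : y ≠ y') (he : ψ y = ψ y') : ¬ (G.Adj u y ∧ G.Adj u y') := by
  rintro ⟨h1, h2⟩
  unfold sur at h
  have h3 : ∀ v ∈ W, (0 : ℤ) ≤ (dg G R v : ℤ) - (hit G R ψ v).card := by
    intro v _
    have h4 := hit_card_le G R ψ v
    have h5 : ((hit G R ψ v).card : ℤ) ≤ (dg G R v : ℤ) := by exact_mod_cast h4
    linarith
  have h4 := (sum_eq_zero_iff_of_nonneg h3).1 h u hu
  have h5 : (hit G R ψ u).card = dg G R u := by
    have h6 : ((hit G R ψ u).card : ℤ) = (dg G R u : ℤ) := by linarith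
    exact_mod_cast h6
  have h6 : hit G R ψ u = (R.filter fun y => G.Adj u y).image ψ := by
    ext i
    unfold hit
    simp only [mem_filter, mem_univ, true_and, mem_image]
    constructor
    · rintro ⟨z, hz, hzi, hz'⟩
      exact ⟨z, ⟨hz, hz'⟩, hzi⟩
    · rintro ⟨z, ⟨hz, hz'⟩, hzi⟩
      exact ⟨z, hz, hzi, hz'⟩
  have h7 : ((R.filter fun y => G.Adj u y).image ψ).card =
      (R.filter fun y => G.Adj u y).card := by
    rw [← h6, h5]
    rfl
  have h8 := card_image_iff.1 h7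
  exact hne (h8 (mem_coe.2 (mem_filter.2 ⟨hy, h1⟩)) (mem_coe.2 (mem_filter.2 ⟨hy', h2⟩)) he)

/-- what the class of `{y, v}` does -/
theorem Te_one {N K : ℕ} {G : SimpleGraph V} {S W : Finset V} {a b c v : V}
    (ih : IH N) (hN : S.card ≤ N) (h : Tight G S W K a b c) (hv : v ∈ W)
    (hd : dg G (S \ W) v + 1 = K) {y : V} (hy : y ∈ S \ W) (hvy : ¬ G.Adj v y) :
    (∀ u ∈ W.erase v, ¬ (G.Adj u y ∧ G.Adj u v)) ∧
    ((∀ u ∈ W.erase v, G.Adj u y ∨ G.Adj u v) ∨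
      (∀ u ∈ W.erase v, ∀ u' ∈ W.erase v, (G.Adj u y ∨ G.Adj u v) → (G.Adj u' y ∨ G.Adj u' v) →
        u = u') ∨
      ∀ u ∈ W.erase v, (G.Adj u y ∨ G.Adj u v) ↔ nd G (W.erase v) u = 1) := by
  have hK : 1 ≤ K := by omega
  have hyv : y ≠ v := by
    rintro rfl
    exact (mem_sdiff.1 hy).2 hv
  obtain ⟨ψ, hψ, i, hi⟩ := psi_cls (I := {y}) hK h.cr' (singleton_subset_iff.2 hy)
    (singleton_nonempty y) (by
      intro x hx x' hx'
      rw [mem_singleton] at hx hx'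
      subst hx
      subst hx'
      exact G.irrefl)
  let φ : V → Fin K := fun u => if u = v then i else ψ u
  have hmem : ∀ x, x ∈ S \ W.erase v ↔ x = v ∨ x ∈ S \ W := by
    intro x
    simp only [mem_sdiff, mem_erase, not_and]
    constructor
    · rintro ⟨h1, h2⟩
      by_cases hx : x = v
      · exact Or.inl hx
      · exact Or.inr ⟨h1, h2 hx⟩
    · rintro (rfl | ⟨h1, h2⟩)
      · exact ⟨h.sub hv, fun h3 => absurd rfl h3⟩
      · exact ⟨h1, fun _ => h2⟩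
  have hnv : ∀ x ∈ S \ W, x ≠ v := by
    rintro x hx rfl
    exact (mem_sdiff.1 hx).2 hv
  have hφv : φ v = i := if_pos rfl
  have hφ : ∀ x ∈ S \ W, φ x = ψ x := fun x hx => if_neg (hnv x hx)
  have hφi : ∀ x ∈ S \ W, φ x = i ↔ x = y := by
    intro x hx
    rw [hφ x hx, hi x hx, mem_singleton]
  have hPC : PC G (S \ W.erase v) φ := by
    intro x hx x' hx' hxx'
    rcases (hmem x).1 hx with rfl | hx1 <;> rcases (hmem x').1 hx' with rfl | hx1'
    · exact absurd hxx' G.irrefl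
    · rw [hφv]
      intro h1
      have h2 := (hφi x' hx1').1 h1.symm
      subst h2
      exact hvy hxx'
    · rw [hφv]
      intro h1
      have h2 := (hφi x hx1).1 h1
      subst h2
      exact hvy hxx'.symm
    · rw [hφ x hx1, hφ x' hx1']
      exact hψ x hx1 x' hx1' hxx'
  obtain ⟨hs, hcl⟩ := tight_cls ih hN h hv hd hPC
  have hyR : y ∈ S \ W.erase v := (hmem y).2 (Or.inr hy)
  have hvR : v ∈ S \ W.erase v := (hmem v).2 (Or.inl rfl)
  have hhit : ∀ u, i ∈ hit G (S \ W.erase v) φ u ↔ G.Adj u y ∨ G.Adj u v := by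
    intro u
    unfold hit
    simp only [mem_filter, mem_univ, true_and]
    constructor
    · rintro ⟨x, hx, hxi, hux⟩
      rcases (hmem x).1 hx with rfl | hx1
      · exact Or.inr hux
      · have h2 := (hφi x hx1).1 hxi
        subst h2
        exact Or.inl hux
    · rintro (h1 | h1)
      · exact ⟨y, hyR, (hφi y hy).2 rfl, h1⟩
      · exact ⟨v, hvR, hφv, h1⟩
  refine ⟨fun u hu => Te_inj hs hu hyR hvR hyv (by rw [hφv]; exact (hφi y hy).2 rfl), ?_⟩
  rcases hcl i with h1 | h1 | h1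
  · exact Or.inl fun u hu => (hhit u).1 (h1 u hu)
  · refine Or.inr (Or.inl fun u hu u' hu' h2 h3 => ?_)
    exact card_le_one.1 h1 u (mem_filter.2 ⟨hu, (hhit u).2 h2⟩) u'
      (mem_filter.2 ⟨hu', (hhit u').2 h3⟩)
  · exact Or.inr (Or.inr fun u hu => (hhit u).symm.trans (h1 u hu))

theorem tight_no {N K : ℕ} {G : SimpleGraph V} {S W : Finset V} {a b c v : V}
    (ih : IH N) (hN : S.card ≤ N) (h : Tight G S W K a b c) (hv : v ∈ W) :
    dg G (S \ W) v + 1 ≠ K := by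
  intro hd
  have hbig := h.big
  have hcl : Clq G ((S \ W).filter fun y => G.Adj v y) := by
    intro x hx x' hx' hne
    by_contra hn
    obtain ⟨h1, h2⟩ := mem_filter.1 hx
    obtain ⟨h3, h4⟩ := mem_filter.1 hx'
    exact tight_dis ih hN h hv h1 h3 hne hn ⟨h2, h4⟩
  have hcard : ((S \ W).filter fun y => G.Adj v y).card = K - 1 := by
    have h1 : dg G (S \ W) v = ((S \ W).filter fun y => G.Adj v y).card := rfl
    omega
  obtain ⟨y1, hy1, y2, hy2, hne, hn⟩ := two_clq h.cr' (by omega) (filter_subset _ _) hcl hcard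
  obtain ⟨hy1, h1v⟩ := mem_sdiff.1 hy1
  obtain ⟨hy2, h2v⟩ := mem_sdiff.1 hy2
  have h1v : ¬ G.Adj v y1 := fun h1 => h1v (mem_filter.2 ⟨hy1, h1⟩)
  have h2v : ¬ G.Adj v y2 := fun h1 => h2v (mem_filter.2 ⟨hy2, h1⟩)
  -- a neighbour of `v` in `W`
  obtain ⟨u0, hu0, hu0v⟩ : ∃ u ∈ W.erase v, G.Adj u v := by
    have h1 : K ≤ dg G S v := h.cr.dg_ge (h.sub hv)
    have h2 : dg G S v = dg G (S \ W) v + dg G W v := by
      rw [← Pool.Agent.O2.dg_union sdiff_disjoint]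
      congr 1
      exact (sdiff_union_of_subset h.sub).symm
    have h3 : 0 < (W.filter fun y => G.Adj v y).card := by
      have h4 : dg G W v = (W.filter fun y => G.Adj v y).card := rfl
      omega
    obtain ⟨u, hu⟩ := card_pos.1 h3
    obtain ⟨hu1, hu2⟩ := mem_filter.1 hu
    exact ⟨u, mem_erase.2 ⟨hu2.ne', hu1⟩, hu2.symm⟩
  obtain ⟨u1, hu1, hu1y⟩ := tight_nbr ih hN h hy1
  obtain ⟨u2, hu2, hu2y⟩ := tight_nbr ih hN h hy2
  have hu1v : u1 ≠ v := by
    rintro rfl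
    exact h1v hu1y
  have hu2v : u2 ≠ v := by
    rintro rfl
    exact h2v hu2y
  have hu1e : u1 ∈ W.erase v := mem_erase.2 ⟨hu1v, hu1⟩
  have hu2e : u2 ∈ W.erase v := mem_erase.2 ⟨hu2v, hu2⟩
  obtain ⟨hA1, hB1⟩ := Te_one ih hN h hv hd hy1 h1v
  obtain ⟨hA2, hB2⟩ := Te_one ih hN h hv hd hy2 h2v
  have hn1 : ¬ (G.Adj u1 y2 ∨ G.Adj u1 v) := by
    rintro (h1 | h1)
    · exact tight_dis ih hN h hu1 hy1 hy2 hne hn ⟨hu1y, h1⟩
    · exact hA1 u1 hu1e ⟨hu1y, h1⟩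
  have hn2 : ¬ (G.Adj u2 y1 ∨ G.Adj u2 v) := by
    rintro (h1 | h1)
    · exact tight_dis ih hN h hu2 hy1 hy2 hne hn ⟨h1, hu2y⟩
    · exact hA2 u2 hu2e ⟨hu2y, h1⟩
  have hne1 : u1 ≠ u0 := by
    rintro rfl
    exact hn1 (Or.inr hu0v)
  have hne2 : u2 ≠ u0 := by
    rintro rfl
    exact hn2 (Or.inr hu0v)
  rcases hB1 with h3 | h3 | h3
  · exact hn2 (h3 u2 hu2e)
  · exact hne1 (h3 u1 hu1e u0 hu0 (Or.inl hu1y) (Or.inr hu0v))
  · rcases hB2 with h4 | h4 | h4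
    · exact hn1 (h4 u1 hu1e)
    · exact hne2 (h4 u2 hu2e u0 hu0 (Or.inl hu2y) (Or.inr hu0v))
    · exact hn1 ((h4 u1 hu1e).2 ((h3 u1 hu1e).1 (Or.inl hu1y)))

end Pool.Agent.O3
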