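import Pool.Agent.Lib_helper92.O3.B.Ja

set_option autoImplicit false
set_option linter.unusedSectionVars false
set_option linter.unusedVariables false

open scoped Classical
open Finset
open Pool.Agent.O2 (PC Cb CrOn pr ms dg nd Joined)

namespace Pool.Agent.O3

variable {V : Type}

theorem nnB {q : ℕ} {G : SimpleGraph V} {Z W S' : Finset V} {a b z : V} (h : Jay G q Z W)
    (hc : Com G Z W a b z) (hS : S' ⊆ (uni W Z) \ {a, b, z}) (hcr : CrOn G S' (q - 1))
    (he : S'.card = q) : ∃ A B, Cfg G Z W a b z A B := by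
  have hq := h.two
  obtain ⟨-, h0, -⟩ := Pool.Agent.O2.gallai S' (q - 1) 0 hcr (by omega)
  have hms : ms G S' = 0 := h0 rfl
  have heb : eb G S' = 0 := by
    unfold eb
    rw [hms]
  have hclq : Clq G S' := eb_clq.1 heb
  have hmem : ∀ v ∈ S', (v ∈ W ∨ v ∈ Z) ∧ v ≠ a ∧ v ≠ b ∧ v ≠ z := by
    intro v hv
    obtain ⟨h1, h2⟩ := mem_sdiff.1 (hS hv)
    refine ⟨mem_uni.1 h1, ?_, ?_, ?_⟩
    · rintro rfl
      exact h2 (by simp)
    · rintro rfl
      exact h2 (by simp)
    · rintro rfl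
      exact h2 (by simp)
  refine ⟨Z \ S', S' \ Z, ?_⟩
  constructor
  · intro v hv
    obtain ⟨h1, h2⟩ := mem_sdiff.1 hv
    exact (hmem v h1).1.resolve_right h2
  · exact sdiff_subset
  · intro h1
    exact (hmem a (mem_sdiff.1 h1).1).2.1 rfl
  · intro h1
    exact (hmem b (mem_sdiff.1 h1).1).2.2.1 rfl
  · exact mem_sdiff.2 ⟨hc.hz, fun h1 => (hmem z h1).2.2.2 rfl⟩
  · intro x hx y hy hxy
    exact hclq x (mem_sdiff.1 hx).1 y (mem_sdiff.1 hy).1 hxy
  · have h1 : (S' \ Z).card + (S' ∩ Z).card = S'.card := card_sdiff_add_card_inter S' Z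
    have h2 : (Z \ S').card + (Z ∩ S').card = Z.card := card_sdiff_add_card_inter Z S'
    have h3 : S' ∩ Z = Z ∩ S' := inter_comm S' Z
    have h4 := h.card
    rw [h3] at h1
    omega
  · intro v hv u hu hu'
    obtain ⟨h1, h2⟩ := mem_sdiff.1 hv
    have h3 : u ∈ S' := by
      by_contra h4
      exact hu' (mem_sdiff.2 ⟨hu, h4⟩)
    refine hclq v h1 u h3 ?_
    rintro rfl
    exact h2 hu

end Pool.Agent.O3
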