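import Pool.Agent.Lib_helper92.O3.B.Ja
import Pool.Agent.Lib_helper92.O3.B.La

set_option autoImplicit false
set_option linter.unusedSectionVars false
set_option linter.unusedVariables false

open scoped Classical
open Finset
open Pool.Agent.O2 (PC Cb CrOn pr ms dg nd Joined)

namespace Pool.Agent.O3

variable {V : Type}

theorem nnC {N q : ℕ} {G : SimpleGraph V} {Z W A B : Finset V} {a b z : V} (ih : IH N)
    (h : Jay G q Z W) (hN : (uni W Z).card < N) (hw : W.card = q + 1 ∨ W.card = q + 2)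
    (hc : Com G Z W a b z) (hC : Cfg G Z W a b z A B) :
    ((B.card : ℤ) + 1) * (W.card - 1 - B.card) - 1 ≤ ff G (uni W Z) q W := by
  have h2 := h.two
  have hcard : (uni W Z).card = W.card + q := by
    unfold uni
    rw [card_union_of_disjoint h.dis, h.card]
  have hB1 : 1 ≤ B.card := by
    rw [hC.card]
    exact card_pos.2 ⟨z, hC.hz⟩
  have hBW : B.card ≤ W.card := card_le_card hC.hB
  have hl := lem2 (W := W \ B) ih hN.le (by omega) h.cr
    (fun v hv => mem_uni.2 (Or.inl (mem_sdiff.1 hv).1)) (by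
      have h3 : Z ∪ B ⊆ (uni W Z) \ (W \ B) := by
        intro v hv
        rcases mem_union.1 hv with hv | hv
        · exact mem_sdiff.2 ⟨mem_uni.2 (Or.inr hv), fun hv' =>
            disjoint_left.1 h.dis (mem_sdiff.1 hv').1 hv⟩
        · exact mem_sdiff.2 ⟨mem_uni.2 (Or.inl (hC.hB hv)), fun hv' => (mem_sdiff.1 hv').2 hv⟩
      have h4 := card_le_card h3
      rw [card_union_of_disjoint (disjoint_left.2 fun v hv hv' =>
        disjoint_left.1 h.dis (hC.hB hv') hv), h.card] at h4
      omega)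
    ⟨a, mem_sdiff.2 ⟨hc.ha, hC.ha⟩, b, mem_sdiff.2 ⟨hc.hb, hC.hb⟩, hc.ne, hc.ab⟩
  have hj := jay_clq h hC.hB hC.clq
  have hs : (B.card : ℤ) * ((W.card : ℤ) - 1 - B.card) ≤
      ∑ b ∈ B, ((W.card : ℤ) - 1 - (Ls G Z b).card) := by
    rw [← nsmul_eq_mul, ← sum_const]
    refine sum_le_sum fun v hv => ?_
    have h5 : (Ls G Z v).card ≤ B.card := by
      rw [hC.card]
      apply card_le_card
      intro u hu
      unfold Ls at hu
      obtain ⟨hu1, hu2⟩ := mem_filter.1 hu
      by_contra hA
      exact hu2 (hC.adj v hv u hu1 hA)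
    have h6 : ((Ls G Z v).card : ℤ) ≤ B.card := by exact_mod_cast h5
    linarith
  have hcs : ((W \ B).card : ℤ) = W.card - B.card := by
    rw [card_sdiff_of_subset hC.hB]
    push_cast [hBW]
    ring
  rw [hcs] at hl
  rw [hj]
  linarith

end Pool.Agent.O3
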