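import Pool.Agent.Lib_helper92.O3.B.Ja

set_option autoImplicit false
set_option linter.unusedSectionVars false
set_option linter.unusedVariables false

open scoped Classical
open Finset
open Pool.Agent.O2 (PC Cb CrOn pr ms dg nd Joined)

namespace Pool.Agent.O3

variable {V : Type}

/-- in a critical set the non-neighbours of a vertex are not an independent set -/
theorem Xd_aux {G : SimpleGraph V} {S : Finset V} {K : ℕ} (h : CrOn G S K) {y x : V} (hy : y ∈ S)
    (hx : x ∈ S) (hxy : x ≠ y) (hnx : ¬ G.Adj x y)
    (hind : ∀ u ∈ S, ∀ v ∈ S, ¬ G.Adj u y → ¬ G.Adj v y → ¬ G.Adj u v) : False := by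
  obtain ⟨φ, h1, h2⟩ := h.2 x hx
  apply h.1
  have hyx : y ∈ S.erase x := mem_erase.2 ⟨fun e => hxy e.symm, hy⟩
  have hmem : ∀ v ∈ S, G.Adj v y → v ∈ S.erase x := fun v hv hvy =>
    mem_erase.2 ⟨fun e => hnx (by rw [← e]; exact hvy), hv⟩
  refine ⟨fun v => if G.Adj v y then φ v else φ y, ?_, ?_⟩
  · intro v hv
    by_cases hvy : G.Adj v y
    · simp only [hvy, if_true]; exact h1 v (hmem v hv hvy)
    · simp only [hvy, if_false]; exact h1 y hyx
  · intro u hu v hv huv
    by_cases huy : G.Adj u y <;> by_cases hvy : G.Adj v y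
    · simp only [huy, hvy, if_true]; exact h2 u (hmem u hu huy) v (hmem v hv hvy) huv
    · simp only [huy, hvy, if_true, if_false]; exact h2 u (hmem u hu huy) y hyx huy
    · simp only [huy, hvy, if_true, if_false]
      exact fun e => h2 v (hmem v hv hvy) y hyx hvy e.symm
    · exact absurd huv (hind u hu v hv huy hvy)

theorem nnD {q : ℕ} {G : SimpleGraph V} {Z W A B : Finset V} {a b z : V} (h : Jay G q Z W)
    (hw : W.card = q + 1) (hc : Com G Z W a b z) (hC : Cfg G Z W a b z A B)
    (hB : B.card + 2 = W.card) : False := by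
  -- the vertex of `Z` outside `A`
  have hA : A.card < Z.card := by rw [← hC.card, h.card]; omega
  obtain ⟨y, hyZ, hyA⟩ := exists_mem_notMem_of_card_lt_card hA
  have hyW : y ∉ W := fun hyW => disjoint_left.1 h.dis hyW hyZ
  -- a non-neighbour of it
  obtain ⟨x, hxW, hxy⟩ : ∃ x ∈ W, ¬ G.Adj y x := by
    by_contra hcon
    push Not at hcon
    have h1 := (jay_dz h hyZ).2
    have h2 : dg G W y = W.card := by
      unfold dg
      rw [filter_true_of_mem hcon]
    omega
  -- the shape of `W`
  have hWeq : insert a (insert b B) = W := by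
    apply eq_of_subset_of_card_le
    · intro v hv
      rcases mem_insert.1 hv with rfl | hv
      · exact hc.ha
      rcases mem_insert.1 hv with rfl | hv
      · exact hc.hb
      · exact hC.hB hv
    · rw [card_insert_of_notMem (fun hab => ?_), card_insert_of_notMem hC.hb, ← hB]
      rcases mem_insert.1 hab with hab | hab
      · exact hc.ne hab
      · exact hC.ha hab
  have hkey : ∀ u ∈ uni W Z, ¬ G.Adj u y → u = y ∨ u = a ∨ u = b := by
    intro u hu huy
    rcases mem_uni.1 hu with hu | hu
    · rw [← hWeq] at hu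
      rcases mem_insert.1 hu with hu | hu
      · exact Or.inr (Or.inl hu)
      rcases mem_insert.1 hu with hu | hu
      · exact Or.inr (Or.inr hu)
      · exact absurd (hC.adj u hu y hyZ hyA) huy
    · by_contra hcon
      exact huy (h.clq u hu y hyZ (fun e => hcon (Or.inl e)))
  refine Xd_aux h.cr (y := y) (x := x) (mem_uni.2 (Or.inr hyZ)) (mem_uni.2 (Or.inl hxW))
    (fun e => hyW (by rw [← e]; exact hxW)) (fun e => hxy e.symm) ?_
  intro u hu v hv huy hvy huv
  rcases hkey u hu huy with rfl | hu1
  · exact hvy huv.symm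
  rcases hkey v hv hvy with rfl | hv1
  · exact huy huv
  rcases hu1 with rfl | rfl <;> rcases hv1 with rfl | rfl
  · exact G.irrefl huv
  · exact hc.ab huv
  · exact hc.ab huv.symm
  · exact G.irrefl huv

end Pool.Agent.O3
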