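import Pool.Agent.Lib_helper92.O3.B.Xa
import Pool.Agent.Lib_helper92.O3.B.Xb
import Pool.Agent.Lib_helper92.O3.B.Xc
import Pool.Agent.Lib_helper92.O3.B.Xd
import Pool.Agent.Lib_helper92.O3.B.Jb

set_option autoImplicit false
set_option linter.unusedSectionVars false
set_option linter.unusedVariables false

open scoped Classical
open Finset
open Pool.Agent.O2 (PC Cb CrOn pr ms dg nd Joined)

namespace Pool.Agent.O3

variable {V : Type}

theorem nn {N q : ℕ} {G : SimpleGraph V} {Z W : Finset V} {a b z : V} (ih : IH N)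
    (h : Jay G q Z W) (hN : (uni W Z).card < N) (h6 : P6 (uni W Z).card)
    (hw : W.card = q + 1 ∨ W.card = q + 2) (hc : Com G Z W a b z) :
    2 * (W.card : ℤ) - 4 ≤ ff G (uni W Z) q W ∨
    (2 * (W.card : ℤ) - 5 ≤ ff G (uni W Z) q W ∧ ∃ A B, Cfg G Z W a b z A B ∧
      (B.card = 1 ∨ B.card + 3 = W.card ∨ B.card + 2 = W.card) ∧ 1 ≤ B.card ∧
      (W.card = q + 1 → B.card + 3 ≤ W.card)) := by
  have h2 := h.two
  have hsub : ({a, b, z} : Finset V) ⊆ uni W Z := by
    intro x hx
    simp only [mem_insert, mem_singleton] at hx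
    rcases hx with rfl | rfl | rfl
    · exact mem_uni.2 (Or.inl hc.ha)
    · exact mem_uni.2 (Or.inl hc.hb)
    · exact mem_uni.2 (Or.inr hc.hz)
  have hba : ¬ G.Adj b a := fun e => hc.ab e.symm
  have hza : ¬ G.Adj z a := fun e => hc.az e.symm
  have hzb : ¬ G.Adj z b := fun e => hc.bz e.symm
  have hi : ∀ x ∈ ({a, b, z} : Finset V), ∀ y ∈ ({a, b, z} : Finset V), ¬ G.Adj x y := by
    intro x hx y hy
    simp only [mem_insert, mem_singleton] at hx hy
    rcases hx with rfl | rfl | rfl <;> rcases hy with rfl | rfl | rfl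
    · exact G.irrefl
    · exact hc.ab
    · exact hc.az
    · exact hba
    · exact G.irrefl
    · exact hc.bz
    · exact hza
    · exact hzb
    · exact G.irrefl
  obtain ⟨S', hS, hcr⟩ := rm_ind h.cr.1 (by omega) hsub hi
  by_cases hq : S'.card = q
  · obtain ⟨A, B, hC⟩ := nnB h hc hS hcr hq
    have e1 := nnC ih h hN hw hc hC
    have hβ1 : 1 ≤ B.card := by
      rw [hC.card]
      exact card_pos.2 ⟨z, hC.hz⟩
    have hβ2 : B.card + 2 ≤ W.card := by
      have hd : B ⊆ (W.erase a).erase b := by
        intro x hx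
        refine mem_erase.2 ⟨?_, mem_erase.2 ⟨?_, hC.hB hx⟩⟩
        · rintro rfl; exact hC.hb hx
        · rintro rfl; exact hC.ha hx
      have := card_le_card hd
      rw [card_erase_of_mem (mem_erase.2 ⟨hc.ne.symm, hc.hb⟩), card_erase_of_mem hc.ha] at this
      have hw2 : 1 < W.card := one_lt_card.2 ⟨a, hc.ha, b, hc.hb, hc.ne⟩
      omega
    have hcase : (2 ≤ B.card ∧ B.card + 4 ≤ W.card) ∨
        (B.card = 1 ∨ B.card + 3 = W.card ∨ B.card + 2 = W.card) := by omega
    rcases hcase with ⟨c1, c2⟩ | hcase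
    · left
      have c1' : (2 : ℤ) ≤ B.card := by exact_mod_cast c1
      have c2' : (B.card : ℤ) + 4 ≤ W.card := by exact_mod_cast c2
      nlinarith [mul_nonneg (sub_nonneg.2 c1') (sub_nonneg.2 c2')]
    · right
      have hD : W.card = q + 1 → B.card + 3 ≤ W.card := by
        intro hw1
        by_contra hlt
        have : B.card + 2 = W.card := by omega
        exact nnD h hw1 hc hC this
      refine ⟨?_, A, B, hC, hcase, hβ1, hD⟩
      rcases hw with hw1 | hw2
      · have h3 := hD hw1
        rcases hcase with c | c | c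
        · rw [c] at e1
          push_cast at e1
          linarith
        · have c' : (W.card : ℤ) = B.card + 3 := by exact_mod_cast c.symm
          rw [c'] at e1 ⊢
          nlinarith
        · omega
      · rcases e2num ih h hN with ⟨u, _⟩ | ⟨_, v⟩ | ⟨u, _⟩
        · omega
        · exact v
        · omega
  · left
    exact nnA h hN h6 hw hc hS hcr hq

end Pool.Agent.O3
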