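import Pool.Agent.Lib_helper92.O3.B.Yc
import Pool.Agent.Lib_helper92.O3.B.Xe
import Pool.Agent.Lib_helper92.O3.B.Na

set_option autoImplicit false
set_option linter.unusedSectionVars false
set_option linter.unusedVariables false

open scoped Classical
open Finset
open Pool.Agent.O2 (PC Cb CrOn pr ms dg nd Joined)

namespace Pool.Agent.O3

variable {V : Type}

theorem Yd_key {N q : ℕ} {G : SimpleGraph V} {Z W : Finset V} {a b c z : V} (ih : IH N)
    (h : Jay G q Z W) (hN : (uni W Z).card < N) (h6 : P6 (uni W Z).card) (hw : W.card = q + 1)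
    (hone : NoOne G Z W) (ha : a ∈ W) (hb : b ∈ W) (hc : c ∈ W) (hi : Ind3 G a b c)
    (hf : ff G (uni W Z) q W ≤ 2 * (W.card : ℤ) - 5) (hz : z ∈ Z) (haz : ¬ G.Adj a z)
    (hbz : ¬ G.Adj b z) : False := by
  have hi' := hi
  obtain ⟨hab, hac, hbc, nab, nac, nbc⟩ := hi'
  have hcm : Com G Z W a b z := ⟨ha, hb, hz, hab, nab, haz, hbz⟩
  rcases nn ih h hN h6 (Or.inl hw) hcm with h1 | ⟨h1, A, B, hC, h3, h4, h5⟩
  · omega
  · have h5' := h5 hw
    rcases h3 with h3 | h3 | h3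
    · obtain ⟨v, hv⟩ := Finset.card_eq_one.1 h3
      have hvB : v ∈ B := by rw [hv]; exact Finset.mem_singleton_self v
      have hvW : v ∈ W := hC.hB hvB
      have hsub : Ls G Z v ⊆ A := by
        intro u hu
        unfold Ls at hu
        rw [Finset.mem_filter] at hu
        by_contra huA
        exact hu.2 (hC.adj v hvB u hu.1 huA)
      have hle : (Ls G Z v).card ≤ 1 := by
        have := Finset.card_le_card hsub
        rw [← hC.card, h3] at this
        exact this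
      have hge := (jay_ls h hvW).1
      exact hone v hvW (le_antisymm hle hge)
    · exact cfg3c h hone hi hc hcm hC h3 hf
    · omega

theorem z5 {N q : ℕ} {G : SimpleGraph V} {Z W : Finset V} {a b c : V} (ih : IH N)
    (h : Jay G q Z W) (hN : (uni W Z).card < N) (h6 : P6 (uni W Z).card) (hw : W.card = q + 1)
    (hone : NoOne G Z W) (ha : a ∈ W) (hb : b ∈ W) (hc : c ∈ W) (hi : Ind3 G a b c)
    (hf : ff G (uni W Z) q W ≤ 2 * (W.card : ℤ) - 5) :
    (∀ z ∈ Z, (G.Adj a z ∧ G.Adj b z) ∨ (G.Adj a z ∧ G.Adj c z) ∨ (G.Adj b z ∧ G.Adj c z)) ∧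
    ∀ z ∈ Z, ¬ (G.Adj a z ∧ G.Adj b z ∧ G.Adj c z) := by
  have hi' := hi
  obtain ⟨hab, hac, hbc, nab, nac, nbc⟩ := hi'
  have i2 : Ind3 G a c b := ⟨hac, hab, hbc.symm, nac, nab, fun hh => nbc hh.symm⟩
  have i3 : Ind3 G b c a := ⟨hbc, hab.symm, hac.symm, nbc, fun hh => nab hh.symm,
    fun hh => nac hh.symm⟩
  have key : ∀ z ∈ Z, (G.Adj a z ∧ G.Adj b z) ∨ (G.Adj a z ∧ G.Adj c z) ∨
      (G.Adj b z ∧ G.Adj c z) := by
    intro z hz
    by_cases haz : G.Adj a z
    · by_cases hbz : G.Adj b z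
      · exact Or.inl ⟨haz, hbz⟩
      · by_cases hcz : G.Adj c z
        · exact Or.inr (Or.inl ⟨haz, hcz⟩)
        · exact (Yd_key ih h hN h6 hw hone hb hc ha i3 hf hz hbz hcz).elim
    · by_cases hbz : G.Adj b z
      · by_cases hcz : G.Adj c z
        · exact Or.inr (Or.inr ⟨hbz, hcz⟩)
        · exact (Yd_key ih h hN h6 hw hone ha hc hb i2 hf hz haz hcz).elim
      · exact (Yd_key ih h hN h6 hw hone ha hb hc hi hf hz haz hbz).elim
  refine ⟨key, ?_⟩
  refine (nice3 h ha hb hc hi key).2 ?_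
  have : (W.card : ℤ) = q + 1 := by rw [hw]; push_cast; rfl
  linarith

end Pool.Agent.O3
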