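import Pool.Agent.Lib_helper92.O3.B.Ja

set_option autoImplicit false
set_option linter.unusedSectionVars false
set_option linter.unusedVariables false

open scoped Classical
open Finset
open Pool.Agent.O2 (PC Cb CrOn pr ms dg nd Joined)

namespace Pool.Agent.O3

variable {V : Type}

/-- a map on `W` into `Z` gives a colouring of `W ∪ Z` -/
theorem Yb_col {q : ℕ} {G : SimpleGraph V} {Z W : Finset V} (h : Jay G q Z W) (φ : V → V)
    (h1 : ∀ v ∈ W, φ v ∈ Z) (h2 : ∀ v ∈ W, ¬ G.Adj v (φ v))
    (h3 : ∀ a ∈ W, ∀ b ∈ W, G.Adj a b → φ a ≠ φ b) : False := by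
  refine h.cr.1 ?_
  refine Pool.Agent.O2.cb_image (fun v => if v ∈ Z then v else φ v) ?_ ?_
  · have : (uni W Z).image (fun v => if v ∈ Z then v else φ v) ⊆ Z := by
      intro y hy
      obtain ⟨v, hv, rfl⟩ := mem_image.1 hy
      by_cases hvZ : v ∈ Z
      · simp only [hvZ, if_true]
      · simp only [hvZ, if_false]
        exact h1 v ((mem_uni.1 hv).resolve_right hvZ)
    exact (card_le_card this).trans (le_of_eq h.card)
  · intro a ha b hb hab
    by_cases haZ : a ∈ Z <;> by_cases hbZ : b ∈ Z
    · simp only [haZ, hbZ, if_true]; exact hab.ne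
    · simp only [haZ, hbZ, if_true, if_false]
      intro e
      have hbW := (mem_uni.1 hb).resolve_right hbZ
      exact h2 b hbW (by rw [← e]; exact hab.symm)
    · simp only [haZ, hbZ, if_true, if_false]
      intro e
      have haW := (mem_uni.1 ha).resolve_right haZ
      exact h2 a haW (by rw [e]; exact hab)
    · simp only [haZ, hbZ, if_false]
      exact h3 a ((mem_uni.1 ha).resolve_right haZ) b ((mem_uni.1 hb).resolve_right hbZ) hab

/-- a bijection between two finite sets with the same number of elements, one value prescribed -/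
theorem Yb_bij {α : Type} (X Y : Finset α) (u j : α) (hu : u ∈ X) (hj : j ∈ Y)
    (hc : X.card = Y.card) :
    ∃ f : α → α, (∀ v ∈ X, f v ∈ Y) ∧ (∀ v ∈ X, ∀ w ∈ X, f v = f w → v = w) ∧ f u = j := by
  have hc' : (X.erase u).card = (Y.erase j).card := by
    rw [card_erase_of_mem hu, card_erase_of_mem hj, hc]
  obtain ⟨e⟩ : Nonempty (↥(X.erase u) ≃ ↥(Y.erase j)) :=
    ⟨Finset.equivOfCardEq hc'⟩
  refine ⟨fun v => if hv : v ∈ X.erase u then (e ⟨v, hv⟩ : α) else j, ?_, ?_, ?_⟩
  · intro v hv
    by_cases h : v ∈ X.erase u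
    · simp only [h, dif_pos]
      exact (mem_erase.1 (e ⟨v, h⟩).2).2
    · simp only [h, dif_neg, not_false_iff]
      exact hj
  · intro v hv w hw hvw
    by_cases h : v ∈ X.erase u <;> by_cases h' : w ∈ X.erase u
    · simp only [h, h', dif_pos] at hvw
      have := e.injective (Subtype.ext hvw)
      exact congrArg Subtype.val this
    · simp only [h, h', dif_pos, dif_neg, not_false_iff] at hvw
      exact absurd hvw (mem_erase.1 (e ⟨v, h⟩).2).1
    · simp only [h, h', dif_pos, dif_neg, not_false_iff] at hvw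
      exact absurd hvw.symm (mem_erase.1 (e ⟨w, h'⟩).2).1
    · have e1 : v = u := by
        by_contra hne
        exact h (mem_erase.2 ⟨hne, hv⟩)
      have e2 : w = u := by
        by_contra hne
        exact h' (mem_erase.2 ⟨hne, hw⟩)
      rw [e1, e2]
  · have : u ∉ X.erase u := notMem_erase u X
    simp only [this, dif_neg, not_false_iff]

theorem colr {q : ℕ} {G : SimpleGraph V} {Z W A B : Finset V} {a b c d z : V} (h : Jay G q Z W)
    (hW : W = insert a (insert b (insert c B))) (hd : d ∈ B) (ha : a ∉ B) (hb : b ∉ B)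
    (hcB : c ∉ B) (hca : c ≠ a) (hcb : c ≠ b) (hi : Ind3 G a b d) (hA : A ⊆ Z)
    (hAB : A.card = B.card) (hz : z ∈ A)
    (haz : ¬ G.Adj a z) (hbz : ¬ G.Adj b z) (hB : ∀ v ∈ B, Ls G Z v = A)
    (hcase : (∃ z1 ∈ Z, z1 ∉ A ∧ ¬ G.Adj c z1) ∨
      ∃ u ∈ B, u ≠ d ∧ ¬ G.Adj c u ∧ ∃ j ∈ A, j ≠ z ∧ ¬ G.Adj c j) : False := by
  have hls : ∀ v ∈ B, ∀ y ∈ A, ¬ G.Adj v y := by
    intro v hv y hy
    rw [← hB v hv] at hy
    exact (mem_filter.1 hy).2
  obtain ⟨i1, i2, i3, i4, i5, i6⟩ := hi
  -- in both cases: f on B.erase d into A.erase z, value k for c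
  have hmain : ∀ (f : V → V) (k : V), (∀ v ∈ B.erase d, f v ∈ A.erase z) →
      (∀ v ∈ B.erase d, ∀ w ∈ B.erase d, f v = f w → v = w) → k ∈ Z → k ≠ z →
      ¬ G.Adj c k → (∀ v ∈ B.erase d, G.Adj c v → k ≠ f v) → False := by
    intro f k f1 f2 hk hkz hck hcv
    have hda : d ≠ a := fun e => ha (e ▸ hd)
    have hdb : d ≠ b := fun e => hb (e ▸ hd)
    have hdc : d ≠ c := fun e => hcB (e ▸ hd)
    refine Yb_col h (fun v => if v = a ∨ v = b ∨ v = d then z else if v = c then k else f v)
      ?_ ?_ ?_
    · intro v hv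
      by_cases h1 : v = a ∨ v = b ∨ v = d
      · simp only [h1, if_true]; exact hA hz
      · simp only [h1, if_false]
        by_cases h2 : v = c
        · simp only [h2, if_true]; exact hk
        · simp only [h2, if_false]
          have hvB : v ∈ B := by
            rw [hW] at hv
            simp only [mem_insert] at hv
            tauto
          exact hA (mem_of_mem_erase (f1 v (mem_erase.2 ⟨by tauto, hvB⟩)))
    · intro v hv
      by_cases h1 : v = a ∨ v = b ∨ v = d
      · simp only [h1, if_true]
        rcases h1 with rfl | rfl | rfl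
        · exact haz
        · exact hbz
        · exact hls _ hd _ hz
      · simp only [h1, if_false]
        by_cases h2 : v = c
        · simp only [h2, if_true]; exact hck
        · simp only [h2, if_false]
          have hvB : v ∈ B := by
            rw [hW] at hv
            simp only [mem_insert] at hv
            tauto
          exact hls v hvB _ (mem_of_mem_erase (f1 v (mem_erase.2 ⟨by tauto, hvB⟩)))
    · intro v hv w hw hvw
      have hB' : ∀ x ∈ W, ¬ (x = a ∨ x = b ∨ x = d) → x ≠ c → x ∈ B.erase d := by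
        intro x hx h1 h2
        rw [hW] at hx
        simp only [mem_insert] at hx
        exact mem_erase.2 ⟨by tauto, by tauto⟩
      by_cases h1 : v = a ∨ v = b ∨ v = d <;> by_cases h2 : w = a ∨ w = b ∨ w = d
      · exfalso
        rcases h1 with rfl | rfl | rfl <;> rcases h2 with rfl | rfl | rfl
        · exact hvw.ne rfl
        · exact i4 hvw
        · exact i5 hvw
        · exact i4 hvw.symm
        · exact hvw.ne rfl
        · exact i6 hvw
        · exact i5 hvw.symm
        · exact i6 hvw.symm
        · exact hvw.ne rfl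
      · simp only [h1, h2, if_true, if_false]
        by_cases h3 : w = c
        · simp only [h3, if_true]; exact hkz.symm
        · simp only [h3, if_false]
          intro e
          exact (mem_erase.1 (f1 w (hB' w hw h2 h3))).1 e.symm
      · simp only [h1, h2, if_true, if_false]
        by_cases h3 : v = c
        · simp only [h3, if_true]; exact hkz
        · simp only [h3, if_false]
          exact (mem_erase.1 (f1 v (hB' v hv h1 h3))).1
      · simp only [h1, h2, if_false]
        by_cases h3 : v = c <;> by_cases h4 : w = c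
        · exfalso; rw [h3, h4] at hvw; exact hvw.ne rfl
        · simp only [h3, h4, if_true, if_false]
          exact hcv w (hB' w hw h2 h4) (by rw [← h3]; exact hvw)
        · simp only [h3, h4, if_true, if_false]
          exact (hcv v (hB' v hv h1 h3) (by rw [← h4]; exact hvw.symm)).symm
        · simp only [h3, h4, if_false]
          intro e
          exact hvw.ne (f2 v (hB' v hv h1 h3) w (hB' w hw h2 h4) e)
  have hcc : (B.erase d).card = (A.erase z).card := by
    rw [card_erase_of_mem hd, card_erase_of_mem hz, hAB]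
  rcases hcase with ⟨z1, hz1, hz1A, hcz1⟩ | ⟨u, hu, hud, hcu, j, hj, hjz, hcj⟩
  · obtain ⟨e⟩ : Nonempty (↥(B.erase d) ≃ ↥(A.erase z)) := ⟨Finset.equivOfCardEq hcc⟩
    refine hmain (fun v => if hv : v ∈ B.erase d then (e ⟨v, hv⟩ : V) else z) z1 ?_ ?_ hz1
      (fun e' => hz1A (e' ▸ hz)) hcz1 ?_
    · intro v hv
      simp only [hv, dif_pos]
      exact (e ⟨v, hv⟩).2
    · intro v hv w hw hvw
      simp only [hv, hw, dif_pos] at hvw
      exact congrArg Subtype.val (e.injective (Subtype.ext hvw))
    · intro v hv _ e'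
      simp only [hv, dif_pos] at e'
      exact hz1A (by rw [e']; exact mem_of_mem_erase (e ⟨v, hv⟩).2)
  · have huX : u ∈ B.erase d := mem_erase.2 ⟨hud, hu⟩
    have hjY : j ∈ A.erase z := mem_erase.2 ⟨hjz, hj⟩
    obtain ⟨f, f1, f2, f3⟩ := Yb_bij (B.erase d) (A.erase z) u j huX hjY hcc
    refine hmain f j f1 f2 (hA hj) hjz hcj ?_
    intro v hv hcv e'
    have : v = u := f2 v hv u huX (by rw [f3, ← e'])
    rw [this] at hcv
    exact hcu hcv

end Pool.Agent.O3
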