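import Pool.Agent.Lib_helper92.O3.B.Ya
import Pool.Agent.Lib_helper92.O3.B.Yb

set_option autoImplicit false
set_option linter.unusedSectionVars false
set_option linter.unusedVariables false

open scoped Classical
open Finset
open Pool.Agent.O2 (PC Cb CrOn pr ms dg nd Joined)

namespace Pool.Agent.O3

variable {V : Type}

theorem cfg3c {q : ℕ} {G : SimpleGraph V} {Z W A B : Finset V} {a b d z : V} (h : Jay G q Z W)
    (hone : NoOne G Z W) (hi : Ind3 G a b d) (hd : d ∈ W) (hc : Com G Z W a b z)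
    (hC : Cfg G Z W a b z A B) (hB : B.card + 3 = W.card)
    (hf : ff G (uni W Z) q W ≤ 2 * (W.card : ℤ) - 5) : False := by
  obtain ⟨c, hcW, hca, hcb, hcB, hac, hbc, hW, hLB, hla, hlb, hlc⟩ := cfg3 h hc hC hB hf
  obtain ⟨hab', had, hbd, nab, nad, nbd⟩ := hi
  have hdB : d ∈ B := by
    rw [hW] at hd
    simp only [mem_insert] at hd
    rcases hd with e | e | e | e
    · exact absurd e.symm had
    · exact absurd e.symm hbd
    · rw [e] at nad
      exact absurd hac nad
    · exact e
  apply colr h hW hdB hC.ha hC.hb hcB hca hcb ⟨hab', had, hbd, nab, nad, nbd⟩ hC.hA hC.card.symm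
    hC.hz hc.az hc.bz hLB
  by_cases h1 : ∃ z1 ∈ Z, z1 ∉ A ∧ ¬ G.Adj c z1
  · exact Or.inl h1
  right
  push Not at h1
  have hsub : Ls G Z c ⊆ A := by
    intro x hx
    rw [Ls, mem_filter] at hx
    by_contra hxA
    exact hx.2 (h1 x hx.1 hxA)
  have hle := card_le_card hsub
  have hcd := hC.card
  have hu : ∃ u ∈ B, u ≠ d ∧ ¬ G.Adj c u := by
    by_contra hcon
    push Not at hcon
    have hs : insert a (insert b (B.erase d)) ⊆ W.filter (fun y => G.Adj c y) := by
      intro x hx
      simp only [mem_insert, mem_erase] at hx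
      rw [mem_filter]
      rcases hx with rfl | rfl | hx
      · exact ⟨hc.ha, hac.symm⟩
      · exact ⟨hc.hb, hbc.symm⟩
      · exact ⟨hC.hB hx.2, hcon x hx.2 hx.1⟩
    have hcard := card_le_card hs
    have hb1 : b ∉ B.erase d := fun hh => hC.hb (mem_of_mem_erase hh)
    have ha1 : a ∉ insert b (B.erase d) := by
      rw [mem_insert, not_or]
      exact ⟨hab', fun hh => hC.ha (mem_of_mem_erase hh)⟩
    rw [card_insert_of_notMem ha1, card_insert_of_notMem hb1, card_erase_of_mem hdB] at hcard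
    have hpos : 0 < B.card := card_pos.2 ⟨d, hdB⟩
    have hlc' : (Ls G Z c).card = (W.filter (fun y => G.Adj c y)).card := hlc
    omega
  obtain ⟨u, huB, hud, huc⟩ := hu
  have h2 := (jay_ls h hcW).1
  have h3 := hone c hcW
  have h4 : 1 < (Ls G Z c).card := by omega
  obtain ⟨j, hj, hjz⟩ := exists_mem_ne h4 z
  refine ⟨u, huB, hud, huc, j, hsub hj, hjz, ?_⟩
  rw [Ls, mem_filter] at hj
  exact hj.2

end Pool.Agent.O3
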