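import Pool.Agent.Lib_helper92.O3.B.Yf
import Pool.Agent.Lib_helper92.O3.B.Yc
import Pool.Agent.Lib_helper92.O3.B.Xe
import Pool.Agent.Lib_helper92.O3.B.Na

set_option autoImplicit false
set_option linter.unusedSectionVars false
set_option linter.unusedVariables false

open scoped Classical
open Finset
open Pool.Agent.O2 (PC Cb CrOn pr ms dg nd Joined)

namespace Pool.Agent.O3

variable {V : Type}

theorem Yh_pair {N q : ℕ} {G : SimpleGraph V} {Z W : Finset V} {a b d z : V} (ih : IH N)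
    (h : Jay G q Z W) (hN : (uni W Z).card < N) (h6 : P6 (uni W Z).card) (hw : W.card = q + 2)
    (hone : NoOne G Z W) (hd : d ∈ W) (hi : Ind3 G a b d) (hc : Com G Z W a b z)
    (hf : ff G (uni W Z) q W ≤ 2 * (W.card : ℤ) - 5) : eb G W = 3 := by
  rcases nn ih h hN h6 (Or.inr hw) hc with h1 | ⟨-, A, B, hC, hB, -, -⟩
  · exfalso; linarith
  · rcases hB with hB | hB | hB
    · exfalso
      obtain ⟨v, hv⟩ := card_eq_one.1 hB
      have hvB : v ∈ B := by rw [hv]; exact mem_singleton_self v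
      have hvW : v ∈ W := hC.hB hvB
      have hA1 : A.card = 1 := by rw [← hC.card, hB]
      have hsub : Ls G Z v ⊆ A := by
        intro u hu
        unfold Ls at hu
        obtain ⟨huZ, hna⟩ := mem_filter.1 hu
        by_contra huA
        exact hna (hC.adj v hvB u huZ huA)
      have h2 := card_le_card hsub
      have h3 := (jay_ls h hvW).1
      exact hone v hvW (by omega)
    · exact absurd (cfg3c h hone hi hd hc hC hB hf) id
    · exact z6a h hw hone hi hd hc hC hB hf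

theorem z6 {N q : ℕ} {G : SimpleGraph V} {Z W : Finset V} {a b c : V} (ih : IH N)
    (h : Jay G q Z W) (hN : (uni W Z).card < N) (h6 : P6 (uni W Z).card) (hw : W.card = q + 2)
    (hone : NoOne G Z W) (ha : a ∈ W) (hb : b ∈ W) (hc : c ∈ W) (hi : Ind3 G a b c)
    (hf : ff G (uni W Z) q W ≤ 2 * (W.card : ℤ) - 5) :
    eb G W = 3 ∧ ∀ z ∈ Z, dg G W z = 1 := by
  have hwz : (W.card : ℤ) = q + 2 := by exact_mod_cast hw
  obtain ⟨n1, n2, n3, i1, i2, i3⟩ := hi
  have key : eb G W = 3 := by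
    by_cases hall : ∀ z ∈ Z, (G.Adj a z ∧ G.Adj b z) ∨ (G.Adj a z ∧ G.Adj c z) ∨
        (G.Adj b z ∧ G.Adj c z)
    · exfalso
      have h1 := (nice3 h ha hb hc ⟨n1, n2, n3, i1, i2, i3⟩ hall).1
      linarith
    · push Not at hall
      obtain ⟨z, hz, h1, h2, h3⟩ := hall
      by_cases haz : G.Adj a z
      · exact Yh_pair ih h hN h6 hw hone ha (a := b) (b := c) (d := a) (z := z)
          ⟨n3, n1.symm, n2.symm, i3, fun e => i1 e.symm, fun e => i2 e.symm⟩
          ⟨hb, hc, hz, n3, i3, h1 haz, h2 haz⟩ hf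
      · by_cases hbz : G.Adj b z
        · exact Yh_pair ih h hN h6 hw hone hb (a := a) (b := c) (d := b) (z := z)
            ⟨n2, n1, n3.symm, i2, i1, fun e => i3 e.symm⟩
            ⟨ha, hc, hz, n2, i2, haz, h3 hbz⟩ hf
        · exact Yh_pair ih h hN h6 hw hone hc (a := a) (b := b) (d := c) (z := z)
            ⟨n1, n2, n3, i1, i2, i3⟩ ⟨ha, hb, hz, n1, i1, haz, hbz⟩ hf
  refine ⟨key, ?_⟩
  have h1 := jay_ff h
  rw [key] at h1
  have h2 : ∑ z ∈ Z, (dg G W z : ℤ) ≤ q := by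
    have e : (W.card : ℤ) * ((W.card : ℤ) - 1 - q) = W.card := by
      rw [hwz]; ring
    rw [e] at h1
    push_cast at h1
    linarith
  have h3 : ∑ z ∈ Z, dg G W z ≤ Z.card := by
    have : (∑ z ∈ Z, dg G W z : ℕ) ≤ q := by exact_mod_cast h2
    rw [h.card]; exact this
  intro z hz
  have h4 : ∀ y ∈ Z, 1 ≤ dg G W y := fun y hy => (jay_dz h hy).1
  by_contra hne
  have h5 : 1 < dg G W z := lt_of_le_of_ne (h4 z hz) (Ne.symm hne)
  have h6' : ∑ y ∈ Z, 1 < ∑ y ∈ Z, dg G W y := sum_lt_sum h4 ⟨z, hz, h5⟩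
  rw [sum_const, smul_eq_mul, mul_one] at h6'
  omega

end Pool.Agent.O3
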