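import Pool.Agent.Lib_helper92.O3.B.Te
import Pool.Agent.Lib_helper92.O3.B.Yd
import Pool.Agent.Lib_helper92.O3.B.Yh

set_option autoImplicit false
set_option linter.unusedSectionVars false
set_option linter.unusedVariables false

open scoped Classical
open Finset
open Pool.Agent.O2 (PC Cb CrOn pr ms dg nd Joined)

namespace Pool.Agent.O3

variable {V : Type}

theorem Tf_noOne {N K : ℕ} {G : SimpleGraph V} {S W : Finset V} {a b c : V} {ψ : V → Fin K}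
    (ih : IH N) (hN : S.card ≤ N) (h : Tight G S W K a b c) (hψ : PC G (S \ W) ψ)
    {Z1 : Finset (Fin K)} (h1 : ∀ i ∉ Z1, ∀ v ∈ W, i ∈ hit G (S \ W) ψ v) :
    NoOne (con G (S \ W) ψ) (Z1.map ⟨Sum.inr, Sum.inr_injective⟩)
      (W.map ⟨Sum.inl, Sum.inl_injective⟩) := by
  intro x hx
  obtain ⟨v, hv, rfl⟩ := Finset.mem_map.1 hx
  have e1 : Ls (con G (S \ W) ψ) (Z1.map ⟨Sum.inr, Sum.inr_injective⟩)
      ((⟨Sum.inl, Sum.inl_injective⟩ : V ↪ V ⊕ Fin K) v) =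
      (Finset.univ.filter fun i => i ∉ hit G (S \ W) ψ v).map
        ⟨Sum.inr, Sum.inr_injective⟩ := by
    ext y
    simp only [Ls, Finset.mem_filter, Finset.mem_map, Finset.mem_univ, true_and]
    constructor
    · rintro ⟨⟨i, hi, rfl⟩, hy⟩
      exact ⟨i, hy, rfl⟩
    · rintro ⟨i, hi, rfl⟩
      refine ⟨⟨i, ?_, rfl⟩, hi⟩
      by_contra hc
      exact hi (h1 i hc v hv)
  rw [e1, Finset.card_map]
  have e2 : (Finset.univ.filter fun i => i ∉ hit G (S \ W) ψ v) = (hit G (S \ W) ψ v)ᶜ := by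
    ext i
    simp
  rw [e2, Finset.card_compl, Fintype.card_fin, tight_hit ih hN h hψ hv]
  have h2 := tight_no ih hN h hv
  omega

theorem tight_56 {N K : ℕ} {G : SimpleGraph V} {S W : Finset V} {a b c : V} {ψ : V → Fin K}
    (ih : IH N) (hN : S.card ≤ N) (h : Tight G S W K a b c) (hψ : PC G (S \ W) ψ) :
    ∃ Z1 : Finset (Fin K), (∀ i ∉ Z1, ∀ v ∈ W, i ∈ hit G (S \ W) ψ v) ∧
      (∀ i ∈ Z1, ∃ v ∈ W, i ∉ hit G (S \ W) ψ v) ∧
      ((W.card = Z1.card + 1 ∧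
        (∀ i ∈ Z1, ((i ∈ hit G (S \ W) ψ a ∧ i ∈ hit G (S \ W) ψ b) ∨
            (i ∈ hit G (S \ W) ψ a ∧ i ∈ hit G (S \ W) ψ c) ∨
            (i ∈ hit G (S \ W) ψ b ∧ i ∈ hit G (S \ W) ψ c)) ∧
          ¬ (i ∈ hit G (S \ W) ψ a ∧ i ∈ hit G (S \ W) ψ b ∧ i ∈ hit G (S \ W) ψ c)) ∧
        ∑ i ∈ Z1, ((W.filter fun v => i ∈ hit G (S \ W) ψ v).card : ℤ) ≤
          2 * (W.card : ℤ) - 5 + eb G W) ∨
      (W.card = Z1.card + 2 ∧ eb G W = 3 ∧
        ∀ i ∈ Z1, (W.filter fun v => i ∈ hit G (S \ W) ψ v).card = 1)) := by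
  obtain ⟨-, Z1, h1, h2, J, hcase, hlt, hff⟩ := tight_psi ih hN h hψ
  refine ⟨Z1, h1, h2, ?_⟩
  have hone := Tf_noOne ih hN h hψ h1
  have h6 := p6_all ih _ hlt.le
  have cA : (W.map ⟨Sum.inl, Sum.inl_injective⟩ : Finset (V ⊕ Fin K)).card = W.card :=
    Finset.card_map _
  have mem : ∀ {x : V}, x ∈ W →
      (Sum.inl x : V ⊕ Fin K) ∈ W.map ⟨Sum.inl, Sum.inl_injective⟩ := fun hx =>
    Finset.mem_map_of_mem _ hx
  have hi : Ind3 (con G (S \ W) ψ) (Sum.inl a) (Sum.inl b) (Sum.inl c) := by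
    obtain ⟨n1, n2, n3, a1, a2, a3⟩ := h.ind
    exact ⟨fun e => n1 (Sum.inl_injective e), fun e => n2 (Sum.inl_injective e),
      fun e => n3 (Sum.inl_injective e), a1, a2, a3⟩
  have hf' : ff (con G (S \ W) ψ) (uni (W.map ⟨Sum.inl, Sum.inl_injective⟩)
      (Z1.map ⟨Sum.inr, Sum.inr_injective⟩)) Z1.card (W.map ⟨Sum.inl, Sum.inl_injective⟩) ≤
      2 * ((W.map ⟨Sum.inl, Sum.inl_injective⟩ : Finset (V ⊕ Fin K)).card : ℤ) - 5 := by
    rw [cA]
    exact hff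
  rcases hcase with hw | hw
  · left
    obtain ⟨k1, k2⟩ := z5 ih J hlt h6 (by rw [cA]; exact hw) hone (mem h.ha) (mem h.hb)
      (mem h.hc) hi hf'
    refine ⟨hw, fun i hi1 => ⟨?_, ?_⟩, ?_⟩
    · exact k1 (Sum.inr i) (Finset.mem_map_of_mem _ hi1)
    · exact k2 (Sum.inr i) (Finset.mem_map_of_mem _ hi1)
    · have e := jay_ff J
      rw [cA, Finset.sum_map, eb_con_inl] at e
      have e2 : ∑ i ∈ Z1, ((W.filter fun v => i ∈ hit G (S \ W) ψ v).card : ℤ) =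
          ∑ i ∈ Z1, (dg (con G (S \ W) ψ) (W.map ⟨Sum.inl, Sum.inl_injective⟩)
            ((⟨Sum.inr, Sum.inr_injective⟩ : Fin K ↪ V ⊕ Fin K) i) : ℤ) := by
        refine Finset.sum_congr rfl fun i _ => ?_
        have := dg_con_inr' G (S \ W) W ψ i
        exact_mod_cast this.symm
      rw [e2]
      have e3 : (W.card : ℤ) - 1 - Z1.card = 0 := by
        rw [hw]
        push_cast
        ring
      rw [e3, mul_zero, zero_add] at e
      linarith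
  · right
    obtain ⟨k1, k2⟩ := z6 ih J hlt h6 (by rw [cA]; exact hw) hone (mem h.ha) (mem h.hb)
      (mem h.hc) hi hf'
    rw [eb_con_inl] at k1
    refine ⟨hw, k1, fun i hi1 => ?_⟩
    rw [← dg_con_inr']
    exact k2 (Sum.inr i) (Finset.mem_map_of_mem _ hi1)

end Pool.Agent.O3
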