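import Pool.Agent.Lib_helper92.O3.B.Tf

set_option autoImplicit false
set_option linter.unusedSectionVars false
set_option linter.unusedVariables false

open scoped Classical
open Finset
open Pool.Agent.O2 (PC Cb CrOn pr ms dg nd Joined)

namespace Pool.Agent.O3

variable {V : Type}

/-- a colouring of the first kind -/
def Tg_One {K : ℕ} (G : SimpleGraph V) (S W : Finset V) (a b c : V) (ψ : V → Fin K)
    (Z : Finset (Fin K)) : Prop :=
  W.card = Z.card + 1 ∧
    (∀ i ∈ Z, ((i ∈ hit G (S \ W) ψ a ∧ i ∈ hit G (S \ W) ψ b) ∨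
        (i ∈ hit G (S \ W) ψ a ∧ i ∈ hit G (S \ W) ψ c) ∨
        (i ∈ hit G (S \ W) ψ b ∧ i ∈ hit G (S \ W) ψ c)) ∧
      ¬ (i ∈ hit G (S \ W) ψ a ∧ i ∈ hit G (S \ W) ψ b ∧ i ∈ hit G (S \ W) ψ c)) ∧
    ∑ i ∈ Z, ((W.filter fun v => i ∈ hit G (S \ W) ψ v).card : ℤ) ≤
      2 * (W.card : ℤ) - 5 + eb G W

/-- a colouring of the second kind -/
def Tg_Two {K : ℕ} (G : SimpleGraph V) (S W : Finset V) (ψ : V → Fin K)
    (Z : Finset (Fin K)) : Prop :=
  W.card = Z.card + 2 ∧ eb G W = 3 ∧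
    ∀ i ∈ Z, (W.filter fun v => i ∈ hit G (S \ W) ψ v).card = 1

theorem Tg_two_le {α : Type} {X : Finset α} {x y : α} (hx : x ∈ X) (hy : y ∈ X) (h : x ≠ y) :
    2 ≤ X.card := by
  have h1 : ({x, y} : Finset α).card = 2 := card_pair h
  rw [← h1]
  apply card_le_card
  intro z hz
  simp only [mem_insert, mem_singleton] at hz
  rcases hz with rfl | rfl
  · exact hx
  · exact hy

theorem Tg_three_le {α : Type} {X : Finset α} {x y z : α} (hx : x ∈ X) (hy : y ∈ X) (hz : z ∈ X)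
    (h1 : x ≠ y) (h2 : x ≠ z) (h3 : y ≠ z) : 3 ≤ X.card := by
  have h4 : ({x, y, z} : Finset α).card = 3 := card_eq_three.2 ⟨x, y, z, h1, h2, h3, rfl⟩
  rw [← h4]
  apply card_le_card
  intro u hu
  simp only [mem_insert, mem_singleton] at hu
  rcases hu with rfl | rfl | rfl
  · exact hx
  · exact hy
  · exact hz

theorem Tg_four {K : ℕ} {G : SimpleGraph V} {S W : Finset V} {a b c : V}
    (h : Tight G S W K a b c) : 4 ≤ W.card := by
  have h1 := eb_le_ff h.cr h.sub
  have h2 : 3 ≤ eb G W := eb_tri ⟨a, h.ha, b, h.hb, c, h.hc, h.ind⟩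
  have h3 := h.small
  omega

theorem Tg_A {N K : ℕ} {G : SimpleGraph V} {S W : Finset V} {a b c : V} {ψ ψ' : V → Fin K}
    {Z Z' : Finset (Fin K)}
    (ih : IH N) (hN : S.card ≤ N) (h : Tight G S W K a b c) (hψ : PC G (S \ W) ψ)
    (hψ' : PC G (S \ W) ψ') (h1 : Tg_One G S W a b c ψ Z) (h2 : Tg_Two G S W ψ' Z')
    (hZ' : ∀ i ∉ Z', ∀ v ∈ W, i ∈ hit G (S \ W) ψ' v) : False := by
  obtain ⟨hc, hi, hs⟩ := h1
  obtain ⟨hc', he, -⟩ := h2
  obtain ⟨hab, hac, hbc, -⟩ := h.ind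
  have h4 := Tg_four h
  obtain ⟨v, hv, hva, hvb, hvc⟩ : ∃ v ∈ W, v ≠ a ∧ v ≠ b ∧ v ≠ c := by
    by_contra hcon
    push Not at hcon
    have h5 : W ⊆ ({a, b, c} : Finset V) := by
      intro x hx
      simp only [mem_insert, mem_singleton]
      by_cases h6 : x = a
      · exact Or.inl h6
      · by_cases h7 : x = b
        · exact Or.inr (Or.inl h7)
        · exact Or.inr (Or.inr (hcon x hx h6 h7))
    have h6 := card_le_card h5
    have h7 : ({a, b, c} : Finset V).card = 3 := card_eq_three.2 ⟨a, b, c, hab, hac, hbc, rfl⟩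
    omega
  have key : ∀ i ∈ Z, i ∉ hit G (S \ W) ψ v := by
    intro i0 hi0 hhit
    have g1 : ∀ i ∈ Z, (2 : ℤ) ≤ ((W.filter fun v => i ∈ hit G (S \ W) ψ v).card : ℤ) := by
      intro i hiZ
      have : 2 ≤ (W.filter fun v => i ∈ hit G (S \ W) ψ v).card := by
        rcases (hi i hiZ).1 with ⟨q1, q2⟩ | ⟨q1, q2⟩ | ⟨q1, q2⟩
        · exact Tg_two_le (mem_filter.2 ⟨h.ha, q1⟩) (mem_filter.2 ⟨h.hb, q2⟩) hab
        · exact Tg_two_le (mem_filter.2 ⟨h.ha, q1⟩) (mem_filter.2 ⟨h.hc, q2⟩) hac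
        · exact Tg_two_le (mem_filter.2 ⟨h.hb, q1⟩) (mem_filter.2 ⟨h.hc, q2⟩) hbc
      exact_mod_cast this
    have g2 : (3 : ℤ) ≤ ((W.filter fun v => i0 ∈ hit G (S \ W) ψ v).card : ℤ) := by
      have : 3 ≤ (W.filter fun v => i0 ∈ hit G (S \ W) ψ v).card := by
        rcases (hi i0 hi0).1 with ⟨q1, q2⟩ | ⟨q1, q2⟩ | ⟨q1, q2⟩
        · exact Tg_three_le (mem_filter.2 ⟨h.ha, q1⟩) (mem_filter.2 ⟨h.hb, q2⟩)
            (mem_filter.2 ⟨hv, hhit⟩) hab hva.symm hvb.symm
        · exact Tg_three_le (mem_filter.2 ⟨h.ha, q1⟩) (mem_filter.2 ⟨h.hc, q2⟩)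
            (mem_filter.2 ⟨hv, hhit⟩) hac hva.symm hvc.symm
        · exact Tg_three_le (mem_filter.2 ⟨h.hb, q1⟩) (mem_filter.2 ⟨h.hc, q2⟩)
            (mem_filter.2 ⟨hv, hhit⟩) hbc hvb.symm hvc.symm
      exact_mod_cast this
    have g3 := add_sum_erase Z
      (fun i => ((W.filter fun v => i ∈ hit G (S \ W) ψ v).card : ℤ)) hi0
    have g4 : ∑ _i ∈ Z.erase i0, (2 : ℤ) ≤
        ∑ i ∈ Z.erase i0, ((W.filter fun v => i ∈ hit G (S \ W) ψ v).card : ℤ) :=
      sum_le_sum fun i hi' => g1 i (mem_of_mem_erase hi')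
    rw [sum_const, card_erase_of_mem hi0, nsmul_eq_mul] at g4
    have hpos : 0 < Z.card := card_pos.2 ⟨i0, hi0⟩
    have g5 : ((Z.card - 1 : ℕ) : ℤ) = (Z.card : ℤ) - 1 := by omega
    rw [g5] at g4

    rw [he] at hs
    have hcz : (W.card : ℤ) = Z.card + 1 := by exact_mod_cast hc
    push_cast at hs
    linarith
  have k1 := tight_hit ih hN h hψ hv
  have k2 := tight_hit ih hN h hψ' hv
  have k3 : (hit G (S \ W) ψ v).card ≤ K - Z.card := by
    have : hit G (S \ W) ψ v ⊆ Zᶜ := fun i hi' => mem_compl.2 fun hz => key i hz hi'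
    have := card_le_card this
    rwa [card_compl, Fintype.card_fin] at this
  have k4 : K - Z'.card ≤ (hit G (S \ W) ψ' v).card := by
    have : Z'ᶜ ⊆ hit G (S \ W) ψ' v := fun i hi' => hZ' i (mem_compl.1 hi') v hv
    have := card_le_card this
    rwa [card_compl, Fintype.card_fin] at this
  have k5 : Z.card ≤ K := by
    have := card_le_univ Z
    rwa [Fintype.card_fin] at this
  omega

theorem tight_false {N K : ℕ} {G : SimpleGraph V} {S W : Finset V} {a b c : V}
    (ih : IH N) (hN : S.card ≤ N) (h : Tight G S W K a b c) : False := by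
  have h4 := Tg_four h
  have hbig := h.big
  obtain ⟨hab, hac, hbc, -⟩ := h.ind
  -- a colouring with `K` colours exists, `K ≥ 1`
  have hK : 1 ≤ K := by
    by_contra hK0
    have hK1 : K = 0 := by omega
    obtain ⟨x, hx⟩ := card_pos.1 (show 0 < (S \ W).card by omega)
    have h1 := h.cr'.sub (T := ∅) (empty_subset _) (fun e => by rw [← e] at hx; simp at hx)
    have h2 := h.cr.2 a (h.sub h.ha)
    rw [hK1] at h2
    have h3 := Pool.Agent.O2.cb_zero.1 h2
    have hb : b ∈ S.erase a := mem_erase.2 ⟨hab.symm, h.sub h.hb⟩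
    rw [h3] at hb
    simp at hb
  -- two non-adjacent vertices outside `W`
  obtain ⟨y, hy, y', hy', hne, hadj⟩ : ∃ y ∈ S \ W, ∃ y' ∈ S \ W, y ≠ y' ∧ ¬ G.Adj y y' := by
    by_contra hcon
    push Not at hcon
    have h1 : Clq G (S \ W) := fun u hu u' hu' huu => hcon u hu u' hu' huu
    have h2 := clq_bound h.cr' (Subset.refl _) h1 (by omega)
    omega
  have hadj' : ¬ G.Adj y' y := fun e => hadj e.symm
  have hdis : ∀ v ∈ W, ¬ (G.Adj v y ∧ G.Adj v y') := fun v hv =>
    tight_dis ih hN h hv hy hy' hne hadj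
  obtain ⟨ψ1, hψ1, i1, hi1⟩ := psi_cls (I := {y}) hK h.cr' (by simpa using hy)
    (singleton_nonempty _) (by
      intro u hu u' hu'
      rw [mem_singleton] at hu hu'
      subst hu; subst hu'
      exact G.irrefl)
  obtain ⟨ψ2, hψ2, i2, hi2⟩ := psi_cls (I := {y'}) hK h.cr' (by simpa using hy')
    (singleton_nonempty _) (by
      intro u hu u' hu'
      rw [mem_singleton] at hu hu'
      subst hu; subst hu'
      exact G.irrefl)
  obtain ⟨ψ3, hψ3, i3, hi3⟩ := psi_cls (I := {y, y'}) hK h.cr' (by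
      intro u hu
      simp only [mem_insert, mem_singleton] at hu
      rcases hu with rfl | rfl
      · exact hy
      · exact hy')
    ⟨y, by simp⟩ (by
      intro u hu u' hu'
      simp only [mem_insert, mem_singleton] at hu hu'
      rcases hu with rfl | rfl <;> rcases hu' with rfl | rfl
      · exact G.irrefl
      · exact hadj
      · exact hadj'
      · exact G.irrefl)
  have e1 : ∀ v, i1 ∈ hit G (S \ W) ψ1 v ↔ G.Adj v y := by
    intro v
    unfold hit
    simp only [mem_filter, mem_univ, true_and]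
    constructor
    · rintro ⟨u, hu, hu1, hu2⟩
      rw [hi1 u hu, mem_singleton] at hu1
      rwa [hu1] at hu2
    · intro hvy
      exact ⟨y, hy, (hi1 y hy).2 (mem_singleton_self y), hvy⟩
  have e2 : ∀ v, i2 ∈ hit G (S \ W) ψ2 v ↔ G.Adj v y' := by
    intro v
    unfold hit
    simp only [mem_filter, mem_univ, true_and]
    constructor
    · rintro ⟨u, hu, hu1, hu2⟩
      rw [hi2 u hu, mem_singleton] at hu1
      rwa [hu1] at hu2
    · intro hvy
      exact ⟨y', hy', (hi2 y' hy').2 (mem_singleton_self y'), hvy⟩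
  have e3 : ∀ v, i3 ∈ hit G (S \ W) ψ3 v ↔ (G.Adj v y ∨ G.Adj v y') := by
    intro v
    unfold hit
    simp only [mem_filter, mem_univ, true_and]
    constructor
    · rintro ⟨u, hu, hu1, hu2⟩
      rw [hi3 u hu, mem_insert, mem_singleton] at hu1
      rcases hu1 with rfl | rfl
      · exact Or.inl hu2
      · exact Or.inr hu2
    · rintro (hvy | hvy)
      · exact ⟨y, hy, (hi3 y hy).2 (by simp), hvy⟩
      · exact ⟨y', hy', (hi3 y' hy').2 (by simp), hvy⟩
  obtain ⟨v1, hv1, hv1y⟩ := tight_nbr ih hN h hy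
  obtain ⟨v2, hv2, hv2y⟩ := tight_nbr ih hN h hy'
  obtain ⟨Z1, z1a, z1b, z1c⟩ := tight_56 ih hN h hψ1
  obtain ⟨Z2, z2a, z2b, z2c⟩ := tight_56 ih hN h hψ2
  obtain ⟨Z3, z3a, z3b, z3c⟩ := tight_56 ih hN h hψ3
  have m1 : i1 ∈ Z1 := by
    by_contra hcon
    exact hdis v2 hv2 ⟨(e1 v2).1 (z1a i1 hcon v2 hv2), hv2y⟩
  have m2 : i2 ∈ Z2 := by
    by_contra hcon
    exact hdis v1 hv1 ⟨hv1y, (e2 v1).1 (z2a i2 hcon v1 hv1)⟩
  rcases z1c with z1c | z1c
  · rcases z2c with z2c | z2c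
    · have q1 := (z1c.2.1 i1 m1).1
      have q2 := (z2c.2.1 i2 m2).1
      simp only [e1] at q1
      simp only [e2] at q2
      have qa := hdis a h.ha
      have qb := hdis b h.hb
      have qc := hdis c h.hc
      tauto
    · exact Tg_A ih hN h hψ1 hψ2 z1c z2c z2a
  · rcases z2c with z2c | z2c
    · exact Tg_A ih hN h hψ2 hψ1 z2c z1c z1a
    · rcases z3c with z3c | z3c
      · exact Tg_A ih hN h hψ3 hψ1 z3c z1c z1a
      · have c1 := z1c.2.2 i1 m1
        have c2 := z2c.2.2 i2 m2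
        simp only [e1] at c1
        simp only [e2] at c2
        have c3 : (W.filter fun v => i3 ∈ hit G (S \ W) ψ3 v).card = 2 := by
          simp only [e3]
          rw [filter_or, card_union_of_disjoint, c1, c2]
          rw [disjoint_left]
          intro x hx hx'
          exact hdis x (mem_filter.1 hx).1 ⟨(mem_filter.1 hx).2, (mem_filter.1 hx').2⟩
        by_cases m3 : i3 ∈ Z3
        · have := z3c.2.2 i3 m3
          omega
        · have : (W.filter fun v => i3 ∈ hit G (S \ W) ψ3 v) = W :=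
            filter_true_of_mem fun v hv => z3a i3 m3 v hv
          rw [this] at c3
          omega

end Pool.Agent.O3
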