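import Pool.Agent.Lib_helper92.O3.B.Jb

set_option autoImplicit false
set_option linter.unusedSectionVars false
set_option linter.unusedVariables false

open scoped Classical
open Finset
open Pool.Agent.O2 (PC Cb CrOn pr ms dg nd Joined)

namespace Pool.Agent.O3

variable {V : Type}

theorem Xa_num {w w' q2 : ℤ} {e0 e1 f f' : ℤ} (hw : w = w' + q2) (h3 : 3 ≤ w') (h2 : 2 ≤ q2)
    (he1 : e1 ≤ q2 ^ 2 + 1) (hf3 : 3 ≤ f') (hf5 : 2 * w' - 5 ≤ f')
    (h5 : e0 = e1 + w' * (w - 1) - f') (h6 : e0 = w * (w - 1) - f) : 2 * w - 4 ≤ f := by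
  have hf : f = q2 * (w - 1) - e1 + f' := by
    have : w * (w - 1) - f = e1 + w' * (w - 1) - f' := by rw [← h6, h5]
    have h7 : w * (w - 1) = w' * (w - 1) + q2 * (w - 1) := by rw [hw]; ring
    linarith
  have hf2 : q2 * (w' - 1) - 1 + f' ≤ f := by
    have : q2 * (w - 1) = q2 ^ 2 + q2 * (w' - 1) := by rw [hw]; ring
    linarith
  rcases eq_or_lt_of_le h3 with h | h
  · subst h
    linarith
  · have h8 : 0 ≤ (q2 - 2) * (w' - 4) := mul_nonneg (by linarith) (by linarith)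
    have h9 : 0 ≤ (q2 - 2) := by linarith
    nlinarith

theorem nnA {N q : ℕ} {G : SimpleGraph V} {Z W S' : Finset V} {a b z : V}
    (h : Jay G q Z W) (hN : (uni W Z).card < N) (h6 : P6 (uni W Z).card)
    (hw : W.card = q + 1 ∨ W.card = q + 2) (hc : Com G Z W a b z)
    (hS : S' ⊆ (uni W Z) \ {a, b, z}) (hcr : CrOn G S' (q - 1)) (hne : S'.card ≠ q) :
    2 * (W.card : ℤ) - 4 ≤ ff G (uni W Z) q W := by
  have hq := h.two
  have hd := h.dis
  have hn : (uni W Z).card = W.card + q := by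
    rw [uni, card_union_of_disjoint hd, h.card]
  have hSs : S' ⊆ uni W Z := hS.trans sdiff_subset
  have h1 := Pool.Agent.O2.CrOn.card_ge hcr
  obtain ⟨q2, hq2⟩ : ∃ q2, S'.card = (q - 1) + 1 + q2 := ⟨S'.card - q, by omega⟩
  obtain ⟨g1, g2, g3⟩ := Pool.Agent.O2.gallai S' (q - 1) q2 hcr hq2
  have h2 : 2 ≤ q2 := by omega
  have heb : 2 * eb G S' = ms G S' := two_eb G S'
  have heb' : eb G S' ≤ q2 ^ 2 + 1 := by
    rw [← heb] at g3
    linarith
  have hW's : uni W Z \ S' ⊆ uni W Z := sdiff_subset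
  have hback : uni W Z \ (uni W Z \ S') = S' := Finset.sdiff_sdiff_eq_self hSs
  have hw' : (uni W Z \ S').card + S'.card = (uni W Z).card := card_sdiff_add_card_eq_card hSs
  have haz : a ≠ z := fun e => disjoint_left.1 hd hc.ha (e ▸ hc.hz)
  have hbz : b ≠ z := fun e => disjoint_left.1 hd hc.hb (e ▸ hc.hz)
  have hnot : ∀ x, (x = a ∨ x = b ∨ x = z) → x ∉ S' := by
    intro x hx hxS
    have h8 := hS hxS
    rw [mem_sdiff] at h8
    apply h8.2
    simp only [mem_insert, mem_singleton]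
    exact hx
  have haW : a ∈ uni W Z \ S' := mem_sdiff.2 ⟨mem_uni.2 (Or.inl hc.ha), hnot a (Or.inl rfl)⟩
  have hbW : b ∈ uni W Z \ S' :=
    mem_sdiff.2 ⟨mem_uni.2 (Or.inl hc.hb), hnot b (Or.inr (Or.inl rfl))⟩
  have hzW : z ∈ uni W Z \ S' :=
    mem_sdiff.2 ⟨mem_uni.2 (Or.inr hc.hz), hnot z (Or.inr (Or.inr rfl))⟩
  have htri : Tri G (uni W Z \ S') :=
    ⟨a, haW, b, hbW, z, hzW, hc.ne, haz, hbz, hc.ab, hc.az, hc.bz⟩
  have hw3 : 2 < (uni W Z \ S').card := two_lt_card.2 ⟨a, haW, b, hbW, z, hzW, hc.ne, haz, hbz⟩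
  have hff := (h6 V G (uni W Z) (uni W Z \ S') q h.cr rfl (by omega) hW's
    (by rw [hback]; omega)).1 htri
  have h3 := eb_tri htri
  have h4 := eb_le_ff h.cr hW's
  have h5 := eb_split (G := G) q hW's
  rw [hback] at h5
  have h7 := jay_eb h
  have hnz : ((uni W Z).card : ℤ) = W.card + q := by exact_mod_cast hn
  rw [hnz] at h5
  have hww : (W.card : ℤ) = ((uni W Z \ S').card : ℤ) + (q2 : ℤ) := by
    have : W.card = (uni W Z \ S').card + q2 := by omega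
    exact_mod_cast this
  have e1 : (3 : ℤ) ≤ ((uni W Z \ S').card : ℤ) := by exact_mod_cast hw3
  have e2 : (2 : ℤ) ≤ (q2 : ℤ) := by exact_mod_cast h2
  have e3 : (eb G S' : ℤ) ≤ (q2 : ℤ) ^ 2 + 1 := by exact_mod_cast heb'
  have e4 : (3 : ℤ) ≤ (eb G (uni W Z \ S') : ℤ) := by exact_mod_cast h3
  have e5 : (eb G (uni W Z) : ℤ) = (eb G S' : ℤ) +
      ((uni W Z \ S').card : ℤ) * ((W.card : ℤ) - 1) - ff G (uni W Z) q (uni W Z \ S') := by
    rw [h5]
    ring
  exact Xa_num hww e1 e2 e3 (le_trans e4 h4) hff e5 h7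

end Pool.Agent.O3
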