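import Pool.Agent.Lib_helper92.O3.B.Ja

set_option autoImplicit false
set_option linter.unusedSectionVars false
set_option linter.unusedVariables false

open scoped Classical
open Finset
open Pool.Agent.O2 (PC Cb CrOn pr ms dg nd Joined)

namespace Pool.Agent.O3

variable {V : Type}

/-- one non-edge: a third vertex of the pair is adjacent to both -/
theorem Ya_adj {G : SimpleGraph V} {X : Finset V} {a b c : V} (h : eb G X = 1) (ha : a ∈ X)
    (hb : b ∈ X) (hc : c ∈ X) (hab : a ≠ b) (hac : c ≠ a) (hbc : c ≠ b) (hn : ¬ G.Adj a b) :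
    G.Adj a c := by
  by_contra hcon
  have h2 := two_eb G X
  rw [h] at h2
  have h3 : ({(a, b), (b, a), (a, c)} : Finset (V × V)).card ≤ ms G X := by
    unfold ms
    apply card_le_card
    intro p hp
    simp only [mem_insert, mem_singleton] at hp
    rw [mem_filter, mem_product]
    rcases hp with rfl | rfl | rfl
    · exact ⟨⟨ha, hb⟩, hab, hn⟩
    · exact ⟨⟨hb, ha⟩, hab.symm, fun e => hn e.symm⟩
    · exact ⟨⟨ha, hc⟩, hac.symm, hcon⟩
  have h4 : ({(a, b), (b, a), (a, c)} : Finset (V × V)).card = 3 := by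
    rw [card_eq_three]
    refine ⟨(a, b), (b, a), (a, c), ?_, ?_, ?_, rfl⟩
    · intro e; exact hab (congrArg Prod.fst e)
    · intro e; exact hbc (congrArg Prod.snd e).symm
    · intro e; exact hab (congrArg Prod.fst e).symm
  omega

theorem cfg3 {q : ℕ} {G : SimpleGraph V} {Z W A B : Finset V} {a b z : V} (h : Jay G q Z W)
    (hc : Com G Z W a b z) (hC : Cfg G Z W a b z A B) (hB : B.card + 3 = W.card)
    (hf : ff G (uni W Z) q W ≤ 2 * (W.card : ℤ) - 5) :
    ∃ c ∈ W, c ≠ a ∧ c ≠ b ∧ c ∉ B ∧ G.Adj a c ∧ G.Adj b c ∧ W = insert a (insert b (insert c B)) ∧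
      (∀ v ∈ B, Ls G Z v = A) ∧ (Ls G Z a).card = dg G W a ∧ (Ls G Z b).card = dg G W b ∧
      (Ls G Z c).card = dg G W c := by
  have hWS : W ⊆ uni W Z := fun v hv => mem_uni.2 (Or.inl hv)
  -- the third vertex
  obtain ⟨c, hcW, hcn⟩ : ∃ c ∈ W, c ∉ insert a (insert b B) := by
    apply exists_mem_notMem_of_card_lt_card
    have h1 := card_insert_le a (insert b B)
    have h2 := card_insert_le b B
    omega
  have hca : c ≠ a := fun e => hcn (mem_insert.2 (Or.inl e))
  have hcb : c ≠ b := fun e => hcn (mem_insert.2 (Or.inr (mem_insert.2 (Or.inl e))))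
  have hcB : c ∉ B := fun e => hcn (mem_insert.2 (Or.inr (mem_insert.2 (Or.inr e))))
  have haB : a ∉ insert b (insert c B) := by
    intro e
    rcases mem_insert.1 e with e | e
    · exact hc.ne e
    rcases mem_insert.1 e with e | e
    · exact hca e.symm
    · exact hC.ha e
  have hbB : b ∉ insert c B := by
    intro e
    rcases mem_insert.1 e with e | e
    · exact hcb e.symm
    · exact hC.hb e
  have hWeq : insert a (insert b (insert c B)) = W := by
    apply eq_of_subset_of_card_le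
    · intro v hv
      rcases mem_insert.1 hv with rfl | hv
      · exact hc.ha
      rcases mem_insert.1 hv with rfl | hv
      · exact hc.hb
      rcases mem_insert.1 hv with rfl | hv
      · exact hcW
      · exact hC.hB hv
    · rw [card_insert_of_notMem haB, card_insert_of_notMem hbB, card_insert_of_notMem hcB, ← hB]
  -- the lists of `B` are in `A`
  have hLs : ∀ v ∈ B, Ls G Z v ⊆ A := by
    intro v hv u hu
    unfold Ls at hu
    rw [mem_filter] at hu
    by_contra hcon
    exact hu.2 (hC.adj v hv u hu.1 hcon)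
  have hLc : ∀ v ∈ B, (Ls G Z v).card ≤ B.card := fun v hv => by
    rw [hC.card]; exact card_le_card (hLs v hv)
  have haX : a ∈ W \ B := mem_sdiff.2 ⟨hc.ha, hC.ha⟩
  have hbX : b ∈ W \ B := mem_sdiff.2 ⟨hc.hb, hC.hb⟩
  have hcX : c ∈ W \ B := mem_sdiff.2 ⟨hcW, hcB⟩
  have hXS : W \ B ⊆ uni W Z := sdiff_subset.trans hWS
  have h1 : 1 ≤ eb G (W \ B) := eb_non.2 ⟨a, haX, b, hbX, hc.ne, hc.ab⟩
  have h2 := eb_le_ff h.cr hXS
  have h3 := jay_clq h hC.hB hC.clq
  have h4 : ∀ v ∈ B, (2 : ℤ) ≤ (W.card : ℤ) - 1 - (Ls G Z v).card := by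
    intro v hv
    have := hLc v hv
    omega
  have h5 : ∑ v ∈ B, (2 : ℤ) ≤ ∑ v ∈ B, ((W.card : ℤ) - 1 - (Ls G Z v).card) :=
    sum_le_sum h4
  have h6 : ∑ v ∈ B, (2 : ℤ) = 2 * ((W.card : ℤ) - 3) := by
    rw [sum_const, nsmul_eq_mul, ← hB]; push_cast; ring
  have h7 : ∑ v ∈ B, (2 : ℤ) = ∑ v ∈ B, ((W.card : ℤ) - 1 - (Ls G Z v).card) := by
    have : (1 : ℤ) ≤ eb G (W \ B) := by exact_mod_cast h1
    linarith
  have h8 := (sum_eq_sum_iff_of_le h4).1 h7
  have heb : (eb G (W \ B) : ℤ) = 1 ∧ ff G (uni W Z) q (W \ B) = 1 := by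
    have : (1 : ℤ) ≤ eb G (W \ B) := by exact_mod_cast h1
    constructor <;> linarith
  have heb1 : eb G (W \ B) = 1 := by exact_mod_cast heb.1
  -- the degrees
  have h9 : ∀ v ∈ W \ B, (0 : ℤ) ≤ (dg G (uni W Z) v : ℤ) - q := by
    intro v hv
    have := h.cr.dg_ge (hXS hv)
    omega
  have h10 : ∑ v ∈ W \ B, ((dg G (uni W Z) v : ℤ) - q) = 0 := by
    have := heb.2
    unfold ff at this
    rw [heb.1] at this
    linarith
  have h11 := (sum_eq_zero_iff_of_nonneg h9).1 h10
  have h12 : ∀ v ∈ W \ B, (Ls G Z v).card = dg G W v := by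
    intro v hv
    have e1 := h11 v hv
    have e2 := (jay_ls h (sdiff_subset hv)).2.2
    have e3 : dg G (uni W Z) v = dg G W v + dg G Z v := by
      unfold uni; exact Pool.Agent.O2.dg_union h.dis v
    rw [e3] at e1
    push_cast at e1
    omega
  refine ⟨c, hcW, hca, hcb, hcB, Ya_adj heb1 haX hbX hcX hc.ne hca hcb hc.ab,
    Ya_adj heb1 hbX haX hcX hc.ne.symm hcb hca (fun e => hc.ab e.symm), hWeq.symm, ?_,
    h12 a haX, h12 b hbX, h12 c hcX⟩
  intro v hv
  apply eq_of_subset_of_card_le (hLs v hv)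
  have := h8 v hv
  have e4 := hC.card
  omega

end Pool.Agent.O3
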