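import Pool.Agent.Lib_helper92.O3.B.Qb
import Pool.Agent.Lib_helper92.O3.B.Ja

set_option autoImplicit false
set_option linter.unusedSectionVars false
set_option linter.unusedVariables false

open scoped Classical
open Finset
open Pool.Agent.O2 (PC Cb CrOn pr ms dg nd Joined)

namespace Pool.Agent.O3

variable {V : Type}

theorem Yf_num {q : ℕ} {X : Finset V} (hX : X.card = q) :
    ∃ e : Fin q → V, Function.Injective e ∧ (∀ i, e i ∈ X) ∧ ∀ x ∈ X, ∃ i, e i = x := by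
  have e := Finset.equivFinOfCardEq hX
  refine ⟨fun i => (e.symm i : V), ?_, fun i => (e.symm i).2, ?_⟩
  · intro i j hij
    exact e.symm.injective (Subtype.ext hij)
  · intro x hx
    exact ⟨e ⟨x, hx⟩, by simp⟩

/-- the filter of the numbers of a numbered set -/
theorem Yf_dg {q : ℕ} {G : SimpleGraph V} {X : Finset V} {e : Fin q → V}
    (he : Function.Injective e)
    (hX : ∀ i, e i ∈ X) (hs : ∀ x ∈ X, ∃ i, e i = x) (v : V) (hq : X.card = q) :
    dg G X v + (univ.filter fun i : Fin q => ¬ G.Adj v (e i)).card = q := by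
  have h1 : (univ.filter fun i : Fin q => ¬ G.Adj v (e i)).card =
      (X.filter fun y => ¬ G.Adj v y).card := by
    apply card_bij (fun i _ => e i)
    · intro i hi
      exact mem_filter.2 ⟨hX i, (mem_filter.1 hi).2⟩
    · intro i _ j _ hij
      exact he hij
    · intro x hx
      obtain ⟨i, rfl⟩ := hs x (mem_filter.1 hx).1
      exact ⟨i, mem_filter.2 ⟨mem_univ _, (mem_filter.1 hx).2⟩, rfl⟩
  rw [h1]
  unfold dg
  have := Finset.card_filter_add_card_filter_not (s := X) (fun y => G.Adj v y)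
  rw [hq] at this
  exact this

/-- the key colouring -/
theorem Yf_col {q : ℕ} {G : SimpleGraph V} {Z W B : Finset V} {a b : V}
    (h : Jay G q Z W) (hW : ∀ v ∈ W, v = a ∨ v = b ∨ v ∈ B) (hab : ¬ G.Adj a b)
    (haB : a ∉ B) (hbB : b ∉ B) (haZ : a ∉ Z) (hbZ : b ∉ Z) (hBZ : ∀ v ∈ B, v ∉ Z)
    (hab' : a ≠ b)
    (eB eZ : Fin q → V) (iB : Function.Injective eB) (mB : ∀ i, eB i ∈ B)
    (sB : ∀ x ∈ B, ∃ i, eB i = x) (iZ : Function.Injective eZ) (mZ : ∀ i, eZ i ∈ Z)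
    (sZ : ∀ x ∈ Z, ∃ i, eZ i = x) (π : Equiv.Perm (Fin q)) (hπ : ∀ s, ¬ G.Adj (eB s) (eZ (π s)))
    (sa sb : Fin q) (h1 : ¬ G.Adj a (eB sa)) (h2 : ¬ G.Adj a (eZ (π sa)))
    (h3 : ¬ G.Adj b (eB sb)) (h4 : ¬ G.Adj b (eZ (π sb))) : False := by
  have hq : 0 < q := lt_of_lt_of_le (by norm_num) h.two
  have : Nonempty (Fin q) := ⟨⟨0, hq⟩⟩
  let gB : V → Fin q := Function.invFun eB
  let gZ : V → Fin q := Function.invFun eZ
  have hgB : ∀ i, gB (eB i) = i := Function.leftInverse_invFun iB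
  have hgZ : ∀ i, gZ (eZ i) = i := Function.leftInverse_invFun iZ
  let φ : V → Fin q := fun v => if v = a then π sa else if v = b then π sb else
    if v ∈ B then π (gB v) else gZ v
  have fa : φ a = π sa := by simp [φ]
  have fb : φ b = π sb := by simp [φ, Ne.symm hab']
  have fB : ∀ i, φ (eB i) = π i := by
    intro i
    have e1 : eB i ≠ a := fun e => haB (e ▸ mB i)
    have e2 : eB i ≠ b := fun e => hbB (e ▸ mB i)
    simp [φ, e1, e2, mB i, hgB]
  have fZ : ∀ i, φ (eZ i) = i := by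
    intro i
    have e1 : eZ i ≠ a := fun e => haZ (e ▸ mZ i)
    have e2 : eZ i ≠ b := fun e => hbZ (e ▸ mZ i)
    have e3 : eZ i ∉ B := fun e => hBZ _ e (mZ i)
    simp [φ, e1, e2, e3, hgZ]
  apply h.cr.1
  apply Pool.Agent.O2.cb_of_pc (φ := φ)
  -- a one-sided statement
  have key : ∀ u v : V, G.Adj u v →
      ((u = a ∧ (v = b ∨ (∃ i, eB i = v) ∨ ∃ i, eZ i = v)) ∨
      (u = b ∧ ((∃ i, eB i = v) ∨ ∃ i, eZ i = v)) ∨
      ((∃ i, eB i = u) ∧ ((∃ i, eB i = v) ∨ ∃ i, eZ i = v)) ∨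
      ((∃ i, eZ i = u) ∧ ∃ i, eZ i = v)) → φ u ≠ φ v := by
    rintro u v huv (⟨rfl, hv⟩ | ⟨rfl, hv⟩ | ⟨⟨i, rfl⟩, hv⟩ | ⟨⟨i, rfl⟩, ⟨j, rfl⟩⟩)
    · rcases hv with rfl | ⟨i, rfl⟩ | ⟨i, rfl⟩
      · exact absurd huv hab
      · rw [fa, fB]
        intro e
        rw [π.injective e] at h1
        exact h1 huv
      · rw [fa, fZ]
        intro e
        rw [e] at h2
        exact h2 huv
    · rcases hv with ⟨i, rfl⟩ | ⟨i, rfl⟩
      · rw [fb, fB]
        intro e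
        rw [π.injective e] at h3
        exact h3 huv
      · rw [fb, fZ]
        intro e
        rw [e] at h4
        exact h4 huv
    · rcases hv with ⟨j, rfl⟩ | ⟨j, rfl⟩
      · rw [fB, fB]
        intro e
        rw [π.injective e] at huv
        exact G.irrefl huv
      · rw [fB, fZ]
        intro e
        rw [← e] at huv
        exact hπ i huv
    · rw [fZ, fZ]
      intro e
      rw [e] at huv
      exact G.irrefl huv
  have cov : ∀ u ∈ uni W Z, u = a ∨ u = b ∨ (∃ i, eB i = u) ∨ ∃ i, eZ i = u := by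
    intro u hu
    rcases mem_uni.1 hu with hu | hu
    · rcases hW u hu with rfl | rfl | hu
      · exact Or.inl rfl
      · exact Or.inr (Or.inl rfl)
      · exact Or.inr (Or.inr (Or.inl (sB u hu)))
    · exact Or.inr (Or.inr (Or.inr (sZ u hu)))
  intro u hu v hv huv
  rcases cov u hu with hu' | hu' | hu' | hu' <;> rcases cov v hv with hv' | hv' | hv' | hv'
  · rw [hu', hv'] at huv; exact absurd huv (G.irrefl)
  · exact key u v huv (Or.inl ⟨hu', Or.inl hv'⟩)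
  · exact key u v huv (Or.inl ⟨hu', Or.inr (Or.inl hv')⟩)
  · exact key u v huv (Or.inl ⟨hu', Or.inr (Or.inr hv')⟩)
  · exact (key v u huv.symm (Or.inl ⟨hv', Or.inl hu'⟩)).symm
  · rw [hu', hv'] at huv; exact absurd huv (G.irrefl)
  · exact key u v huv (Or.inr (Or.inl ⟨hu', Or.inl hv'⟩))
  · exact key u v huv (Or.inr (Or.inl ⟨hu', Or.inr hv'⟩))
  · exact (key v u huv.symm (Or.inl ⟨hv', Or.inr (Or.inl hu')⟩)).symm
  · exact (key v u huv.symm (Or.inr (Or.inl ⟨hv', Or.inl hu'⟩))).symm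
  · exact key u v huv (Or.inr (Or.inr (Or.inl ⟨hu', Or.inl hv'⟩)))
  · exact key u v huv (Or.inr (Or.inr (Or.inl ⟨hu', Or.inr hv'⟩)))
  · exact (key v u huv.symm (Or.inl ⟨hv', Or.inr (Or.inr hu')⟩)).symm
  · exact (key v u huv.symm (Or.inr (Or.inl ⟨hv', Or.inr hu'⟩))).symm
  · exact (key v u huv.symm (Or.inr (Or.inr (Or.inl ⟨hv', Or.inr hu'⟩)))).symm
  · exact key u v huv (Or.inr (Or.inr (Or.inr ⟨hu', hv'⟩)))

/-- the colouring without `b` -/
theorem Yf_ex {q : ℕ} {G : SimpleGraph V} {Z W B : Finset V} {a b : V}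
    (h : Jay G q Z W) (haW : a ∈ W) (hbW : b ∈ W) (hab' : a ≠ b)
    (hBW : B ⊆ W) (hc : Clq G B) (hbB : b ∉ B) (hbZ : b ∉ Z)
    (eB eZ : Fin q → V) (iB : Function.Injective eB) (mB : ∀ i, eB i ∈ B)
    (iZ : Function.Injective eZ) (mZ : ∀ i, eZ i ∈ Z) :
    ∃ s i, ¬ G.Adj a (eB s) ∧ ¬ G.Adj a (eZ i) ∧ ¬ G.Adj (eB s) (eZ i) := by
  have hq : 0 < q := lt_of_lt_of_le (by norm_num) h.two
  obtain ⟨φ, hφ⟩ := h.cr.pc hq (mem_uni.2 (Or.inl hbW))
  have memB : ∀ s, eB s ∈ (uni W Z).erase b := fun s =>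
    mem_erase.2 ⟨fun e => hbB (e ▸ mB s), mem_uni.2 (Or.inl (hBW (mB s)))⟩
  have memZ : ∀ s, eZ s ∈ (uni W Z).erase b := fun s =>
    mem_erase.2 ⟨fun e => hbZ (e ▸ mZ s), mem_uni.2 (Or.inr (mZ s))⟩
  have mema : a ∈ (uni W Z).erase b := mem_erase.2 ⟨hab', mem_uni.2 (Or.inl haW)⟩
  have jB : Function.Injective fun s => φ (eB s) := by
    intro s t hst
    by_contra hne
    exact hφ _ (memB s) _ (memB t) (hc _ (mB s) _ (mB t) fun e => hne (iB e)) hst
  have jZ : Function.Injective fun s => φ (eZ s) := by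
    intro s t hst
    by_contra hne
    exact hφ _ (memZ s) _ (memZ t) (h.clq _ (mZ s) _ (mZ t) fun e => hne (iZ e)) hst
  obtain ⟨s, hs⟩ := (Finite.injective_iff_surjective.1 jB) (φ a)
  obtain ⟨i, hi⟩ := (Finite.injective_iff_surjective.1 jZ) (φ a)
  simp only at hs hi
  refine ⟨s, i, fun hadj => ?_, fun hadj => ?_, fun hadj => ?_⟩
  · exact hφ _ mema _ (memB s) hadj hs.symm
  · exact hφ _ mema _ (memZ i) hadj hi.symm
  · exact hφ _ (memB s) _ (memZ i) hadj (hs.trans hi.symm)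

/-- number of edges between the numbered sets -/
theorem Yf_F {q : ℕ} {G : SimpleGraph V} {B Z : Finset V} (eB eZ : Fin q → V)
    (iB : Function.Injective eB) (mB : ∀ i, eB i ∈ B)
    (sB : ∀ x ∈ B, ∃ i, eB i = x) (iZ : Function.Injective eZ) (mZ : ∀ i, eZ i ∈ Z)
    (sZ : ∀ x ∈ Z, ∃ i, eZ i = x) :
    (univ.filter fun p : Fin q × Fin q => G.Adj (eB p.1) (eZ p.2)).card =
      ∑ v ∈ B, dg G Z v := by
  rw [← Pool.Agent.O2.pr_sum]
  unfold Pool.Agent.O2.pr
  apply card_bij (fun p _ => (eB p.1, eZ p.2))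
  · intro p hp
    exact mem_filter.2 ⟨mem_product.2 ⟨mB _, mZ _⟩, (mem_filter.1 hp).2⟩
  · intro p _ p' _ h
    rw [Prod.mk.injEq] at h
    exact Prod.ext (iB h.1) (iZ h.2)
  · rintro ⟨x, y⟩ hx
    obtain ⟨h1, h2⟩ := mem_filter.1 hx
    obtain ⟨h3, h4⟩ := mem_product.1 h1
    obtain ⟨i, rfl⟩ := sB x h3
    obtain ⟨j, rfl⟩ := sZ y h4
    exact ⟨(i, j), mem_filter.2 ⟨mem_univ _, h2⟩, rfl⟩

theorem Yf_ms {G : SimpleGraph V} {W B : Finset V} {a b d : V} (hW : W = insert a (insert b B))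
    (hc : Clq G B) (haB : a ∉ B) (hbB : b ∉ B) (hd : d ∈ B) (hi : Ind3 G a b d)
    (ha : ∀ v ∈ B, ¬ G.Adj a v → v = d) (hb : ∀ v ∈ B, ¬ G.Adj b v → v = d) : eb G W = 3 := by
  obtain ⟨h1, h2, h3, h4, h5, h6⟩ := hi
  have e : ((W ×ˢ W).filter fun p : V × V => p.1 ≠ p.2 ∧ ¬ G.Adj p.1 p.2) =
      {(a, b), (b, a), (a, d), (d, a), (b, d), (d, b)} := by
    ext ⟨x, y⟩
    simp only [mem_filter, mem_product, mem_insert, mem_singleton, Prod.mk.injEq, hW]
    constructor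
    · rintro ⟨⟨hx, hy⟩, hne, hn⟩
      rcases hx with rfl | rfl | hx <;> rcases hy with rfl | rfl | hy
      · exact absurd rfl hne
      · exact Or.inl ⟨rfl, rfl⟩
      · exact Or.inr (Or.inr (Or.inl ⟨rfl, ha y hy hn⟩))
      · exact Or.inr (Or.inl ⟨rfl, rfl⟩)
      · exact absurd rfl hne
      · exact Or.inr (Or.inr (Or.inr (Or.inr (Or.inl ⟨rfl, hb y hy hn⟩))))
      · exact Or.inr (Or.inr (Or.inr (Or.inl ⟨ha x hx fun e => hn e.symm, rfl⟩)))
      · exact Or.inr (Or.inr (Or.inr (Or.inr (Or.inr ⟨hb x hx fun e => hn e.symm, rfl⟩))))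
      · exact absurd (hc x hx y hy hne) hn
    · rintro (⟨rfl, rfl⟩ | ⟨rfl, rfl⟩ | ⟨rfl, rfl⟩ | ⟨rfl, rfl⟩ | ⟨rfl, rfl⟩ | ⟨rfl, rfl⟩)
      · exact ⟨⟨Or.inl rfl, Or.inr (Or.inl rfl)⟩, h1, h4⟩
      · exact ⟨⟨Or.inr (Or.inl rfl), Or.inl rfl⟩, h1.symm, fun e => h4 e.symm⟩
      · exact ⟨⟨Or.inl rfl, Or.inr (Or.inr hd)⟩, h2, h5⟩
      · exact ⟨⟨Or.inr (Or.inr hd), Or.inl rfl⟩, h2.symm, fun e => h5 e.symm⟩
      · exact ⟨⟨Or.inr (Or.inl rfl), Or.inr (Or.inr hd)⟩, h3, h6⟩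
      · exact ⟨⟨Or.inr (Or.inr hd), Or.inr (Or.inl rfl)⟩, h3.symm, fun e => h6 e.symm⟩
  unfold eb Pool.Agent.O2.ms
  rw [e]
  have h1' := h1.symm
  have h2' := h2.symm
  have h3' := h3.symm
  rw [card_insert_of_notMem, card_insert_of_notMem, card_insert_of_notMem, card_insert_of_notMem,
    card_insert_of_notMem, card_singleton]
  all_goals simp [h1, h2, h3, h1', h2', h3']

/-- the excess of one of the two vertices -/
theorem Yf_exc {q : ℕ} {G : SimpleGraph V} {Z W B : Finset V} {a b : V}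
    (h : Jay G q Z W) (hW : W = insert a (insert b B)) (haB : a ∉ B) (hbB : b ∉ B)
    (hab : ¬ G.Adj a b) (hab' : a ≠ b) (hBq : B.card = q) (haW : a ∈ W) :
    dg G (uni W Z) a = dg G B a + dg G Z a ∧ dg G (uni W Z) b = dg G B b + dg G Z b := by
  constructor
  · unfold uni
    rw [Pool.Agent.O2.dg_union h.dis]
    congr 1
    unfold dg
    congr 1
    ext y
    simp only [mem_filter, hW, mem_insert]
    constructor
    · rintro ⟨rfl | rfl | hy, h2⟩
      · exact absurd h2 G.irrefl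
      · exact absurd h2 hab
      · exact ⟨hy, h2⟩
    · rintro ⟨hy, h2⟩
      exact ⟨Or.inr (Or.inr hy), h2⟩
  · unfold uni
    rw [Pool.Agent.O2.dg_union h.dis]
    congr 1
    unfold dg
    congr 1
    ext y
    simp only [mem_filter, hW, mem_insert]
    constructor
    · rintro ⟨rfl | rfl | hy, h2⟩
      · exact absurd h2.symm hab
      · exact absurd h2 G.irrefl
      · exact ⟨hy, h2⟩
    · rintro ⟨hy, h2⟩
      exact ⟨Or.inr (Or.inr hy), h2⟩

theorem z6a {q : ℕ} {G : SimpleGraph V} {Z W A B : Finset V} {a b d z : V} (h : Jay G q Z W)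
    (hw : W.card = q + 2) (hone : NoOne G Z W) (hi : Ind3 G a b d) (hd : d ∈ W)
    (hc : Com G Z W a b z) (hC : Cfg G Z W a b z A B) (hB : B.card + 2 = W.card)
    (hf : ff G (uni W Z) q W ≤ 2 * (W.card : ℤ) - 5) : eb G W = 3 := by
  have hBq : B.card = q := by omega
  have hcab : ({a, b} : Finset V).card = 2 := card_pair hc.ne
  have hWe : W = insert a (insert b B) := by
    symm
    apply eq_of_subset_of_card_le
    · intro v hv
      rcases mem_insert.1 hv with rfl | hv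
      · exact hc.ha
      · rcases mem_insert.1 hv with rfl | hv
        · exact hc.hb
        · exact hC.hB hv
    · rw [card_insert_of_notMem, card_insert_of_notMem hC.hb]
      · omega
      · intro h1
        rcases mem_insert.1 h1 with h1 | h1
        · exact hc.ne h1
        · exact hC.ha h1
  have hdB : d ∈ B := by
    rw [hWe] at hd
    rcases mem_insert.1 hd with h1 | h1
    · exact absurd h1.symm hi.2.1
    · rcases mem_insert.1 h1 with h1 | h1
      · exact absurd h1.symm hi.2.2.1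
      · exact h1
  have haZ : a ∉ Z := disjoint_left.1 h.dis hc.ha
  have hbZ : b ∉ Z := disjoint_left.1 h.dis hc.hb
  have hBZ : ∀ v ∈ B, v ∉ Z := fun v hv => disjoint_left.1 h.dis (hC.hB hv)
  obtain ⟨eB, iB, mB, sB⟩ := Yf_num hBq
  obtain ⟨eZ, iZ, mZ, sZ⟩ := Yf_num h.card
  obtain ⟨b0, rfl⟩ := sB d hdB
  obtain ⟨z0, rfl⟩ := sZ z hc.hz
  -- the numbers
  have hSa := Yf_dg (G := G) iB mB sB a hBq
  have hSb := Yf_dg (G := G) iB mB sB b hBq
  have hLa := Yf_dg (G := G) iZ mZ sZ a h.card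
  have hLb := Yf_dg (G := G) iZ mZ sZ b h.card
  have hFc := Yf_F (G := G) eB eZ iB mB sB iZ mZ sZ
  have hla := jay_ls h hc.ha
  have hlb := jay_ls h hc.hb
  have hoa := hone a hc.ha
  have hob := hone b hc.hb
  obtain ⟨exa, exb⟩ := Yf_exc h hWe hC.ha hC.hb hc.ab hc.ne hBq hc.ha
  have dga := h.cr.dg_ge (mem_uni.2 (Or.inl hc.ha) : a ∈ uni W Z)
  have dgb := h.cr.dg_ge (mem_uni.2 (Or.inl hc.hb) : b ∈ uni W Z)
  -- the value of `ff`
  have hWB : W \ B = {a, b} := by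
    rw [hWe]
    ext v
    simp only [mem_sdiff, mem_insert, mem_singleton]
    constructor
    · rintro ⟨h1 | h1 | h1, h2⟩
      · exact Or.inl h1
      · exact Or.inr h1
      · exact absurd h1 h2
    · rintro (rfl | rfl)
      · exact ⟨Or.inl rfl, hC.ha⟩
      · exact ⟨Or.inr (Or.inl rfl), hC.hb⟩
  have hff := jay_clq h hC.hB hC.clq
  have hsum : ∑ v ∈ B, ((W.card : ℤ) - 1 - (Ls G Z v).card) = q + ∑ v ∈ B, (dg G Z v : ℤ) := by
    have : ∀ v ∈ B, ((W.card : ℤ) - 1 - (Ls G Z v).card) = 1 + (dg G Z v : ℤ) := by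
      intro v hv
      have := (jay_ls h (hC.hB hv)).2.2
      rw [hw]
      push_cast
      have h' : (dg G Z v : ℤ) + (Ls G Z v).card = q := by exact_mod_cast this
      linarith
    rw [sum_congr rfl this, sum_add_distrib, sum_const, hBq]
    simp
  have hfab : ff G (uni W Z) q (W \ B) = 1 + (((dg G (uni W Z) a : ℤ) - q) +
      ((dg G (uni W Z) b : ℤ) - q)) := by
    rw [hWB]
    unfold ff
    rw [sum_pair hc.ne]
    congr 1
    have e : eb G {a, b} = 1 := by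
      unfold eb Pool.Agent.O2.ms
      have : ((({a, b} : Finset V) ×ˢ ({a, b} : Finset V)).filter fun p : V × V =>
          p.1 ≠ p.2 ∧ ¬ G.Adj p.1 p.2) = {(a, b), (b, a)} := by
        ext ⟨x, y⟩
        simp only [mem_filter, mem_product, mem_insert, mem_singleton, Prod.mk.injEq]
        constructor
        · rintro ⟨⟨rfl | rfl, rfl | rfl⟩, hne, hn⟩
          · exact absurd rfl hne
          · exact Or.inl ⟨rfl, rfl⟩
          · exact Or.inr ⟨rfl, rfl⟩
          · exact absurd rfl hne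
        · rintro (⟨rfl, rfl⟩ | ⟨rfl, rfl⟩)
          · exact ⟨⟨Or.inl rfl, Or.inr rfl⟩, hc.ne, hc.ab⟩
          · exact ⟨⟨Or.inr rfl, Or.inl rfl⟩, hc.ne.symm, fun e => hc.ab e.symm⟩
      rw [this, card_pair]
      intro e
      rw [Prod.mk.injEq] at e
      exact hc.ne e.1
    rw [e]
    norm_num
  rw [hfab, hsum] at hff
  have hFz : ((univ.filter fun p : Fin q × Fin q => G.Adj (eB p.1) (eZ p.2)).card : ℤ) =
      ∑ v ∈ B, (dg G Z v : ℤ) := by
    rw [hFc]
    push_cast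
    rfl
  rw [← hFz] at hff
  rw [hff, hw] at hf
  push_cast at hf
  have hmain : (univ.filter fun p : Fin q × Fin q => G.Adj (eB p.1) (eZ p.2)).card +
      dg G (uni W Z) a + dg G (uni W Z) b + 2 ≤ 3 * q := by
    have : ((univ.filter fun p : Fin q × Fin q => G.Adj (eB p.1) (eZ p.2)).card : ℤ) +
      dg G (uni W Z) a + dg G (uni W Z) b + 2 ≤ 3 * q := by linarith
    exact_mod_cast this
  have key := fan (univ.filter fun p : Fin q × Fin q => G.Adj (eB p.1) (eZ p.2))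
    (univ.filter fun i : Fin q => ¬ G.Adj a (eB i))
    (univ.filter fun i : Fin q => ¬ G.Adj b (eB i))
    (univ.filter fun i : Fin q => ¬ G.Adj a (eZ i))
    (univ.filter fun i : Fin q => ¬ G.Adj b (eZ i)) b0 z0
    (mem_filter.2 ⟨mem_univ _, hi.2.2.2.2.1⟩) (mem_filter.2 ⟨mem_univ _, hi.2.2.2.2.2⟩)
    (mem_filter.2 ⟨mem_univ _, hc.az⟩) (mem_filter.2 ⟨mem_univ _, hc.bz⟩)
    (by omega) (by omega) (by omega) (by omega) (by omega)
    (by
      obtain ⟨s, i, h1, h2, h3⟩ := Yf_ex h hc.ha hc.hb hc.ne hC.hB hC.clq hC.hb hbZ eB eZ iB mB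
        iZ mZ
      exact ⟨s, mem_filter.2 ⟨mem_univ _, h1⟩, i, mem_filter.2 ⟨mem_univ _, h2⟩,
        fun e => h3 (mem_filter.1 e).2⟩)
    (by
      obtain ⟨s, i, h1, h2, h3⟩ := Yf_ex h hc.hb hc.ha hc.ne.symm hC.hB hC.clq hC.ha haZ eB eZ
        iB mB iZ mZ
      exact ⟨s, mem_filter.2 ⟨mem_univ _, h1⟩, i, mem_filter.2 ⟨mem_univ _, h2⟩,
        fun e => h3 (mem_filter.1 e).2⟩)
    (by
      rintro ⟨π, h1, ⟨sa, h2, h3⟩, ⟨sb, h4, h5⟩⟩
      refine Yf_col h (fun v hv => ?_) hc.ab hC.ha hC.hb haZ hbZ hBZ hc.ne eB eZ iB mB sB iZ mZ sZ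
        π (fun s e => h1 s (mem_filter.2 ⟨mem_univ _, e⟩)) sa sb (mem_filter.1 h2).2
        (mem_filter.1 h3).2 (mem_filter.1 h4).2 (mem_filter.1 h5).2
      rw [hWe] at hv
      simpa only [mem_insert] using hv)
  refine Yf_ms hWe hC.clq hC.ha hC.hb (mB b0) hi (fun v hv hn => ?_) (fun v hv hn => ?_)
  · obtain ⟨i, rfl⟩ := sB v hv
    have : i ∈ (univ.filter fun i : Fin q => ¬ G.Adj a (eB i)) := mem_filter.2 ⟨mem_univ _, hn⟩
    rw [key.1, mem_singleton] at this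
    rw [this]
  · obtain ⟨i, rfl⟩ := sB v hv
    have : i ∈ (univ.filter fun i : Fin q => ¬ G.Adj b (eB i)) := mem_filter.2 ⟨mem_univ _, hn⟩
    rw [key.2, mem_singleton] at this
    rw [this]

end Pool.Agent.O3
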